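import Pool.Agent.H.MP_31a675_nt.Y.Defs

/-!
# The homogenised components and the Taylor expansion
-/

namespace Pool.Agent.H.MP_31a675_nt.Y

open MvPolynomial

variable {K : Type} [Field K] {N : ℕ}

/-- `hat` at `τ = 0` is the top form, up to a multiple of `τ`. -/
theorem hat_eq {E : Type*} [CommRing E] [Algebra K E] (m : ℕ) (P : MvPolynomial (Fin N) K)
    (τ : E) (U : Fin N → E) :
    hat m P τ U = aeval U (homogeneousComponent m P) +
      τ * ∑ n ∈ Finset.range m, τ ^ (m - 1 - n) * aeval U (homogeneousComponent n P) := by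
  unfold hat
  rw [Finset.sum_range_succ, Nat.sub_self, pow_zero, one_mul, add_comm, Finset.mul_sum]
  congr 1
  refine Finset.sum_congr rfl fun n hn => ?_
  have hn' : n < m := Finset.mem_range.1 hn
  have h : m - n = (m - 1 - n) + 1 := by omega
  rw [h, pow_succ]
  ring

/-- Scaling of a homogeneous polynomial. -/
theorem hom_smul {E : Type*} [CommRing E] [Algebra K E] (n : ℕ) (P : MvPolynomial (Fin N) K)
    (hP : P.IsHomogeneous n) (c : E) (U : Fin N → E) :
    aeval (fun i => c * U i) P = c ^ n * aeval U P := by
  classical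
  rw [aeval_def, aeval_def, eval₂_eq', eval₂_eq', Finset.mul_sum]
  refine Finset.sum_congr rfl fun s hs => ?_
  have h1 : ∑ i, s i = n := by
    have := hP (mem_support_iff.1 hs)
    rw [← this, Finsupp.weight_apply, Finsupp.sum_fintype _ _ (by simp)]
    simp
  have h2 : ∏ i, (c * U i) ^ s i = c ^ n * ∏ i, U i ^ s i := by
    simp only [mul_pow, Finset.prod_mul_distrib]
    rw [Finset.prod_pow_eq_pow_sum, h1]
  rw [h2]
  ring

/-- `hat` is the homogenisation: `x i = U i * c` with `c * τ = 1`. -/
theorem hat_mul {E : Type*} [CommRing E] [Algebra K E] (m : ℕ) (P : MvPolynomial (Fin N) K)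
    (hP : P.totalDegree ≤ m) (τ c : E) (h : c * τ = 1) (x U : Fin N → E) (hx : ∀ i, x i = c * U i) :
    aeval x P * τ ^ m = hat m P τ U := by
  have hx' : x = fun i => c * U i := funext hx
  have h1 : P = ∑ n ∈ Finset.range (m + 1), homogeneousComponent n P := by
    have h2 : ∑ n ∈ Finset.range (P.totalDegree + 1), homogeneousComponent n P =
        ∑ n ∈ Finset.range (m + 1), homogeneousComponent n P := by
      refine Finset.sum_subset (Finset.range_mono (by omega)) fun n _ hn => ?_
      exact homogeneousComponent_eq_zero n P (by simpa using hn)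
    rw [← h2, sum_homogeneousComponent]
  unfold hat
  conv_lhs => rw [h1]
  rw [map_sum, Finset.sum_mul]
  refine Finset.sum_congr rfl fun n hn => ?_
  have hn' : n ≤ m := Nat.lt_succ_iff.1 (Finset.mem_range.1 hn)
  rw [hx', hom_smul n _ (homogeneousComponent_isHomogeneous n P)]
  have h3 : τ ^ m = τ ^ (m - n) * τ ^ n := by rw [← pow_add, Nat.sub_add_cancel hn']
  have h4 : c ^ n * τ ^ n = 1 := by rw [← mul_pow, h, one_pow]
  calc c ^ n * aeval U (homogeneousComponent n P) * τ ^ m
      = (c ^ n * τ ^ n) * (τ ^ (m - n) * aeval U (homogeneousComponent n P)) := by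
        rw [h3]; ring
    _ = _ := by rw [h4, one_mul]

/-- Taylor expansion to the second order, the remainder in a subalgebra containing the data. -/
theorem taylor₂ {E : Type*} [CommRing E] [Algebra K E] (P : MvPolynomial (Fin N) K)
    (β δ : Fin N → E) (A : Subalgebra K E) (hβ : ∀ i, β i ∈ A) (hδ : ∀ i, δ i ∈ A) :
    ∃ R : Fin N → Fin N → E, (∀ i i', R i i' ∈ A) ∧
      aeval (fun i => β i + δ i) P = aeval β P + ∑ i, aeval β (pderiv i P) * δ i +
        ∑ i, ∑ i', δ i * δ i' * R i i' := by
  classical
  have hmem : ∀ Q : MvPolynomial (Fin N) K, aeval β Q ∈ A := by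
    intro Q
    have : aeval β Q = A.val (aeval (fun i => (⟨β i, hβ i⟩ : A)) Q) := by
      rw [← AlgHom.comp_apply, comp_aeval]
      rfl
    rw [this]
    exact Subtype.coe_prop _
  induction P using MvPolynomial.induction_on with
  | C a =>
    refine ⟨fun _ _ => 0, fun _ _ => A.zero_mem, ?_⟩
    simp
  | add P Q hP hQ =>
    obtain ⟨R, hR, hR'⟩ := hP
    obtain ⟨S, hS, hS'⟩ := hQ
    refine ⟨fun i i' => R i i' + S i i', fun i i' => A.add_mem (hR i i') (hS i i'), ?_⟩
    simp only [map_add, hR', hS', add_mul, mul_add, Finset.sum_add_distrib]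
    ring
  | mul_X P k hP =>
    obtain ⟨R, hR, hR'⟩ := hP
    refine ⟨fun i i' => R i i' * (β k + δ k) + (if i' = k then aeval β (pderiv i P) else 0),
      fun i i' => A.add_mem (A.mul_mem (hR i i') (A.add_mem (hβ k) (hδ k))) ?_, ?_⟩
    · split_ifs
      · exact hmem _
      · exact A.zero_mem
    · have h1 : ∀ i, aeval β (pderiv i (P * X k)) * δ i =
          β k * (aeval β (pderiv i P) * δ i) + (if i = k then aeval β P * δ i else 0) := by
        intro i
        rw [Derivation.leibniz, pderiv_X]
        by_cases h : i = k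
        · subst h
          simp only [Pi.single_eq_same, smul_eq_mul, mul_one, map_add, map_mul, aeval_X, if_true]
          ring
        · rw [Pi.single_eq_of_ne (Ne.symm h)]
          simp only [smul_eq_mul, mul_zero, zero_add, map_mul, aeval_X, if_neg h, add_zero]
          ring
      have h2 : ∀ i, ∑ i', δ i * δ i' * (R i i' * (β k + δ k) +
          (if i' = k then aeval β (pderiv i P) else 0)) =
          (∑ i', δ i * δ i' * R i i') * (β k + δ k) + aeval β (pderiv i P) * δ i * δ k := by
        intro i
        simp only [mul_add, Finset.sum_add_distrib, mul_ite, mul_zero, Finset.sum_ite_eq',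
          Finset.mem_univ, if_true]
        rw [Finset.sum_mul, Finset.sum_mul]
        have : ∑ x, δ i * δ x * (R i x * β k) = ∑ x, δ i * δ x * R i x * β k :=
          Finset.sum_congr rfl fun x _ => by ring
        have h' : ∑ x, δ i * δ x * (R i x * δ k) = ∑ x, δ i * δ x * R i x * δ k :=
          Finset.sum_congr rfl fun x _ => by ring
        rw [this, h']
        ring
      rw [map_mul, hR', map_mul, aeval_X, aeval_X]
      simp only [h1, h2, Finset.sum_add_distrib, ← Finset.mul_sum, ← Finset.sum_mul,
        Finset.sum_ite_eq', Finset.mem_univ, if_true]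
      ring

end Pool.Agent.H.MP_31a675_nt.Y
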