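import Pool.Agent.H.MP_31a675_nt.Y.Fnt
import Pool.Agent.H.MP_31a675_nt.Y.Hat

/-!
# Normalisation of the orbit
-/

namespace Pool.Agent.H.MP_31a675_nt.Y

open MvPolynomial

variable {K : Type} [Field K] {N : ℕ} {M : Type} [Field M] [Algebra K M]

/-- The value of a polynomial of total degree at most `m`. -/
theorem Norm_aeval_le {B : ValuationSubring M} (hb : ∀ c : K, algebraMap K M c ∈ B)
    (P : MvPolynomial (Fin N) K) (m : ℕ) (hP : P.totalDegree ≤ m) (y : Fin N → M)
    (μ : B.ValueGroup) (h1 : 1 ≤ μ) (hy : ∀ i, B.valuation (y i) ≤ μ) :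
    B.valuation (aeval y P) ≤ μ ^ m := by
  classical
  rw [aeval_def, eval₂_eq']
  refine Valuation.map_sum_le _ fun s hs => ?_
  rw [map_mul, map_prod]
  have h2 : B.valuation (algebraMap K M (coeff s P)) ≤ 1 := (B.valuation_le_one_iff _).2 (hb _)
  have h3 : ∏ i, B.valuation (y i ^ s i) ≤ μ ^ m := by
    have h4 : ∏ i, B.valuation (y i ^ s i) ≤ ∏ i, μ ^ s i := by
      refine Finset.prod_le_prod' fun i _ => ?_
      rw [map_pow]
      exact pow_le_pow_left' (hy i) _
    refine h4.trans ?_
    rw [Finset.prod_pow_eq_pow_sum]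
    refine pow_le_pow_right' h1 ?_
    refine le_trans ?_ hP
    have h5 := le_totalDegree hs
    rw [Finsupp.sum_fintype _ _ (fun _ => rfl)] at h5
    exact h5
  calc B.valuation (algebraMap K M (coeff s P)) * ∏ i, B.valuation (y i ^ s i)
      ≤ 1 * μ ^ m := mul_le_mul' h2 h3
    _ = μ ^ m := one_mul _

/-- One step of the orbit. -/
theorem Norm_step {D : Fin N → ℕ} {d : ℕ} (hD : Degs D d) {f : Fin N → MvPolynomial (Fin N) K}
    (hf : Gen D d f) {j : Fin N} (hj : D j < d) {B : ValuationSubring M} {x : ℕ → Fin N → M}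
    (h : Orb D f j B x) (l : ℕ) (k : Fin N) (hk : 1 < B.valuation (x l k))
    (hm : ∀ i, B.valuation (x l i) ≤ B.valuation (x l k)) :
    (∀ i, B.valuation (x (l + 1) i) ≤ B.valuation (x l k) ^ D i) ∧
    B.valuation (x (l + 1) j) = B.valuation (x l k) ^ D j ∧
    1 < B.valuation (x (l + 1) j) ∧
    ∀ i, B.valuation (x (l + 1) i) ≤ B.valuation (x (l + 1) j) := by
  have hle : ∀ i, B.valuation (x (l + 1) i) ≤ B.valuation (x l k) ^ D i := by
    intro i
    rw [h.step l i]
    exact Norm_aeval_le h.base (f i) (D i) (hf.deg i) (x l) _ hk.le hm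
  have hDj : D j ≠ 0 := by have := hD.pos j; omega
  have hbig : 1 < B.valuation (x l k) ^ D j := one_lt_pow' hk hDj
  have hlow : ∀ i, i < j → B.valuation (x (l + 1) i) < B.valuation (x l k) ^ D j := by
    intro i hi
    refine (hle i).trans_lt ?_
    have h1 : D i < D j := by
      rcases hD.inc i j hi with h1 | h1
      · exact h1
      · omega
    exact pow_lt_pow_right₀ hk h1
  have hjv : B.valuation (x (l + 1) j) = B.valuation (x l k) ^ D j := by
    refine le_antisymm (hle j) ?_
    obtain ⟨i', hi'⟩ := h.grow l k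
    rcases lt_trichotomy i' j with h1 | h1 | h1
    · exact absurd hi' (not_le.2 (hlow i' h1))
    · rw [← h1] at hi' ⊢
      exact hi'
    · rcases h.dom (l + 1) i' h1 with h2 | ⟨i'', h2, h3⟩
      · have h4 : B.valuation (x (l + 1) i') ≤ 1 := (B.valuation_le_one_iff _).2 h2
        exact absurd (hi'.trans h4) (not_le.2 hbig)
      · rcases lt_or_eq_of_le h2 with h4 | h4
        · exact absurd (hi'.trans h3) (not_le.2 (hlow i'' h4))
        · rw [h4] at h3
          exact hi'.trans h3
  have h1j : 1 < B.valuation (x (l + 1) j) := by rw [hjv]; exact hbig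
  refine ⟨hle, hjv, h1j, ?_⟩
  have hle' : ∀ i, i ≤ j → B.valuation (x (l + 1) i) ≤ B.valuation (x (l + 1) j) := by
    intro i hi
    rcases lt_or_eq_of_le hi with h1 | h1
    · rw [hjv]
      exact (hlow i h1).le
    · rw [h1]
  intro i
  rcases le_or_gt i j with h1 | h1
  · exact hle' i h1
  · rcases h.dom (l + 1) i h1 with h2 | ⟨i'', h2, h3⟩
    · exact ((B.valuation_le_one_iff _).2 h2).trans h1j.le
    · exact h3.trans (hle' i'' h2)

/-- The coordinate `j` is dominant from the time one on. -/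
theorem Norm_dom {D : Fin N → ℕ} {d : ℕ} (hD : Degs D d) {f : Fin N → MvPolynomial (Fin N) K}
    (hf : Gen D d f) {j : Fin N} (hj : D j < d) {B : ValuationSubring M} {x : ℕ → Fin N → M}
    (h : Orb D f j B x) (l : ℕ) : 1 < B.valuation (x (l + 1) j) ∧
      ∀ i, B.valuation (x (l + 1) i) ≤ B.valuation (x (l + 1) j) := by
  induction l with
  | zero =>
    obtain ⟨i₀, hi₀⟩ := h.big
    obtain ⟨k, -, hk⟩ := Finset.exists_max_image Finset.univ (fun i => B.valuation (x 0 i))
      ⟨i₀, Finset.mem_univ _⟩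
    have h1 : 1 < B.valuation (x 0 i₀) := by
      by_contra hc
      exact hi₀ ((B.valuation_le_one_iff _).1 (not_lt.1 hc))
    have h2 : 1 < B.valuation (x 0 k) := h1.trans_le (hk i₀ (Finset.mem_univ _))
    exact (Norm_step hD hf hj h 0 k h2 fun i => hk i (Finset.mem_univ _)).2.2
  | succ l ih => exact (Norm_step hD hf hj h (l + 1) j ih.1 ih.2).2.2

/-- The values along the orbit: from the time one on the coordinate `j` is dominant. -/
theorem orb_val {D : Fin N → ℕ} {d : ℕ} (hD : Degs D d) {f : Fin N → MvPolynomial (Fin N) K}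
    (hf : Gen D d f) {j : Fin N} (hj : D j < d) {B : ValuationSubring M} {x : ℕ → Fin N → M}
    (h : Orb D f j B x) :
    (∀ l, 1 < B.valuation (x (l + 1) j) ∧
      (∀ i, B.valuation (x (l + 1) i) ≤ B.valuation (x (l + 1) j)) ∧
      B.valuation (x (l + 2) j) = B.valuation (x (l + 1) j) ^ D j ∧
      ∀ i, B.valuation (x (l + 2) i) ≤ B.valuation (x (l + 1) j) ^ D i) ∧
    ∀ i, i < j → B.valuation (x 1 i) ^ D j * B.valuation (x 1 j) ≤ B.valuation (x 1 j) ^ D j := by
  refine ⟨fun l => ?_, ?_⟩
  · have h1 := Norm_dom hD hf hj h l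
    have h2 := Norm_step hD hf hj h (l + 1) j h1.1 h1.2
    exact ⟨h1.1, h1.2, h2.2.1, h2.1⟩
  · intro i hi
    obtain ⟨i₀, hi₀⟩ := h.big
    obtain ⟨k, -, hk⟩ := Finset.exists_max_image Finset.univ (fun i => B.valuation (x 0 i))
      ⟨i₀, Finset.mem_univ _⟩
    have h1 : 1 < B.valuation (x 0 i₀) := by
      by_contra hc
      exact hi₀ ((B.valuation_le_one_iff _).1 (not_lt.1 hc))
    have h2 : 1 < B.valuation (x 0 k) := h1.trans_le (hk i₀ (Finset.mem_univ _))
    have h3 := Norm_step hD hf hj h 0 k h2 fun i => hk i (Finset.mem_univ _)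
    have h4 : D i < D j := by
      rcases hD.inc i j hi with h1 | h1
      · exact h1
      · omega
    have h5 : B.valuation (x 1 j) = B.valuation (x 0 k) ^ D j := h3.2.1
    have h6 : B.valuation (x 1 i) ≤ B.valuation (x 0 k) ^ D i := h3.1 i
    rw [h5]
    calc B.valuation (x 1 i) ^ D j * B.valuation (x 0 k) ^ D j
        ≤ (B.valuation (x 0 k) ^ D i) ^ D j * B.valuation (x 0 k) ^ D j :=
          mul_le_mul' (pow_le_pow_left' h6 _) le_rfl
      _ = B.valuation (x 0 k) ^ ((D i + 1) * D j) := by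
          rw [← pow_mul, ← pow_add, add_mul, one_mul]
      _ ≤ B.valuation (x 0 k) ^ (D j * D j) :=
          pow_le_pow_right' h2.le (Nat.mul_le_mul_right _ h4)
      _ = (B.valuation (x 0 k) ^ D j) ^ D j := by rw [pow_mul]

/-- Elements integral over `K` lie in a valuation subring containing `K`. -/
theorem Norm_int {B : ValuationSubring M} (hb : ∀ c : K, algebraMap K M c ∈ B) {y : M}
    (hy : IsIntegral K y) : y ∈ B := by
  let g : K →+* B := (algebraMap K M).codRestrict B hb
  have h1 : IsIntegral B y := by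
    obtain ⟨p, hp, he⟩ := hy
    refine ⟨p.map g, hp.map g, ?_⟩
    rw [Polynomial.eval₂_map]
    exact he
  obtain ⟨b, hb'⟩ := IsIntegrallyClosed.isIntegral_iff.1 h1
  rw [← hb']
  exact b.2

/-- The zero at infinity near a point. -/
theorem Norm_point [IsAlgClosed M] {D : Fin N → ℕ} {f : Fin N → MvPolynomial (Fin N) K}
    {j : Fin N} {B : ValuationSubring M} (hb : ∀ c : K, algebraMap K M c ∈ B)
    {p : Polynomial K}
    (hpz : ∀ {E : Type} [Field E] [Algebra K E] (z : Fin N → E), (∀ i, i < j → z i = 0) →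
      z j = 1 → (∀ i, j < i → aeval z (topf D f i) = 0) → ∀ i, Polynomial.aeval (z i) p = 0)
    (hp : p ≠ 0) (U : Fin N → M) (hU : ∀ i, U i ∈ B) (h0 : ∀ i, i < j → U i ∈ B.nonunits)
    (h1 : U j = 1) (h2 : ∀ i, j < i → aeval U (topf D f i) ∈ B.nonunits)
    (hK : ∀ c ∈ IntermediateField.adjoin K (p.rootSet M), c ∈ B) :
    ∃ β : Fin N → M, (∀ i, β i ∈ IntermediateField.adjoin K (p.rootSet M)) ∧
      (∀ i, U i - β i ∈ B.nonunits) ∧ β j = 1 ∧ (∀ i, i < j → β i = 0) ∧
      ∀ i, j < i → aeval β (topf D f i) = 0 := by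
  classical
  let g : K →+* B := (algebraMap K M).codRestrict B hb
  let _ : Algebra K B := g.toAlgebra
  have : IsScalarTower K B M := IsScalarTower.of_algebraMap_eq' rfl
  let ι : B →ₐ[K] M := IsScalarTower.toAlgHom K B M
  let ρ : B →ₐ[K] IsLocalRing.ResidueField B :=
    IsScalarTower.toAlgHom K B (IsLocalRing.ResidueField B)
  have hι : ∀ b : B, ι b = (b : M) := fun b => rfl
  have hρ : ∀ b : B, ρ b = 0 ↔ (b : M) ∈ B.nonunits := by
    intro b
    rw [ValuationSubring.coe_mem_nonunits_iff, ← IsLocalRing.residue_eq_zero_iff]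
    rfl
  let u : Fin N → B := fun i => ⟨U i, hU i⟩
  have hu : ∀ Q : MvPolynomial (Fin N) K, ((aeval u Q : B) : M) = aeval U Q := by
    intro Q
    rw [← hι, comp_aeval_apply]
    rfl
  have hc : ∀ (w : Fin N → B) (Q : MvPolynomial (Fin N) K),
      ρ (aeval w Q) = aeval (fun i => ρ (w i)) Q := fun w Q => comp_aeval_apply w ρ Q
  have hz := hpz (fun i => ρ (u i)) (fun i hi => (hρ _).2 (h0 i hi))
    (by
      have h3 : u j = 1 := Subtype.ext h1
      simp only [h3, map_one])
    (fun i hi => by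
      rw [← hc, hρ, hu]
      exact h2 i hi)
  have hroot : ∀ i, ∃ r ∈ p.rootSet M, U i - r ∈ B.nonunits := by
    intro i
    have h3 : Polynomial.aeval (U i) p ∈ B.nonunits := by
      have h4 := hz i
      rw [Polynomial.aeval_algHom_apply ρ, hρ] at h4
      have h5 : ((Polynomial.aeval (u i) p : B) : M) = Polynomial.aeval (U i) p := by
        rw [← hι, ← Polynomial.aeval_algHom_apply ι]
        rfl
      rwa [h5] at h4
    rw [Polynomial.Splits.aeval_eq_prod_aroots (IsAlgClosed.splits _)] at h3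
    by_contra hc
    push Not at hc
    have h6 : ∀ r ∈ p.aroots M, 1 ≤ B.valuation (U i - r) := by
      intro r hr
      have h7 : r ∈ p.rootSet M := by
        rw [Polynomial.mem_rootSet]
        exact (Polynomial.mem_aroots.1 hr)
      have h8 := hc r h7
      rw [ValuationSubring.mem_nonunits_iff, not_lt] at h8
      exact h8
    have h9 : 1 ≤ B.valuation ((p.aroots M).map (U i - ·)).prod := by
      rw [map_multiset_prod]
      apply Multiset.one_le_prod_of_one_le
      intro a ha
      simp only [Multiset.mem_map] at ha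
      obtain ⟨b, ⟨r, hr, rfl⟩, rfl⟩ := ha
      exact h6 r hr
    have h10 : B.valuation (algebraMap K M p.leadingCoeff) = 1 := by
      have h11 : p.leadingCoeff ≠ 0 := Polynomial.leadingCoeff_ne_zero.2 hp
      refine le_antisymm ((B.valuation_le_one_iff _).2 (hb _)) ?_
      have h12 : B.valuation (algebraMap K M (p.leadingCoeff)⁻¹) ≤ 1 :=
        (B.valuation_le_one_iff _).2 (hb _)
      calc (1 : B.ValueGroup) = B.valuation (algebraMap K M p.leadingCoeff) *
            B.valuation (algebraMap K M (p.leadingCoeff)⁻¹) := by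
            rw [← map_mul, ← map_mul, mul_inv_cancel₀ h11, map_one, map_one]
        _ ≤ B.valuation (algebraMap K M p.leadingCoeff) * 1 := mul_le_mul' le_rfl h12
        _ = _ := mul_one _
    rw [ValuationSubring.mem_nonunits_iff, map_mul, h10, one_mul] at h3
    exact absurd h3 (not_lt.2 h9)
  choose r hr hr' using hroot
  let β : Fin N → M := fun i => if i < j then 0 else if i = j then 1 else r i
  have hβK : ∀ i, β i ∈ IntermediateField.adjoin K (p.rootSet M) := by
    intro i
    simp only [β]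
    split_ifs
    · exact zero_mem _
    · exact one_mem _
    · exact IntermediateField.subset_adjoin K _ (hr i)
  have hβU : ∀ i, U i - β i ∈ B.nonunits := by
    intro i
    simp only [β]
    split_ifs with h3 h4
    · rw [sub_zero]
      exact h0 i h3
    · rw [h4, h1, sub_self]
      exact B.nonunits.zero_mem
    · exact hr' i
  refine ⟨β, hβK, hβU, ?_, ?_, ?_⟩
  · simp [β]
  · intro i hi
    simp [β, hi]
  · intro i hi
    let b : Fin N → B := fun i => ⟨β i, hK _ (hβK i)⟩
    have hb1 : ∀ Q : MvPolynomial (Fin N) K, ((aeval b Q : B) : M) = aeval β Q := by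
      intro Q
      rw [← hι, comp_aeval_apply]
      rfl
    have hb2 : (fun i => ρ (b i)) = fun i => ρ (u i) := by
      funext i
      have h3 : ρ (u i - b i) = 0 := by
        rw [hρ]
        exact hβU i
      rw [map_sub, sub_eq_zero] at h3
      exact h3.symm
    have h4 : aeval β (topf D f i) ∈ B.nonunits := by
      rw [← hb1, ← hρ, hc, hb2, ← hc, hρ, hu]
      exact h2 i hi
    have h5 : aeval β (topf D f i) ∈ IntermediateField.adjoin K (p.rootSet M) := by
      have h6 : aeval β (topf D f i) =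
          (IntermediateField.adjoin K (p.rootSet M)).val
            (aeval (fun i => (⟨β i, hβK i⟩ : IntermediateField.adjoin K (p.rootSet M)))
              (topf D f i)) := by
        rw [comp_aeval_apply]
        rfl
      rw [h6]
      exact Subtype.coe_prop _
    by_contra h7
    rw [ValuationSubring.mem_nonunits_iff_or] at h4
    rcases h4 with h4 | h4
    · exact h7 h4
    · exact h4 (hK _ (inv_mem h5))

/-- The normalised orbit. The coordinates of the residue of `U l` are zeros of the polynomial `p` of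
`zero_poly`, hence congruent to roots of `p` in `M`; `K'` is generated by these roots. -/
theorem orb_sys [IsAlgClosed M] {D : Fin N → ℕ} {d : ℕ} (hD : Degs D d)
    {f : Fin N → MvPolynomial (Fin N) K} (hf : Gen D d f) {j : Fin N} (hj : D j < d)
    {B : ValuationSubring M} {x : ℕ → Fin N → M} (h : Orb D f j B x) :
    ∃ (K' : IntermediateField K M) (ϖ : M) (β : ℕ → Fin N → M), FiniteDimensional K K' ∧
      ϖ ^ D j = (x 1 j)⁻¹ ∧
      Sys D f j K' B ϖ (fun l => (x (l + 1) j)⁻¹) (fun l i => x (l + 1) i / x (l + 1) j) β := by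
  classical
  obtain ⟨hv, hv0⟩ := orb_val hD hf hj h
  obtain ⟨p, hp, hpz⟩ := zero_poly hD hf j hj
  have hint : ∀ r ∈ p.rootSet M, IsIntegral K r := by
    intro r hr
    rw [← isAlgebraic_iff_isIntegral]
    exact ⟨p, hp, (Polynomial.mem_rootSet.1 hr).2⟩
  have hfd : FiniteDimensional K (IntermediateField.adjoin K (p.rootSet M)) := by
    have : Finite (p.rootSet M) := (Polynomial.rootSet_finite p M).to_subtype
    exact IntermediateField.finiteDimensional_adjoin hint
  have hK : ∀ c ∈ IntermediateField.adjoin K (p.rootSet M), c ∈ B := by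
    intro c hc
    apply Norm_int h.base
    have h1 : IsIntegral K (⟨c, hc⟩ : IntermediateField.adjoin K (p.rootSet M)) :=
      Algebra.IsIntegral.isIntegral _
    exact h1.map (IntermediateField.adjoin K (p.rootSet M)).val
  have hDj : 0 < D j := hD.pos j
  obtain ⟨ϖ, hϖ⟩ := IsAlgClosed.exists_pow_nat_eq ((x 1 j)⁻¹) hDj
  have hlow : ∀ i, i < j → D i < D j := by
    intro i hi
    rcases hD.inc i j hi with h1 | h1
    · exact h1
    · omega
  have hhigh : ∀ i, j < i → D j < D i := by
    intro i hi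
    rcases hD.inc j i hi with h1 | h1
    · exact h1
    · omega
  have hx : ∀ l, x (l + 1) j ≠ 0 := by
    intro l h0
    have h1 := (hv l).1
    rw [h0, map_zero] at h1
    exact absurd h1 (not_lt.2 zero_le_one)
  have hV0 : ∀ l, 0 < B.valuation (x (l + 1) j) := fun l => zero_lt_one.trans (hv l).1
  have hmono : ∀ l, B.valuation (x 1 j) ≤ B.valuation (x (l + 1) j) := by
    intro l
    induction l with
    | zero => exact le_rfl
    | succ l ih =>
      refine ih.trans ?_
      rw [(hv l).2.2.1]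
      exact le_self_pow (hv l).1.le hDj.ne'
  have hϖv : B.valuation ϖ ^ D j = (B.valuation (x 1 j))⁻¹ := by
    rw [← map_pow, hϖ, map_inv₀]
  have hinv : ∀ l, (B.valuation (x (l + 1) j))⁻¹ < 1 := fun l => inv_lt_one_of_one_lt₀ (hv l).1
  have hϖ1 : B.valuation ϖ < 1 := by
    by_contra hc
    have h1 : 1 ≤ B.valuation ϖ ^ D j := one_le_pow_of_one_le' (not_lt.1 hc) _
    rw [hϖv] at h1
    exact absurd (hinv 0) (not_lt.2 h1)
  have hϖ0 : ϖ ≠ 0 := by
    intro h0
    rw [h0, zero_pow hDj.ne'] at hϖ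
    exact hx 0 (inv_eq_zero.1 hϖ.symm)
  have hϖp : 0 < B.valuation ϖ := by
    rw [zero_lt_iff]
    exact (B.valuation.ne_zero_iff).2 hϖ0
  have hdiv : ∀ y : M, B.valuation y ≤ B.valuation ϖ → y / ϖ ∈ B := by
    intro y hy
    rw [← B.valuation_le_one_iff, map_div₀]
    exact div_le_one_of_le₀ hy zero_le
  have hτϖ : ∀ l, (B.valuation (x (l + 1) j))⁻¹ ≤ B.valuation ϖ := by
    intro l
    calc (B.valuation (x (l + 1) j))⁻¹ ≤ (B.valuation (x 1 j))⁻¹ :=
          inv_anti₀ (hV0 0) (hmono l)
      _ = B.valuation ϖ ^ D j := hϖv.symm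
      _ ≤ B.valuation ϖ := pow_le_of_le_one zero_le hϖ1.le hDj.ne'
  have hhat : ∀ l i, hat (D i) (f i) ((x (l + 1) j)⁻¹) (fun i => x (l + 1) i / x (l + 1) j) =
      x (l + 2) i * ((x (l + 1) j)⁻¹) ^ D i := by
    intro l i
    rw [← hat_mul (D i) (f i) (hf.deg i) _ (x (l + 1) j) (mul_inv_cancel₀ (hx l)) (x (l + 1)) _
      (fun i => (mul_div_cancel₀ _ (hx l)).symm), ← h.step]
  have hmem : ∀ l i, x (l + 1) i / x (l + 1) j ∈ B := by
    intro l i
    rw [← B.valuation_le_one_iff, map_div₀]
    exact div_le_one_of_le₀ ((hv l).2.1 i) zero_le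
  have hsmall : ∀ l i, i < j → B.valuation (x (l + 1) i / x (l + 1) j) ≤ B.valuation ϖ := by
    intro l i hi
    rw [map_div₀]
    cases l with
    | zero =>
      have h1 := hv0 i hi
      have h2 : (B.valuation (x 1 i) / B.valuation (x 1 j)) ^ D j ≤ B.valuation ϖ ^ D j := by
        rw [hϖv, div_pow, div_le_iff₀ (pow_pos (hV0 0) _)]
        rw [inv_mul_eq_div, le_div_iff₀ (hV0 0)]
        exact h1
      exact le_of_pow_le_pow_left₀ hDj.ne' zero_le h2
    | succ l =>
      refine le_trans ?_ (hτϖ l)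
      rw [(hv l).2.2.1, div_le_iff₀ (pow_pos (hV0 l) _)]
      refine ((hv l).2.2.2 i).trans ?_
      obtain ⟨t, ht⟩ : ∃ t, D j = t + 1 := ⟨D j - 1, by omega⟩
      have h1 : (B.valuation (x (l + 1) j))⁻¹ * B.valuation (x (l + 1) j) ^ D j =
          B.valuation (x (l + 1) j) ^ t := by
        rw [ht, pow_succ, mul_comm _ (B.valuation (x (l + 1) j)), ← mul_assoc,
          inv_mul_cancel₀ (hV0 l).ne', one_mul]
      rw [h1]
      have h2 := hlow i hi
      exact pow_le_pow_right' (hv l).1.le (by omega)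
  have htop : ∀ l i, j < i →
      aeval (fun i => x (l + 1) i / x (l + 1) j) (topf D f i) ∈ B.nonunits := by
    intro l i hi
    have h1 := hat_eq (D i) (f i) ((x (l + 1) j)⁻¹) (fun i => x (l + 1) i / x (l + 1) j)
    have h2 : aeval (fun i => x (l + 1) i / x (l + 1) j) (topf D f i) =
        hat (D i) (f i) ((x (l + 1) j)⁻¹) (fun i => x (l + 1) i / x (l + 1) j) -
        (x (l + 1) j)⁻¹ * ∑ n ∈ Finset.range (D i), ((x (l + 1) j)⁻¹) ^ (D i - 1 - n) *
          aeval (fun i => x (l + 1) i / x (l + 1) j) (homogeneousComponent n (f i)) := by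
      rw [h1]
      unfold topf
      ring
    rw [h2]
    apply sub_mem
    · rw [hhat, ValuationSubring.mem_nonunits_iff, map_mul, map_pow, map_inv₀]
      have h3 : B.valuation (x (l + 2) i) ≤ B.valuation (x (l + 1) j) ^ D j := by
        rw [← (hv l).2.2.1]
        exact (hv (l + 1)).2.1 i
      calc B.valuation (x (l + 2) i) * (B.valuation (x (l + 1) j))⁻¹ ^ D i
          ≤ B.valuation (x (l + 1) j) ^ D j * (B.valuation (x (l + 1) j))⁻¹ ^ D i :=
            mul_le_mul' h3 le_rfl
        _ < 1 := by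
            rw [inv_pow, ← div_eq_mul_inv, div_lt_one₀ (pow_pos (hV0 l) _)]
            exact pow_lt_pow_right₀ (hv l).1 (hhigh i hi)
    · rw [ValuationSubring.mem_nonunits_iff, map_mul, map_inv₀]
      have h4 : B.valuation (∑ n ∈ Finset.range (D i), ((x (l + 1) j)⁻¹) ^ (D i - 1 - n) *
          aeval (fun i => x (l + 1) i / x (l + 1) j) (homogeneousComponent n (f i))) ≤ 1 := by
        refine Valuation.map_sum_le _ fun n _ => ?_
        rw [map_mul, map_pow, map_inv₀]
        refine mul_le_one' (pow_le_one' (hinv l).le _) ?_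
        have h5 := Norm_aeval_le h.base (homogeneousComponent n (f i)) _ le_rfl
          (fun i => x (l + 1) i / x (l + 1) j) 1 le_rfl
          (fun i => (B.valuation_le_one_iff _).2 (hmem l i))
        rwa [one_pow] at h5
      calc _ ≤ (B.valuation (x (l + 1) j))⁻¹ * 1 := mul_le_mul' le_rfl h4
        _ < 1 := by rw [mul_one]; exact hinv l
  have hβ := fun l => Norm_point h.base hpz hp (fun i => x (l + 1) i / x (l + 1) j) (hmem l)
    (fun i hi => (ValuationSubring.mem_nonunits_iff _).2 ((hsmall l i hi).trans_lt hϖ1))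
    (div_self (hx l)) (htop l) hK
  choose β hβK hβU hβj hβ0 hβz using hβ
  have hhne : ∀ l, hat (D j) (f j) ((x (l + 1) j)⁻¹) (fun i => x (l + 1) i / x (l + 1) j) ≠ 0 := by
    intro l
    rw [hhat]
    exact mul_ne_zero (hx (l + 1)) (pow_ne_zero _ (inv_ne_zero (hx l)))
  refine ⟨IntermediateField.adjoin K (p.rootSet M), ϖ, β, hfd, hϖ, ?_⟩
  refine
    { base := hK
      unif := (ValuationSubring.mem_nonunits_iff _).2 hϖ1
      ne := hϖ0
      tau := fun l => hdiv _ (by rw [map_inv₀]; exact hτϖ l)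
      tne := fun l => inv_ne_zero (hx l)
      one := fun l => div_self (hx l)
      mem := hmem
      small := fun l i hi => hdiv _ (hsmall l i hi)
      hne := hhne
      unit := ?_
      rtau := ?_
      rlow := ?_
      rhigh := ?_
      bmem := hβK
      bres := hβU
      bj := hβj
      blow := hβ0
      bzero := hβz
      bdet := fun l => low_ext hf j hj (β l) (hβ0 l) (hβj l) (hβz l) }
  · intro l
    rw [← B.valuation_le_one_iff, map_inv₀, hhat, map_mul, map_pow, map_inv₀, (hv l).2.2.1,
      inv_pow, mul_inv_cancel₀ (pow_pos (hV0 l) _).ne', inv_one]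
  · intro l
    show (x (l + 2) j)⁻¹ * _ = _
    rw [hhat, ← mul_assoc, inv_mul_cancel₀ (hx (l + 1)), one_mul]
  · intro l i hi
    show x (l + 2) i / x (l + 2) j * _ = _
    have h1 := hlow i hi
    rw [hhat, hhat, ← mul_assoc, div_mul_cancel₀ _ (hx (l + 1))]
    have h2 : D j = (D j - D i) + D i := by omega
    conv_lhs => rw [h2, pow_add]
    ring
  · intro l i hi
    show _ = _ * (x (l + 2) i / x (l + 2) j * _)
    have h1 := hhigh i hi
    rw [hhat, hhat, ← mul_assoc (x (l + 2) i / x (l + 2) j), div_mul_cancel₀ _ (hx (l + 1))]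
    have h2 : D i = (D i - D j) + D j := by omega
    conv_lhs => rw [h2, pow_add]
    ring

end Pool.Agent.H.MP_31a675_nt.Y
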