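import Pool.Agent.H.MP_31a675_nt.Y.Defs

/-!
# Polynomials in few parameters up to order `q`
-/

namespace Pool.Agent.H.MP_31a675_nt.Y

open MvPolynomial

variable {K : Type} [Field K] {M : Type} [Field M] [Algebra K M]

/-- A valuation subring `B` of `M` containing the field `K'`, an element `ϖ` of its maximal ideal and
parameters `θ s` in `ϖ B`. -/
structure Par (K' : IntermediateField K M) (B : ValuationSubring M) {σ : Type} (θ : σ → M)
    (ϖ : M) : Prop where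
  base : ∀ c ∈ K', c ∈ B
  unif : ϖ ∈ B.nonunits
  ne : ϖ ≠ 0
  par : ∀ s, θ s / ϖ ∈ B

/-- The elements which are equal to a polynomial in the parameters with coefficients in `K'`, up to
`ϖ ^ q B`. -/
def WS (K' : IntermediateField K M) (B : ValuationSubring M) {σ : Type} (θ : σ → M) (ϖ : M)
    (q : ℕ) : Set M :=
  {w | ∃ p : MvPolynomial σ K', (w - aeval θ p) / ϖ ^ q ∈ B}

section

variable {K' : IntermediateField K M} {B : ValuationSubring M} {σ : Type} {θ : σ → M} {ϖ : M}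

theorem Par.mem (h : Par K' B θ ϖ) : ϖ ∈ B :=
  B.nonunits_le h.unif

theorem Par.pow (h : Par K' B θ ϖ) (q : ℕ) : ϖ ^ q ∈ B :=
  pow_mem h.mem q

theorem Par.par' (h : Par K' B θ ϖ) (s : σ) : θ s ∈ B := by
  have := mul_mem (h.par s) h.mem
  rwa [div_mul_cancel₀ _ h.ne] at this

theorem div_mem_iff (h : Par K' B θ ϖ) (q : ℕ) (a : M) :
    a / ϖ ^ q ∈ B ↔ ∃ b ∈ B, a = ϖ ^ q * b := by
  have hq : ϖ ^ q ≠ 0 := pow_ne_zero _ h.ne
  constructor
  · intro ha
    exact ⟨_, ha, by field_simp⟩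
  · rintro ⟨b, hb, rfl⟩
    rwa [mul_div_cancel_left₀ _ hq]

theorem poly_mem (h : Par K' B θ ϖ) (p : MvPolynomial σ K') : aeval θ p ∈ B := by
  induction p using MvPolynomial.induction_on with
  | C a =>
    rw [algHom_C]
    exact h.base _ a.2
  | add p q hp hq =>
    rw [map_add]
    exact add_mem hp hq
  | mul_X p s hp =>
    rw [map_mul, aeval_X]
    exact mul_mem hp (h.par' s)

theorem poly_const (h : Par K' B θ ϖ) (p : MvPolynomial σ K') :
    ∃ b ∈ B, aeval θ p = (constantCoeff p : K') + ϖ * b := by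
  induction p using MvPolynomial.induction_on with
  | C a =>
    refine ⟨0, zero_mem _, ?_⟩
    rw [algHom_C, constantCoeff_C]
    simp
  | add p q hp hq =>
    obtain ⟨b, hb, e⟩ := hp
    obtain ⟨c, hc, e'⟩ := hq
    refine ⟨b + c, add_mem hb hc, ?_⟩
    rw [map_add, map_add, e, e']
    push_cast
    ring
  | mul_X p s hp =>
    refine ⟨aeval θ p * (θ s / ϖ), mul_mem (poly_mem h p) (h.par s), ?_⟩
    rw [map_mul, aeval_X, map_mul, constantCoeff_X, mul_zero]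
    have := h.ne
    field_simp
    simp

theorem WS_iff (h : Par K' B θ ϖ) (q : ℕ) (w : M) :
    w ∈ WS K' B θ ϖ q ↔ ∃ p : MvPolynomial σ K', ∃ b ∈ B, w = aeval θ p + ϖ ^ q * b := by
  constructor
  · rintro ⟨p, hp⟩
    obtain ⟨b, hb, e⟩ := (div_mem_iff h q _).1 hp
    exact ⟨p, b, hb, by rw [← e]; ring⟩
  · rintro ⟨p, b, hb, rfl⟩
    exact ⟨p, (div_mem_iff h q _).2 ⟨b, hb, by ring⟩⟩

theorem WS_mem (h : Par K' B θ ϖ) (q : ℕ) {w : M} (hw : w ∈ WS K' B θ ϖ q) : w ∈ B := by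
  obtain ⟨p, b, hb, rfl⟩ := (WS_iff h q w).1 hw
  exact add_mem (poly_mem h p) (mul_mem (h.pow q) hb)

/-- These elements form a subalgebra. -/
theorem WS_alg (h : Par K' B θ ϖ) (q : ℕ) :
    ∃ A : Subalgebra K M, (A : Set M) = WS K' B θ ϖ q := by
  refine ⟨{ carrier := WS K' B θ ϖ q, mul_mem' := ?_, add_mem' := ?_, algebraMap_mem' := ?_ }, rfl⟩
  · intro a b ha hb
    have hbB := WS_mem h q hb
    rw [WS_iff h] at ha hb ⊢
    obtain ⟨p, x, hx, rfl⟩ := ha
    obtain ⟨r, y, hy, rfl⟩ := hb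
    refine ⟨p * r, x * (aeval θ r + ϖ ^ q * y) + aeval θ p * y,
      add_mem (mul_mem hx hbB) (mul_mem (poly_mem h p) hy), ?_⟩
    rw [map_mul]
    ring
  · intro a b ha hb
    rw [WS_iff h] at ha hb ⊢
    obtain ⟨p, x, hx, rfl⟩ := ha
    obtain ⟨r, y, hy, rfl⟩ := hb
    refine ⟨p + r, x + y, add_mem hx hy, ?_⟩
    rw [map_add]
    ring
  · intro c
    rw [WS_iff h]
    refine ⟨C (algebraMap K K' c), 0, zero_mem _, ?_⟩
    rw [algHom_C]
    simp

theorem WS_zero (h : Par K' B θ ϖ) : WS K' B θ ϖ 0 = (B : Set M) := by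
  ext w
  constructor
  · exact fun hw => WS_mem h 0 hw
  · intro hw
    rw [WS_iff h]
    exact ⟨0, w, hw, by simp⟩

theorem WS_le (h : Par K' B θ ϖ) (q : ℕ) : WS K' B θ ϖ (q + 1) ⊆ WS K' B θ ϖ q := by
  intro w hw
  rw [WS_iff h] at hw ⊢
  obtain ⟨p, b, hb, rfl⟩ := hw
  exact ⟨p, ϖ * b, mul_mem h.mem hb, by ring⟩

theorem WS_base (h : Par K' B θ ϖ) (q : ℕ) {c : M} (hc : c ∈ K') : c ∈ WS K' B θ ϖ q := by
  rw [WS_iff h]
  refine ⟨C ⟨c, hc⟩, 0, zero_mem _, ?_⟩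
  rw [algHom_C]
  simp

theorem WS_par (h : Par K' B θ ϖ) (q : ℕ) (s : σ) : θ s ∈ WS K' B θ ϖ q := by
  rw [WS_iff h]
  exact ⟨X s, 0, zero_mem _, by simp⟩

theorem WS_small (h : Par K' B θ ϖ) (q : ℕ) {a : M} (ha : a / ϖ ^ q ∈ B) :
    a ∈ WS K' B θ ϖ q := by
  rw [WS_iff h]
  obtain ⟨b, hb, rfl⟩ := (div_mem_iff h q _).1 ha
  exact ⟨0, b, hb, by simp⟩

theorem div_one_iff (h : Par K' B θ ϖ) (a : M) : a / ϖ ∈ B ↔ ∃ b ∈ B, a = ϖ * b := by
  have := div_mem_iff h 1 a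
  simpa using this

/-- The product of a small element of `WS (q + 1)` and an element of `WS q`. -/
theorem WS_mul (h : Par K' B θ ϖ) (q : ℕ) {a w : M} (ha : a ∈ WS K' B θ ϖ (q + 1))
    (ha' : a / ϖ ∈ B) (hw : w ∈ WS K' B θ ϖ q) : a * w ∈ WS K' B θ ϖ (q + 1) := by
  have hwB := WS_mem h q hw
  obtain ⟨e, he, hae⟩ := (div_one_iff h a).1 ha'
  rw [WS_iff h] at ha hw ⊢
  obtain ⟨p, x, hx, hp⟩ := ha
  obtain ⟨r, y, hy, hr⟩ := hw
  refine ⟨p * r, (e - ϖ ^ q * x) * y + x * w, add_mem (mul_mem (sub_mem he (mul_mem (h.pow q) hx))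
    hy) (mul_mem hx hwB), ?_⟩
  have h1 : aeval θ p = ϖ * (e - ϖ ^ q * x) := by
    have : aeval θ p = a - ϖ ^ (q + 1) * x := by rw [hp]; ring
    rw [this, hae]
    ring
  have h2 : aeval θ r = w - ϖ ^ q * y := by rw [hr]; ring
  rw [map_mul, h2, h1, hae]
  have h3 : a = ϖ * (e - ϖ ^ q * x) + ϖ ^ (q + 1) * x := by rw [← h1]; exact hp
  ring

/-- The product of two small elements of `WS q`. -/
theorem WS_mul' (h : Par K' B θ ϖ) (q : ℕ) {a b : M} (ha : a ∈ WS K' B θ ϖ q)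
    (ha' : a / ϖ ∈ B) (hb : b ∈ WS K' B θ ϖ q) (hb' : b / ϖ ∈ B) :
    a * b ∈ WS K' B θ ϖ (q + 1) := by
  have hbB := WS_mem h q hb
  obtain ⟨e, he, hae⟩ := (div_one_iff h a).1 ha'
  obtain ⟨g, hg, hbg⟩ := (div_one_iff h b).1 hb'
  rcases q with _ | q
  · apply WS_small h
    rw [div_mem_iff h]
    exact ⟨e * b, mul_mem he hbB, by rw [hae]; ring⟩
  rw [WS_iff h] at ha hb ⊢
  obtain ⟨p, x, hx, hp⟩ := ha
  obtain ⟨r, y, hy, hr⟩ := hb
  refine ⟨p * r, (e - ϖ ^ q * x) * y + x * g, add_mem (mul_mem (sub_mem he (mul_mem (h.pow q) hx))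
    hy) (mul_mem hx hg), ?_⟩
  have h1 : aeval θ p = ϖ * (e - ϖ ^ q * x) := by
    have : aeval θ p = a - ϖ ^ (q + 1) * x := by rw [hp]; ring
    rw [this, hae]
    ring
  have h2 : aeval θ r = b - ϖ ^ (q + 1) * y := by rw [hr]; ring
  rw [map_mul, h2, h1, hae, hbg]
  ring

/-- Inverses of units: geometric series. -/
theorem WS_inv (h : Par K' B θ ϖ) (q : ℕ) {w : M} (hw : w ∈ WS K' B θ ϖ q) (h0 : w ≠ 0)
    (hw' : w⁻¹ ∈ B) : w⁻¹ ∈ WS K' B θ ϖ q := by
  rcases q with _ | q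
  · rw [WS_zero h]
    exact hw'
  obtain ⟨A, hA⟩ := WS_alg h (q + 1)
  have mA : ∀ x : M, x ∈ A ↔ x ∈ WS K' B θ ϖ (q + 1) := fun x => by
    rw [← hA]; rfl
  obtain ⟨p, b, hb, e⟩ := (WS_iff h (q + 1) w).1 hw
  obtain ⟨b', hb', e'⟩ := poly_const h p
  set c : K' := constantCoeff p with hc
  -- the constant term is not zero
  have hwc : w = (c : M) + ϖ * (b' + ϖ ^ q * b) := by
    rw [e, e']
    ring
  have hbb : b' + ϖ ^ q * b ∈ B := add_mem hb' (mul_mem (h.pow q) hb)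
  have hc0 : (c : M) ≠ 0 := by
    intro hc0
    rw [hc0, zero_add] at hwc
    have h1 : (1 : M) = ϖ * ((b' + ϖ ^ q * b) * w⁻¹) := by
      rw [← mul_assoc, ← hwc, mul_inv_cancel₀ h0]
    have h2 := B.mem_nonunits_iff.1 h.unif
    have h3 : B.valuation 1 ≤ B.valuation ϖ := by
      rw [h1, map_mul]
      exact mul_le_of_le_one_right' ((B.valuation_le_one_iff _).2 (mul_mem hbb hw'))
    rw [map_one] at h3
    exact absurd h2 (not_lt.2 h3)
  have hcinv : (c : M)⁻¹ ∈ K' := inv_mem c.2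
  set x : M := 1 - (c : M)⁻¹ * w with hx
  have hxe : x = ϖ * (-(c : M)⁻¹ * (b' + ϖ ^ q * b)) := by
    rw [hx]
    conv_lhs => rw [hwc]
    field_simp
    ring
  have hxB : -(c : M)⁻¹ * (b' + ϖ ^ q * b) ∈ B := mul_mem (neg_mem (h.base _ hcinv)) hbb
  have hxA : x ∈ A := by
    refine sub_mem (one_mem _) (mul_mem ?_ ((mA _).2 hw))
    exact (mA _).2 (WS_base h _ hcinv)
  have hgeom : w⁻¹ = (c : M)⁻¹ * (∑ i ∈ Finset.range (q + 1), x ^ i) + x ^ (q + 1) * w⁻¹ := by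
    have h1 : (∑ i ∈ Finset.range (q + 1), x ^ i) * (x - 1) = x ^ (q + 1) - 1 := geom_sum_mul x _
    have h2 : x - 1 = -((c : M)⁻¹ * w) := by rw [hx]; ring
    rw [h2] at h1
    have h3 : x ^ (q + 1) = 1 - (∑ i ∈ Finset.range (q + 1), x ^ i) * ((c : M)⁻¹ * w) := by
      linear_combination -h1
    rw [h3]
    field_simp
    ring
  rw [hgeom, ← mA]
  refine add_mem (mul_mem ((mA _).2 (WS_base h _ hcinv)) (sum_mem fun i _ => pow_mem hxA i)) ?_
  rw [mA]
  apply WS_small h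
  rw [div_mem_iff h]
  refine ⟨(-(c : M)⁻¹ * (b' + ϖ ^ q * b)) ^ (q + 1) * w⁻¹, mul_mem (pow_mem hxB _) hw', ?_⟩
  rw [hxe, mul_pow]
  ring

theorem monomial_small (h : Par K' B θ ϖ) [Fintype σ] (q : ℕ) (m : σ →₀ ℕ) (a : K')
    (hm : ∃ s, q ≤ m s) : ∃ b ∈ B, aeval θ (monomial m a) = ϖ ^ q * b := by
  classical
  obtain ⟨s, hs⟩ := hm
  rw [aeval_monomial, Finsupp.prod_fintype _ _ (fun _ => pow_zero _),
    ← Finset.mul_prod_erase Finset.univ _ (Finset.mem_univ s)]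
  obtain ⟨r, hr⟩ := Nat.exists_eq_add_of_le hs
  obtain ⟨t, ht, e⟩ := (div_one_iff h (θ s)).1 (h.par s)
  refine ⟨(a : M) * (t ^ q * θ s ^ r * ∏ i ∈ Finset.univ.erase s, θ i ^ m i), ?_, ?_⟩
  · exact mul_mem (h.base _ a.2) (mul_mem (mul_mem (pow_mem ht _) (pow_mem (h.par' s) _))
      (prod_mem fun i _ => pow_mem (h.par' i) _))
  · rw [hr, pow_add]
    have : θ s ^ q = ϖ ^ q * t ^ q := by rw [← mul_pow, ← e]
    rw [this]
    change (a : M) * _ = _
    ring

/-- The count: more than `[K' : K] q ^ |σ|` elements have a combination in `ϖ ^ q B`. Take the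
coefficients of the polynomials at the monomials with all exponents less than `q`; the other monomials
are in `ϖ ^ q B` at `θ`. -/
theorem WS_count (h : Par K' B θ ϖ) [Fintype σ] [FiniteDimensional K K'] (q : ℕ) {ι : Type}
    [Fintype ι] (w : ι → M) (hw : ∀ i, w i ∈ WS K' B θ ϖ q)
    (hc : Module.finrank K K' * q ^ Fintype.card σ < Fintype.card ι) :
    ∃ c : ι → K, c ≠ 0 ∧ (∑ i, algebraMap K M (c i) * w i) / ϖ ^ q ∈ B := by
  classical
  choose p b hb e using fun i => (WS_iff h q (w i)).1 (hw i)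
  let ex : (σ → Fin q) → (σ →₀ ℕ) := fun m => Finsupp.equivFunOnFinite.symm fun s => (m s : ℕ)
  let T : (ι → K) →ₗ[K] ((σ → Fin q) → K') :=
    { toFun := fun c m => ∑ i, c i • coeff (ex m) (p i)
      map_add' := fun c c' => by
        funext m
        simp [add_smul, Finset.sum_add_distrib]
      map_smul' := fun r c => by
        funext m
        simp [mul_smul, Finset.smul_sum] }
  have hfin : Module.finrank K ((σ → Fin q) → K') < Module.finrank K (ι → K) := by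
    rw [Module.finrank_pi, Module.finrank_pi_fintype, Finset.sum_const, Finset.card_univ,
      Fintype.card_fun, Fintype.card_fin, smul_eq_mul, mul_comm]
    exact hc
  have hker : LinearMap.ker T ≠ ⊥ := LinearMap.ker_ne_bot_of_finrank_lt hfin
  obtain ⟨c, hcT, hc0⟩ := (Submodule.ne_bot_iff _).1 hker
  refine ⟨c, hc0, ?_⟩
  have hT : ∀ m : σ → Fin q, ∑ i, c i • coeff (ex m) (p i) = 0 := fun m =>
    congrFun (LinearMap.mem_ker.1 hcT) m
  set P : MvPolynomial σ K' := ∑ i, C (algebraMap K K' (c i)) * p i with hP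
  have hsum : (∑ i, algebraMap K M (c i) * w i) = aeval θ P +
      ϖ ^ q * ∑ i, algebraMap K M (c i) * b i := by
    rw [hP, map_sum, Finset.mul_sum, ← Finset.sum_add_distrib]
    refine Finset.sum_congr rfl fun i _ => ?_
    rw [e i, map_mul, algHom_C]
    have : (algebraMap K' M) (algebraMap K K' (c i)) = algebraMap K M (c i) := rfl
    rw [this]
    ring
  have hKB : ∀ x : K, algebraMap K M x ∈ B := fun x => h.base _ (K'.algebraMap_mem x)
  have hcoef : ∀ m : σ →₀ ℕ, (∀ s, m s < q) → coeff m P = 0 := by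
    intro m hm
    have := hT fun s => ⟨m s, hm s⟩
    have hex : ex (fun s => ⟨m s, hm s⟩) = m := by
      ext s
      simp [ex]
    rw [hex] at this
    rw [hP, coeff_sum, ← this]
    refine Finset.sum_congr rfl fun i _ => ?_
    rw [coeff_C_mul, Algebra.smul_def]
  have hPs : ∃ b ∈ B, aeval θ P = ϖ ^ q * b := by
    have hmon : ∀ m ∈ P.support, ∃ b ∈ B, aeval θ (monomial m (coeff m P)) = ϖ ^ q * b := by
      intro m hm
      apply monomial_small h
      by_contra hcon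
      push Not at hcon
      exact (mem_support_iff.1 hm) (hcoef m hcon)
    choose! g hg hge using hmon
    refine ⟨∑ m ∈ P.support, g m, sum_mem fun m hm => hg m hm, ?_⟩
    conv_lhs => rw [P.as_sum]
    rw [map_sum, Finset.mul_sum]
    exact Finset.sum_congr rfl fun m hm => hge m hm
  obtain ⟨g, hg, hge⟩ := hPs
  rw [hsum, div_mem_iff h]
  refine ⟨g + ∑ i, algebraMap K M (c i) * b i, add_mem hg (sum_mem fun i _ => mul_mem (hKB _)
    (hb i)), ?_⟩
  rw [hge]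
  ring

end

end Pool.Agent.H.MP_31a675_nt.Y
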