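import Pool.Agent.H.MP_31a675_nt.Y.Hat
import Pool.Agent.H.MP_31a675_nt.Y.Wq

/-!
# All coordinates are power series in the parameters
-/

namespace Pool.Agent.H.MP_31a675_nt.Y

open MvPolynomial

variable {K : Type} [Field K] {N : ℕ} {M : Type} [Field M] [Algebra K M]

theorem sys_par {D : Fin N → ℕ} {f : Fin N → MvPolynomial (Fin N) K} {j : Fin N}
    {K' : IntermediateField K M} {B : ValuationSubring M} {ϖ : M} {τ : ℕ → M} {U β : ℕ → Fin N → M}
    (h : Sys D f j K' B ϖ τ U β) : Par K' B (thet j (τ 0) (U 0)) ϖ := by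
  refine ⟨h.base, h.unif, h.ne, fun s => ?_⟩
  unfold thet
  split_ifs with hs
  · exact h.tau 0
  · exact h.small 0 s.1 (lt_of_le_of_ne s.2 hs)

theorem Step_aeval (A : Subalgebra K M) (U : Fin N → M) (h : ∀ i, U i ∈ A)
    (P : MvPolynomial (Fin N) K) : aeval U P ∈ A := by
  have : aeval U P = A.val (aeval (fun i => (⟨U i, h i⟩ : A)) P) := by
    rw [← AlgHom.comp_apply, comp_aeval]
    rfl
  rw [this]
  exact Subtype.coe_prop _

theorem Step_rest (A : Subalgebra K M) (τ : M) (U : Fin N → M) (hτ : τ ∈ A) (h : ∀ i, U i ∈ A)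
    (m : ℕ) (P : MvPolynomial (Fin N) K) :
    ∑ n ∈ Finset.range m, τ ^ (m - 1 - n) * aeval U (homogeneousComponent n P) ∈ A :=
  A.sum_mem fun _ _ => A.mul_mem (A.pow_mem hτ _) (Step_aeval A U h _)

theorem Step_hat (A : Subalgebra K M) (τ : M) (U : Fin N → M) (hτ : τ ∈ A) (h : ∀ i, U i ∈ A)
    (m : ℕ) (P : MvPolynomial (Fin N) K) : hat m P τ U ∈ A :=
  A.sum_mem fun _ _ => A.mul_mem (A.pow_mem hτ _) (Step_aeval A U h _)

theorem Step_inv {D : Fin N → ℕ} {f : Fin N → MvPolynomial (Fin N) K} {j : Fin N}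
    {K' : IntermediateField K M} {B : ValuationSubring M} {ϖ : M} {τ : ℕ → M} {U β : ℕ → Fin N → M}
    (h : Sys D f j K' B ϖ τ U β) (l : ℕ) :
    ∃ G : Matrix {i // j < i} {i // j < i} K', ∀ (δ : {i // j < i} → M) (a : {i // j < i}),
      δ a = ∑ i, (G a i : M) *
        ∑ i' : {i // j < i}, aeval (β l) (pderiv i'.1 (topf D f i.1)) * δ i' := by
  classical
  let βK : Fin N → K' := fun i => ⟨β l i, h.bmem l i⟩
  let J : Matrix {i // j < i} {i // j < i} K' :=
    Matrix.of fun i i' => aeval βK (pderiv i'.1 (topf D f i.1))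
  have hJ : ∀ i i', ((J i i' : K') : M) = aeval (β l) (pderiv i'.1 (topf D f i.1)) := by
    intro i i'
    show K'.val (aeval βK (pderiv i'.1 (topf D f i.1))) = _
    rw [← AlgHom.comp_apply, comp_aeval]
    rfl
  have hdet : J.det ≠ 0 := by
    intro h0
    apply h.bdet l
    have h1 : (Matrix.of fun i i' : {i // j < i} => aeval (β l) (pderiv i'.1 (topf D f i.1))) =
        (algebraMap K' M).mapMatrix J := by
      ext i i'
      rw [RingHom.mapMatrix_apply, Matrix.map_apply, Matrix.of_apply, ← hJ]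
      rfl
    rw [h1, ← RingHom.map_det, h0, map_zero]
  refine ⟨J⁻¹, fun δ a => ?_⟩
  have h2 : J⁻¹ * J = 1 := Matrix.nonsing_inv_mul J (isUnit_iff_ne_zero.2 hdet)
  have h3 : ∀ a i', ∑ i, ((J⁻¹ a i : K') : M) * ((J i i' : K') : M) = if a = i' then 1 else 0 := by
    intro a i'
    have h4 := congrFun (congrFun h2 a) i'
    rw [Matrix.mul_apply, Matrix.one_apply] at h4
    have h5 := congrArg (algebraMap K' M) h4
    rw [map_sum] at h5
    simp only [map_mul] at h5
    rw [apply_ite (algebraMap K' M), map_one, map_zero] at h5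
    exact h5
  calc δ a = ∑ i', (if a = i' then 1 else 0) * δ i' := by
        simp
    _ = ∑ i', (∑ i, ((J⁻¹ a i : K') : M) * ((J i i' : K') : M)) * δ i' := by
        refine Finset.sum_congr rfl fun i' _ => ?_
        rw [h3]
    _ = ∑ i, (J⁻¹ a i : M) * ∑ i', aeval (β l) (pderiv i'.1 (topf D f i.1)) * δ i' := by
        simp only [Finset.sum_mul, Finset.mul_sum]
        rw [Finset.sum_comm]
        refine Finset.sum_congr rfl fun i _ => Finset.sum_congr rfl fun i' _ => ?_
        rw [hJ]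
        ring

section

variable {D : Fin N → ℕ} {d : ℕ} {f : Fin N → MvPolynomial (Fin N) K}
    {j : Fin N} {K' : IntermediateField K M} {B : ValuationSubring M} {ϖ : M}
    {τ : ℕ → M} {U β : ℕ → Fin N → M}

theorem Step_lt (hD : Degs D d) (hj : D j < d) {i : Fin N} (hi : j < i) : D j < D i := by
  rcases hD.inc j i hi with h | h
  · exact h
  · omega

theorem Step_lt' (hD : Degs D d) (hj : D j < d) {i : Fin N} (hi : i < j) : D i < D j := by
  rcases hD.inc i j hi with h | h
  · exact h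
  · omega

theorem Step_div {ϖ : M} (h : ϖ ≠ 0) (a : M) : a / ϖ ∈ B ↔ B.valuation a ≤ B.valuation ϖ := by
  rw [← B.valuation_le_one_iff, map_div₀]
  have h1 : B.valuation ϖ ≠ 0 := (Valuation.ne_zero_iff _).2 h
  exact div_le_one₀ (zero_lt_iff.2 h1)

/-- The formula for the deviation `δ`. -/
theorem Step_taylor (h : Sys D f j K' B ϖ τ U β) (A : Subalgebra K M) (l : ℕ)
    (hU : ∀ i, U l i ∈ A) (hβ : ∀ i, β l i ∈ A) (i : Fin N) (hi : j < i) :
    ∃ R : Fin N → Fin N → M, (∀ a b, R a b ∈ A) ∧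
      ∑ i' : {i // j < i}, aeval (β l) (pderiv i'.1 (topf D f i)) * (U l i'.1 - β l i'.1) =
        hat (D i) (f i) (τ l) (U l) -
          τ l * ∑ n ∈ Finset.range (D i), τ l ^ (D i - 1 - n) *
            aeval (U l) (homogeneousComponent n (f i)) -
          ∑ i' : {i // ¬ j < i}, aeval (β l) (pderiv i'.1 (topf D f i)) * (U l i'.1 - β l i'.1) -
          ∑ a, ∑ b, (U l a - β l a) * (U l b - β l b) * R a b := by
  obtain ⟨R, hR, hR'⟩ := taylor₂ (topf D f i) (β l) (fun i => U l i - β l i) A hβ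
    fun i => A.sub_mem (hU i) (hβ i)
  refine ⟨R, hR, ?_⟩
  have h1 : (fun i => β l i + (U l i - β l i)) = U l := by
    funext i
    ring
  rw [h1, h.bzero l i hi, zero_add] at hR'
  have h2 := hat_eq (D i) (f i) (τ l) (U l)
  have h3 := Fintype.sum_subtype_add_sum_subtype (fun i' : Fin N => j < i')
    (fun i' => aeval (β l) (pderiv i' (topf D f i)) * (U l i' - β l i'))
  have h4 : aeval (U l) (homogeneousComponent (D i) (f i)) = aeval (U l) (topf D f i) := rfl
  rw [h4, hR', ← h3] at h2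
  rw [h2]
  ring

/-- The deviations are in `ϖ B`. -/
theorem Step_delta (hD : Degs D d) (hj : D j < d) (h : Sys D f j K' B ϖ τ U β) (l : ℕ) (i : Fin N) :
    (U l i - β l i) / ϖ ∈ B := by
  classical
  have hp := sys_par h
  have hv : ∀ a : M, a / ϖ ∈ B ↔ B.valuation a ≤ B.valuation ϖ := Step_div h.ne
  have hlow : ∀ i, ¬ j < i → (U l i - β l i) / ϖ ∈ B := by
    intro i hi
    rcases lt_or_eq_of_le (not_lt.1 hi) with h1 | h1
    · rw [h.blow l i h1, sub_zero]
      exact h.small l i h1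
    · rw [h1, h.bj, h.one, sub_self, zero_div]
      exact B.zero_mem
  by_cases hi : j < i
  swap
  · exact hlow i hi
  -- the subalgebra `B`
  obtain ⟨A, hA⟩ := WS_alg hp 0
  rw [WS_zero hp] at hA
  have hmem : ∀ a, a ∈ A ↔ a ∈ B := fun a => by
    rw [← SetLike.mem_coe, hA, SetLike.mem_coe]
  have hU : ∀ i, U l i ∈ A := fun i => (hmem _).2 (h.mem l i)
  have hβ : ∀ i, β l i ∈ A := fun i => (hmem _).2 (h.base _ (h.bmem l i))
  have hτ : τ l ∈ A := by
    rw [hmem]
    have h1 := B.mul_mem _ _ (h.tau l) (B.nonunits_subset h.unif)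
    rwa [div_mul_cancel₀ _ h.ne] at h1
  obtain ⟨G, hG⟩ := Step_inv h l
  have : Nonempty {i // j < i} := ⟨⟨i, hi⟩⟩
  obtain ⟨m, hm⟩ := Finite.exists_max fun i : {i // j < i} => B.valuation (U l i.1 - β l i.1)
  set t := B.valuation (U l m.1 - β l m.1) with ht
  rw [hv]
  refine (hm ⟨i, hi⟩).trans ?_
  by_contra hc
  push Not at hc
  have ht1 : t < 1 := (B.mem_nonunits_iff).1 (h.bres l m.1)
  have ht0 : 0 < t := lt_of_le_of_lt zero_le hc
  have hall : ∀ i, B.valuation (U l i - β l i) ≤ t := by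
    intro i
    by_cases h1 : j < i
    · exact hm ⟨i, h1⟩
    · exact ((hv _).1 (hlow i h1)).trans hc.le
  have hle : ∀ a, a ∈ A → B.valuation a ≤ 1 := fun a ha =>
    (B.valuation_le_one_iff a).2 ((hmem a).1 ha)
  have hϖ : ∀ a, a / ϖ ∈ B → B.valuation a < t := fun a ha => lt_of_le_of_lt ((hv a).1 ha) hc
  have key : ∀ i : {i // j < i}, B.valuation (∑ i' : {i // j < i},
      aeval (β l) (pderiv i'.1 (topf D f i.1)) * (U l i'.1 - β l i'.1)) < t := by
    intro i
    obtain ⟨R, hR, hR'⟩ := Step_taylor h A l hU hβ i.1 i.2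
    rw [hR']
    have hdiv : ∀ a b : M, a / ϖ ∈ B → b ∈ A → a * b / ϖ ∈ B := fun a b ha hb => by
      have : a * b / ϖ = a / ϖ * b := by ring
      rw [this]
      exact B.mul_mem _ _ ha ((hmem b).1 hb)
    have e1 : B.valuation (hat (D i.1) (f i.1) (τ l) (U l)) < t := by
      apply hϖ
      rw [h.rhigh l i.1 i.2]
      have h1 : D i.1 - D j = (D i.1 - D j - 1) + 1 := by
        have := Step_lt hD hj i.2
        omega
      have hUl : U (l + 1) i.1 ∈ A := (hmem _).2 (h.mem _ _)
      rw [h1, pow_succ']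
      have h2 : τ l * τ l ^ (D i.1 - D j - 1) * (U (l + 1) i.1 * hat (D j) (f j) (τ l) (U l)) =
          τ l * (τ l ^ (D i.1 - D j - 1) * (U (l + 1) i.1 * hat (D j) (f j) (τ l) (U l))) := by ring
      rw [h2]
      exact hdiv _ _ (h.tau l) (A.mul_mem (A.pow_mem hτ _)
        (A.mul_mem hUl (Step_hat A _ _ hτ hU _ _)))
    have e2 : B.valuation (τ l * ∑ n ∈ Finset.range (D i.1), τ l ^ (D i.1 - 1 - n) *
            aeval (U l) (homogeneousComponent n (f i.1))) < t :=
      hϖ _ (hdiv _ _ (h.tau l) (Step_rest A _ _ hτ hU _ _))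
    have e3 : B.valuation (∑ i' : {i // ¬ j < i}, aeval (β l) (pderiv i'.1 (topf D f i.1)) *
        (U l i'.1 - β l i'.1)) < t := by
      refine Valuation.map_sum_lt _ ht0.ne' fun i' _ => ?_
      apply hϖ
      rw [mul_comm]
      exact hdiv _ _ (hlow i'.1 i'.2) (Step_aeval A _ hβ _)
    have e4 : B.valuation (∑ a, ∑ b, (U l a - β l a) * (U l b - β l b) * R a b) < t := by
      refine Valuation.map_sum_lt _ ht0.ne' fun a _ => Valuation.map_sum_lt _ ht0.ne' fun b _ => ?_
      rw [map_mul, map_mul]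
      have h5 : B.valuation (U l b - β l b) < 1 := (B.mem_nonunits_iff).1 (h.bres l b)
      calc B.valuation (U l a - β l a) * B.valuation (U l b - β l b) * B.valuation (R a b)
          ≤ B.valuation (U l a - β l a) * B.valuation (U l b - β l b) * 1 :=
            mul_le_mul' le_rfl (hle _ (hR a b))
        _ = B.valuation (U l a - β l a) * B.valuation (U l b - β l b) := mul_one _
        _ ≤ t * B.valuation (U l b - β l b) := mul_le_mul' (hall a) le_rfl
        _ < t * 1 := by
            exact mul_lt_mul_of_pos_left h5 ht0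
        _ = t := mul_one t
    exact Valuation.map_sub_lt _ (Valuation.map_sub_lt _ (Valuation.map_sub_lt _ e1 e2) e3) e4
  have h6 : t < t := by
    conv_lhs => rw [ht, hG (fun i => U l i.1 - β l i.1) m]
    refine Valuation.map_sum_lt _ ht0.ne' fun i _ => ?_
    rw [map_mul]
    calc B.valuation (G m i : M) * _ ≤ 1 * _ :=
          mul_le_mul' ((B.valuation_le_one_iff _).2 (h.base _ (G m i).2)) le_rfl
      _ = _ := one_mul _
      _ < t := key i
  exact lt_irrefl _ h6

end

/-- Induction on `q`, then on `l` for `τ l` and the `U l i`, `i < j` (relations `rtau`, `rlow`,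
`WS_mul`, `WS_inv`), then the `U l i`, `j < i`, by the Taylor expansion of the top forms at `β l`
(`taylor₂`, `rhigh`, `WS_mul`, `WS_mul'`, inverse of the Jacobian matrix over `K'`); that
`U l i - β l i` is in `ϖ B` follows in the same way. -/
theorem sys_step {D : Fin N → ℕ} {d : ℕ} (hD : Degs D d) {f : Fin N → MvPolynomial (Fin N) K}
    {j : Fin N} (hj : D j < d) {K' : IntermediateField K M} {B : ValuationSubring M} {ϖ : M}
    {τ : ℕ → M} {U β : ℕ → Fin N → M} (h : Sys D f j K' B ϖ τ U β) (q : ℕ) :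
    ∀ l, τ l ∈ WS K' B (thet j (τ 0) (U 0)) ϖ q ∧
      ∀ i, U l i ∈ WS K' B (thet j (τ 0) (U 0)) ϖ q := by
  classical
  have hp := sys_par h
  have hτB : ∀ l, τ l ∈ B := fun l => by
    have h1 := B.mul_mem _ _ (h.tau l) (B.nonunits_subset h.unif)
    rwa [div_mul_cancel₀ _ h.ne] at h1
  induction q with
  | zero =>
    intro l
    rw [WS_zero hp]
    exact ⟨hτB l, h.mem l⟩
  | succ q ih =>
    obtain ⟨A, hA⟩ := WS_alg hp q
    obtain ⟨A', hA'⟩ := WS_alg hp (q + 1)
    have hmem : ∀ a, a ∈ A ↔ a ∈ WS K' B (thet j (τ 0) (U 0)) ϖ q := fun a => by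
      rw [← SetLike.mem_coe, hA]
    have hmem' : ∀ a, a ∈ A' ↔ a ∈ WS K' B (thet j (τ 0) (U 0)) ϖ (q + 1) := fun a => by
      rw [← SetLike.mem_coe, hA']
    have hτ : ∀ l, τ l ∈ A := fun l => (hmem _).2 (ih l).1
    have hU : ∀ l i, U l i ∈ A := fun l i => (hmem _).2 ((ih l).2 i)
    have hh : ∀ l m P, hat m P (τ l) (U l) ∈ A := fun l m P => Step_hat A _ _ (hτ l) (hU l) m P
    have hinv : ∀ l, (hat (D j) (f j) (τ l) (U l))⁻¹ ∈ A := fun l =>
      (hmem _).2 (WS_inv hp q ((hmem _).1 (hh l _ _)) (h.hne l) (h.unit l))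
    have hmul : ∀ a w, a ∈ A' → a / ϖ ∈ B → w ∈ A → a * w ∈ A' := fun a w ha ha' hw =>
      (hmem' _).2 (WS_mul hp q ((hmem' _).1 ha) ha' ((hmem _).1 hw))
    -- the parameters
    have hlow : ∀ l, τ l ∈ A' ∧ ∀ i, ¬ j < i → U l i ∈ A' := by
      intro l
      induction l with
      | zero =>
        refine ⟨?_, fun i hi => ?_⟩
        · have h1 := WS_par hp (q + 1) ⟨j, le_rfl⟩
          rw [hmem']
          unfold thet at h1 ⊢
          simpa using h1
        · rcases lt_or_eq_of_le (not_lt.1 hi) with h1 | h1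
          · have h2 := WS_par hp (q + 1) ⟨i, h1.le⟩
            rw [hmem']
            unfold thet at h2 ⊢
            simpa [h1.ne] using h2
          · rw [h1, h.one]
            exact A'.one_mem
      | succ l ihl =>
        have hne := h.hne l
        refine ⟨?_, fun i hi => ?_⟩
        · have h1 : τ (l + 1) = τ l * (τ l ^ (D j - 1) * (hat (D j) (f j) (τ l) (U l))⁻¹) := by
            have h2 := h.rtau l
            have h3 : D j = (D j - 1) + 1 := by
              have := hD.pos j
              omega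
            rw [eq_comm, ← mul_assoc, ← pow_succ', ← h3, ← h2, mul_assoc, mul_inv_cancel₀ hne,
              mul_one]
          rw [h1]
          exact hmul _ _ ihl.1 (h.tau l) (A.mul_mem (A.pow_mem (hτ l) _) (hinv l))
        · rcases lt_or_eq_of_le (not_lt.1 hi) with h1 | h1
          · have h1' : U (l + 1) i = τ l * (τ l ^ (D j - D i - 1) *
                (hat (D i) (f i) (τ l) (U l) * (hat (D j) (f j) (τ l) (U l))⁻¹)) := by
              have h2 := h.rlow l i h1
              have h3 : D j - D i = (D j - D i - 1) + 1 := by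
                have := Step_lt' hD hj h1
                omega
              have h4 : U (l + 1) i = τ l ^ (D j - D i) * hat (D i) (f i) (τ l) (U l) *
                  (hat (D j) (f j) (τ l) (U l))⁻¹ := by
                rw [← h2, mul_assoc, mul_inv_cancel₀ hne, mul_one]
              rw [h4, h3, pow_succ']
              simp only [Nat.add_sub_cancel]
              ring
            rw [h1']
            exact hmul _ _ ihl.1 (h.tau l) (A.mul_mem (A.pow_mem (hτ l) _)
              (A.mul_mem (hh l _ _) (hinv l)))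
          · rw [h1, h.one]
            exact A'.one_mem
    intro l
    refine ⟨(hmem' _).1 (hlow l).1, fun i => ?_⟩
    rw [← hmem']
    by_cases hi : j < i
    swap
    · exact (hlow l).2 i hi
    have hβ' : ∀ i, β l i ∈ A' := fun i => (hmem' _).2 (WS_base hp _ (h.bmem l i))
    have hβ : ∀ i, β l i ∈ A := fun i => (hmem _).2 (WS_base hp _ (h.bmem l i))
    have hδ : ∀ i, (U l i - β l i) / ϖ ∈ B := Step_delta hD hj h l
    have hδA : ∀ i, U l i - β l i ∈ A := fun i => A.sub_mem (hU l i) (hβ i)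
    obtain ⟨G, hG⟩ := Step_inv h l
    have key : ∀ i : {i // j < i}, ∑ i' : {i // j < i},
        aeval (β l) (pderiv i'.1 (topf D f i.1)) * (U l i'.1 - β l i'.1) ∈ A' := by
      intro i
      obtain ⟨R, hR, hR'⟩ := Step_taylor h A l (hU l) hβ i.1 i.2
      rw [hR']
      have e1 : hat (D i.1) (f i.1) (τ l) (U l) ∈ A' := by
        rw [h.rhigh l i.1 i.2]
        have h1 : D i.1 - D j = (D i.1 - D j - 1) + 1 := by
          have := Step_lt hD hj i.2
          omega
        rw [h1, pow_succ']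
        have h2 : τ l * τ l ^ (D i.1 - D j - 1) * (U (l + 1) i.1 * hat (D j) (f j) (τ l) (U l)) =
          τ l * (τ l ^ (D i.1 - D j - 1) * (U (l + 1) i.1 * hat (D j) (f j) (τ l) (U l))) := by ring
        rw [h2]
        exact hmul _ _ (hlow l).1 (h.tau l) (A.mul_mem (A.pow_mem (hτ l) _)
          (A.mul_mem (hU _ _) (hh l _ _)))
      have e2 : τ l * ∑ n ∈ Finset.range (D i.1), τ l ^ (D i.1 - 1 - n) *
            aeval (U l) (homogeneousComponent n (f i.1)) ∈ A' :=
        hmul _ _ (hlow l).1 (h.tau l) (Step_rest A _ _ (hτ l) (hU l) _ _)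
      have e3 : ∑ i' : {i // ¬ j < i}, aeval (β l) (pderiv i'.1 (topf D f i.1)) *
          (U l i'.1 - β l i'.1) ∈ A' := by
        refine A'.sum_mem fun i' _ => ?_
        exact A'.mul_mem (Step_aeval A' _ hβ' _) (A'.sub_mem ((hlow l).2 i'.1 i'.2) (hβ' _))
      have e4 : ∑ a, ∑ b, (U l a - β l a) * (U l b - β l b) * R a b ∈ A' := by
        refine A'.sum_mem fun a _ => A'.sum_mem fun b _ => ?_
        refine hmul _ _ ?_ ?_ (hR a b)
        · exact (hmem' _).2 (WS_mul' hp q ((hmem _).1 (hδA a)) (hδ a) ((hmem _).1 (hδA b)) (hδ b))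
        · have h5 : (U l a - β l a) * (U l b - β l b) / ϖ =
              (U l a - β l a) / ϖ * (U l b - β l b) := by ring
          rw [h5]
          exact B.mul_mem _ _ (hδ a) (B.nonunits_subset (h.bres l b))
      exact A'.sub_mem (A'.sub_mem (A'.sub_mem e1 e2) e3) e4
    have h6 : U l i - β l i ∈ A' := by
      rw [hG (fun i => U l i.1 - β l i.1) ⟨i, hi⟩]
      exact A'.sum_mem fun i' _ => A'.mul_mem ((hmem' _).2 (WS_base hp _ (G _ i').2)) (key i')
    have h7 := A'.add_mem h6 (hβ' i)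
    rwa [sub_add_cancel] at h7

end Pool.Agent.H.MP_31a675_nt.Y
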