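import Pool.Agent.H.MP_31a675_nt.Basic
import Pool.Agent.H.MP_31a675_nt.Y.Norm
import Pool.Agent.H.MP_31a675_nt.Y.Step

/-!
# Small combinations of products of coordinates of the iterates
-/

namespace Pool.Agent.H.MP_31a675_nt.Y

open MvPolynomial

variable {K : Type} [Field K] {N : ℕ} {M : Type} [Field M] [Algebra K M]

theorem Core_itp {f : Fin N → MvPolynomial (Fin N) K} (x : ℕ → Fin N → M)
    (hx : ∀ l i, x (l + 1) i = aeval (x l) (f i)) (l : ℕ) (i : Fin N) :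
    aeval (x 1) (itp f l i) = x (l + 1) i := by
  induction l generalizing i with
  | zero =>
    have h : itp f 0 i = X i := rfl
    rw [h, aeval_X]
  | succ l ih =>
    rw [itp_succ, hx (l + 1) i, comp_aeval_apply]
    congr 2
    funext k
    exact ih k

/-- The value of `PP` at the point `x 1` of the orbit. -/
theorem aeval_PP {f : Fin N → MvPolynomial (Fin N) K} {j : Fin N} (c : ℕ → Fin N) {T L d : ℕ}
    (a : ({i : Fin N // i ≤ j} → Fin T) × (Fin L → Fin d) → K) (x : ℕ → Fin N → M)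
    (hx : ∀ l i, x (l + 1) i = aeval (x l) (f i)) :
    aeval (x 1) (PP f j c a) = ∑ s, algebraMap K M (a s) *
      ((∏ i : {i : Fin N // i ≤ j}, x 1 i.1 ^ (s.1 i : ℕ)) *
        ∏ l : Fin L, x (l + 1) (c l) ^ (s.2 l : ℕ)) := by
  unfold PP
  rw [map_sum]
  refine Finset.sum_congr rfl fun s _ => ?_
  rw [map_mul, map_mul, map_prod, map_prod, aeval_C]
  congr 2
  · refine Finset.prod_congr rfl fun i _ => ?_
    rw [map_pow, aeval_X]
  · refine Finset.prod_congr rfl fun l _ => ?_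
    rw [map_pow, Core_itp x hx]

theorem Core_pow (y z : M) (e : ℕ) {a b : ℕ} (h : a < b) :
    y ^ a * z ^ (e * b) = (z ^ e * y) ^ a * z ^ (e * (b - a)) := by
  obtain ⟨k, rfl⟩ := Nat.exists_eq_add_of_lt h
  have h1 : a + k + 1 - a = k + 1 := by omega
  rw [h1, mul_pow, ← pow_mul]
  ring

/-- Powers of `τ 0` times the inverse of `τ l`. -/
theorem Core_tau {D : Fin N → ℕ} {f : Fin N → MvPolynomial (Fin N) K}
    {j : Fin N} {K' : IntermediateField K M} {B : ValuationSubring M} {ϖ : M}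
    {τ : ℕ → M} {U β : ℕ → Fin N → M} (h : Sys D f j K' B ϖ τ U β) (A : Subalgebra K M)
    (hτ : ∀ l, τ l ∈ A) (hU : ∀ l i, U l i ∈ A) (l : ℕ) : τ 0 ^ (D j ^ l) * (τ l)⁻¹ ∈ A := by
  induction l with
  | zero =>
    rw [pow_zero, pow_one, mul_inv_cancel₀ (h.tne 0)]
    exact A.one_mem
  | succ l ih =>
    have h1 := h.rtau l
    have h2 : (τ (l + 1))⁻¹ = hat (D j) (f j) (τ l) (U l) * (τ l)⁻¹ ^ D j := by
      have h3 : τ (l + 1) * (hat (D j) (f j) (τ l) (U l) * (τ l)⁻¹ ^ D j) = 1 := by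
        rw [← mul_assoc, h1, ← mul_pow, mul_inv_cancel₀ (h.tne l), one_pow]
      exact inv_eq_of_mul_eq_one_right h3
    have h4 : τ 0 ^ (D j ^ (l + 1)) * (τ (l + 1))⁻¹ =
        (τ 0 ^ (D j ^ l) * (τ l)⁻¹) ^ D j * hat (D j) (f j) (τ l) (U l) := by
      rw [h2, pow_succ, pow_mul, mul_pow]
      ring
    rw [h4]
    exact A.mul_mem (A.pow_mem ih _) (Step_hat A _ _ (hτ l) (hU l) _ _)

/-- Each product, multiplied by a power of `τ 0`, is in `WS q`. -/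
theorem prod_mem {D : Fin N → ℕ} {d : ℕ} (hD : Degs D d) {f : Fin N → MvPolynomial (Fin N) K}
    {j : Fin N} (hj : D j < d) {K' : IntermediateField K M} {B : ValuationSubring M} {ϖ : M}
    {x : ℕ → Fin N → M} {β : ℕ → Fin N → M} (hx : ∀ l, x (l + 1) j ≠ 0)
    (h : Sys D f j K' B ϖ (fun l => (x (l + 1) j)⁻¹) (fun l i => x (l + 1) i / x (l + 1) j) β)
    (q : ℕ) (c : ℕ → Fin N) {T L : ℕ}
    (s : ({i : Fin N // i ≤ j} → Fin T) × (Fin L → Fin d)) :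
    ((∏ i : {i : Fin N // i ≤ j}, x 1 i.1 ^ (s.1 i : ℕ)) *
        ∏ l : Fin L, x (l + 1) (c l) ^ (s.2 l : ℕ)) * (x 1 j)⁻¹ ^ EE D j T L d ∈
      WS K' B (thet j (x 1 j)⁻¹ (fun i => x 1 i / x 1 j)) ϖ q := by
  have hp := sys_par h
  have hs := sys_step hD hj h q
  obtain ⟨A, hA⟩ := WS_alg hp q
  have hmem : ∀ a, a ∈ A ↔ a ∈ WS K' B (thet j (x 1 j)⁻¹ (fun i => x 1 i / x 1 j)) ϖ q :=
    fun a => by
      rw [← SetLike.mem_coe, hA]
  have hτ : ∀ l, (x (l + 1) j)⁻¹ ∈ A := fun l => (hmem _).2 (hs l).1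
  have hU : ∀ l i, x (l + 1) i / x (l + 1) j ∈ A := fun l i => (hmem _).2 ((hs l).2 i)
  have hT : ∀ l, (x 1 j)⁻¹ ^ (D j ^ l) * x (l + 1) j ∈ A := fun l => by
    have h1 := Core_tau h A hτ hU l
    simpa only [inv_inv, zero_add] using h1
  have hX : ∀ l i, (x 1 j)⁻¹ ^ (D j ^ l) * x (l + 1) i ∈ A := fun l i => by
    have h1 := A.mul_mem (hT l) (hU l i)
    have h2 : (x 1 j)⁻¹ ^ (D j ^ l) * x (l + 1) j * (x (l + 1) i / x (l + 1) j) =
        (x 1 j)⁻¹ ^ (D j ^ l) * x (l + 1) i := by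
      have := hx l
      field_simp
    rwa [h2] at h1
  have hτ0 : (x 1 j)⁻¹ ∈ A := hτ 0
  have hE : (x 1 j)⁻¹ ^ EE D j T L d =
      (∏ _i : {i : Fin N // i ≤ j}, (x 1 j)⁻¹ ^ T) *
        ∏ l : Fin L, (x 1 j)⁻¹ ^ (D j ^ (l : ℕ) * d) := by
    unfold EE
    rw [pow_add, Finset.prod_const, Finset.card_univ, ← pow_mul, mul_comm T,
      Finset.prod_pow_eq_pow_sum, Finset.mul_sum, ← Fin.sum_univ_eq_sum_range]
    congr 3
    funext l
    ring
  have hre : ((∏ i : {i : Fin N // i ≤ j}, x 1 i.1 ^ (s.1 i : ℕ)) *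
        ∏ l : Fin L, x (l + 1) (c l) ^ (s.2 l : ℕ)) * (x 1 j)⁻¹ ^ EE D j T L d =
      (∏ i : {i : Fin N // i ≤ j}, (x 1 i.1 ^ (s.1 i : ℕ) * (x 1 j)⁻¹ ^ T)) *
        ∏ l : Fin L, (x (l + 1) (c l) ^ (s.2 l : ℕ) * (x 1 j)⁻¹ ^ (D j ^ (l : ℕ) * d)) := by
    rw [hE, Finset.prod_mul_distrib, Finset.prod_mul_distrib]
    ring
  rw [hre, ← hmem]
  refine A.mul_mem (Subalgebra.prod_mem _ fun i _ => ?_) (Subalgebra.prod_mem _ fun l _ => ?_)
  · have h1 := Core_pow (x 1 i.1) (x 1 j)⁻¹ 1 (s.1 i).2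
    rw [one_mul] at h1
    rw [h1]
    have h2 := hX 0 i.1
    rw [pow_zero, zero_add] at h2
    exact A.mul_mem (A.pow_mem h2 _) (A.pow_mem hτ0 _)
  · rw [Core_pow (x (l + 1) (c l)) (x 1 j)⁻¹ (D j ^ (l : ℕ)) (s.2 l).2]
    exact A.mul_mem (A.pow_mem (hX l _) _) (A.pow_mem hτ0 _)

/-- The main estimate. -/
theorem core [IsAlgClosed M] {D : Fin N → ℕ} {d : ℕ} (hD : Degs D d)
    {f : Fin N → MvPolynomial (Fin N) K} (hf : Gen D d f) {j : Fin N} (hj : D j < d)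
    {B : ValuationSubring M} {x : ℕ → Fin N → M} (h : Orb D f j B x) :
    ∃ r : ℕ, ∀ (q T L : ℕ) (c : ℕ → Fin N),
      r * q ^ Fintype.card {i : Fin N // i ≤ j} <
        T ^ Fintype.card {i : Fin N // i ≤ j} * d ^ L →
      ∃ a : ({i : Fin N // i ≤ j} → Fin T) × (Fin L → Fin d) → K, a ≠ 0 ∧
        aeval (x 1) (PP f j c a) ^ D j * x 1 j ^ q / x 1 j ^ (D j * EE D j T L d) ∈ B := by
  have hval := (orb_val hD hf hj h).1
  have hx : ∀ l, x (l + 1) j ≠ 0 := fun l h0 => by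
    have h1 := (hval l).1
    rw [h0, map_zero] at h1
    exact absurd h1 (not_lt.2 zero_le_one)
  obtain ⟨K', ϖ, β, hfd, hϖ, hS⟩ := orb_sys hD hf hj h
  refine ⟨Module.finrank K K', fun q T L c hc => ?_⟩
  have hp := sys_par hS
  have hcard : Module.finrank K K' * q ^ Fintype.card {i : Fin N // i ≤ j} <
      Fintype.card (({i : Fin N // i ≤ j} → Fin T) × (Fin L → Fin d)) := by
    rw [Fintype.card_prod, Fintype.card_fun, Fintype.card_fun, Fintype.card_fin,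
      Fintype.card_fin, Fintype.card_fin]
    exact hc
  obtain ⟨a, ha, hB⟩ := WS_count hp q
    (fun s : ({i : Fin N // i ≤ j} → Fin T) × (Fin L → Fin d) =>
      ((∏ i : {i : Fin N // i ≤ j}, x 1 i.1 ^ (s.1 i : ℕ)) *
        ∏ l : Fin L, x (l + 1) (c l) ^ (s.2 l : ℕ)) * (x 1 j)⁻¹ ^ EE D j T L d)
    (fun s => prod_mem hD hj hx hS q c s) hcard
  refine ⟨a, ha, ?_⟩
  have h1 : (∑ s, algebraMap K M (a s) *
      (((∏ i : {i : Fin N // i ≤ j}, x 1 i.1 ^ (s.1 i : ℕ)) *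
        ∏ l : Fin L, x (l + 1) (c l) ^ (s.2 l : ℕ)) * (x 1 j)⁻¹ ^ EE D j T L d)) =
      aeval (x 1) (PP f j c a) * (x 1 j)⁻¹ ^ EE D j T L d := by
    rw [aeval_PP c a x h.step, Finset.sum_mul]
    refine Finset.sum_congr rfl fun s _ => ?_
    ring
  rw [h1] at hB
  have h2 := pow_mem hB (D j)
  have h3 : (aeval (x 1) (PP f j c a) * (x 1 j)⁻¹ ^ EE D j T L d / ϖ ^ q) ^ D j =
      aeval (x 1) (PP f j c a) ^ D j * x 1 j ^ q / x 1 j ^ (D j * EE D j T L d) := by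
    have h4 : (ϖ ^ q) ^ D j = (x 1 j ^ q)⁻¹ := by
      rw [← pow_mul, mul_comm, pow_mul, hϖ, inv_pow]
    rw [div_pow, h4, mul_pow, ← pow_mul, inv_pow, mul_comm (EE D j T L d), div_inv_eq_mul]
    ring
  rwa [h3] at h2

end Pool.Agent.H.MP_31a675_nt.Y
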