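import Pool.Agent.H.MP_31a675_nt.Y.DefsB

/-!
# Dimensions of spaces of monomials
-/

namespace Pool.Agent.H.MP_31a675_nt.Y

open MvPolynomial

variable {K : Type} [Field K] {M : Type} [Field M] [Algebra K M] {σ : Type} [Fintype σ]

theorem Hil_fd (y : σ → M) (T : ℕ) : FiniteDimensional K
    (Submodule.span K (Set.range fun a : σ → Fin T => ∏ s, y s ^ (a s : ℕ))) := by
  classical
  exact FiniteDimensional.span_of_finite K (Set.finite_range _)

theorem hil_mono (y : σ → M) {T T' : ℕ} (h : T ≤ T') : hil K y T ≤ hil K y T' := by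
  have := Hil_fd (K := K) y T'
  unfold hil
  apply Submodule.finrank_mono
  apply Submodule.span_mono
  rintro _ ⟨a, rfl⟩
  exact ⟨fun s => Fin.castLE h (a s), by simp⟩

theorem hil_pos (y : σ → M) {T : ℕ} (h : 1 ≤ T) : 1 ≤ hil K y T := by
  have := Hil_fd (K := K) y T
  rw [Nat.one_le_iff_ne_zero]
  intro h0
  unfold hil at h0
  rw [Submodule.finrank_eq_zero] at h0
  have h1 : (1 : M) ∈ Submodule.span K
      (Set.range fun a : σ → Fin T => ∏ s, y s ^ (a s : ℕ)) :=
    Submodule.subset_span ⟨fun _ => ⟨0, h⟩, by simp⟩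
  rw [h0, Submodule.mem_bot] at h1
  exact one_ne_zero h1

/-- A basis of monomials, with their span. -/
theorem Hil_basis_aux (y : σ → M) (T : ℕ) : ∃ S : Finset (σ → Fin T), S.card = hil K y T ∧
    (LinearIndependent K fun a : S => ∏ s, y s ^ (a.1 s : ℕ)) ∧
    Submodule.span K (Set.range fun a : S => ∏ s, y s ^ (a.1 s : ℕ)) =
      Submodule.span K (Set.range fun a : σ → Fin T => ∏ s, y s ^ (a s : ℕ)) := by
  classical
  obtain ⟨κ, g, hg, hs, hl⟩ := exists_linearIndependent' K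
    (fun a : σ → Fin T => ∏ s, y s ^ (a s : ℕ))
  have : Finite κ := Finite.of_injective g hg
  have : Fintype κ := Fintype.ofFinite κ
  let S : Finset (σ → Fin T) := Finset.univ.image g
  have hmem : ∀ k, g k ∈ S := fun k => Finset.mem_image_of_mem g (Finset.mem_univ k)
  have hbij : Function.Bijective (fun k : κ => (⟨g k, hmem k⟩ : S)) := by
    constructor
    · intro k k' hk
      exact hg (congrArg Subtype.val hk)
    · rintro ⟨a, ha⟩
      obtain ⟨k, -, hk⟩ := Finset.mem_image.1 ha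
      exact ⟨k, Subtype.ext hk⟩
  let e : κ ≃ S := Equiv.ofBijective _ hbij
  refine ⟨S, ?_, ?_, ?_⟩
  · rw [Finset.card_image_of_injective _ hg, Finset.card_univ]
    unfold hil
    rw [← hs]
    exact (finrank_span_eq_card hl).symm
  · have h2 : (fun a : S => ∏ s, y s ^ (a.1 s : ℕ)) ∘ e =
        (fun a : σ → Fin T => ∏ s, y s ^ (a s : ℕ)) ∘ g := rfl
    rw [← h2] at hl
    exact (linearIndependent_equiv e).1 hl
  · rw [← hs]
    congr 1
    ext z
    constructor
    · rintro ⟨a, rfl⟩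
      refine ⟨e.symm a, ?_⟩
      have h3 : g (e.symm a) = a.1 := congrArg Subtype.val (e.apply_symm_apply a)
      simp only [Function.comp, h3]
    · rintro ⟨k, rfl⟩
      exact ⟨⟨g k, hmem k⟩, rfl⟩

/-- Write the exponents less than `m * T` as `T * e + a` with `e s < m` and `a s < T`. -/
theorem hil_mul (y : σ → M) (m T : ℕ) :
    hil K y (m * T) ≤ m ^ Fintype.card σ * hil K y T := by
  classical
  obtain ⟨S, hS, -, hspan⟩ := Hil_basis_aux (K := K) y T
  let w : (σ → Fin m) × S → M := fun p =>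
    (∏ s, y s ^ (T * (p.1 s : ℕ))) * ∏ s, y s ^ (p.2.1 s : ℕ)
  have : FiniteDimensional K (Submodule.span K (Set.range w)) :=
    FiniteDimensional.span_of_finite K (Set.finite_range _)
  have h1 : Submodule.span K (Set.range fun a : σ → Fin (m * T) => ∏ s, y s ^ (a s : ℕ)) ≤
      Submodule.span K (Set.range w) := by
    rw [Submodule.span_le]
    rintro _ ⟨a, rfl⟩
    have hT : ∀ s, 0 < T := fun s => by
      rcases Nat.eq_zero_or_pos T with h | h
      · have h5 : m * T = 0 := by rw [h, Nat.mul_zero]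
        have h6 := (a s).2
        omega
      · exact h
    let e : σ → Fin m := fun s => ⟨(a s : ℕ) / T,
      Nat.div_lt_of_lt_mul ((a s).2.trans_eq (Nat.mul_comm m T))⟩
    let r : σ → Fin T := fun s => ⟨(a s : ℕ) % T, Nat.mod_lt _ (hT s)⟩
    have h2 : (∏ s, y s ^ (a s : ℕ)) =
        (∏ s, y s ^ (T * (e s : ℕ))) * ∏ s, y s ^ (r s : ℕ) := by
      rw [← Finset.prod_mul_distrib]
      apply Finset.prod_congr rfl
      intro s _
      rw [← pow_add]
      congr 1
      exact (Nat.div_add_mod _ _).symm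
    have h3 : (∏ s, y s ^ (r s : ℕ)) ∈
        Submodule.span K (Set.range fun a : S => ∏ s, y s ^ (a.1 s : ℕ)) := by
      rw [hspan]
      exact Submodule.subset_span ⟨r, rfl⟩
    have h4 : Submodule.map (LinearMap.mulLeft K (∏ s, y s ^ (T * (e s : ℕ))))
        (Submodule.span K (Set.range fun a : S => ∏ s, y s ^ (a.1 s : ℕ))) ≤
        Submodule.span K (Set.range w) := by
      rw [Submodule.map_span, Submodule.span_le]
      rintro _ ⟨_, ⟨a, rfl⟩, rfl⟩
      exact Submodule.subset_span ⟨(e, a), rfl⟩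
    show (∏ s, y s ^ (a s : ℕ)) ∈ Submodule.span K (Set.range w)
    rw [h2]
    exact h4 (Submodule.mem_map_of_mem h3)
  calc hil K y (m * T) ≤ Module.finrank K (Submodule.span K (Set.range w)) :=
        Submodule.finrank_mono h1
    _ ≤ Fintype.card ((σ → Fin m) × S) := finrank_range_le_card w
    _ = m ^ Fintype.card σ * hil K y T := by
        rw [Fintype.card_prod, Fintype.card_pi, Finset.prod_const, Fintype.card_fin,
          Finset.card_univ, Fintype.card_coe, hS]

/-- A basis of monomials. -/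
theorem hil_basis (y : σ → M) (T : ℕ) : ∃ S : Finset (σ → Fin T), S.card = hil K y T ∧
    LinearIndependent K fun a : S => ∏ s, y s ^ (a.1 s : ℕ) := by
  obtain ⟨S, h1, h2, -⟩ := Hil_basis_aux (K := K) y T
  exact ⟨S, h1, h2⟩

/-- The monomials in the parameters `thet`, multiplied by a power of `x₁ j`, are monomials in the
coordinates `x₁ i`, `i ≤ j`. -/
theorem hil_thet {N : ℕ} (j : Fin N) (x₁ : Fin N → M) (hx : x₁ j ≠ 0) (q : ℕ) :
    hil K (thet j (x₁ j)⁻¹ fun i => x₁ i / x₁ j) q ≤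
      hil K (fun s : {i : Fin N // i ≤ j} => x₁ s.1)
        (Fintype.card {i : Fin N // i ≤ j} * q + 1) := by
  classical
  set n := Fintype.card {i : Fin N // i ≤ j} with hn
  have hn1 : 1 ≤ n := Fintype.card_pos_iff.2 ⟨⟨j, le_refl j⟩⟩
  have := Hil_fd (K := K) (fun s : {i : Fin N // i ≤ j} => x₁ s.1) (n * q + 1)
  let μ : M →ₗ[K] M := LinearMap.mulLeft K (x₁ j ^ (n * q))
  have hμ : Function.Injective μ := by
    intro a b hab
    exact mul_left_cancel₀ (pow_ne_zero _ hx) hab
  have hsum : ∀ a : {i : Fin N // i ≤ j} → Fin q, ∑ s, (a s : ℕ) ≤ n * q := by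
    intro a
    calc ∑ s, (a s : ℕ) ≤ ∑ _s : {i : Fin N // i ≤ j}, q :=
          Finset.sum_le_sum fun s _ => (a s).2.le
      _ = n * q := by rw [Finset.sum_const, Finset.card_univ, smul_eq_mul, hn]
  have hmap : Submodule.map μ (Submodule.span K (Set.range fun a : {i : Fin N // i ≤ j} → Fin q =>
      ∏ s, thet j (x₁ j)⁻¹ (fun i => x₁ i / x₁ j) s ^ (a s : ℕ))) ≤
      Submodule.span K (Set.range fun a : {i : Fin N // i ≤ j} → Fin (n * q + 1) =>
        ∏ s, (fun s : {i : Fin N // i ≤ j} => x₁ s.1) s ^ (a s : ℕ)) := by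
    rw [Submodule.map_span, Submodule.span_le]
    rintro _ ⟨_, ⟨a, rfl⟩, rfl⟩
    apply Submodule.subset_span
    let j' : {i : Fin N // i ≤ j} := ⟨j, le_refl j⟩
    have hq : ∀ s, (a s : ℕ) < n * q + 1 := fun s => by
      have h1 := (a s).2
      have h2 : 1 * q ≤ n * q := Nat.mul_le_mul_right q hn1
      omega
    let b : {i : Fin N // i ≤ j} → Fin (n * q + 1) := fun s =>
      if s = j' then ⟨n * q - ∑ s, (a s : ℕ), by omega⟩ else ⟨(a s : ℕ), hq s⟩
    refine ⟨b, ?_⟩
    have h1 : ∀ s : {i : Fin N // i ≤ j}, thet j (x₁ j)⁻¹ (fun i => x₁ i / x₁ j) s =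
        (if s = j' then 1 else x₁ s.1) * (x₁ j)⁻¹ := by
      intro s
      unfold thet
      by_cases h : s = j'
      · rw [if_pos (by rw [h]), if_pos h, one_mul]
      · have h' : ¬ s.1 = j := fun h2 => h (Subtype.ext h2)
        rw [if_neg h', if_neg h]
        exact div_eq_mul_inv _ _
    have h2 : ∀ s : {i : Fin N // i ≤ j}, x₁ s.1 ^ (b s : ℕ) =
        (if s = j' then 1 else x₁ s.1) ^ (a s : ℕ) *
          (if s = j' then x₁ j ^ (n * q - ∑ s, (a s : ℕ)) else 1) := by
      intro s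
      by_cases h : s = j'
      · simp only [b, if_pos h, one_pow, one_mul]
        rw [h]
      · simp only [b, if_neg h, mul_one]
    have h3 : μ (∏ s, thet j (x₁ j)⁻¹ (fun i => x₁ i / x₁ j) s ^ (a s : ℕ)) =
        x₁ j ^ (n * q) * ∏ s, thet j (x₁ j)⁻¹ (fun i => x₁ i / x₁ j) s ^ (a s : ℕ) := rfl
    show (∏ s : {i : Fin N // i ≤ j}, x₁ s.1 ^ (b s : ℕ)) = _
    rw [h3]
    simp_rw [h1, h2, mul_pow]
    rw [Finset.prod_mul_distrib, Finset.prod_mul_distrib, Finset.prod_ite_eq' Finset.univ j'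
      (fun _ => x₁ j ^ (n * q - ∑ s, (a s : ℕ))), if_pos (Finset.mem_univ j'),
      Finset.prod_pow_eq_pow_sum]
    have h4 : x₁ j ^ (n * q) = x₁ j ^ (n * q - ∑ s, (a s : ℕ)) * x₁ j ^ (∑ s, (a s : ℕ)) := by
      rw [← pow_add, Nat.sub_add_cancel (hsum a)]
    rw [h4, inv_pow]
    have h5 : x₁ j ^ (∑ s, (a s : ℕ)) ≠ 0 := pow_ne_zero _ hx
    field_simp
  have := Hil_fd (K := K) (thet j (x₁ j)⁻¹ fun i => x₁ i / x₁ j) q
  unfold hil
  have h6 := (Submodule.equivMapOfInjective μ hμ (Submodule.span K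
    (Set.range fun a : {i : Fin N // i ≤ j} → Fin q =>
      ∏ s, thet j (x₁ j)⁻¹ (fun i => x₁ i / x₁ j) s ^ (a s : ℕ)))).finrank_eq
  rw [h6]
  exact Submodule.finrank_mono hmap

end Pool.Agent.H.MP_31a675_nt.Y
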