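import Pool.Agent.H.MP_31a675_nt.Y.NZero
import Pool.Agent.H.MP_31a675_nt.Y.Norm

/-!
# Independence of products of coordinates of iterates over the field of the coordinates `i ≤ j`
-/

namespace Pool.Agent.H.MP_31a675_nt.Y

open MvPolynomial

variable {K : Type} [Field K] {N : ℕ} {M : Type} [Field M] [Algebra K M]

/-- Lower bound for the values of the components at a point dominated by the coordinates `i > j`. -/
theorem omg_val {D : Fin N → ℕ} {d : ℕ} (hD : Degs D d) {f : Fin N → MvPolynomial (Fin N) K}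
    (hf : Gen D d f) {j : Fin N} (hj : D j < d) (V : ValuationSubring M)
    (hV : ∀ c : K, algebraMap K M c ∈ V) (z : Fin N → M) (i₀ : Fin N) (h1 : 1 < V.valuation (z i₀))
    (h2 : ∀ i, V.valuation (z i) ≤ V.valuation (z i₀))
    (h3 : ∀ i, i ≤ j → V.valuation (z i) < V.valuation (z i₀)) :
    (∃ i, j < i ∧ V.valuation (z i₀) ^ D i ≤ V.valuation (aeval z (f i))) ∧
      ∀ i, V.valuation (aeval z (f i)) ≤ V.valuation (z i₀) ^ D i := by
  classical
  refine ⟨?_, fun i => Norm_aeval_le hV (f i) (D i) (hf.deg i) z _ h1.le h2⟩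
  let g : K →+* V := (algebraMap K M).codRestrict V hV
  let _ : Algebra K V := g.toAlgebra
  have : IsScalarTower K V M := IsScalarTower.of_algebraMap_eq' rfl
  let ι : V →ₐ[K] M := IsScalarTower.toAlgHom K V M
  let ρ : V →ₐ[K] IsLocalRing.ResidueField V :=
    IsScalarTower.toAlgHom K V (IsLocalRing.ResidueField V)
  have hι : ∀ b : V, ι b = (b : M) := fun b => rfl
  have hρ : ∀ b : V, ρ b = 0 ↔ (b : M) ∈ V.nonunits := by
    intro b
    rw [ValuationSubring.coe_mem_nonunits_iff, ← IsLocalRing.residue_eq_zero_iff]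
    rfl
  have hz0 : z i₀ ≠ 0 := by
    intro h0
    rw [h0, map_zero] at h1
    exact absurd h1 (not_lt.2 zero_le_one)
  have hv0 : 0 < V.valuation (z i₀) := zero_lt_one.trans h1
  have hji : j < i₀ := by
    by_contra hc
    exact lt_irrefl _ (h3 i₀ (not_lt.1 hc))
  have hU : ∀ i, z i / z i₀ ∈ V := by
    intro i
    rw [← V.valuation_le_one_iff, map_div₀]
    exact div_le_one_of_le₀ (h2 i) zero_le
  let u : Fin N → V := fun i => ⟨z i / z i₀, hU i⟩
  have hu : ∀ Q : MvPolynomial (Fin N) K, ((aeval u Q : V) : M) = aeval (fun i => z i / z i₀) Q := by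
    intro Q
    rw [← hι, comp_aeval_apply]
    rfl
  have hc : ∀ (w : Fin N → V) (Q : MvPolynomial (Fin N) K),
      ρ (aeval w Q) = aeval (fun i => ρ (w i)) Q := fun w Q => comp_aeval_apply w ρ Q
  have hone : ρ (u i₀) = 1 := by
    have h4 : u i₀ = 1 := Subtype.ext (div_self hz0)
    rw [h4, map_one]
  -- the index after `j`
  have hlt : j.1 < i₀.1 := hji
  have hjN : j.1 + 1 < N := by have := i₀.2; omega
  have hex : ∃ i, j < i ∧ aeval (fun i => ρ (u i)) (topf D f i) ≠ 0 := by
    by_contra hne
    push Not at hne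
    have h5 : (fun i => ρ (u i)) = 0 := by
      apply non_ext hD hf ⟨j.1 + 1, hjN⟩
      · intro i hi
        have h6 : i.1 < j.1 + 1 := hi
        rcases Nat.lt_succ_iff_lt_or_eq.mp h6 with h7 | h7
        · rcases hD.inc i j h7 with h8 | h8
          · omega
          · omega
        · have h8 : i = j := Fin.ext h7
          rw [h8]
          exact hj
      · intro i hi
        have h6 : i.1 < j.1 + 1 := hi
        have h7 : i ≤ j := Fin.le_def.mpr (by omega)
        rw [hρ, ValuationSubring.mem_nonunits_iff]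
        show V.valuation (z i / z i₀) < 1
        rw [map_div₀, div_lt_one₀ hv0]
        exact h3 i h7
      · intro i hi
        have h6 : j.1 + 1 ≤ i.1 := hi
        exact hne i (Fin.lt_def.mpr (by omega))
    have h6 : ρ (u i₀) = 0 := congrFun h5 i₀
    rw [hone] at h6
    exact one_ne_zero h6
  obtain ⟨i, hi, hti⟩ := hex
  refine ⟨i, hi, ?_⟩
  have hτ : (z i₀)⁻¹ ∈ V.nonunits := by
    rw [ValuationSubring.mem_nonunits_iff, map_inv₀]
    exact inv_lt_one_of_one_lt₀ h1
  have hτV : (z i₀)⁻¹ ∈ V := by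
    rw [← V.valuation_le_one_iff, map_inv₀]
    exact (inv_lt_one_of_one_lt₀ h1).le
  have hmul := hat_mul (D i) (f i) (hf.deg i) ((z i₀)⁻¹) (z i₀) (mul_inv_cancel₀ hz0) z
    (fun i => z i / z i₀) (fun i => (mul_div_cancel₀ _ hz0).symm)
  have heq := hat_eq (D i) (f i) ((z i₀)⁻¹) (fun i => z i / z i₀)
  have hS : V.valuation (∑ n ∈ Finset.range (D i), ((z i₀)⁻¹) ^ (D i - 1 - n) *
      aeval (fun i => z i / z i₀) (homogeneousComponent n (f i))) ≤ 1 := by
    refine Valuation.map_sum_le _ fun n _ => ?_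
    rw [V.valuation_le_one_iff, ← hu]
    exact mul_mem (pow_mem hτV _) (Subtype.coe_prop _)
  have hnon : ¬ aeval (fun i => z i / z i₀) (topf D f i) ∈ V.nonunits := by
    rw [← hu, ← hρ, hc]
    exact hti
  have hval : 1 ≤ V.valuation (hat (D i) (f i) ((z i₀)⁻¹) (fun i => z i / z i₀)) := by
    by_contra hlt1
    apply hnon
    have h5 : aeval (fun i => z i / z i₀) (topf D f i) =
        hat (D i) (f i) ((z i₀)⁻¹) (fun i => z i / z i₀) -
        (z i₀)⁻¹ * ∑ n ∈ Finset.range (D i), ((z i₀)⁻¹) ^ (D i - 1 - n) *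
          aeval (fun i => z i / z i₀) (homogeneousComponent n (f i)) := by
      rw [heq]
      unfold topf
      ring
    rw [h5]
    apply sub_mem
    · rw [ValuationSubring.mem_nonunits_iff]
      exact not_le.1 hlt1
    · rw [ValuationSubring.mem_nonunits_iff, map_mul]
      calc _ ≤ V.valuation (z i₀)⁻¹ * 1 := mul_le_mul' le_rfl hS
        _ < 1 := by
          rw [mul_one]
          exact hτ
  rw [← hmul, map_mul, map_pow, map_inv₀, inv_pow, ← div_eq_mul_inv, one_le_div₀ (pow_pos hv0 _)]
    at hval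
  exact hval

open scoped IntermediateField.algebraAdjoinAdjoin in
/-- A valuation subring containing the field generated by a set, but not a given transcendental
element. -/
theorem Omg_val (S : Set M) (y : M) (htr : ¬ IsAlgebraic (Algebra.adjoin K S) y) :
    ∃ V : ValuationSubring M, (∀ a ∈ IntermediateField.adjoin K S, a ∈ V) ∧ y ∉ V := by
  by_contra hne
  push Not at hne
  apply htr
  have h1 : y ∈ (⨅ V : {V : ValuationSubring M //
      (IntermediateField.adjoin K S : Set M) ⊆ V.toSubring}, V.1.toSubring) := by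
    rw [Subring.mem_iInf]
    intro V
    exact hne V.1 V.2
  rw [iInf_valuationSubring_superset] at h1
  have h2 : IsIntegral (Subring.closure (IntermediateField.adjoin K S : Set M)) y := h1
  have hle : Subring.closure (IntermediateField.adjoin K S : Set M) ≤
      (IntermediateField.adjoin K S).toSubfield.toSubring := by
    rw [Subring.closure_le]
    exact fun a ha => ha
  let g : Subring.closure (IntermediateField.adjoin K S : Set M) →+*
      IntermediateField.adjoin K S := Subring.inclusion hle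
  have h3 : IsIntegral (IntermediateField.adjoin K S) y := by
    obtain ⟨p, hp, he⟩ := h2
    refine ⟨p.map g, hp.map g, ?_⟩
    rw [Polynomial.eval₂_map]
    exact he
  exact (IsFractionRing.isAlgebraic_iff (Algebra.adjoin K S) (IntermediateField.adjoin K S) M).2
    h3.isAlgebraic

/-- The values of the sums of products. -/
theorem Omg_sum (V : ValuationSubring M) (A : Set M) (hA : ∀ a ∈ A, V.valuation a ≤ 1)
    (hA' : ∀ a ∈ A, a ≠ 0 → V.valuation a = 1) (t : ℕ → M)
    (h0 : 1 < V.valuation (t 0)) (ht : ∀ l, V.valuation (t l) ^ 2 ≤ V.valuation (t (l + 1)))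
    (L : ℕ) :
    (1 ≤ ∏ l : Fin L, V.valuation (t l) ∧ ∏ l : Fin L, V.valuation (t l) < V.valuation (t L)) ∧
    ∀ (e : (Fin L → Fin 2) → M), (∀ α, e α ∈ A) →
      V.valuation (∑ α, e α * ∏ l : Fin L, t l ^ (α l : ℕ)) ≤ ∏ l : Fin L, V.valuation (t l) ∧
      ((∃ α, e α ≠ 0) → 1 ≤ V.valuation (∑ α, e α * ∏ l : Fin L, t l ^ (α l : ℕ))) := by
  induction L with
  | zero =>
    refine ⟨by simpa using h0, ?_⟩
    intro e he
    have hs : ∑ α, e α * ∏ l : Fin 0, t l ^ (α l : ℕ) = e default := by
      rw [Fintype.sum_unique, Fin.prod_univ_zero, mul_one]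
      exact congrArg e (Subsingleton.elim _ _)
    rw [hs]
    refine ⟨by simpa using hA _ (he _), ?_⟩
    rintro ⟨α, hα⟩
    rw [Subsingleton.elim α default] at hα
    exact (hA' _ (he _) hα).ge
  | succ L ih =>
    obtain ⟨⟨ih1, ih2⟩, ih3⟩ := ih
    have hL1 : 1 < V.valuation (t L) := ih1.trans_lt ih2
    have hprod : ∏ l : Fin (L + 1), V.valuation (t l) =
        (∏ l : Fin L, V.valuation (t l)) * V.valuation (t L) := by
      rw [Fin.prod_univ_castSucc]
      rfl
    refine ⟨⟨?_, ?_⟩, ?_⟩
    · rw [hprod]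
      exact one_le_mul ih1 hL1.le
    · rw [hprod]
      refine lt_of_lt_of_le ?_ (ht L)
      rw [pow_two]
      exact mul_lt_mul_of_pos_right ih2 (zero_lt_one.trans hL1)
    · intro e he
      have hs : ∑ α, e α * ∏ l : Fin (L + 1), t l ^ (α l : ℕ) =
          (∑ α : Fin L → Fin 2, e (Fin.snoc α 0) * ∏ l : Fin L, t l ^ (α l : ℕ)) +
          (∑ α : Fin L → Fin 2, e (Fin.snoc α 1) * ∏ l : Fin L, t l ^ (α l : ℕ)) * t L := by
        rw [← (Fin.snocEquiv (fun _ : Fin (L + 1) => Fin 2)).sum_comp, Fintype.sum_prod_type,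
          Fin.sum_univ_two, Finset.sum_mul]
        congr 1
        · refine Finset.sum_congr rfl fun α _ => ?_
          rw [Fin.prod_univ_castSucc]
          simp [Fin.snocEquiv]
        · refine Finset.sum_congr rfl fun α _ => ?_
          rw [Fin.prod_univ_castSucc]
          simp [Fin.snocEquiv, mul_assoc]
      rw [hs, hprod]
      obtain ⟨ha, ha'⟩ := ih3 (fun α => e (Fin.snoc α 0)) (fun α => he _)
      obtain ⟨hb, hb'⟩ := ih3 (fun α => e (Fin.snoc α 1)) (fun α => he _)
      generalize (∑ α : Fin L → Fin 2, e (Fin.snoc α 0) * ∏ l : Fin L, t l ^ (α l : ℕ)) = a at *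
      by_cases hz : ∀ α : Fin L → Fin 2, e (Fin.snoc α 1) = 0
      · have hs0 : (∑ α : Fin L → Fin 2, e (Fin.snoc α 1) * ∏ l : Fin L, t l ^ (α l : ℕ)) = 0 :=
          Finset.sum_eq_zero fun α _ => by rw [hz, zero_mul]
        rw [hs0, zero_mul, add_zero]
        refine ⟨ha.trans (le_mul_of_one_le_right' hL1.le), ?_⟩
        rintro ⟨α, hα⟩
        apply ha'
        refine ⟨Fin.init α, ?_⟩
        have h5 : α (Fin.last L) = 0 := by
          by_contra h6
          have h7 : α (Fin.last L) = 1 := by omega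
          apply hα
          rw [← Fin.snoc_init_self α, h7]
          exact hz _
        rw [← h5, Fin.snoc_init_self α]
        exact hα
      · push Not at hz
        have hb1 := hb' hz
        generalize (∑ α : Fin L → Fin 2, e (Fin.snoc α 1) * ∏ l : Fin L, t l ^ (α l : ℕ)) = b at *
        have hlt : V.valuation a < V.valuation (b * t L) := by
          rw [map_mul]
          calc V.valuation a ≤ _ := ha
            _ < V.valuation (t L) := ih2
            _ ≤ V.valuation b * V.valuation (t L) := le_mul_of_one_le_left' hb1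
        rw [Valuation.map_add_eq_of_lt_right _ hlt, map_mul]
        exact ⟨mul_le_mul' hb le_rfl, fun _ => one_le_mul hb1 hL1.le⟩

/-- If the coordinate `i > j` is transcendental over the field of the coordinates `i' ≤ j`, there is a
valuation subring of `M` containing this field and not the coordinate `i`; the maximal values `μ l`
of the coordinates of the iterates satisfy `μ l ^ 2 ≤ μ (l + 1)`, hence the products of coordinates of
maximal value with exponents `0` or `1` have different values. -/
theorem omg {D : Fin N → ℕ} {d : ℕ} (hD : Degs D d) {f : Fin N → MvPolynomial (Fin N) K}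
    (hf : Gen D d f) {j : Fin N} (hj : D j < d) (x : ℕ → Fin N → M)
    (hx : ∀ l i, x (l + 1) i = aeval (x l) (f i)) (i : Fin N) (hi : j < i)
    (htr : ¬ IsAlgebraic (Algebra.adjoin K (x 0 '' {i' | i' ≤ j})) (x 0 i)) :
    ∃ c : ℕ → Fin N, ∀ (L : ℕ) (e : (Fin L → Fin 2) → M),
      (∀ α, e α ∈ Algebra.adjoin K (x 0 '' {i' | i' ≤ j})) → (∃ α, e α ≠ 0) →
      ∑ α, e α * ∏ l : Fin L, x l (c l) ^ (α l : ℕ) ≠ 0 := by
  classical
  obtain ⟨V, hV, hyV⟩ := Omg_val _ _ htr
  have hVK : ∀ c : K, algebraMap K M c ∈ V := fun c =>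
    hV _ (IntermediateField.algebraMap_mem _ _)
  have : Nonempty (Fin N) := ⟨j⟩
  have hmax : ∀ l, ∃ c : Fin N, ∀ i, V.valuation (x l i) ≤ V.valuation (x l c) := fun l =>
    Finite.exists_max (fun i => V.valuation (x l i))
  choose c hc using hmax
  have key : ∀ l, 1 < V.valuation (x l (c l)) ∧
      (∀ i, i ≤ j → V.valuation (x l i) < V.valuation (x l (c l))) := by
    intro l
    induction l with
    | zero =>
      have h1 : 1 < V.valuation (x 0 i) := by
        rw [← V.valuation_le_one_iff, not_le] at hyV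
        exact hyV
      have h2 : 1 < V.valuation (x 0 (c 0)) := h1.trans_le (hc 0 i)
      refine ⟨h2, fun i' hi' => lt_of_le_of_lt ?_ h2⟩
      rw [V.valuation_le_one_iff]
      exact hV _ (IntermediateField.subset_adjoin K _ ⟨i', hi', rfl⟩)
    | succ l ih =>
      obtain ⟨⟨k, hk, hk'⟩, h2⟩ := omg_val hD hf hj V hVK (x l) (c l) ih.1 (hc l) ih.2
      have h3 : D j < D k := by
        rcases hD.inc j k hk with h | h
        · exact h
        · omega
      have h4 : V.valuation (x l (c l)) ^ D k ≤ V.valuation (x (l + 1) (c (l + 1))) := by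
        refine le_trans ?_ (hc (l + 1) k)
        rw [hx]
        exact hk'
      have h5 : V.valuation (x l (c l)) ^ D j < V.valuation (x (l + 1) (c (l + 1))) :=
        (pow_lt_pow_right₀ ih.1 h3).trans_le h4
      refine ⟨(one_le_pow₀ ih.1.le).trans_lt h5, fun i' hi' => lt_of_le_of_lt ?_ h5⟩
      rw [hx]
      refine (h2 i').trans (pow_le_pow_right₀ ih.1.le ?_)
      rcases lt_or_eq_of_le hi' with h | h
      · rcases hD.inc i' j h with h' | h'
        · exact h'.le
        · omega
      · rw [h]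
  have hsq : ∀ l, V.valuation (x l (c l)) ^ 2 ≤ V.valuation (x (l + 1) (c (l + 1))) := by
    intro l
    obtain ⟨⟨k, hk, hk'⟩, h2⟩ := omg_val hD hf hj V hVK (x l) (c l) (key l).1 (hc l) (key l).2
    have h3 : D j < D k := by
      rcases hD.inc j k hk with h | h
      · exact h
      · omega
    have h3' := hD.pos j
    refine le_trans ?_ (hc (l + 1) k)
    rw [hx]
    refine le_trans ?_ hk'
    exact pow_le_pow_right₀ (key l).1.le (by omega)
  have hAF : ∀ a ∈ Algebra.adjoin K (x 0 '' {i' | i' ≤ j}),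
      a ∈ IntermediateField.adjoin K (x 0 '' {i' | i' ≤ j}) := fun a ha =>
    IntermediateField.algebra_adjoin_le_adjoin K _ ha
  refine ⟨c, fun L e he hne h0 => ?_⟩
  have hsum := Omg_sum V (Algebra.adjoin K (x 0 '' {i' | i' ≤ j}) : Set M)
    (fun a ha => (V.valuation_le_one_iff a).2 (hV a (hAF a ha)))
    (fun a ha ha0 => by
      refine le_antisymm ((V.valuation_le_one_iff a).2 (hV a (hAF a ha))) ?_
      have h1 : V.valuation a⁻¹ ≤ 1 := (V.valuation_le_one_iff _).2 (hV _ (inv_mem (hAF a ha)))
      rw [map_inv₀] at h1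
      have h2 : 0 < V.valuation a := by
        rw [zero_lt_iff]
        exact (V.valuation.ne_zero_iff).2 ha0
      exact (inv_le_one₀ h2).1 h1)
    (fun l => x l (c l)) (key 0).1 hsq L
  have h1 := (hsum.2 e he).2 hne
  rw [h0, map_zero] at h1
  exact absurd h1 (not_le.2 zero_lt_one)

end Pool.Agent.H.MP_31a675_nt.Y
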