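import Pool.Agent.H.MP_31a675_nt.Y.DefsB
import Pool.Agent.H.MP_31a675_nt.Y.Wq

/-!
# The count with dependent parameters
-/

namespace Pool.Agent.H.MP_31a675_nt.Y

open MvPolynomial

variable {K : Type} [Field K] {M : Type} [Field M] [Algebra K M]
  {K' : IntermediateField K M} {B : ValuationSubring M} {σ : Type} {θ : σ → M} {ϖ : M}

/-- The exponent of a monomial with exponents less than `q`. -/
noncomputable def wex [Finite σ] {q : ℕ} (m : σ → Fin q) : σ →₀ ℕ :=
  Finsupp.equivFunOnFinite.symm fun s => (m s : ℕ)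

theorem wex_apply [Finite σ] {q : ℕ} (m : σ → Fin q) (s : σ) : wex m s = (m s : ℕ) := rfl

theorem wex_inj [Finite σ] {q : ℕ} : Function.Injective (wex : (σ → Fin q) → (σ →₀ ℕ)) := by
  intro m m' h
  funext s
  exact Fin.ext (DFunLike.congr_fun h s)

/-- Up to `ϖ ^ q B` only the monomials with exponents less than `q` matter. -/
theorem aeval_trunc (h : Par K' B θ ϖ) [Fintype σ] [DecidableEq σ] (q : ℕ) (p : MvPolynomial σ K') :
    ∃ g ∈ B, aeval θ p = (∑ a : σ → Fin q, ((coeff (wex a) p : K') : M) *
      ∏ s, θ s ^ (a s : ℕ)) + ϖ ^ q * g := by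
  set P : MvPolynomial σ K' := p - ∑ a : σ → Fin q, monomial (wex a) (coeff (wex a) p) with hP
  have hcoef : ∀ m : σ →₀ ℕ, (∀ s, m s < q) → coeff m P = 0 := by
    intro m hm
    set a : σ → Fin q := fun s => ⟨m s, hm s⟩ with ha
    have hex : wex a = m := by
      ext s
      rw [wex_apply]
    rw [hP, coeff_sub, coeff_sum, Finset.sum_eq_single a]
    · rw [coeff_monomial, if_pos hex, hex, sub_self]
    · intro a' _ hne
      rw [coeff_monomial, if_neg]
      intro h'
      exact hne (wex_inj (h'.trans hex.symm))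
    · intro h'
      exact absurd (Finset.mem_univ a) h'
  have hPs : ∃ b ∈ B, aeval θ P = ϖ ^ q * b := by
    have hmon : ∀ m ∈ P.support, ∃ b ∈ B, aeval θ (monomial m (coeff m P)) = ϖ ^ q * b := by
      intro m hm
      apply monomial_small h
      by_contra hcon
      push Not at hcon
      exact (mem_support_iff.1 hm) (hcoef m hcon)
    choose! g hg hge using hmon
    refine ⟨∑ m ∈ P.support, g m, sum_mem fun m hm => hg m hm, ?_⟩
    conv_lhs => rw [P.as_sum]
    rw [map_sum, Finset.mul_sum]
    exact Finset.sum_congr rfl fun m hm => hge m hm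
  obtain ⟨g, hg, hge⟩ := hPs
  refine ⟨g, hg, ?_⟩
  rw [← hge, hP, map_sub, map_sum]
  have : ∑ a : σ → Fin q, aeval θ (monomial (wex a) (coeff (wex a) p)) =
      ∑ a : σ → Fin q, ((coeff (wex a) p : K') : M) * ∏ s, θ s ^ (a s : ℕ) := by
    refine Finset.sum_congr rfl fun a _ => ?_
    rw [aeval_monomial, Finsupp.prod_fintype _ _ (fun _ => pow_zero _)]
    rfl
  rw [this]
  ring

/-- As `WS_count`, with the dimension of the space of the monomials in the parameters with exponents
less than `q` instead of their number: up to `ϖ ^ q B` every element of `WS q` is in the span over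
`K'` of these monomials, whose dimension over `K` is at most `[K' : K] * hil K θ q`. -/
theorem WS_count' (h : Par K' B θ ϖ) [Fintype σ] [FiniteDimensional K K'] (q : ℕ) {ι : Type}
    [Fintype ι] (w : ι → M) (hw : ∀ i, w i ∈ WS K' B θ ϖ q)
    (hc : Module.finrank K K' * hil K θ q < Fintype.card ι) :
    ∃ c : ι → K, c ≠ 0 ∧ (∑ i, algebraMap K M (c i) * w i) / ϖ ^ q ∈ B := by
  classical
  choose p b hb e using fun i => (WS_iff h q (w i)).1 (hw i)
  choose g hg hge using fun i => aeval_trunc h q (p i)
  set H : Submodule K M := Submodule.span K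
    (Set.range fun a : σ → Fin q => ∏ s, θ s ^ (a s : ℕ)) with hH
  have hmem : ∀ a : σ → Fin q, ∏ s, θ s ^ (a s : ℕ) ∈ H := fun a =>
    Submodule.subset_span ⟨a, rfl⟩
  haveI : FiniteDimensional K H := FiniteDimensional.span_of_finite K (Set.finite_range _)
  -- the multiplication map
  let μ : TensorProduct K K' H →ₗ[K] M := TensorProduct.lift
    { toFun := fun k => (LinearMap.mulLeft K (k : M)).comp H.subtype
      map_add' := fun k k' => by
        ext x
        simp [add_mul]
      map_smul' := fun r k => by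
        ext x
        simp [Algebra.smul_mul_assoc] }
  let v : ι → TensorProduct K K' H := fun i =>
    ∑ a : σ → Fin q, (coeff (wex a) (p i)) ⊗ₜ[K] (⟨_, hmem a⟩ : H)
  have hμ : ∀ i, μ (v i) = ∑ a : σ → Fin q, ((coeff (wex a) (p i) : K') : M) *
      ∏ s, θ s ^ (a s : ℕ) := by
    intro i
    simp only [v, μ, map_sum, TensorProduct.lift.tmul]
    rfl
  let T : (ι → K) →ₗ[K] TensorProduct K K' H := Fintype.linearCombination K v
  have hfin : Module.finrank K (TensorProduct K K' H) < Module.finrank K (ι → K) := by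
    rw [Module.finrank_pi, Module.finrank_tensorProduct]
    exact hc
  have hker : LinearMap.ker T ≠ ⊥ := LinearMap.ker_ne_bot_of_finrank_lt hfin
  obtain ⟨c, hcT, hc0⟩ := (Submodule.ne_bot_iff _).1 hker
  refine ⟨c, hc0, ?_⟩
  have hT : ∑ i, algebraMap K M (c i) * (∑ a : σ → Fin q, ((coeff (wex a) (p i) : K') : M) *
      ∏ s, θ s ^ (a s : ℕ)) = 0 := by
    have h1 : μ (T c) = 0 := by
      rw [LinearMap.mem_ker.1 hcT, map_zero]
    rw [Fintype.linearCombination_apply, map_sum] at h1
    rw [← h1]
    refine Finset.sum_congr rfl fun i _ => ?_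
    rw [map_smul, hμ, Algebra.smul_def]
  have hKB : ∀ x : K, algebraMap K M x ∈ B := fun x => h.base _ (K'.algebraMap_mem x)
  rw [div_mem_iff h]
  refine ⟨∑ i, algebraMap K M (c i) * (g i + b i), sum_mem fun i _ => mul_mem (hKB _)
    (add_mem (hg i) (hb i)), ?_⟩
  rw [Finset.mul_sum]
  calc ∑ i, algebraMap K M (c i) * w i
      = ∑ i, (algebraMap K M (c i) * (∑ a : σ → Fin q, ((coeff (wex a) (p i) : K') : M) *
        ∏ s, θ s ^ (a s : ℕ)) + ϖ ^ q * (algebraMap K M (c i) * (g i + b i))) := by
        refine Finset.sum_congr rfl fun i _ => ?_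
        rw [e i, hge i]
        ring
    _ = _ := by
        rw [Finset.sum_add_distrib, hT, zero_add]

end Pool.Agent.H.MP_31a675_nt.Y
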