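import Pool.Agent.H.MP_31a675_nt.Y.Core
import Pool.Agent.H.MP_31a675_nt.Y.Hil
import Pool.Agent.H.MP_31a675_nt.Y.WqB
import Pool.Agent.H.MP_31a675_nt.Y.Omg

/-!
# The main estimate with a transcendental coordinate
-/

namespace Pool.Agent.H.MP_31a675_nt.Y

open MvPolynomial

variable {K : Type} [Field K] {N : ℕ} {M : Type} [Field M] [Algebra K M]

/-- The value of `PP` at the point `x 1` of the orbit for coefficients supported on the image of a
map. -/
theorem CoreB_sum {f : Fin N → MvPolynomial (Fin N) K} {j : Fin N} (c : ℕ → Fin N) {T L d : ℕ}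
    {ι : Type} [Fintype ι] [DecidableEq ι]
    (g : ι → ({i : Fin N // i ≤ j} → Fin T) × (Fin L → Fin d)) (b : ι → K) (x : ℕ → Fin N → M)
    (hx : ∀ l i, x (l + 1) i = aeval (x l) (f i)) :
    aeval (x 1) (PP f j c (T := T) (L := L) (d := d) fun s => ∑ p, if g p = s then b p else 0) =
      ∑ p, algebraMap K M (b p) *
        ((∏ i : {i : Fin N // i ≤ j}, x 1 i.1 ^ ((g p).1 i : ℕ)) *
          ∏ l : Fin L, x (l + 1) (c l) ^ ((g p).2 l : ℕ)) := by
  classical
  rw [aeval_PP c _ x hx]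
  have h1 : ∀ s : ({i : Fin N // i ≤ j} → Fin T) × (Fin L → Fin d),
      algebraMap K M (∑ p, if g p = s then b p else 0) *
        ((∏ i : {i : Fin N // i ≤ j}, x 1 i.1 ^ (s.1 i : ℕ)) *
          ∏ l : Fin L, x (l + 1) (c l) ^ (s.2 l : ℕ)) =
      ∑ p, if g p = s then algebraMap K M (b p) *
        ((∏ i : {i : Fin N // i ≤ j}, x 1 i.1 ^ ((g p).1 i : ℕ)) *
          ∏ l : Fin L, x (l + 1) (c l) ^ ((g p).2 l : ℕ)) else 0 := by
    intro s
    rw [map_sum, Finset.sum_mul]
    refine Finset.sum_congr rfl fun p _ => ?_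
    split_ifs with hps
    · rw [hps]
    · rw [map_zero, zero_mul]
  rw [Finset.sum_congr rfl fun s _ => h1 s, Finset.sum_comm]
  refine Finset.sum_congr rfl fun p _ => ?_
  rw [Finset.sum_ite_eq, if_pos (Finset.mem_univ _)]

theorem core' [IsAlgClosed M] {D : Fin N → ℕ} {d : ℕ} (hD : Degs D d)
    {f : Fin N → MvPolynomial (Fin N) K} (hf : Gen D d f) {j : Fin N} (hj : D j < d)
    {B : ValuationSubring M} {x : ℕ → Fin N → M} (h : Orb D f j B x) (i : Fin N) (hi : j < i)
    (htr : ¬ IsAlgebraic (Algebra.adjoin K (x 1 '' {i' | i' ≤ j})) (x 1 i)) :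
    ∃ (c : ℕ → Fin N) (r : ℕ), ∀ q T L m : ℕ,
      Fintype.card {i : Fin N // i ≤ j} * q + 1 ≤ m * T →
      r * m ^ Fintype.card {i : Fin N // i ≤ j} < 2 ^ L →
      ∃ a : ({i : Fin N // i ≤ j} → Fin T) × (Fin L → Fin d) → K,
        aeval (x 1) (PP f j c a) ≠ 0 ∧
        aeval (x 1) (PP f j c a) ^ D j * x 1 j ^ q / x 1 j ^ (D j * EE D j T L d) ∈ B := by
  classical
  have hval := (orb_val hD hf hj h).1
  have hx : ∀ l, x (l + 1) j ≠ 0 := fun l h0 => by
    have h1 := (hval l).1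
    rw [h0, map_zero] at h1
    exact absurd h1 (not_lt.2 zero_le_one)
  obtain ⟨K', ϖ, β, hfd, hϖ, hS⟩ := orb_sys hD hf hj h
  obtain ⟨c, hc⟩ := omg hD hf hj (fun l => x (l + 1)) (fun l i => h.step (l + 1) i) i hi htr
  refine ⟨c, Module.finrank K K', fun q T L m hm hr => ?_⟩
  have hp := sys_par hS
  have hd2 : 2 ≤ d := by
    have := hD.pos j
    omega
  have hT : 1 ≤ T := by
    rcases Nat.eq_zero_or_pos T with h0 | h0
    · rw [h0, Nat.mul_zero] at hm
      omega
    · exact h0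
  set y : {i : Fin N // i ≤ j} → M := fun s => x 1 s.1 with hy
  obtain ⟨S, hScard, hSlin⟩ := hil_basis (K := K) y T
  let g : S × (Fin L → Fin 2) → ({i : Fin N // i ≤ j} → Fin T) × (Fin L → Fin d) :=
    fun p => (p.1.1, fun l => Fin.castLE hd2 (p.2 l))
  have hcard : Module.finrank K K' * hil K (thet j ((fun l => (x (l + 1) j)⁻¹) 0)
      ((fun l i => x (l + 1) i / x (l + 1) j) 0)) q < Fintype.card (S × (Fin L → Fin 2)) := by
    have h1 : hil K (thet j ((fun l => (x (l + 1) j)⁻¹) 0)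
      ((fun l i => x (l + 1) i / x (l + 1) j) 0)) q ≤
        m ^ Fintype.card {i : Fin N // i ≤ j} * hil K y T :=
      ((hil_thet j (x 1) (hx 0) q).trans (hil_mono y hm)).trans (hil_mul y m T)
    have h2 := hil_pos (K := K) y hT
    rw [Fintype.card_prod, Fintype.card_coe, Fintype.card_fun, Fintype.card_fin,
      Fintype.card_fin, hScard]
    calc _ ≤ Module.finrank K K' * (m ^ Fintype.card {i : Fin N // i ≤ j} * hil K y T) :=
          Nat.mul_le_mul_left _ h1
      _ = (Module.finrank K K' * m ^ Fintype.card {i : Fin N // i ≤ j}) * hil K y T := by ring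
      _ < 2 ^ L * hil K y T := Nat.mul_lt_mul_of_pos_right hr (by omega)
      _ = hil K y T * 2 ^ L := Nat.mul_comm _ _
  obtain ⟨b, hb, hB⟩ := WS_count' hp q
    (fun p : S × (Fin L → Fin 2) =>
      ((∏ i : {i : Fin N // i ≤ j}, x 1 i.1 ^ ((g p).1 i : ℕ)) *
        ∏ l : Fin L, x (l + 1) (c l) ^ ((g p).2 l : ℕ)) * (x 1 j)⁻¹ ^ EE D j T L d)
    (fun p => prod_mem hD hj hx hS q c (g p)) hcard
  refine ⟨fun s => ∑ p, if g p = s then b p else 0, ?_, ?_⟩
  · rw [CoreB_sum c g b x h.step]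
    let e : (Fin L → Fin 2) → M := fun α =>
      ∑ t : S, algebraMap K M (b (t, α)) * ∏ i : {i : Fin N // i ≤ j}, x 1 i.1 ^ (t.1 i : ℕ)
    have he : ∀ α, e α ∈ Algebra.adjoin K (x 1 '' {i' | i' ≤ j}) := by
      intro α
      refine Subalgebra.sum_mem _ fun t _ => Subalgebra.mul_mem _ (Subalgebra.algebraMap_mem _ _)
        (Subalgebra.prod_mem _ fun i _ => Subalgebra.pow_mem _ (Algebra.subset_adjoin ?_) _)
      exact ⟨i.1, i.2, rfl⟩
    have hne : ∃ α, e α ≠ 0 := by
      by_contra hcon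
      push Not at hcon
      apply hb
      funext p
      obtain ⟨t, α⟩ := p
      have h1 := Fintype.linearIndependent_iff.1 hSlin (fun t => b (t, α)) (by
        have h2 := hcon α
        rw [← h2]
        refine Finset.sum_congr rfl fun t _ => ?_
        rw [Algebra.smul_def]) t
      exact h1
    have h1 := hc L e he hne
    have h2 : ∑ p : S × (Fin L → Fin 2), algebraMap K M (b p) *
        ((∏ i : {i : Fin N // i ≤ j}, x 1 i.1 ^ ((g p).1 i : ℕ)) *
          ∏ l : Fin L, x (l + 1) (c l) ^ ((g p).2 l : ℕ)) =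
        ∑ α, e α * ∏ l : Fin L, x (l + 1) (c l) ^ (α l : ℕ) := by
      rw [Fintype.sum_prod_type_right]
      refine Finset.sum_congr rfl fun α _ => ?_
      rw [Finset.sum_mul]
      refine Finset.sum_congr rfl fun t _ => ?_
      rw [mul_assoc]
      rfl
    rw [h2]
    exact h1
  · have h1 : (∑ p, algebraMap K M (b p) *
        (((∏ i : {i : Fin N // i ≤ j}, x 1 i.1 ^ ((g p).1 i : ℕ)) *
          ∏ l : Fin L, x (l + 1) (c l) ^ ((g p).2 l : ℕ)) * (x 1 j)⁻¹ ^ EE D j T L d)) =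
        aeval (x 1) (PP f j c (T := T) (L := L) (d := d)
          fun s => ∑ p, if g p = s then b p else 0) * (x 1 j)⁻¹ ^ EE D j T L d := by
      rw [CoreB_sum c g b x h.step, Finset.sum_mul]
      refine Finset.sum_congr rfl fun p _ => ?_
      ring
    rw [h1] at hB
    have h2 := pow_mem hB (D j)
    have h3 : (aeval (x 1) (PP f j c (T := T) (L := L) (d := d)
          fun s => ∑ p, if g p = s then b p else 0) * (x 1 j)⁻¹ ^ EE D j T L d / ϖ ^ q) ^ D j =
        aeval (x 1) (PP f j c (T := T) (L := L) (d := d)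
          fun s => ∑ p, if g p = s then b p else 0) ^ D j * x 1 j ^ q /
            x 1 j ^ (D j * EE D j T L d) := by
      have h4 : (ϖ ^ q) ^ D j = (x 1 j ^ q)⁻¹ := by
        rw [← pow_mul, mul_comm, pow_mul, hϖ, inv_pow]
      rw [div_pow, h4, mul_pow, ← pow_mul, inv_pow, mul_comm (EE D j T L d), div_inv_eq_mul]
      ring
    rwa [h3] at h2

end Pool.Agent.H.MP_31a675_nt.Y
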