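import Pool.Agent.H.MP_31a675_nt.Y.DefsB

/-!
# Degrees of the iterates on subvarieties
-/

namespace Pool.Agent.H.MP_31a675_nt.Y

open MvPolynomial

variable {K : Type} [Field K] {N : ℕ}

/-- `p` is the ideal of the polynomials which vanish at the points `f ^ n (x)`, `n ∈ S`. -/
def VanAt (f : Fin N → MvPolynomial (Fin N) K) (x : Fin N → K) (S : Set ℕ)
    (p : Ideal (MvPolynomial (Fin N) K)) : Prop :=
  ∀ P : MvPolynomial (Fin N) K, P ∈ p ↔ ∀ n ∈ S, eval (orb f x n) P = 0

/-- On the variety of `p` every iterate `f ^ n` is given by quotients `P i / Q` with polynomials `P i`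
of degree at most `C * β ^ n` and a fixed polynomial `Q` which is not in `p`. -/
def DegLe (f : Fin N → MvPolynomial (Fin N) K) (p : Ideal (MvPolynomial (Fin N) K)) (β : ℝ) : Prop :=
  ∃ (C : ℝ) (Q : MvPolynomial (Fin N) K), Q ∉ p ∧ ∀ n i, ∃ P : MvPolynomial (Fin N) K,
    (P.totalDegree : ℝ) ≤ C * β ^ n ∧ P - Q * itp f n i ∈ p

/-- A combination of the monomials in the coordinates `i ≤ j` with exponents less than `T`. -/
noncomputable def WW (j : Fin N) {T : ℕ} (a : ({i : Fin N // i ≤ j} → Fin T) → K) :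
    MvPolynomial (Fin N) K :=
  ∑ s, C (a s) * ∏ i : {i : Fin N // i ≤ j}, X i.1 ^ (s i : ℕ)

/-- A polynomial of degree less than `E` in the coordinate `i` of the iterate `f ^ L`, with
coefficients as in `WW`. -/
noncomputable def QQ (f : Fin N → MvPolynomial (Fin N) K) (j i : Fin N) (L : ℕ) {T E : ℕ}
    (a : Fin E → ({i : Fin N // i ≤ j} → Fin T) → K) : MvPolynomial (Fin N) K :=
  ∑ e : Fin E, WW j (a e) * itp f L i ^ (e : ℕ)

end Pool.Agent.H.MP_31a675_nt.Y
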