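import Pool.Agent.H.MP_31a675_nt.Y.Core
import Pool.Agent.H.MP_31a675_nt.Y.Hil
import Pool.Agent.H.MP_31a675_nt.Y.WqB
import Pool.Agent.H.MP_31a675_nt.Y.DefsC

/-!
# Small polynomials in one coordinate of an iterate
-/

namespace Pool.Agent.H.MP_31a675_nt.Y

open MvPolynomial

variable {K : Type} [Field K] {N : ℕ} {M : Type} [Field M] [Algebra K M]

/-- The value of `WW` for coefficients supported on the image of a map. -/
theorem CoreC_WW (j : Fin N) {T : ℕ} {ι : Type} [Fintype ι]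
    [DecidableEq ({i : Fin N // i ≤ j} → Fin T)]
    (g : ι → ({i : Fin N // i ≤ j} → Fin T)) (b : ι → K) (y : Fin N → M) :
    aeval y (WW j (T := T) fun s => ∑ p, if g p = s then b p else 0) =
      ∑ p, algebraMap K M (b p) * ∏ i : {i : Fin N // i ≤ j}, y i.1 ^ (g p i : ℕ) := by
  unfold WW
  rw [map_sum]
  have h1 : ∀ s : {i : Fin N // i ≤ j} → Fin T,
      aeval y (C (∑ p, if g p = s then b p else 0) *
        ∏ i : {i : Fin N // i ≤ j}, X i.1 ^ (s i : ℕ)) =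
      ∑ p, if g p = s then algebraMap K M (b p) *
        ∏ i : {i : Fin N // i ≤ j}, y i.1 ^ (g p i : ℕ) else 0 := by
    intro s
    rw [map_mul, aeval_C, map_prod, map_sum, Finset.sum_mul]
    refine Finset.sum_congr rfl fun p _ => ?_
    split_ifs with hps
    · rw [hps]
      congr 1
      refine Finset.prod_congr rfl fun i _ => ?_
      rw [map_pow, aeval_X]
    · rw [map_zero, zero_mul]
  rw [Finset.sum_congr rfl fun s _ => h1 s, Finset.sum_comm]
  refine Finset.sum_congr rfl fun p _ => ?_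
  rw [Finset.sum_ite_eq, if_pos (Finset.mem_univ _)]

/-- The value of `QQ` at the point `x 1` of the orbit. -/
theorem CoreC_QQ {f : Fin N → MvPolynomial (Fin N) K} {j : Fin N} (i : Fin N) {T L E : ℕ}
    (a : Fin E → ({i : Fin N // i ≤ j} → Fin T) → K) (x : ℕ → Fin N → M)
    (hx : ∀ l i, x (l + 1) i = aeval (x l) (f i)) :
    aeval (x 1) (QQ f j i L a) = ∑ e : Fin E, aeval (x 1) (WW j (a e)) * x (L + 1) i ^ (e : ℕ) := by
  unfold QQ
  rw [map_sum]
  refine Finset.sum_congr rfl fun e _ => ?_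
  rw [map_mul, map_pow, Core_itp x hx]

/-- Each product, multiplied by a power of `τ 0`, is in `WS q`. -/
theorem CoreC_mem {D : Fin N → ℕ} {d : ℕ} (hD : Degs D d) {f : Fin N → MvPolynomial (Fin N) K}
    {j : Fin N} (hj : D j < d) {K' : IntermediateField K M} {B : ValuationSubring M} {ϖ : M}
    {x : ℕ → Fin N → M} {β : ℕ → Fin N → M} (hx : ∀ l, x (l + 1) j ≠ 0)
    (h : Sys D f j K' B ϖ (fun l => (x (l + 1) j)⁻¹) (fun l i => x (l + 1) i / x (l + 1) j) β)
    (q : ℕ) (i : Fin N) {T L E : ℕ} (s : {i : Fin N // i ≤ j} → Fin T) (e : Fin E) :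
    ((∏ i : {i : Fin N // i ≤ j}, x 1 i.1 ^ (s i : ℕ)) * x (L + 1) i ^ (e : ℕ)) *
        (x 1 j)⁻¹ ^ (Fintype.card {i : Fin N // i ≤ j} * T + E * D j ^ L) ∈
      WS K' B (thet j (x 1 j)⁻¹ (fun i => x 1 i / x 1 j)) ϖ q := by
  have hp := sys_par h
  have hs := sys_step hD hj h q
  obtain ⟨A, hA⟩ := WS_alg hp q
  have hmem : ∀ a, a ∈ A ↔ a ∈ WS K' B (thet j (x 1 j)⁻¹ (fun i => x 1 i / x 1 j)) ϖ q :=
    fun a => by
      rw [← SetLike.mem_coe, hA]
  have hτ : ∀ l, (x (l + 1) j)⁻¹ ∈ A := fun l => (hmem _).2 (hs l).1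
  have hU : ∀ l i, x (l + 1) i / x (l + 1) j ∈ A := fun l i => (hmem _).2 ((hs l).2 i)
  have hT : ∀ l, (x 1 j)⁻¹ ^ (D j ^ l) * x (l + 1) j ∈ A := fun l => by
    have h1 := Core_tau h A hτ hU l
    simpa only [inv_inv, zero_add] using h1
  have hX : ∀ l i, (x 1 j)⁻¹ ^ (D j ^ l) * x (l + 1) i ∈ A := fun l i => by
    have h1 := A.mul_mem (hT l) (hU l i)
    have h2 : (x 1 j)⁻¹ ^ (D j ^ l) * x (l + 1) j * (x (l + 1) i / x (l + 1) j) =
        (x 1 j)⁻¹ ^ (D j ^ l) * x (l + 1) i := by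
      have := hx l
      field_simp
    rwa [h2] at h1
  have hτ0 : (x 1 j)⁻¹ ∈ A := hτ 0
  have hE : (x 1 j)⁻¹ ^ (Fintype.card {i : Fin N // i ≤ j} * T + E * D j ^ L) =
      (∏ _i : {i : Fin N // i ≤ j}, (x 1 j)⁻¹ ^ T) * (x 1 j)⁻¹ ^ (D j ^ L * E) := by
    rw [pow_add, Finset.prod_const, Finset.card_univ, ← pow_mul, mul_comm T, mul_comm E]
  have hre : ((∏ i : {i : Fin N // i ≤ j}, x 1 i.1 ^ (s i : ℕ)) * x (L + 1) i ^ (e : ℕ)) *
        (x 1 j)⁻¹ ^ (Fintype.card {i : Fin N // i ≤ j} * T + E * D j ^ L) =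
      (∏ i : {i : Fin N // i ≤ j}, (x 1 i.1 ^ (s i : ℕ) * (x 1 j)⁻¹ ^ T)) *
        (x (L + 1) i ^ (e : ℕ) * (x 1 j)⁻¹ ^ (D j ^ L * E)) := by
    rw [hE, Finset.prod_mul_distrib]
    ring
  rw [hre, ← hmem]
  refine A.mul_mem (A.prod_mem fun i _ => ?_) ?_
  · have h1 := Core_pow (x 1 i.1) (x 1 j)⁻¹ 1 (s i).2
    rw [one_mul] at h1
    rw [h1]
    have h2 := hX 0 i.1
    rw [pow_zero, zero_add] at h2
    exact A.mul_mem (A.pow_mem h2 _) (A.pow_mem hτ0 _)
  · rw [Core_pow (x (L + 1) i) (x 1 j)⁻¹ (D j ^ L) e.2]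
    exact A.mul_mem (A.pow_mem (hX L _) _) (A.pow_mem hτ0 _)

theorem coreC [IsAlgClosed M] {D : Fin N → ℕ} {d : ℕ} (hD : Degs D d)
    {f : Fin N → MvPolynomial (Fin N) K} (hf : Gen D d f) {j : Fin N} (hj : D j < d)
    {B : ValuationSubring M} {x : ℕ → Fin N → M} (h : Orb D f j B x) :
    ∃ r : ℕ, ∀ (q T L m E : ℕ) (i : Fin N),
      Fintype.card {i : Fin N // i ≤ j} * q + 1 ≤ m * T →
      r * m ^ Fintype.card {i : Fin N // i ≤ j} < E →
      ∃ a : Fin E → ({i : Fin N // i ≤ j} → Fin T) → K,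
        (∃ e, aeval (x 1) (WW j (a e)) ≠ 0) ∧
        aeval (x 1) (QQ f j i L a) ^ D j * x 1 j ^ q /
          x 1 j ^ (D j * (Fintype.card {i : Fin N // i ≤ j} * T + E * D j ^ L)) ∈ B := by
  classical
  have hval := (orb_val hD hf hj h).1
  have hx : ∀ l, x (l + 1) j ≠ 0 := fun l h0 => by
    have h1 := (hval l).1
    rw [h0, map_zero] at h1
    exact absurd h1 (not_lt.2 zero_le_one)
  obtain ⟨K', ϖ, β, hfd, hϖ, hS⟩ := orb_sys hD hf hj h
  refine ⟨Module.finrank K K', fun q T L m E i hm hr => ?_⟩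
  have hp := sys_par hS
  have hT : 1 ≤ T := by
    rcases Nat.eq_zero_or_pos T with h0 | h0
    · rw [h0, Nat.mul_zero] at hm
      omega
    · exact h0
  set y : {i : Fin N // i ≤ j} → M := fun s => x 1 s.1 with hy
  obtain ⟨S, hScard, hSlin⟩ := hil_basis (K := K) y T
  have hcard : Module.finrank K K' * hil K (thet j ((fun l => (x (l + 1) j)⁻¹) 0)
      ((fun l i => x (l + 1) i / x (l + 1) j) 0)) q < Fintype.card (S × Fin E) := by
    have h1 : hil K (thet j ((fun l => (x (l + 1) j)⁻¹) 0)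
      ((fun l i => x (l + 1) i / x (l + 1) j) 0)) q ≤
        m ^ Fintype.card {i : Fin N // i ≤ j} * hil K y T :=
      ((hil_thet j (x 1) (hx 0) q).trans (hil_mono y hm)).trans (hil_mul y m T)
    have h2 := hil_pos (K := K) y hT
    rw [Fintype.card_prod, Fintype.card_coe, Fintype.card_fin, hScard]
    calc _ ≤ Module.finrank K K' * (m ^ Fintype.card {i : Fin N // i ≤ j} * hil K y T) :=
          Nat.mul_le_mul_left _ h1
      _ = (Module.finrank K K' * m ^ Fintype.card {i : Fin N // i ≤ j}) * hil K y T := by ring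
      _ < E * hil K y T := Nat.mul_lt_mul_of_pos_right hr (by omega)
      _ = hil K y T * E := Nat.mul_comm _ _
  obtain ⟨b, hb, hB⟩ := WS_count' hp q
    (fun p : S × Fin E =>
      ((∏ i : {i : Fin N // i ≤ j}, x 1 i.1 ^ (p.1.1 i : ℕ)) * x (L + 1) i ^ (p.2 : ℕ)) *
        (x 1 j)⁻¹ ^ (Fintype.card {i : Fin N // i ≤ j} * T + E * D j ^ L))
    (fun p => CoreC_mem hD hj hx hS q i p.1.1 p.2) hcard
  have hW : ∀ e : Fin E, aeval (x 1) (WW j (T := T)
      fun s => ∑ t : S, if t.1 = s then b (t, e) else 0) =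
      ∑ t : S, algebraMap K M (b (t, e)) * ∏ i : {i : Fin N // i ≤ j}, x 1 i.1 ^ (t.1 i : ℕ) :=
    fun e => CoreC_WW j (fun t : S => t.1) (fun t => b (t, e)) (x 1)
  refine ⟨fun e s => ∑ t : S, if t.1 = s then b (t, e) else 0, ?_, ?_⟩
  · by_contra hcon
    push Not at hcon
    apply hb
    funext p
    obtain ⟨t, e⟩ := p
    exact Fintype.linearIndependent_iff.1 hSlin (fun t => b (t, e)) (by
      have h2 := hcon e
      rw [hW e] at h2
      rw [← h2]
      refine Finset.sum_congr rfl fun t _ => ?_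
      rw [Algebra.smul_def]) t
  · set Q := aeval (x 1) (QQ f j i L (T := T) (E := E)
      fun e s => ∑ t : S, if t.1 = s then b (t, e) else 0) with hQ
    set F := Fintype.card {i : Fin N // i ≤ j} * T + E * D j ^ L with hF
    have hQ' : Q = ∑ p : S × Fin E, algebraMap K M (b p) *
        ((∏ i : {i : Fin N // i ≤ j}, x 1 i.1 ^ (p.1.1 i : ℕ)) * x (L + 1) i ^ (p.2 : ℕ)) := by
      rw [hQ, CoreC_QQ i _ x h.step, Fintype.sum_prod_type_right]
      refine Finset.sum_congr rfl fun e _ => ?_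
      rw [hW e, Finset.sum_mul]
      refine Finset.sum_congr rfl fun t _ => ?_
      rw [mul_assoc]
    have h1 : (∑ p : S × Fin E, algebraMap K M (b p) *
        (((∏ i : {i : Fin N // i ≤ j}, x 1 i.1 ^ (p.1.1 i : ℕ)) * x (L + 1) i ^ (p.2 : ℕ)) *
          (x 1 j)⁻¹ ^ F)) = Q * (x 1 j)⁻¹ ^ F := by
      rw [hQ', Finset.sum_mul]
      refine Finset.sum_congr rfl fun p _ => ?_
      ring
    rw [h1] at hB
    have h2 := pow_mem hB (D j)
    have h3 : (Q * (x 1 j)⁻¹ ^ F / ϖ ^ q) ^ D j = Q ^ D j * x 1 j ^ q / x 1 j ^ (D j * F) := by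
      have h4 : (ϖ ^ q) ^ D j = (x 1 j ^ q)⁻¹ := by
        rw [← pow_mul, mul_comm, pow_mul, hϖ, inv_pow]
      rw [div_pow, h4, mul_pow, ← pow_mul, inv_pow, mul_comm F, div_inv_eq_mul]
      ring
    rwa [h3] at h2

end Pool.Agent.H.MP_31a675_nt.Y
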