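import Pool.Agent.H.MP_31a675_nt.Defs
import Pool.Agent.H.MP_31a675_nt.LocA

/-!
# Polynomial maps with prescribed degrees of the components: definitions
-/

namespace Pool.Agent.H.MP_31a675_nt.Y

open MvPolynomial

variable {K : Type} [Field K] {N : ℕ}

/-- The degrees: at least one, at most `d`, strictly increasing as long as they are below `d`, and
both `d` and a smaller degree occur. -/
structure Degs (D : Fin N → ℕ) (d : ℕ) : Prop where
  pos : ∀ i, 1 ≤ D i
  le : ∀ i, D i ≤ d
  inc : ∀ i j, i < j → D i < D j ∨ (D i = d ∧ D j = d)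
  max : ∃ i, D i = d
  low : ∃ i, D i < d

/-- The part of degree `D i` of the component `f i`. -/
noncomputable def topf (D : Fin N → ℕ) (f : Fin N → MvPolynomial (Fin N) K) (i : Fin N) :
    MvPolynomial (Fin N) K :=
  homogeneousComponent (D i) (f i)

/-- Conditions at infinity on the polynomial map `f` with `deg (f i) ≤ D i`, `D i ≤ d`:
the forms `topf D f i` with `D i = d` have no common zero other than `0` where the coordinates with
`D i < d` vanish; for each `j` with `D j < d`, each common zero of the forms `topf D f i`, `j < i`,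
with `z i = 0` for `i < j` and `z j = 1`, is simple and not a zero of `topf D f j`. -/
structure Gen (D : Fin N → ℕ) (d : ℕ) (f : Fin N → MvPolynomial (Fin N) K) : Prop where
  deg : ∀ i, (f i).totalDegree ≤ D i
  top : ∀ z : Fin N → AlgebraicClosure K, (∀ i, D i < d → z i = 0) →
    (∀ i, D i = d → aeval z (topf D f i) = 0) → z = 0
  low : ∀ (j : Fin N) (z : Fin N → AlgebraicClosure K), D j < d → (∀ i, i < j → z i = 0) →
    z j = 1 → (∀ i, j < i → aeval z (topf D f i) = 0) →
    aeval z (topf D f j) ≠ 0 ∧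
    (Matrix.of fun i i' : {i // j < i} => aeval z (pderiv i'.1 (topf D f i.1))).det ≠ 0

/-- The homogenised component, evaluated at `(τ, U)`. -/
noncomputable def hat {E : Type*} [CommRing E] [Algebra K E] (m : ℕ) (P : MvPolynomial (Fin N) K)
    (τ : E) (U : Fin N → E) : E :=
  ∑ n ∈ Finset.range (m + 1), τ ^ (m - n) * aeval U (homogeneousComponent n P)

/-- Combinations of products of the coordinates `X i`, `i ≤ j`, with exponents less than `T`, and of
the coordinates `c l` of the iterates `f ^ l`, `l < L`, with exponents less than `d`. -/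
noncomputable def PP (f : Fin N → MvPolynomial (Fin N) K) (j : Fin N) (c : ℕ → Fin N) {T L d : ℕ}
    (a : ({i : Fin N // i ≤ j} → Fin T) × (Fin L → Fin d) → K) : MvPolynomial (Fin N) K :=
  ∑ s, C (a s) * ((∏ i : {i : Fin N // i ≤ j}, X i.1 ^ (s.1 i : ℕ)) *
    ∏ l : Fin L, itp f l (c l) ^ (s.2 l : ℕ))

/-- The exponent in the statement of the main estimate. -/
def EE {N : ℕ} (D : Fin N → ℕ) (j : Fin N) (T L d : ℕ) : ℕ :=
  Fintype.card {i : Fin N // i ≤ j} * T + d * ∑ l ∈ Finset.range L, D j ^ l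

/-- An orbit over a valued field which is large and dominated by the coordinates `i ≤ j`. -/
structure Orb {M : Type} [Field M] [Algebra K M] (D : Fin N → ℕ)
    (f : Fin N → MvPolynomial (Fin N) K) (j : Fin N) (B : ValuationSubring M)
    (x : ℕ → Fin N → M) : Prop where
  step : ∀ l i, x (l + 1) i = aeval (x l) (f i)
  base : ∀ c : K, algebraMap K M c ∈ B
  big : ∃ i, x 0 i ∉ B
  dom : ∀ l i, j < i → x l i ∈ B ∨ ∃ i', i' ≤ j ∧ B.valuation (x l i) ≤ B.valuation (x l i')
  grow : ∀ l i, ∃ i', B.valuation (x l i) ^ D j ≤ B.valuation (x (l + 1) i')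

/-- The normalised orbit: `τ l = 1 / x (l + 1) j`, `U l i = x (l + 1) i / x (l + 1) j`, and the zeros
at infinity `β l` near `U l`, with coordinates in the field `K'`. -/
structure Sys {M : Type} [Field M] [Algebra K M] (D : Fin N → ℕ)
    (f : Fin N → MvPolynomial (Fin N) K) (j : Fin N) (K' : IntermediateField K M)
    (B : ValuationSubring M) (ϖ : M) (τ : ℕ → M) (U β : ℕ → Fin N → M) : Prop where
  base : ∀ c ∈ K', c ∈ B
  unif : ϖ ∈ B.nonunits
  ne : ϖ ≠ 0
  tau : ∀ l, τ l / ϖ ∈ B
  tne : ∀ l, τ l ≠ 0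
  one : ∀ l, U l j = 1
  mem : ∀ l i, U l i ∈ B
  small : ∀ l i, i < j → U l i / ϖ ∈ B
  hne : ∀ l, hat (D j) (f j) (τ l) (U l) ≠ 0
  unit : ∀ l, (hat (D j) (f j) (τ l) (U l))⁻¹ ∈ B
  rtau : ∀ l, τ (l + 1) * hat (D j) (f j) (τ l) (U l) = τ l ^ D j
  rlow : ∀ l i, i < j → U (l + 1) i * hat (D j) (f j) (τ l) (U l) =
    τ l ^ (D j - D i) * hat (D i) (f i) (τ l) (U l)
  rhigh : ∀ l i, j < i → hat (D i) (f i) (τ l) (U l) =
    τ l ^ (D i - D j) * (U (l + 1) i * hat (D j) (f j) (τ l) (U l))
  bmem : ∀ l i, β l i ∈ K'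
  bres : ∀ l i, U l i - β l i ∈ B.nonunits
  bj : ∀ l, β l j = 1
  blow : ∀ l i, i < j → β l i = 0
  bzero : ∀ l i, j < i → aeval (β l) (topf D f i) = 0
  bdet : ∀ l, (Matrix.of fun i i' : {i // j < i} => aeval (β l) (pderiv i'.1 (topf D f i.1))).det ≠ 0

/-- The parameters: `τ` and the coordinates `U i`, `i < j`. -/
def thet {M : Type} (j : Fin N) (τ : M) (U : Fin N → M) : {i : Fin N // i ≤ j} → M :=
  fun i => if i.1 = j then τ else U i.1

end Pool.Agent.H.MP_31a675_nt.Y
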