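import Pool.Agent.H.MP_31a675_nt.Y.Defs

/-!
# The dimension of the Zariski closure of an orbit
-/

namespace Pool.Agent.H.MP_31a675_nt.Y

open MvPolynomial

variable {K : Type} [Field K] {N : ℕ}

/-- The Zariski closure of the orbit of `x` has dimension at most `r`: any `r + 1` coordinates
satisfy a nonzero polynomial relation on the orbit. -/
def DimLe (f : Fin N → MvPolynomial (Fin N) K) (x : Fin N → K) (r : ℕ) : Prop :=
  ∀ s : Fin (r + 1) → Fin N, Function.Injective s →
    ∃ P : MvPolynomial (Fin (r + 1)) K, P ≠ 0 ∧ ∀ n, eval (fun i => orb f x n (s i)) P = 0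

/-- The dimension of the space spanned by the monomials in the elements `y s` with exponents less
than `T`. -/
noncomputable def hil (K : Type) [Field K] {M : Type} [Field M] [Algebra K M] {σ : Type}
    [Fintype σ] (y : σ → M) (T : ℕ) : ℕ :=
  Module.finrank K (Submodule.span K (Set.range fun a : σ → Fin T => ∏ s, y s ^ (a s : ℕ)))

end Pool.Agent.H.MP_31a675_nt.Y
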