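import Pool.Agent.H.MP_31a675_nt.Basic
import Pool.Agent.H.MP_31a675_nt.Loc
import Pool.Agent.H.MP_31a675_nt.Y.Defs

/-!
# Orbits are integral outside finitely many places
-/

namespace Pool.Agent.H.MP_31a675_nt.Y

open MvPolynomial NumberField Height

variable {K : Type} [Field K] [NumberField K] {N : ℕ}

omit [NumberField K] in
theorem Glob_int (v : AbsoluteValue K ℝ) (hv : IsNonarchimedean v) (P : MvPolynomial (Fin N) K)
    (hP : ∀ s, v (coeff s P) ≤ 1) (y : Fin N → K) (hy : ∀ i, v (y i) ≤ 1) : v (eval y P) ≤ 1 := by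
  rw [eval_eq']
  have h1 : ∀ s ∈ P.support, v (coeff s P * ∏ i, y i ^ s i) ≤ 1 := by
    intro s _
    rw [map_mul, map_prod]
    refine mul_le_one₀ (hP s) (Finset.prod_nonneg fun i _ => v.nonneg _) ?_
    refine Finset.prod_le_one (fun i _ => v.nonneg _) fun i _ => ?_
    rw [map_pow]
    exact pow_le_one₀ (v.nonneg _) (hy i)
  have h2 := sum_adm v (κ := (P.support.card : ℝ) ) (κ' := 1) ⟨le_rfl, Or.inr hv⟩ P.support
    (fun s => coeff s P * ∏ i, y i ^ s i) 1 zero_le_one le_rfl h1
  rwa [one_mul] at h2

theorem Glob_finite (c : K) :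
    {v : AdmissibleAbsValues.nonarchAbsVal (K := K) | 1 < v.val c}.Finite := by
  by_cases hc : c = 0
  · rw [hc]
    convert Set.finite_empty
    ext v
    simp
  · refine (AdmissibleAbsValues.hasFiniteMulSupport hc).subset fun v hv => ?_
    rw [Function.mem_mulSupport]
    exact (ne_of_gt hv)

theorem Glob_poly (P : MvPolynomial (Fin N) K) :
    {v : AdmissibleAbsValues.nonarchAbsVal (K := K) | ∃ s, 1 < v.val (coeff s P)}.Finite := by
  have h : {v : AdmissibleAbsValues.nonarchAbsVal (K := K) | ∃ s, 1 < v.val (coeff s P)} ⊆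
      ⋃ s ∈ P.support, {v : AdmissibleAbsValues.nonarchAbsVal (K := K) |
        1 < v.val (coeff s P)} := by
    rintro v ⟨s, hs⟩
    rw [Set.mem_iUnion₂]
    refine ⟨s, ?_, hs⟩
    rw [mem_support_iff]
    intro h0
    rw [h0, map_zero] at hs
    linarith
  exact ((P.support.finite_toSet).biUnion fun s _ => Glob_finite _).subset h

/-- Finitely many absolute values (the archimedean ones, with multiplicity, and the others at which
a coordinate of `x` or a coefficient of `f` is not integral) compute the heights of the points of the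
orbit; the values of a polynomial satisfy the product formula for them up to a constant. -/
theorem exists_places (f : Fin N → MvPolynomial (Fin N) K) (x : Fin N → K) :
    ∃ (ι : Type) (_ : Fintype ι) (v : ι → AbsoluteValue K ℝ),
      (∀ n, ht (orb f x n) = ∑ i, Real.log (nrm (v i) (orb f x n))) ∧
      ∀ P : MvPolynomial (Fin N) K, ∃ C : ℝ, ∀ n, eval (orb f x n) P ≠ 0 →
        -C ≤ ∑ i, Real.log (v i (eval (orb f x n) P)) := by
  classical
  have hSf : ((⋃ i, {v : AdmissibleAbsValues.nonarchAbsVal (K := K) | 1 < v.val (x i)}) ∪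
      ⋃ i, {v : AdmissibleAbsValues.nonarchAbsVal (K := K) |
        ∃ s, 1 < v.val (coeff s (f i))}).Finite :=
    (Set.finite_iUnion fun i => Glob_finite _).union (Set.finite_iUnion fun i => Glob_poly _)
  obtain ⟨S, hS⟩ : ∃ S : Finset (AdmissibleAbsValues.nonarchAbsVal (K := K)),
      ∀ v : AdmissibleAbsValues.nonarchAbsVal (K := K), v ∉ S →
        (∀ i, v.val (x i) ≤ 1) ∧ ∀ i s, v.val (coeff s (f i)) ≤ 1 := by
    refine ⟨hSf.toFinset, fun v hv => ?_⟩
    rw [Set.Finite.mem_toFinset, Set.mem_union, not_or, Set.mem_iUnion, Set.mem_iUnion] at hv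
    constructor
    · intro i
      by_contra h
      exact hv.1 ⟨i, not_le.1 h⟩
    · intro i s
      by_contra h
      exact hv.2 ⟨i, s, not_le.1 h⟩
  have hint : ∀ v : AdmissibleAbsValues.nonarchAbsVal (K := K), v ∉ S →
      ∀ n i, v.val (orb f x n i) ≤ 1 := by
    intro v hv n
    induction n with
    | zero => exact (hS v hv).1
    | succ n ih =>
      intro i
      have h1 : orb f x (n + 1) i = eval (orb f x n) (f i) := by
        unfold orb
        rw [Function.iterate_succ_apply']
        rfl
      rw [h1]
      exact Glob_int v.val (AdmissibleAbsValues.isNonarchimedean _ v.2) _ ((hS v hv).2 i) _ ih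
  -- the archimedean absolute values as a list
  set l := (AdmissibleAbsValues.archAbsVal (K := K)).toList with hl
  have harch : ∀ g : AbsoluteValue K ℝ → ℝ,
      ((AdmissibleAbsValues.archAbsVal (K := K)).map g).sum = ∑ i : Fin l.length, g (l.get i) := by
    intro g
    have h1 : AdmissibleAbsValues.archAbsVal (K := K) = (l : Multiset (AbsoluteValue K ℝ)) :=
      (Multiset.coe_toList _).symm
    rw [h1, Multiset.map_coe, Multiset.sum_coe, ← List.sum_ofFn]
    congr 1
    exact (List.ofFn_getElem_eq_map l g).symm
  have hlogm : ∀ (m : Multiset (AbsoluteValue K ℝ)) (g : AbsoluteValue K ℝ → ℝ), (∀ v, 0 < g v) →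
      0 < (m.map g).prod ∧ Real.log (m.map g).prod = (m.map fun v => Real.log (g v)).sum := by
    intro m g hg
    induction m using Multiset.induction_on with
    | empty => simp
    | cons a m ih =>
      rw [Multiset.map_cons, Multiset.map_cons, Multiset.prod_cons, Multiset.sum_cons]
      exact ⟨mul_pos (hg a) ih.1, by rw [Real.log_mul (hg a).ne' ih.1.ne', ih.2]⟩
  refine ⟨Fin l.length ⊕ S, inferInstance,
    Sum.elim (fun i => l.get i) fun v => v.1.val, fun n => ?_, fun P => ?_⟩
  · rw [Fintype.sum_sum_type]
    simp only [Sum.elim_inl, Sum.elim_inr]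
    rw [← harch fun v => Real.log (nrm v (orb f x n))]
    have h1 := hlogm (AdmissibleAbsValues.archAbsVal (K := K)) (fun v => nrm v (orb f x n))
      fun v => Loc_pos v _
    have h2 : ∏ᶠ v : AdmissibleAbsValues.nonarchAbsVal (K := K), nrm v.val (orb f x n) =
        ∏ v ∈ S, nrm v.val (orb f x n) := by
      refine finprod_eq_prod_of_mulSupport_subset _ fun v hv => ?_
      rw [Function.mem_mulSupport] at hv
      by_contra h3
      refine hv (le_antisymm (nrm_le _ _ _ le_rfl (hint v h3 n)) (one_le_nrm _ _))
    unfold ht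
    rw [logHeight_eq_log_mulHeight, Loc_eq, Real.log_mul h1.1.ne' (Loc_fprod_pos _).ne', h1.2, h2,
      Real.log_prod fun v _ => (Loc_pos v.val _).ne']
    congr 1
    exact (Finset.sum_coe_sort S fun v => Real.log (nrm v.val (orb f x n))).symm
  · obtain ⟨S', hS'⟩ : ∃ S' : Finset (AdmissibleAbsValues.nonarchAbsVal (K := K)),
        ∀ v : AdmissibleAbsValues.nonarchAbsVal (K := K), v ∉ S' → ∀ s, v.val (coeff s P) ≤ 1 := by
      refine ⟨(Glob_poly P).toFinset, fun v hv s => ?_⟩
      rw [Set.Finite.mem_toFinset] at hv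
      by_contra h
      exact hv ⟨s, not_le.1 h⟩
    set b : AdmissibleAbsValues.nonarchAbsVal (K := K) → ℝ := fun v =>
      if v ∈ S' then Real.log (1 + ∑ s ∈ P.support, v.val (coeff s P)) else 0 with hb
    have hb0 : ∀ v, 0 ≤ b v := by
      intro v
      simp only [hb]
      split_ifs
      · refine Real.log_nonneg ?_
        have : 0 ≤ ∑ s ∈ P.support, v.val (coeff s P) := Finset.sum_nonneg fun s _ => v.val.nonneg _
        linarith
      · exact le_rfl
    refine ⟨∑ v ∈ S', b v, fun n hn => ?_⟩
    set c := eval (orb f x n) P with hc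
    have hbv : ∀ v, v ∉ S → Real.log (v.val c) ≤ b v := by
      intro v hv
      have hpos : 0 < v.val c := v.val.pos hn
      simp only [hb]
      split_ifs with h1
      · refine Real.log_le_log hpos ?_
        rw [hc, eval_eq']
        refine (v.val.sum_le _ _).trans ?_
        have h2 : ∑ s ∈ P.support, v.val (coeff s P * ∏ i, orb f x n i ^ s i) ≤
            ∑ s ∈ P.support, v.val (coeff s P) := by
          refine Finset.sum_le_sum fun s _ => ?_
          rw [map_mul, map_prod]
          refine mul_le_of_le_one_right (v.val.nonneg _) ?_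
          refine Finset.prod_le_one (fun i _ => v.val.nonneg _) fun i _ => ?_
          rw [map_pow]
          exact pow_le_one₀ (v.val.nonneg _) (hint v hv n i)
        linarith
      · refine Real.log_nonpos hpos.le ?_
        exact Glob_int v.val (AdmissibleAbsValues.isNonarchimedean _ v.2) _ (hS' v h1) _
          (hint v hv n)
    rw [Fintype.sum_sum_type]
    simp only [Sum.elim_inl, Sum.elim_inr]
    rw [← harch fun v => Real.log (v c)]
    have h3 := AdmissibleAbsValues.product_formula hn
    have hfin := AdmissibleAbsValues.hasFiniteMulSupport hn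
    -- a finite set of places outside which the value is one
    set F : Finset (AdmissibleAbsValues.nonarchAbsVal (K := K)) := S ∪ hfin.toFinset with hF
    have h4 : ∏ᶠ v : AdmissibleAbsValues.nonarchAbsVal (K := K), v.val c = ∏ v ∈ F, v.val c := by
      refine finprod_eq_prod_of_mulSupport_subset _ fun v hv => ?_
      rw [hF, Finset.coe_union]
      exact Or.inr ((Set.Finite.mem_toFinset hfin).2 hv)
    have hpos : ∀ v : AbsoluteValue K ℝ, 0 < v c := fun v => v.pos hn
    have h6 := hlogm (AdmissibleAbsValues.archAbsVal (K := K)) (fun v => v c) hpos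
    have h7 : ((AdmissibleAbsValues.archAbsVal (K := K)).map fun v => Real.log (v c)).sum +
        ∑ v ∈ F, Real.log (v.val c) = 0 := by
      rw [h4] at h3
      have h8 := congrArg Real.log h3
      rw [Real.log_mul h6.1.ne' (Finset.prod_ne_zero_iff.2 fun v _ => (hpos v.val).ne'), h6.2,
        Real.log_prod fun v _ => (hpos v.val).ne', Real.log_one] at h8
      exact h8
    have h9 : ∑ v ∈ F, Real.log (v.val c) ≤
        ∑ v ∈ S, Real.log (v.val c) + ∑ v ∈ S', b v := by
      have h10 : S ⊆ F := Finset.subset_union_left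
      rw [← Finset.sum_sdiff h10, add_comm]
      refine add_le_add le_rfl ?_
      calc ∑ v ∈ F \ S, Real.log (v.val c) ≤ ∑ v ∈ F \ S, b v :=
            Finset.sum_le_sum fun v hv => hbv v (Finset.mem_sdiff.1 hv).2
        _ = ∑ v ∈ (F \ S).filter (fun v => v ∈ S'), b v := by
            rw [Finset.sum_filter]
            refine Finset.sum_congr rfl fun v _ => ?_
            simp only [hb]
            split_ifs <;> rfl
        _ ≤ ∑ v ∈ S', b v :=
            Finset.sum_le_sum_of_subset_of_nonneg (fun v hv => (Finset.mem_filter.1 hv).2)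
              fun v _ _ => hb0 v
    have h11 : ∑ v : S, Real.log (v.1.val c) = ∑ v ∈ S, Real.log (v.val c) :=
      Finset.sum_coe_sort S fun v => Real.log (v.val c)
    rw [h11]
    linarith

/-- Northcott: finitely many points of bounded height. -/
theorem finite_ht (B : ℝ) : {y : Fin N → K | ht y ≤ B}.Finite := by
  have h := Set.Finite.pi fun _ : Fin N => finite_setOfPred_logHeight₁_le (K := K) B
  refine h.subset fun y hy => ?_
  rw [Set.mem_univ_pi]
  intro i
  exact (coord_le_ht y i).trans hy

end Pool.Agent.H.MP_31a675_nt.Y
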