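import Pool.Agent.H.MP_31a675_nt.Y.DefsB
import Pool.Agent.H.MP_31a675_nt.Y.Glob

/-!
# Transcendence degrees and generic ultrafilters for some of the coordinates
-/

namespace Pool.Agent.H.MP_31a675_nt.Y

open MvPolynomial Filter

variable {K : Type} [Field K] {N : ℕ}

/-- If all `y i` are algebraic over the coordinates `i ≤ j`, more than `card {i // i ≤ j}` of them
satisfy a relation (matroid of algebraic independence, as in `W/TrDeg.lean`). -/
theorem exists_rel_of_alg {M : Type} [Field M] [Algebra K M] (j : Fin N) (y : Fin N → M)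
    (h : ∀ i, IsAlgebraic (Algebra.adjoin K (y '' {i' | i' ≤ j})) (y i)) {k : ℕ}
    (hk : Fintype.card {i : Fin N // i ≤ j} < k) (s : Fin k → Fin N) :
    ∃ P : MvPolynomial (Fin k) K, P ≠ 0 ∧ aeval (fun i => y (s i)) P = 0 := by
  classical
  by_contra hcon
  push Not at hcon
  have hind : AlgebraicIndependent K (fun i => y (s i)) := by
    rw [algebraicIndependent_iff]
    intro p hp
    by_contra hne
    exact hcon p hne hp
  have hsub : Set.range (fun i => y (s i)) ⊆
      (AlgebraicIndependent.matroid K M).closure (y '' {i' | i' ≤ j}) := by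
    rw [AlgebraicIndependent.matroid_closure_eq]
    rintro _ ⟨i, rfl⟩
    exact h (s i)
  have hindr : (AlgebraicIndependent.matroid K M).Indep (Set.range fun i => y (s i)) := by
    rw [AlgebraicIndependent.matroid_indep_iff]
    exact hind.coe_range
  have h1 := hindr.encard_le_eRk_of_subset hsub
  rw [Matroid.eRk_closure_eq] at h1
  have h2 : (AlgebraicIndependent.matroid K M).eRk (y '' {i' | i' ≤ j}) ≤
      (y '' {i' | i' ≤ j}).encard := Matroid.eRk_le_encard _ _
  have h3 : (y '' {i' | i' ≤ j}).encard ≤ (Fintype.card {i : Fin N // i ≤ j} : ℕ∞) := by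
    refine (Set.encard_image_le _ _).trans ?_
    rw [Set.encard_eq_coe_toFinset_card, Set.toFinset_card]
    exact le_of_eq (by congr 1)
  have h4 : (Set.range fun i => y (s i)).encard = (k : ℕ∞) := by
    rw [← Set.image_univ, Set.InjOn.encard_image hind.injective.injOn]
    simp
  rw [h4] at h1
  have h5 := h1.trans (h2.trans h3)
  have h6 : k ≤ Fintype.card {i : Fin N // i ≤ j} := by exact_mod_cast h5
  omega

/-- linear polynomials in one variable are nonzero -/
theorem Dim_lin {k : ℕ} (i : Fin k) (a : K) : (X i - C a : MvPolynomial (Fin k) K) ≠ 0 := by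
  intro h
  have h1 := congrArg (eval fun _ => a + 1) h
  simp at h1

/-- the sets generating the filter are nonempty -/
theorem Dim_nonempty [NumberField K] {f : Fin N → MvPolynomial (Fin N) K} {x : Fin N → K}
    {k : ℕ} (hk : 1 ≤ k) (s : Fin k → Fin N)
    (h : ∀ P : MvPolynomial (Fin k) K, (∀ n, eval (fun i => orb f x n (s i)) P = 0) → P = 0)
    (P : MvPolynomial (Fin k) K) (hP : P ≠ 0) (B : ℕ) :
    ∃ n : ℕ, eval (fun i => orb f x (n + 1) (s i)) P ≠ 0 ∧ (B : ℝ) < ht (orb f x (n + 1)) ∧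
      B < n := by
  classical
  by_contra hcon
  push Not at hcon
  let i₀ : Fin k := ⟨0, by omega⟩
  have hfin := finite_ht (K := K) (N := N) (B : ℝ)
  let Q : MvPolynomial (Fin k) K := P * ((∏ y ∈ hfin.toFinset, (X i₀ - C (y (s i₀)))) *
    ∏ m ∈ Finset.range (B + 2), (X i₀ - C (orb f x m (s i₀))))
  have hQ : Q ≠ 0 := by
    refine mul_ne_zero hP (mul_ne_zero ?_ ?_)
    · exact Finset.prod_ne_zero_iff.2 fun y _ => Dim_lin i₀ _
    · exact Finset.prod_ne_zero_iff.2 fun y _ => Dim_lin i₀ _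
  apply hQ
  apply h
  intro m
  have hev : eval (fun i => orb f x m (s i)) Q = eval (fun i => orb f x m (s i)) P *
      ((∏ y ∈ hfin.toFinset, (orb f x m (s i₀) - y (s i₀))) *
        ∏ k ∈ Finset.range (B + 2), (orb f x m (s i₀) - orb f x k (s i₀))) := by
    simp only [Q, map_mul, map_prod, map_sub, eval_X, eval_C]
  rw [hev]
  by_cases hm : m < B + 2
  · have h2 : ∏ k ∈ Finset.range (B + 2), (orb f x m (s i₀) - orb f x k (s i₀)) = 0 :=
      Finset.prod_eq_zero (Finset.mem_range.2 hm) (sub_self _)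
    rw [h2, mul_zero, mul_zero]
  · obtain ⟨n, rfl⟩ : ∃ n, m = n + 1 := ⟨m - 1, by omega⟩
    by_cases hP0 : eval (fun i => orb f x (n + 1) (s i)) P = 0
    · rw [hP0, zero_mul]
    by_cases hht : (B : ℝ) < ht (orb f x (n + 1))
    · exact absurd (hcon n hP0 hht) (by omega)
    · have h3 : orb f x (n + 1) ∈ hfin.toFinset := by
        rw [Set.Finite.mem_toFinset]
        exact not_lt.1 hht
      have h2 : ∏ y ∈ hfin.toFinset, (orb f x (n + 1) (s i₀) - y (s i₀)) = 0 :=
        Finset.prod_eq_zero h3 (sub_self _)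
      rw [h2, zero_mul, mul_zero]

/-- As `exists_generic` (file `SlowA.lean`), for the coordinates `s i`. -/
theorem exists_generic_s [NumberField K] {f : Fin N → MvPolynomial (Fin N) K} {x : Fin N → K}
    {k : ℕ} (hk : 1 ≤ k) (s : Fin k → Fin N)
    (h : ∀ P : MvPolynomial (Fin k) K, (∀ n, eval (fun i => orb f x n (s i)) P = 0) → P = 0) :
    ∃ 𝔘 : Ultrafilter ℕ, (∀ P : MvPolynomial (Fin k) K, P ≠ 0 →
      ∀ᶠ n in (𝔘 : Filter ℕ), eval (fun i => orb f x (n + 1) (s i)) P ≠ 0) ∧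
      Tendsto (fun n => ht (orb f x (n + 1))) (𝔘 : Filter ℕ) atTop ∧
      Tendsto (fun n : ℕ => n) (𝔘 : Filter ℕ) atTop := by
  classical
  let S : {P : MvPolynomial (Fin k) K // P ≠ 0} × ℕ → Set ℕ := fun p =>
    {n | eval (fun i => orb f x (n + 1) (s i)) p.1.1 ≠ 0 ∧ (p.2 : ℝ) < ht (orb f x (n + 1)) ∧
      p.2 < n}
  let F : Filter ℕ := ⨅ p, 𝓟 (S p)
  have hdir : Directed (· ≥ ·) fun p => 𝓟 (S p) := by
    intro p q
    refine ⟨(⟨p.1.1 * q.1.1, mul_ne_zero p.1.2 q.1.2⟩, max p.2 q.2), ?_, ?_⟩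
    · show 𝓟 (S _) ≤ 𝓟 (S p)
      rw [principal_mono]
      rintro n ⟨h1, h2, h3⟩
      simp only [map_mul] at h1
      refine ⟨left_ne_zero_of_mul h1, lt_of_le_of_lt ?_ h2, lt_of_le_of_lt (le_max_left _ _) h3⟩
      exact_mod_cast le_max_left p.2 q.2
    · show 𝓟 (S _) ≤ 𝓟 (S q)
      rw [principal_mono]
      rintro n ⟨h1, h2, h3⟩
      simp only [map_mul] at h1
      refine ⟨right_ne_zero_of_mul h1, lt_of_le_of_lt ?_ h2, lt_of_le_of_lt (le_max_right _ _) h3⟩
      exact_mod_cast le_max_right p.2 q.2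
  have hne : ∀ p, (𝓟 (S p)).NeBot := by
    intro p
    rw [principal_neBot_iff]
    obtain ⟨n, hn⟩ := Dim_nonempty hk s h p.1.1 p.1.2 p.2
    exact ⟨n, hn⟩
  haveI : Nonempty ({P : MvPolynomial (Fin k) K // P ≠ 0} × ℕ) := ⟨(⟨1, one_ne_zero⟩, 0)⟩
  haveI : F.NeBot := iInf_neBot_of_directed' hdir hne
  have hS : ∀ p, S p ∈ (Ultrafilter.of F : Filter ℕ) := by
    intro p
    have h1 : S p ∈ F := mem_iInf_of_mem p (mem_principal_self _)
    exact Ultrafilter.of_le F h1
  refine ⟨Ultrafilter.of F, ?_, ?_, ?_⟩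
  · intro P hP
    filter_upwards [hS (⟨P, hP⟩, 0)] with n hn
    exact hn.1
  · rw [tendsto_atTop]
    intro b
    filter_upwards [hS (⟨1, one_ne_zero⟩, ⌈b⌉₊)] with n hn
    exact (Nat.le_ceil b).trans hn.2.1.le
  · rw [tendsto_atTop]
    intro b
    filter_upwards [hS (⟨1, one_ne_zero⟩, b)] with n hn
    exact hn.2.2.le

end Pool.Agent.H.MP_31a675_nt.Y
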