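import Pool.Agent.H.MP_31a675_nt.Y.NZero

/-!
# The coordinates of the zeros at infinity are algebraic, uniformly
-/

namespace Pool.Agent.H.MP_31a675_nt.Y

open MvPolynomial

variable {K : Type} [Field K] {N : ℕ}

/-- Scaling of the argument of a homogeneous polynomial. -/
theorem Fnt_aeval_smul {E : Type} [CommRing E] [Algebra K E] (P : MvPolynomial (Fin N) K) (n : ℕ)
    (hP : P.IsHomogeneous n) (c : E) (z : Fin N → E) :
    aeval (fun i => c * z i) P = c ^ n * aeval z P := by
  rw [aeval_def, aeval_def, eval₂_eq', eval₂_eq', Finset.mul_sum]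
  refine Finset.sum_congr rfl fun m hm => ?_
  have hdeg : ∑ i, m i = n := by
    have h := hP (mem_support_iff.1 hm)
    rw [Finsupp.weight_apply, Finsupp.sum_fintype _ _ (fun _ => by simp)] at h
    simpa using h
  have h1 : ∏ i, (c * z i) ^ m i = c ^ n * ∏ i, z i ^ m i := by
    simp only [mul_pow]
    rw [Finset.prod_mul_distrib, Finset.prod_pow_eq_pow_sum, hdeg]
  rw [h1]
  ring

/-- The top form is homogeneous. -/
theorem Fnt_topf_hom (D : Fin N → ℕ) (f : Fin N → MvPolynomial (Fin N) K) (i : Fin N) :
    (topf D f i).IsHomogeneous (D i) :=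
  homogeneousComponent_isHomogeneous _ _

/-- Every coordinate of a point `z` as in `Gen.low`, in any extension `E` of `K`, is algebraic over
`K`. If `z i` is transcendental over `K` there is a valuation subring of `E` containing `K`, with
`(z i)⁻¹` in its maximal ideal (`Ideal.image_subset_nonunits_valuationSubring` for the subring
`K[(z i)⁻¹]` and the ideal generated by `(z i)⁻¹`). Let `z i₀` be a coordinate of maximal value, greater
than one; the residues of the `z i / z i₀` form a nonzero common zero of the top forms with `j < i`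
and its coordinates `i ≤ j` are zero: this contradicts `non_ext` for the index `j + 1`. -/
theorem zero_alg {D : Fin N → ℕ} {d : ℕ} (hD : Degs D d) {f : Fin N → MvPolynomial (Fin N) K}
    (hf : Gen D d f) (j : Fin N) (hj : D j < d) {E : Type} [Field E] [Algebra K E] (z : Fin N → E)
    (h0 : ∀ i, i < j → z i = 0) (h1 : z j = 1) (h2 : ∀ i, j < i → aeval z (topf D f i) = 0)
    (i : Fin N) : IsAlgebraic K (z i) := by
  by_contra hna
  have hnm : z i ∉ (integralClosure K E).toSubring := by
    intro h
    have h' : z i ∈ integralClosure K E := h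
    exact hna (IsIntegral.isAlgebraic h')
  obtain ⟨V, hV, hiV⟩ := Subring.exists_le_valuationSubring_of_isIntegrallyClosedIn hnm
  have hK : ∀ c : K, algebraMap K E c ∈ V := fun c => hV (algebraMap_mem (integralClosure K E) c)
  -- a coordinate of maximal value
  obtain ⟨i₀, -, hmax⟩ := Finset.exists_max_image (Finset.univ : Finset (Fin N))
    (fun k => V.valuation (z k)) ⟨j, Finset.mem_univ j⟩
  have hi₀ : 1 < V.valuation (z i₀) := by
    refine lt_of_lt_of_le ?_ (hmax i (Finset.mem_univ i))
    by_contra hle
    exact hiV ((V.valuation_le_one_iff _).1 (not_lt.1 hle))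
  have hz0 : z i₀ ≠ 0 := by
    intro h
    rw [h, map_zero] at hi₀
    exact absurd hi₀ (not_lt.2 zero_le_one)
  have hji : j < i₀ := by
    by_contra hle
    rcases lt_or_eq_of_le (not_lt.1 hle) with hlt | heq
    · exact hz0 (h0 _ hlt)
    · rw [heq, h1, map_one] at hi₀
      exact lt_irrefl _ hi₀
  have hv0 : V.valuation (z i₀) ≠ 0 := (Valuation.ne_zero_iff _).2 hz0
  have hy : ∀ k, z k / z i₀ ∈ V := by
    intro k
    rw [← V.valuation_le_one_iff, map_div₀]
    exact div_le_one_of_le₀ (hmax k (Finset.mem_univ k)) zero_le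
  -- the residue field as an extension of `K`
  let φ : K →+* V := (algebraMap K E).codRestrict V.toSubring hK
  let R := IsLocalRing.ResidueField V
  let ψ : K →+* R := (IsLocalRing.residue V).comp φ
  let _ : Algebra K R := ψ.toAlgebra
  let y : Fin N → V := fun k => ⟨z k / z i₀, hy k⟩
  have hev : ∀ P : MvPolynomial (Fin N) K, ((eval₂ φ y P : V) : E) = aeval (fun k => z k / z i₀) P := by
    intro P
    have h := hom_eval₂ P φ V.subtype y
    have e1 : V.subtype.comp φ = algebraMap K E := by
      ext c
      rfl
    rw [e1] at h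
    rw [aeval_def]
    exact h
  have hres : ∀ P : MvPolynomial (Fin N) K,
      aeval (fun k => IsLocalRing.residue V (y k)) P = IsLocalRing.residue V (eval₂ φ y P) := by
    intro P
    rw [hom_eval₂, aeval_def]
    rfl
  have hjN : (j : ℕ) + 1 < N := lt_of_le_of_lt (Nat.succ_le_of_lt (Fin.lt_def.1 hji)) i₀.2
  let j' : Fin N := ⟨(j : ℕ) + 1, hjN⟩
  have hlt : ∀ k : Fin N, k < j' → k ≤ j := fun k hk => Fin.le_def.2 (Nat.lt_succ_iff.1 (Fin.lt_def.1 hk))
  have hle : ∀ k : Fin N, j' ≤ k → j < k := fun k hk => Fin.lt_def.2 (Nat.lt_of_succ_le (Fin.le_def.1 hk))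
  have key := non_ext hD hf j' (fun k hk => by
      rcases lt_or_eq_of_le (hlt k hk) with hkj | hkj
      · rcases hD.inc k j hkj with h | h
        · exact lt_trans h hj
        · exact absurd h.2 (ne_of_lt hj)
      · rw [hkj]; exact hj) (fun k => IsLocalRing.residue V (y k))
    (fun k hk => by
      rcases lt_or_eq_of_le (hlt k hk) with hkj | hkj
      · have : y k = 0 := by
          apply Subtype.ext
          show z k / z i₀ = 0
          rw [h0 k hkj, zero_div]
        simp only [this, map_zero]
      · rw [IsLocalRing.residue_eq_zero_iff, ValuationSubring.valuation_lt_one_iff]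
        show V.valuation (z k / z i₀) < 1
        rw [hkj, h1, map_div₀, map_one]
        exact (div_lt_one₀ (lt_trans one_pos hi₀)).2 hi₀)
    (fun k hk => by
      rw [hres]
      have : eval₂ φ y (topf D f k) = 0 := by
        apply Subtype.ext
        show ((eval₂ φ y (topf D f k) : V) : E) = 0
        rw [hev]
        have e2 : (fun k => z k / z i₀) = fun k => (z i₀)⁻¹ * z k := by
          funext k
          rw [div_eq_mul_inv, mul_comm]
        rw [e2, Fnt_aeval_smul _ _ (Fnt_topf_hom D f k), h2 k (hle k hk), mul_zero]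
      rw [this, map_zero])
  have h3 := congrFun key i₀
  have h4 : y i₀ = 1 := by
    apply Subtype.ext
    show z i₀ / z i₀ = 1
    exact div_self hz0
  simp only [h4, map_one, Pi.zero_apply] at h3
  exact one_ne_zero h3

/-- One polynomial for all zeros: the coordinates of a zero `z` in `E` generate a quotient of
`MvPolynomial (Fin N) K ⧸ I`, `I` the ideal of the conditions, by a prime ideal, which contains one of
the finitely many minimal prime ideals (`Ideal.finite_minimalPrimes_of_isNoetherianRing`); take the
product of the minimal polynomials of the coordinates modulo the minimal primes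
(`zero_alg` for the fraction field of the quotient). -/
theorem zero_poly {D : Fin N → ℕ} {d : ℕ} (hD : Degs D d) {f : Fin N → MvPolynomial (Fin N) K}
    (hf : Gen D d f) (j : Fin N) (hj : D j < d) : ∃ p : Polynomial K, p ≠ 0 ∧
    ∀ {E : Type} [Field E] [Algebra K E] (z : Fin N → E), (∀ i, i < j → z i = 0) → z j = 1 →
      (∀ i, j < i → aeval z (topf D f i) = 0) → ∀ i, Polynomial.aeval (z i) p = 0 := by
  classical
  let S : Set (MvPolynomial (Fin N) K) := {X j - 1} ∪ X '' {i | i < j} ∪ topf D f '' {i | j < i}
  let I : Ideal (MvPolynomial (Fin N) K) := Ideal.span S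
  have hfin : I.minimalPrimes.Finite := I.finite_minimalPrimes_of_isNoetherianRing
  have hq : ∀ (P : Ideal (MvPolynomial (Fin N) K)) (i : Fin N), ∃ q : Polynomial K, q ≠ 0 ∧
      (P ∈ I.minimalPrimes → Polynomial.aeval (X i : MvPolynomial (Fin N) K) q ∈ P) := by
    intro P i
    by_cases hP : P ∈ I.minimalPrimes
    · have : P.IsPrime := hP.1.1
      have hIP : I ≤ P := hP.1.2
      let A := MvPolynomial (Fin N) K ⧸ P
      let F := FractionRing A
      let g : MvPolynomial (Fin N) K →ₐ[K] F := (Algebra.ofId A F).restrictScalars K |>.comp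
        (Ideal.Quotient.mkₐ K P)
      have hgP : ∀ a, g a = 0 → a ∈ P := by
        intro a ha
        have h1 : algebraMap A F (Ideal.Quotient.mk P a) = 0 := ha
        exact Ideal.Quotient.eq_zero_iff_mem.1
          ((map_eq_zero_iff _ (IsFractionRing.injective A F)).1 h1)
      have hPg : ∀ a, a ∈ P → g a = 0 := by
        intro a ha
        show algebraMap A F (Ideal.Quotient.mk P a) = 0
        rw [Ideal.Quotient.eq_zero_iff_mem.2 ha, map_zero]
      have hg : ∀ a, aeval (fun i => g (X i)) a = g a := by
        intro a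
        have : aeval (fun i => g (X i)) = g := by
          ext k
          simp
        rw [this]
      have halg := zero_alg hD hf j hj (fun i => g (X i))
        (fun k hk => hPg _ (hIP (Ideal.subset_span (Or.inl (Or.inr ⟨k, hk, rfl⟩)))))
        (by
          have h := hPg _ (hIP (Ideal.subset_span (Or.inl (Or.inl rfl)) : (X j - 1) ∈ I))
          rw [map_sub, map_one] at h
          exact sub_eq_zero.1 h)
        (fun k hk => by
          rw [hg]
          exact hPg _ (hIP (Ideal.subset_span (Or.inr ⟨k, hk, rfl⟩)))) i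
      obtain ⟨q, hq0, hq1⟩ := halg
      refine ⟨q, hq0, fun _ => hgP _ ?_⟩
      rw [← Polynomial.aeval_algHom_apply]
      exact hq1
    · exact ⟨1, one_ne_zero, fun h => absurd h hP⟩
  choose q hq0 hq1 using hq
  refine ⟨∏ P ∈ hfin.toFinset, ∏ i, q P i, ?_, ?_⟩
  · exact Finset.prod_ne_zero_iff.2 fun P _ => Finset.prod_ne_zero_iff.2 fun i _ => hq0 P i
  · intro E _ _ z hz0 hz1 hz2 i
    let J : Ideal (MvPolynomial (Fin N) K) := RingHom.ker (aeval z : MvPolynomial (Fin N) K →ₐ[K] E)
    have : J.IsPrime := RingHom.ker_isPrime _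
    have hIJ : I ≤ J := by
      refine Ideal.span_le.2 ?_
      rintro a ((ha | ⟨k, hk, rfl⟩) | ⟨k, hk, rfl⟩)
      · rw [Set.mem_singleton_iff] at ha
        rw [ha]
        show aeval z (X j - 1) = 0
        rw [map_sub, aeval_X, map_one, hz1, sub_self]
      · show aeval z (X k) = 0
        rw [aeval_X]
        exact hz0 k hk
      · exact hz2 k hk
    obtain ⟨P, hP, hPJ⟩ := Ideal.exists_minimalPrimes_le hIJ
    have h1 : aeval z (Polynomial.aeval (X i : MvPolynomial (Fin N) K) (q P i)) = 0 :=
      hPJ (hq1 P i hP)
    rw [← Polynomial.aeval_algHom_apply, aeval_X] at h1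
    rw [map_prod]
    refine Finset.prod_eq_zero (hfin.mem_toFinset.2 hP) ?_
    rw [map_prod]
    exact Finset.prod_eq_zero (Finset.mem_univ i) h1

end Pool.Agent.H.MP_31a675_nt.Y
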