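import Pool.Agent.H.MP_31a675_nt.Y.Defs

/-!
# The conditions at infinity over arbitrary extensions
-/

namespace Pool.Agent.H.MP_31a675_nt.Y

open MvPolynomial

variable {K : Type} [Field K] {N : ℕ}

/-- Weak Nullstellensatz over `K`: a family of polynomials over `K` without common zero over an
algebraic closure generates the unit ideal. -/
theorem span_top {σ : Type} [Finite σ] (S : Set (MvPolynomial σ K))
    (h : ∀ z : σ → AlgebraicClosure K, ∃ p ∈ S, aeval z p ≠ 0) : Ideal.span S = ⊤ := by
  by_contra hne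
  obtain ⟨m, hm, hle⟩ := Ideal.exists_le_maximal _ hne
  let _ : Field (MvPolynomial σ K ⧸ m) := Ideal.Quotient.field m
  have : Module.Finite K (MvPolynomial σ K ⧸ m) :=
    finite_of_finite_type_of_isJacobsonRing K (MvPolynomial σ K ⧸ m)
  have : Algebra.IsAlgebraic K (MvPolynomial σ K ⧸ m) := Algebra.IsAlgebraic.of_finite K _
  let φ : (MvPolynomial σ K ⧸ m) →ₐ[K] AlgebraicClosure K := IsAlgClosed.lift
  obtain ⟨p, hp, hz⟩ := h (fun i => φ (Ideal.Quotient.mkₐ K m (X i)))
  apply hz
  have h1 : aeval (fun i => φ (Ideal.Quotient.mkₐ K m (X i))) =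
      φ.comp (Ideal.Quotient.mkₐ K m) := by
    apply MvPolynomial.algHom_ext
    intro i
    simp
  rw [h1, AlgHom.comp_apply]
  have h2 : Ideal.Quotient.mkₐ K m p = 0 := by
    rw [Ideal.Quotient.mkₐ_eq_mk]
    exact Ideal.Quotient.eq_zero_iff_mem.mpr (hle (Ideal.subset_span hp))
  rw [h2, map_zero]

/-- No common zero in any extension. -/
theorem no_zero {σ : Type} (S : Set (MvPolynomial σ K)) (h : Ideal.span S = ⊤) {E : Type}
    [CommRing E] [Nontrivial E] [Algebra K E] (z : σ → E) : ∃ p ∈ S, aeval z p ≠ 0 := by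
  by_contra hc
  have h1 : Ideal.span S ≤ RingHom.ker (aeval z : MvPolynomial σ K →ₐ[K] E) := by
    rw [Ideal.span_le]
    intro p hp
    rw [SetLike.mem_coe, RingHom.mem_ker]
    by_contra h2
    exact hc ⟨p, hp, h2⟩
  rw [h] at h1
  have h2 : (1 : MvPolynomial σ K) ∈ RingHom.ker (aeval z : MvPolynomial σ K →ₐ[K] E) :=
    h1 Submodule.mem_top
  rw [RingHom.mem_ker, map_one] at h2
  exact one_ne_zero h2

/-- The forms at infinity are homogeneous. -/
theorem NZero_hom {E : Type} [CommRing E] [Algebra K E] (D : Fin N → ℕ)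
    (f : Fin N → MvPolynomial (Fin N) K) (i : Fin N) (s : E) (z : Fin N → E) :
    aeval (fun k => s * z k) (topf D f i) = s ^ D i * aeval z (topf D f i) := by
  have hh : (topf D f i).IsHomogeneous (D i) := homogeneousComponent_isHomogeneous _ _
  rw [(topf D f i).as_sum, map_sum, map_sum, Finset.mul_sum]
  apply Finset.sum_congr rfl
  intro m hm
  have hd : ∑ k, m k = D i := by
    have h1 := hh (mem_support_iff.mp hm)
    rw [Finsupp.weight_apply, Finsupp.sum_fintype _ _ (fun _ => by simp)] at h1
    simpa using h1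
  rw [aeval_monomial, aeval_monomial, Finsupp.prod_fintype _ _ (fun i => pow_zero _),
    Finsupp.prod_fintype _ _ (fun i => pow_zero _)]
  simp only [mul_pow]
  rw [Finset.prod_mul_distrib, Finset.prod_pow_eq_pow_sum, hd]
  ring

/-- Condition `N_j`, for every `j` such that all degrees before `j` are less than `d`: descending
induction on `j`, with `Gen.top` for the first `j` with `D j = d`, and `Gen.low` (after scaling
`z j = 1`) for the others. -/
theorem non_cl {D : Fin N → ℕ} {d : ℕ} (hD : Degs D d) {f : Fin N → MvPolynomial (Fin N) K}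
    (hf : Gen D d f) (j : Fin N) (hj : ∀ i, i < j → D i < d) (z : Fin N → AlgebraicClosure K)
    (h0 : ∀ i, i < j → z i = 0) (h1 : ∀ i, j ≤ i → aeval z (topf D f i) = 0) : z = 0 := by
  obtain ⟨t, ht⟩ : ∃ t, t = N - j.1 := ⟨_, rfl⟩
  induction t generalizing j with
  | zero => have := j.2; omega
  | succ t ih =>
    by_cases hjd : D j < d
    · by_cases hz : z j = 0
      · -- go on with the next index
        obtain ⟨i₁, hi₁⟩ := hD.max
        have hlt : j < i₁ := by
          by_contra hc
          rcases lt_or_eq_of_le (not_lt.mp hc) with h2 | h2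
          · have := hj i₁ h2
            omega
          · rw [h2] at hi₁
            omega
        have hlt' : j.1 < i₁.1 := hlt
        have hjN : j.1 + 1 < N := by have := i₁.2; omega
        refine ih ⟨j.1 + 1, hjN⟩ ?_ ?_ ?_ ?_
        · intro i hi
          have h2 : i.1 < j.1 + 1 := hi
          rcases Nat.lt_succ_iff_lt_or_eq.mp h2 with h3 | h3
          · exact hj i h3
          · have h4 : i = j := Fin.ext h3
            rw [h4]
            exact hjd
        · intro i hi
          have h2 : i.1 < j.1 + 1 := hi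
          rcases Nat.lt_succ_iff_lt_or_eq.mp h2 with h3 | h3
          · exact h0 i h3
          · have h4 : i = j := Fin.ext h3
            rw [h4]
            exact hz
        · intro i hi
          have h2 : j.1 + 1 ≤ i.1 := hi
          exact h1 i (Fin.le_def.mpr (by omega))
        · simp only
          omega
      · exfalso
        have h2 := hf.low j (fun k => (z j)⁻¹ * z k) hjd
          (fun i hi => by rw [h0 i hi, mul_zero]) (inv_mul_cancel₀ hz)
          (fun i hi => by rw [NZero_hom, h1 i hi.le, mul_zero])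
        apply h2.1
        rw [NZero_hom, h1 j le_rfl, mul_zero]
    · have hjd' : D j = d := le_antisymm (hD.le j) (not_lt.mp hjd)
      apply hf.top z
      · intro i hi
        apply h0
        by_contra hc
        rcases lt_or_eq_of_le (not_lt.mp hc) with h2 | h2
        · rcases hD.inc j i h2 with h3 | h3
          · have := hD.le i
            omega
          · omega
        · rw [← h2] at hi
          omega
      · intro i hi
        apply h1
        by_contra hc
        have := hj i (not_le.mp hc)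
        omega

/-- `N_j` as an identity: for `j ≤ i₀` the polynomials `X i₀ - 1`, `X i`, `i < j`, and the top forms
with `j ≤ i` generate the unit ideal. -/
theorem non_span {D : Fin N → ℕ} {d : ℕ} (hD : Degs D d) {f : Fin N → MvPolynomial (Fin N) K}
    (hf : Gen D d f) (j : Fin N) (hj : ∀ i, i < j → D i < d) (i₀ : Fin N) (hi : j ≤ i₀) :
    Ideal.span ({X i₀ - 1} ∪ X '' {i | i < j} ∪ topf D f '' {i | j ≤ i} :
      Set (MvPolynomial (Fin N) K)) = ⊤ := by
  apply span_top
  intro z
  by_contra hc
  have hc' : ∀ p ∈ ({X i₀ - 1} ∪ X '' {i | i < j} ∪ topf D f '' {i | j ≤ i} :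
      Set (MvPolynomial (Fin N) K)), aeval z p = 0 := by
    intro p hp
    by_contra h2
    exact hc ⟨p, hp, h2⟩
  have h1 : z i₀ = 1 := by
    have h2 := hc' (X i₀ - 1) (Or.inl (Or.inl rfl))
    rw [map_sub, aeval_X, map_one, sub_eq_zero] at h2
    exact h2
  have h3 : z = 0 := by
    apply non_cl hD hf j hj z
    · intro i hi'
      have h2 := hc' (X i) (Or.inl (Or.inr ⟨i, hi', rfl⟩))
      rwa [aeval_X] at h2
    · intro i hi'
      exact hc' _ (Or.inr ⟨i, hi', rfl⟩)
  rw [h3] at h1
  exact zero_ne_one h1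

/-- `N_j` over every extension. -/
theorem non_ext {D : Fin N → ℕ} {d : ℕ} (hD : Degs D d) {f : Fin N → MvPolynomial (Fin N) K}
    (hf : Gen D d f) (j : Fin N) (hj : ∀ i, i < j → D i < d) {E : Type} [Field E] [Algebra K E]
    (z : Fin N → E) (h0 : ∀ i, i < j → z i = 0) (h1 : ∀ i, j ≤ i → aeval z (topf D f i) = 0) :
    z = 0 := by
  by_contra hz
  obtain ⟨i₀, hi₀⟩ := Function.ne_iff.mp hz
  have hi₀' : z i₀ ≠ 0 := hi₀
  have hji : j ≤ i₀ := by
    by_contra hc
    exact hi₀' (h0 i₀ (not_le.mp hc))
  obtain ⟨p, hp, hpz⟩ := no_zero _ (non_span hD hf j hj i₀ hji) (fun k => (z i₀)⁻¹ * z k)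
  apply hpz
  rcases hp with (hp | ⟨i, hi, rfl⟩) | ⟨i, hi, rfl⟩
  · rw [Set.mem_singleton_iff.mp hp, map_sub, aeval_X, map_one, inv_mul_cancel₀ hi₀', sub_self]
  · rw [aeval_X, h0 i hi, mul_zero]
  · rw [NZero_hom, h1 i hi, mul_zero]

/-- The zeros in `Gen.low` are simple over every extension. -/
theorem low_ext {D : Fin N → ℕ} {d : ℕ} {f : Fin N → MvPolynomial (Fin N) K} (hf : Gen D d f)
    (j : Fin N) (hj : D j < d) {E : Type} [Field E] [Algebra K E] (z : Fin N → E)
    (h0 : ∀ i, i < j → z i = 0) (h1 : z j = 1) (h2 : ∀ i, j < i → aeval z (topf D f i) = 0) :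
    (Matrix.of fun i i' : {i // j < i} => aeval z (pderiv i'.1 (topf D f i.1))).det ≠ 0 := by
  have hmap : ∀ {F : Type} [Field F] [Algebra K F] (w : Fin N → F),
      (Matrix.of fun i i' : {i // j < i} => aeval w (pderiv i'.1 (topf D f i.1))).det =
      aeval w (Matrix.of fun i i' : {i // j < i} => pderiv i'.1 (topf D f i.1)).det := by
    intro F _ _ w
    rw [AlgHom.map_det]
    rfl
  have hs : Ideal.span ({X j - 1} ∪ X '' {i | i < j} ∪ topf D f '' {i | j < i} ∪
      {(Matrix.of fun i i' : {i // j < i} => pderiv i'.1 (topf D f i.1)).det} :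
      Set (MvPolynomial (Fin N) K)) = ⊤ := by
    apply span_top
    intro w
    by_contra hc
    have hc' : ∀ p ∈ ({X j - 1} ∪ X '' {i | i < j} ∪ topf D f '' {i | j < i} ∪
        {(Matrix.of fun i i' : {i // j < i} => pderiv i'.1 (topf D f i.1)).det} :
        Set (MvPolynomial (Fin N) K)), aeval w p = 0 := by
      intro p hp
      by_contra h2
      exact hc ⟨p, hp, h2⟩
    have h3 := hf.low j w hj
      (fun i hi => by
        have h4 := hc' (X i) (Or.inl (Or.inl (Or.inr ⟨i, hi, rfl⟩)))
        rwa [aeval_X] at h4)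
      (by
        have h4 := hc' (X j - 1) (Or.inl (Or.inl (Or.inl rfl)))
        rwa [map_sub, aeval_X, map_one, sub_eq_zero] at h4)
      (fun i hi => hc' _ (Or.inl (Or.inr ⟨i, hi, rfl⟩)))
    apply h3.2
    rw [hmap]
    exact hc' _ (Or.inr rfl)
  obtain ⟨p, hp, hpz⟩ := no_zero _ hs z
  rcases hp with ((hp | ⟨i, hi, rfl⟩) | ⟨i, hi, rfl⟩) | hp
  · exfalso
    apply hpz
    rw [Set.mem_singleton_iff.mp hp, map_sub, aeval_X, map_one, h1, sub_self]
  · exfalso
    apply hpz
    rw [aeval_X, h0 i hi]
  · exfalso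
    exact hpz (h2 i hi)
  · rw [hmap, ← Set.mem_singleton_iff.mp hp]
    exact hpz

end Pool.Agent.H.MP_31a675_nt.Y
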