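import Pool.Agent.H.MP_31a675_nt.Basic
import Pool.Agent.H.MP_31a675_nt.Y.NZero
import Pool.Agent.H.MP_31a675_nt.Y.Hat

/-!
# The growth of orbits at one absolute value
-/

namespace Pool.Agent.H.MP_31a675_nt.Y

open MvPolynomial

variable {K : Type} [Field K] {N : ℕ}

/-- Upper bound for the values of a polynomial. -/
theorem eval_le (v : AbsoluteValue K ℝ) (P : MvPolynomial (Fin N) K) (m : ℕ)
    (hP : P.totalDegree ≤ m) : ∃ C : ℝ, 1 ≤ C ∧ ∀ x : Fin N → K,
      v (eval x P) ≤ C * nrm v x ^ m := by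
  refine ⟨1 + ∑ s ∈ P.support, v (coeff s P), ?_, fun x => ?_⟩
  · have : 0 ≤ ∑ s ∈ P.support, v (coeff s P) := Finset.sum_nonneg fun s _ => v.nonneg _
    linarith
  · rw [eval_eq']
    have h1 := one_le_nrm v x
    calc v (∑ s ∈ P.support, coeff s P * ∏ i, x i ^ s i)
        ≤ ∑ s ∈ P.support, v (coeff s P * ∏ i, x i ^ s i) := v.sum_le _ _
      _ ≤ ∑ s ∈ P.support, v (coeff s P) * nrm v x ^ m := by
          refine Finset.sum_le_sum fun s hs => ?_
          rw [map_mul, map_prod]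
          refine mul_le_mul_of_nonneg_left ?_ (v.nonneg _)
          have h2 : ∑ i, s i ≤ m := by
            have := le_totalDegree hs
            rw [Finsupp.sum_fintype _ _ (by simp)] at this
            exact this.trans hP
          calc ∏ i, v (x i ^ s i) = ∏ i, v (x i) ^ s i := by simp only [map_pow]
            _ ≤ ∏ i, nrm v x ^ s i := Finset.prod_le_prod (fun i _ => pow_nonneg (v.nonneg _) _)
                (fun i _ => pow_le_pow_left₀ (v.nonneg _) (le_nrm v x i) _)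
            _ = nrm v x ^ ∑ i, s i := Finset.prod_pow_eq_pow_sum _ _ _
            _ ≤ nrm v x ^ m := pow_le_pow_right₀ h1 h2
      _ = (∑ s ∈ P.support, v (coeff s P)) * nrm v x ^ m := by rw [Finset.sum_mul]
      _ ≤ (1 + ∑ s ∈ P.support, v (coeff s P)) * nrm v x ^ m := by
          have : 0 ≤ nrm v x ^ m := pow_nonneg (zero_le_one.trans h1) _
          nlinarith

/-- Bound on the unit polydisc. -/
theorem Place_bd (v : AbsoluteValue K ℝ) (P : MvPolynomial (Fin N) K) :
    ∃ B : ℝ, 1 ≤ B ∧ ∀ z : Fin N → K, (∀ i, v (z i) ≤ 1) → v (eval z P) ≤ B := by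
  obtain ⟨C, hC, h⟩ := eval_le v P P.totalDegree le_rfl
  refine ⟨C, hC, fun z hz => ?_⟩
  have h1 : nrm v z = 1 := le_antisymm (nrm_le v z 1 le_rfl hz) (one_le_nrm v z)
  have := h z
  rwa [h1, one_pow, mul_one] at this

/-- Elements of an ideal are bounded by the generators on the unit polydisc. -/
theorem Place_span (v : AbsoluteValue K ℝ) (S : Set (MvPolynomial (Fin N) K))
    (Φ : (Fin N → K) → ℝ)
    (hS : ∀ p ∈ S, ∀ z : Fin N → K, v (eval z p) ≤ Φ z) (p : MvPolynomial (Fin N) K)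
    (hp : p ∈ Ideal.span S) :
    ∃ b : ℝ, 0 ≤ b ∧ ∀ z : Fin N → K, (∀ i, v (z i) ≤ 1) → v (eval z p) ≤ b * Φ z := by
  induction hp using Submodule.span_induction with
  | mem x hx => exact ⟨1, zero_le_one, fun z _ => by rw [one_mul]; exact hS x hx z⟩
  | zero => exact ⟨0, le_rfl, fun z _ => by simp⟩
  | add x y _ _ hx hy =>
    obtain ⟨b, hb, h⟩ := hx
    obtain ⟨b', hb', h'⟩ := hy
    refine ⟨b + b', add_nonneg hb hb', fun z hz => ?_⟩
    rw [map_add]
    calc v (eval z x + eval z y) ≤ v (eval z x) + v (eval z y) := v.add_le _ _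
      _ ≤ b * Φ z + b' * Φ z := add_le_add (h z hz) (h' z hz)
      _ = (b + b') * Φ z := by ring
  | smul a x _ hx =>
    obtain ⟨b, hb, h⟩ := hx
    obtain ⟨B, hB, hB'⟩ := Place_bd v a
    refine ⟨B * b, mul_nonneg (zero_le_one.trans hB) hb, fun z hz => ?_⟩
    rw [smul_eq_mul, map_mul, map_mul, mul_assoc]
    exact mul_le_mul (hB' z hz) (h z hz) (v.nonneg _) (zero_le_one.trans hB)

/-- The identity of `non_span`, evaluated on the unit polydisc. -/
theorem Place_one {D : Fin N → ℕ} {d : ℕ} (hD : Degs D d) {f : Fin N → MvPolynomial (Fin N) K}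
    (hf : Gen D d f) (v : AbsoluteValue K ℝ) (j : Fin N) (hj : ∀ i, i < j → D i < d) :
    ∃ b : ℝ, 1 ≤ b ∧ ∀ i₀, j ≤ i₀ → ∀ z : Fin N → K, (∀ i, v (z i) ≤ 1) → z i₀ = 1 →
      1 ≤ b * (∑ i ∈ Finset.univ.filter (fun i => i < j), v (z i) +
        ∑ i ∈ Finset.univ.filter (fun i => j ≤ i), v (eval z (topf D f i))) := by
  have hn : ∀ z : Fin N → K, 0 ≤ ∑ i ∈ Finset.univ.filter (fun i => i < j), v (z i) +
        ∑ i ∈ Finset.univ.filter (fun i => j ≤ i), v (eval z (topf D f i)) := fun z =>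
    add_nonneg (Finset.sum_nonneg fun _ _ => v.nonneg _) (Finset.sum_nonneg fun _ _ => v.nonneg _)
  have key : ∀ i₀, ∃ b : ℝ, 0 ≤ b ∧ (j ≤ i₀ → ∀ z : Fin N → K, (∀ i, v (z i) ≤ 1) → z i₀ = 1 →
      1 ≤ b * (∑ i ∈ Finset.univ.filter (fun i => i < j), v (z i) +
        ∑ i ∈ Finset.univ.filter (fun i => j ≤ i), v (eval z (topf D f i)))) := by
    intro i₀
    by_cases hi : j ≤ i₀
    · obtain ⟨b, hb, h⟩ := Place_span v ({X i₀ - 1} ∪ X '' {i | i < j} ∪ topf D f '' {i | j ≤ i})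
        (fun z => v (z i₀ - 1) + (∑ i ∈ Finset.univ.filter (fun i => i < j), v (z i) +
          ∑ i ∈ Finset.univ.filter (fun i => j ≤ i), v (eval z (topf D f i)))) (by
          intro p hp z
          have h1 := v.nonneg (z i₀ - 1)
          have h2 : 0 ≤ ∑ i ∈ Finset.univ.filter (fun i => i < j), v (z i) :=
            Finset.sum_nonneg fun _ _ => v.nonneg _
          have h3 : 0 ≤ ∑ i ∈ Finset.univ.filter (fun i => j ≤ i), v (eval z (topf D f i)) :=
            Finset.sum_nonneg fun _ _ => v.nonneg _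
          rcases hp with (hp | ⟨i, hi, rfl⟩) | ⟨i, hi, rfl⟩
          · rw [Set.mem_singleton_iff.mp hp, map_sub, eval_X, map_one]
            linarith
          · have h4 : v (z i) ≤ ∑ i ∈ Finset.univ.filter (fun i => i < j), v (z i) :=
              Finset.single_le_sum (f := fun i => v (z i)) (fun _ _ => v.nonneg _)
                (Finset.mem_filter.2 ⟨Finset.mem_univ i, hi⟩)
            rw [eval_X]
            linarith
          · have h4 : v (eval z (topf D f i)) ≤
                ∑ i ∈ Finset.univ.filter (fun i => j ≤ i), v (eval z (topf D f i)) :=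
              Finset.single_le_sum (f := fun i => v (eval z (topf D f i)))
                (fun _ _ => v.nonneg _) (Finset.mem_filter.2 ⟨Finset.mem_univ i, hi⟩)
            linarith)
        1 (by rw [non_span hD hf j hj i₀ hi]; exact Submodule.mem_top)
      refine ⟨b, hb, fun _ z hz hz1 => ?_⟩
      have h1 := h z hz
      rw [map_one, map_one, hz1, sub_self, map_zero, zero_add] at h1
      exact h1
    · exact ⟨0, le_rfl, fun h => absurd h hi⟩
  choose b hb h using key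
  have hs : 0 ≤ ∑ i, b i := Finset.sum_nonneg fun i _ => hb i
  refine ⟨1 + ∑ i, b i, by linarith, fun i₀ hi₀ z hz hz1 => ?_⟩
  refine (h i₀ hi₀ z hz hz1).trans (mul_le_mul_of_nonneg_right ?_ (hn z))
  have : b i₀ ≤ ∑ i, b i := Finset.single_le_sum (f := b) (fun i _ => hb i) (Finset.mem_univ i₀)
  linarith

/-- Evaluation as an algebra map. -/
theorem Place_ev (w : Fin N → K) (P : MvPolynomial (Fin N) K) : aeval w P = eval w P := by
  rw [aeval_def, eval_eq', eval₂_eq']
  rfl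

/-- Lower bound where the coordinates `j ≤ i` dominate (`non_span`, evaluated at `x / x i₀`). -/
theorem eval_ge {D : Fin N → ℕ} {d : ℕ} (hD : Degs D d) {f : Fin N → MvPolynomial (Fin N) K}
    (hf : Gen D d f) (v : AbsoluteValue K ℝ) (j : Fin N) (hj : ∀ i, i < j → D i < d) :
    ∃ R c : ℝ, 1 ≤ R ∧ 0 < c ∧ ∀ (x : Fin N → K) (i₀ : Fin N), j ≤ i₀ →
      (∀ i, j ≤ i → v (x i) ≤ v (x i₀)) → R ≤ v (x i₀) → (∀ i, i < j → R * v (x i) ≤ v (x i₀)) →
      ∃ i, j ≤ i ∧ c * v (x i₀) ^ D i ≤ v (eval x (f i)) := by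
  obtain ⟨b, hb, hone⟩ := Place_one hD hf v j hj
  have hB : ∀ i n, ∃ B : ℝ, 1 ≤ B ∧ ∀ z : Fin N → K, (∀ i, v (z i) ≤ 1) →
      v (eval z (homogeneousComponent n (f i))) ≤ B := fun i n => Place_bd v _
  choose B hB1 hB2 using hB
  have hA0' : ∀ i, 0 ≤ ∑ n ∈ Finset.range (D i), B i n := fun i =>
    Finset.sum_nonneg fun n _ => zero_le_one.trans (hB1 i n)
  obtain ⟨A, hA0, hAi⟩ : ∃ A : ℝ, 0 ≤ A ∧ ∀ i, ∑ n ∈ Finset.range (D i), B i n ≤ A :=
    ⟨∑ i, ∑ n ∈ Finset.range (D i), B i n, Finset.sum_nonneg fun i _ => hA0' i, fun i =>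
      Finset.single_le_sum (f := fun i => ∑ n ∈ Finset.range (D i), B i n)
        (fun i _ => hA0' i) (Finset.mem_univ i)⟩
  have hN0 : (0 : ℝ) ≤ N := Nat.cast_nonneg N
  obtain ⟨M, hM⟩ : ∃ M : ℝ, M = (N : ℝ) + 1 := ⟨_, rfl⟩
  have hM1 : 1 ≤ M := by rw [hM]; linarith
  have hb0 : 0 < b := by linarith
  have hM0 : 0 < M := by linarith
  have hbM : 0 < b * M := mul_pos hb0 hM0
  have hbMA : 0 ≤ b * M * A := mul_nonneg hbM.le hA0
  obtain ⟨R, hRd⟩ : ∃ R : ℝ, R = 1 + 2 * (b * M) + 8 * (b * M * A) := ⟨_, rfl⟩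
  have hR1 : 1 ≤ R := by rw [hRd]; linarith
  have hR0 : 0 < R := by linarith
  refine ⟨R, 1 / (8 * (b * M)), hR1, by positivity, ?_⟩
  intro x i₀ hi₀ hdom hR hlow
  have hx0 : 0 < v (x i₀) := by linarith
  have hx0' : x i₀ ≠ 0 := by
    intro h
    rw [h, map_zero] at hx0
    exact lt_irrefl _ hx0
  obtain ⟨z, hz⟩ : ∃ z : Fin N → K, z = fun i => (x i₀)⁻¹ * x i := ⟨_, rfl⟩
  have hvz : ∀ i, v (z i) = v (x i) / v (x i₀) := by
    intro i
    rw [hz]
    simp only [map_mul, map_inv₀]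
    rw [div_eq_inv_mul]
  have hz1 : ∀ i, v (z i) ≤ 1 := by
    intro i
    rw [hvz, div_le_one hx0]
    by_cases h : j ≤ i
    · exact hdom i h
    · have h1 := hlow i (not_le.1 h)
      have h2 := v.nonneg (x i)
      nlinarith
  have hzi : z i₀ = 1 := by
    rw [hz]
    exact inv_mul_cancel₀ hx0'
  have h1 := hone i₀ hi₀ z hz1 hzi
  have hcard : ∀ s : Finset (Fin N), (s.card : ℝ) ≤ N := fun s => by
    have := Finset.card_le_univ s
    rw [Fintype.card_fin] at this
    exact_mod_cast this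
  have h2 : ∑ i ∈ Finset.univ.filter (fun i => i < j), v (z i) ≤ N * (1 / R) := by
    calc ∑ i ∈ Finset.univ.filter (fun i => i < j), v (z i)
        ≤ ∑ i ∈ Finset.univ.filter (fun i => i < j), 1 / R := by
          refine Finset.sum_le_sum fun i hi => ?_
          rw [Finset.mem_filter] at hi
          rw [hvz, div_le_div_iff₀ hx0 hR0, one_mul, mul_comm]
          exact hlow i hi.2
      _ = ((Finset.univ.filter (fun i => i < j)).card : ℝ) * (1 / R) := by
          rw [Finset.sum_const, nsmul_eq_mul]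
      _ ≤ N * (1 / R) := mul_le_mul_of_nonneg_right (hcard _) (by positivity)
  have h3 : 1 / R ≤ 1 / (2 * (b * M)) :=
    one_div_le_one_div_of_le (by positivity) (by rw [hRd]; linarith)
  -- some top form is large
  obtain ⟨i, hi, hti⟩ : ∃ i, j ≤ i ∧ 1 / (2 * (b * M)) ≤ v (eval z (topf D f i)) := by
    by_contra hc
    push Not at hc
    have h4 : ∑ i ∈ Finset.univ.filter (fun i => j ≤ i), v (eval z (topf D f i)) ≤
        N * (1 / (2 * (b * M))) := by
      calc ∑ i ∈ Finset.univ.filter (fun i => j ≤ i), v (eval z (topf D f i))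
          ≤ ∑ i ∈ Finset.univ.filter (fun i => j ≤ i), 1 / (2 * (b * M)) := by
            refine Finset.sum_le_sum fun i hi => ?_
            rw [Finset.mem_filter] at hi
            exact (hc i hi.2).le
        _ = ((Finset.univ.filter (fun i => j ≤ i)).card : ℝ) * (1 / (2 * (b * M))) := by
            rw [Finset.sum_const, nsmul_eq_mul]
        _ ≤ N * (1 / (2 * (b * M))) := mul_le_mul_of_nonneg_right (hcard _) (by positivity)
    have h5 : b * (N * (1 / (2 * (b * M))) + N * (1 / (2 * (b * M)))) = N / M := by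
      field_simp
      ring
    have h6 : (N : ℝ) / M < 1 := by
      rw [div_lt_one hM0, hM]
      linarith
    have h7 : b * (∑ i ∈ Finset.univ.filter (fun i => i < j), v (z i) +
        ∑ i ∈ Finset.univ.filter (fun i => j ≤ i), v (eval z (topf D f i))) ≤
        b * (N * (1 / (2 * (b * M))) + N * (1 / (2 * (b * M)))) := by
      refine mul_le_mul_of_nonneg_left (add_le_add (h2.trans ?_) h4) hb0.le
      exact mul_le_mul_of_nonneg_left h3 hN0
    linarith
  refine ⟨i, hi, ?_⟩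
  -- the homogenisation
  have h4 := hat_mul (D i) (f i) (hf.deg i) (x i₀)⁻¹ (x i₀) (mul_inv_cancel₀ hx0') x z (by
    intro k
    rw [hz]
    simp only
    rw [← mul_assoc, mul_inv_cancel₀ hx0', one_mul])
  rw [hat_eq, Place_ev, Place_ev] at h4
  have h5 : v (∑ n ∈ Finset.range (D i), (x i₀)⁻¹ ^ (D i - 1 - n) *
      aeval z (homogeneousComponent n (f i))) ≤ A := by
    refine (v.sum_le _ _).trans (le_trans ?_ (hAi i))
    refine Finset.sum_le_sum fun n _ => ?_
    rw [map_mul, map_pow, map_inv₀, Place_ev]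
    have h6 : (v (x i₀))⁻¹ ^ (D i - 1 - n) ≤ 1 :=
      pow_le_one₀ (by positivity) (inv_le_one_of_one_le₀ (by linarith))
    calc (v (x i₀))⁻¹ ^ (D i - 1 - n) * v (eval z (homogeneousComponent n (f i)))
        ≤ 1 * B i n := mul_le_mul h6 (hB2 i n z hz1) (v.nonneg _) zero_le_one
      _ = B i n := one_mul _
  have h6 : v ((x i₀)⁻¹ * ∑ n ∈ Finset.range (D i), (x i₀)⁻¹ ^ (D i - 1 - n) *
      aeval z (homogeneousComponent n (f i))) ≤ 1 / (8 * (b * M)) := by
    rw [map_mul, map_inv₀]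
    have h7 : (v (x i₀))⁻¹ ≤ R⁻¹ := inv_anti₀ hR0 hR
    calc (v (x i₀))⁻¹ * _ ≤ R⁻¹ * A := mul_le_mul h7 h5 (v.nonneg _) (by positivity)
      _ ≤ 1 / (8 * (b * M)) := by
          rw [inv_mul_le_iff₀ hR0, mul_one_div, le_div_iff₀ (by positivity), hRd]
          linarith
  have h7 : 1 / (8 * (b * M)) ≤ v (eval x (f i) * (x i₀)⁻¹ ^ D i) := by
    rw [h4]
    have h9 := hti
    unfold topf at h9
    have h10 := v.le_add (eval z (homogeneousComponent (D i) (f i)))
      ((x i₀)⁻¹ * ∑ n ∈ Finset.range (D i), (x i₀)⁻¹ ^ (D i - 1 - n) *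
      aeval z (homogeneousComponent n (f i)))
    have h11 : 1 / (2 * (b * M)) = 4 * (1 / (8 * (b * M))) := by
      field_simp
      ring
    have h12 : 0 < 1 / (8 * (b * M)) := by positivity
    linarith
  rw [map_mul, map_pow, map_inv₀] at h7
  have h8 : 0 < v (x i₀) ^ D i := pow_pos hx0 _
  calc 1 / (8 * (b * M)) * v (x i₀) ^ D i
      ≤ v (eval x (f i)) * (v (x i₀))⁻¹ ^ D i * v (x i₀) ^ D i :=
        mul_le_mul_of_nonneg_right h7 h8.le
    _ = v (eval x (f i)) := by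
        rw [mul_assoc, ← mul_pow, inv_mul_cancel₀ hx0.ne', one_pow, mul_one]

/-- Common constants. -/
theorem Place_cst {D : Fin N → ℕ} {d : ℕ} (hD : Degs D d) {f : Fin N → MvPolynomial (Fin N) K}
    (hf : Gen D d f) (v : AbsoluteValue K ℝ) :
    ∃ R c C : ℝ, 1 ≤ R ∧ 0 < c ∧ c ≤ 1 ∧ 1 ≤ C ∧
      (∀ j, (∀ i, i < j → D i < d) → ∀ (x : Fin N → K) (i₀ : Fin N), j ≤ i₀ →
        (∀ i, j ≤ i → v (x i) ≤ v (x i₀)) → R ≤ v (x i₀) →
        (∀ i, i < j → R * v (x i) ≤ v (x i₀)) →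
        ∃ i, j ≤ i ∧ c * v (x i₀) ^ D i ≤ v (eval x (f i))) ∧
      ∀ (x : Fin N → K) i, v (eval x (f i)) ≤ C * nrm v x ^ D i := by
  have h1 : ∀ j, ∃ R c : ℝ, 1 ≤ R ∧ 0 < c ∧ ((∀ i, i < j → D i < d) →
      ∀ (x : Fin N → K) (i₀ : Fin N), j ≤ i₀ →
        (∀ i, j ≤ i → v (x i) ≤ v (x i₀)) → R ≤ v (x i₀) →
        (∀ i, i < j → R * v (x i) ≤ v (x i₀)) →
        ∃ i, j ≤ i ∧ c * v (x i₀) ^ D i ≤ v (eval x (f i))) := by
    intro j
    by_cases hj : ∀ i, i < j → D i < d
    · obtain ⟨R, c, h1, h2, h3⟩ := eval_ge hD hf v j hj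
      exact ⟨R, c, h1, h2, fun _ => h3⟩
    · exact ⟨1, 1, le_rfl, one_pos, fun h => absurd h hj⟩
  have h2 : ∀ i, ∃ C : ℝ, 1 ≤ C ∧ ∀ x : Fin N → K, v (eval x (f i)) ≤ C * nrm v x ^ D i :=
    fun i => eval_le v (f i) (D i) (hf.deg i)
  choose R c hR hc h using h1
  choose C hC hC' using h2
  have hRs : ∀ j, R j ≤ 1 + ∑ j, R j := by
    intro j
    have : R j ≤ ∑ j, R j := Finset.single_le_sum (f := R)
      (fun j _ => zero_le_one.trans (hR j)) (Finset.mem_univ j)
    linarith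
  have hCs : ∀ j, C j ≤ 1 + ∑ j, C j := by
    intro j
    have : C j ≤ ∑ j, C j := Finset.single_le_sum (f := C)
      (fun j _ => zero_le_one.trans (hC j)) (Finset.mem_univ j)
    linarith
  have hR0 : 0 ≤ ∑ j, R j := Finset.sum_nonneg fun j _ => zero_le_one.trans (hR j)
  have hC0 : 0 ≤ ∑ j, C j := Finset.sum_nonneg fun j _ => zero_le_one.trans (hC j)
  have hc0 : 0 ≤ ∑ j, (c j)⁻¹ := Finset.sum_nonneg fun j _ => (inv_pos.2 (hc j)).le
  have hcs : ∀ j, (1 + ∑ j, (c j)⁻¹)⁻¹ ≤ c j := by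
    intro j
    have h3 : (c j)⁻¹ ≤ ∑ j, (c j)⁻¹ := Finset.single_le_sum (f := fun j => (c j)⁻¹)
      (fun j _ => (inv_pos.2 (hc j)).le) (Finset.mem_univ j)
    rw [inv_le_comm₀ (by linarith) (hc j)]
    linarith
  refine ⟨1 + ∑ j, R j, (1 + ∑ j, (c j)⁻¹)⁻¹, 1 + ∑ j, C j, by linarith, inv_pos.2 (by linarith),
    inv_le_one_of_one_le₀ (by linarith), by linarith, ?_, ?_⟩
  · intro j hj x i₀ hi₀ h3 h4 h5
    obtain ⟨i, hi, h6⟩ := h j hj x i₀ hi₀ h3 ((hRs j).trans h4) (fun i hi =>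
      (mul_le_mul_of_nonneg_right (hRs j) (v.nonneg _)).trans (h5 i hi))
    exact ⟨i, hi, (mul_le_mul_of_nonneg_right (hcs j) (pow_nonneg (v.nonneg _) _)).trans h6⟩
  · intro x i
    exact (hC' i x).trans (mul_le_mul_of_nonneg_right (hCs i)
      (pow_nonneg (zero_le_one.trans (one_le_nrm v x)) _))

/-- The region where the coordinates `j ≤ i` dominate the others and are large. -/
def Place_U (v : AbsoluteValue K ℝ) (R S : ℝ) (j : Fin N) (y : Fin N → K) : Prop :=
  ∃ i₀, j ≤ i₀ ∧ (∀ i, j ≤ i → v (y i) ≤ v (y i₀)) ∧ S ≤ v (y i₀) ∧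
    ∀ i, i < j → R * v (y i) ≤ v (y i₀)

theorem Place_max (v : AbsoluteValue K ℝ) (j : Fin N) (y : Fin N → K) :
    ∃ i₀, j ≤ i₀ ∧ ∀ i, j ≤ i → v (y i) ≤ v (y i₀) := by
  obtain ⟨i₀, h1, h2⟩ := Finset.exists_max_image (Finset.univ.filter (fun i => j ≤ i))
    (fun i => v (y i)) ⟨j, Finset.mem_filter.2 ⟨Finset.mem_univ j, le_rfl⟩⟩
  exact ⟨i₀, (Finset.mem_filter.1 h1).2, fun i hi =>
    h2 i (Finset.mem_filter.2 ⟨Finset.mem_univ i, hi⟩)⟩

/-- On the region, the norm is the value of the largest coordinate. -/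
theorem Place_nrm (v : AbsoluteValue K ℝ) (R S : ℝ) (hR : 1 ≤ R) (hS : 1 ≤ S) (j : Fin N)
    (y : Fin N → K) (i₀ : Fin N) (h1 : ∀ i, j ≤ i → v (y i) ≤ v (y i₀)) (h2 : S ≤ v (y i₀))
    (h3 : ∀ i, i < j → R * v (y i) ≤ v (y i₀)) : nrm v y = v (y i₀) := by
  refine le_antisymm (nrm_le v y _ (hS.trans h2) fun i => ?_) (le_nrm v y i₀)
  by_cases h : j ≤ i
  · exact h1 i h
  · have h4 := h3 i (not_le.1 h)
    have h5 := v.nonneg (y i)
    nlinarith

theorem Place_D {D : Fin N → ℕ} {d : ℕ} (hD : Degs D d) {i j : Fin N} (h : i ≤ j) :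
    D i ≤ D j := by
  rcases lt_or_eq_of_le h with h | h
  · rcases hD.inc i j h with h3 | h3
    · exact h3.le
    · rw [h3.1, h3.2]
  · rw [h]

/-- Growth on the region. -/
theorem Place_grow {D : Fin N → ℕ} {d : ℕ} (hD : Degs D d) {f : Fin N → MvPolynomial (Fin N) K}
    (v : AbsoluteValue K ℝ) (R S c : ℝ) (hR : 1 ≤ R) (hRS : R ≤ S) (hc : 0 < c) (j : Fin N)
    (h : ∀ (x : Fin N → K) (i₀ : Fin N), j ≤ i₀ →
        (∀ i, j ≤ i → v (x i) ≤ v (x i₀)) → R ≤ v (x i₀) →
        (∀ i, i < j → R * v (x i) ≤ v (x i₀)) →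
        ∃ i, j ≤ i ∧ c * v (x i₀) ^ D i ≤ v (eval x (f i)))
    (y : Fin N → K) (hy : Place_U v R S j y) :
    S ≤ nrm v y ∧ ∃ i, j ≤ i ∧ c * nrm v y ^ D j ≤ v (ev f y i) := by
  obtain ⟨i₀, h0, h1, h2, h3⟩ := hy
  have h4 := Place_nrm v R S hR (hR.trans hRS) j y i₀ h1 h2 h3
  refine ⟨by rw [h4]; exact h2, ?_⟩
  obtain ⟨i, hi, h5⟩ := h y i₀ h0 h1 (hRS.trans h2) h3
  refine ⟨i, hi, ?_⟩
  rw [h4]
  refine le_trans (mul_le_mul_of_nonneg_left ?_ hc.le) h5
  exact pow_le_pow_right₀ ((hR.trans hRS).trans h2) (Place_D hD hi)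

/-- The region is invariant. -/
theorem Place_inv {D : Fin N → ℕ} {d : ℕ} (hD : Degs D d) {f : Fin N → MvPolynomial (Fin N) K}
    (v : AbsoluteValue K ℝ) (R S c C : ℝ) (hR : 1 ≤ R) (hRS : R ≤ S) (hc : 0 < c) (hC : 1 ≤ C)
    (hcS : R * C ≤ c * S) (j : Fin N) (hj : ∀ i, i < j → D i < d) (h2 : 2 ≤ D j)
    (h : ∀ (x : Fin N → K) (i₀ : Fin N), j ≤ i₀ →
        (∀ i, j ≤ i → v (x i) ≤ v (x i₀)) → R ≤ v (x i₀) →
        (∀ i, i < j → R * v (x i) ≤ v (x i₀)) →
        ∃ i, j ≤ i ∧ c * v (x i₀) ^ D i ≤ v (eval x (f i)))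
    (hle : ∀ (x : Fin N → K) i, v (eval x (f i)) ≤ C * nrm v x ^ D i)
    (y : Fin N → K) (hy : Place_U v R S j y) : Place_U v R S j (ev f y) := by
  obtain ⟨hS, i₁, hi₁, h3⟩ := Place_grow hD v R S c hR hRS hc j h y hy
  obtain ⟨i₀, hi₀, h4⟩ := Place_max v j (ev f y)
  have h5 : c * nrm v y ^ D j ≤ v (ev f y i₀) := h3.trans (h4 i₁ hi₁)
  obtain ⟨k, hk⟩ : ∃ k, D j = k + 2 := ⟨D j - 2, by omega⟩
  obtain ⟨m, hm⟩ : ∃ m, m = nrm v y := ⟨_, rfl⟩
  rw [← hm] at hS h5
  rw [hk] at h5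
  have hm1 : 1 ≤ m := (hR.trans hRS).trans hS
  have hm0 : 0 < m := by linarith
  have hmk : 0 < m ^ (k + 1) := pow_pos hm0 _
  have h6 : R * C * m ^ (k + 1) ≤ v (ev f y i₀) := by
    calc R * C * m ^ (k + 1) ≤ c * S * m ^ (k + 1) := mul_le_mul_of_nonneg_right hcS hmk.le
      _ ≤ c * m * m ^ (k + 1) :=
        mul_le_mul_of_nonneg_right (mul_le_mul_of_nonneg_left hS hc.le) hmk.le
      _ = c * m ^ (k + 2) := by ring
      _ ≤ v (ev f y i₀) := h5
  have hRC : 1 ≤ R * C := by nlinarith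
  refine ⟨i₀, hi₀, h4, ?_, fun i hi => ?_⟩
  · calc S ≤ m := hS
      _ = 1 * m ^ 1 := by rw [one_mul, pow_one]
      _ ≤ R * C * m ^ (k + 1) := mul_le_mul hRC (pow_le_pow_right₀ hm1 (by omega))
          (by positivity) (by linarith)
      _ ≤ v (ev f y i₀) := h6
  · have h7 : D i ≤ k + 1 := by
      have h8 := hj i hi
      rcases hD.inc i j hi with h9 | h9
      · omega
      · omega
    have h8 : v (ev f y i) ≤ C * m ^ D i := by
      rw [hm]
      exact hle y i
    calc R * v (ev f y i) ≤ R * (C * m ^ D i) := mul_le_mul_of_nonneg_left h8 (by linarith)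
      _ = R * C * m ^ D i := by ring
      _ ≤ R * C * m ^ (k + 1) :=
        mul_le_mul_of_nonneg_left (pow_le_pow_right₀ hm1 h7) (by linarith)
      _ ≤ v (ev f y i₀) := h6

theorem Place_orb (f : Fin N → MvPolynomial (Fin N) K) (x : Fin N → K) (n : ℕ) :
    orb f x (n + 1) = ev f (orb f x n) := by
  unfold orb
  rw [Function.iterate_succ_apply']

theorem Place_log (c m t : ℝ) (k : ℕ) (hc : 0 < c) (hm : 0 < m) (h : c * m ^ k ≤ t) :
    Real.log c + k * Real.log m ≤ Real.log t := by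
  rw [← Real.log_pow, ← Real.log_mul hc.ne' (pow_pos hm k).ne']
  exact Real.log_le_log (mul_pos hc (pow_pos hm k)) h

/-- The types of growth at an absolute value. Either the orbit enters the region where the coordinates
with degree `d` dominate, and then it grows like `d ^ n`; or let `j` be the last index such that the
orbit enters the (forward invariant) region where the coordinates `j ≤ i` dominate the others and are
large (`j = 0` if there is none). -/
theorem place {D : Fin N → ℕ} {d : ℕ} (hD : Degs D d) {f : Fin N → MvPolynomial (Fin N) K}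
    (hf : Gen D d f) (v : AbsoluteValue K ℝ) (x : Fin N → K) :
    (∃ c : ℝ, 0 < c ∧ ∃ n₀ : ℕ, ∀ n, n₀ ≤ n → c * (d : ℝ) ^ n ≤ Real.log (nrm v (orb f x n))) ∨
    ∃ (j : Fin N) (C R : ℝ) (n₀ : ℕ), D j < d ∧
      (∀ n, n₀ ≤ n → D j * Real.log (nrm v (orb f x n)) - C ≤
        Real.log (nrm v (orb f x (n + 1)))) ∧
      (∀ n, Real.log (nrm v (orb f x (n + 1))) ≤ D j * Real.log (nrm v (orb f x n)) + C) ∧
      ∀ n i, j < i → v (orb f x n i) ≤ R ∨ ∃ i', i' ≤ j ∧ v (orb f x n i) ≤ R * v (orb f x n i') := by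
  classical
  obtain ⟨R, c, C, hR, hc, hc1, hC, hge, hle⟩ := Place_cst hD hf v
  obtain ⟨S, hS⟩ : ∃ S : ℝ, S = R * C / c * Real.exp 1 := ⟨_, rfl⟩
  have he : 1 ≤ Real.exp 1 := Real.one_le_exp zero_le_one
  have hRC : R ≤ R * C := by nlinarith
  have hcS' : c * S = R * C * Real.exp 1 := by
    rw [hS]
    field_simp
  have hcS : R * C ≤ c * S := by
    rw [hcS']
    nlinarith
  have hRS : R ≤ S := by
    have h1 : c * R ≤ c * S := by nlinarith
    exact le_of_mul_le_mul_left h1 hc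
  have hS1 : 1 ≤ S := hR.trans hRS
  have hS0 : 0 < S := by linarith
  have hlS : 1 - Real.log c ≤ Real.log S := by
    have h1 : Real.exp 1 / c ≤ S := by
      rw [div_le_iff₀ hc, mul_comm, hcS']
      nlinarith
    have h2 := Real.log_le_log (by positivity) h1
    rwa [Real.log_div (Real.exp_pos 1).ne' hc.ne', Real.log_exp] at h2
  have hlc : Real.log c ≤ 0 := Real.log_nonpos hc.le hc1
  -- the choice of the index
  obtain ⟨j, hadm, hor, hmax⟩ : ∃ j : Fin N, (∀ i, i < j → D i < d) ∧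
      ((∀ i, j ≤ i) ∨ (2 ≤ D j ∧ ∃ n, Place_U v R S j (orb f x n))) ∧
      ∀ j', j < j' → (∀ i, i < j' → D i < d) → ∀ n, ¬ Place_U v R S j' (orb f x n) := by
    by_cases hP : ∃ j : Fin N, (∀ i, i < j → D i < d) ∧ (∃ i, i < j) ∧
        ∃ n, Place_U v R S j (orb f x n)
    · obtain ⟨j₁, hj₁⟩ := hP
      obtain ⟨j, h1, h2⟩ := Finset.exists_max_image (Finset.univ.filter (fun j : Fin N =>
        (∀ i, i < j → D i < d) ∧ (∃ i, i < j) ∧ ∃ n, Place_U v R S j (orb f x n))) id
        ⟨j₁, Finset.mem_filter.2 ⟨Finset.mem_univ _, hj₁⟩⟩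
      obtain ⟨h3, ⟨i, hi⟩, h4⟩ := (Finset.mem_filter.1 h1).2
      refine ⟨j, h3, Or.inr ⟨?_, h4⟩, ?_⟩
      · have h5 := h3 i hi
        have h6 := hD.pos i
        rcases hD.inc i j hi with h9 | h9
        · omega
        · omega
      · intro j' hj' h5 n h6
        have h7 := h2 j' (Finset.mem_filter.2 ⟨Finset.mem_univ _, h5, ⟨j, hj'⟩, n, h6⟩)
        exact absurd hj' (not_lt.2 h7)
    · obtain ⟨i₀, _⟩ := hD.max
      have hN : 0 < N := lt_of_le_of_lt (Nat.zero_le _) i₀.2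
      refine ⟨⟨0, hN⟩, ?_, Or.inl ?_, ?_⟩
      · intro i hi
        exact absurd hi (Nat.not_lt_zero _)
      · intro i
        exact Fin.le_def.2 (Nat.zero_le _)
      · intro j' hj' h5 n h6
        exact hP ⟨j', h5, ⟨_, hj'⟩, n, h6⟩
  have hn1 : ∀ n, 1 ≤ nrm v (orb f x n) := fun n => one_le_nrm v _
  have hlow : ∀ n, Place_U v R S j (orb f x n) → S ≤ nrm v (orb f x n) ∧
      Real.log c + D j * Real.log (nrm v (orb f x n)) ≤ Real.log (nrm v (orb f x (n + 1))) := by
    intro n hn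
    obtain ⟨h1, i, hi, h2⟩ := Place_grow hD v R S c hR hRS hc j (hge j hadm) _ hn
    refine ⟨h1, Place_log _ _ _ _ hc (by linarith [hn1 n]) (h2.trans ?_)⟩
    rw [Place_orb]
    exact le_nrm v _ i
  have hall : 2 ≤ D j → ∀ n₀, Place_U v R S j (orb f x n₀) →
      ∀ n, Place_U v R S j (orb f x (n₀ + n)) := by
    intro h2 n₀ hn₀ n
    induction n with
    | zero => exact hn₀
    | succ n ih =>
      rw [← Nat.add_assoc, Place_orb]
      exact Place_inv hD v R S c C hR hRS hc hC hcS j hadm h2 (hge j hadm) hle _ ih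
  by_cases hjd : D j = d
  · left
    rcases hor with h0 | ⟨h2, n₀, hn₀⟩
    · exfalso
      obtain ⟨i, hi⟩ := hD.low
      have := Place_D hD (h0 i)
      omega
    · have hd2 : (2 : ℝ) ≤ d := by
        rw [hjd] at h2
        exact_mod_cast h2
      have hU := hall h2 n₀ hn₀
      have hL : ∀ n, (d : ℝ) ^ n ≤ Real.log (nrm v (orb f x (n₀ + n))) + Real.log c := by
        intro n
        induction n with
        | zero =>
          have h3 := Real.log_le_log hS0 (hlow _ (hU 0)).1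
          rw [pow_zero]
          linarith
        | succ n ih =>
          have h3 := (hlow _ (hU n)).2
          rw [hjd] at h3
          rw [← Nat.add_assoc, pow_succ]
          have h4 : (d : ℝ) ^ n * d ≤
              (Real.log (nrm v (orb f x (n₀ + n))) + Real.log c) * d :=
            mul_le_mul_of_nonneg_right ih (by linarith)
          nlinarith
      have hdn : (0 : ℝ) < (d : ℝ) ^ n₀ := pow_pos (by linarith) _
      refine ⟨1 / (d : ℝ) ^ n₀, by positivity, n₀, fun n hn => ?_⟩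
      obtain ⟨k, rfl⟩ := Nat.exists_eq_add_of_le hn
      have h5 : 1 / (d : ℝ) ^ n₀ * (d : ℝ) ^ (n₀ + k) = (d : ℝ) ^ k := by
        rw [pow_add]
        field_simp
      rw [h5]
      linarith [hL k]
  · right
    have hjd' : D j < d := lt_of_le_of_ne (hD.le j) hjd
    have hdom : ∀ n i, j < i → v (orb f x n i) ≤ S ∨
        ∃ i', i' ≤ j ∧ v (orb f x n i) ≤ S * v (orb f x n i') := by
      intro n i hi
      by_contra hcon
      push Not at hcon
      obtain ⟨h1, h2⟩ := hcon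
      have hi' : j.1 < i.1 := hi
      have hjN : j.1 + 1 < N := by have := i.2; omega
      obtain ⟨i₀, h3, h4⟩ := Place_max v ⟨j.1 + 1, hjN⟩ (orb f x n)
      have h5 : v (orb f x n i) ≤ v (orb f x n i₀) := h4 i (Fin.le_def.2 (by
        simp only
        omega))
      refine hmax ⟨j.1 + 1, hjN⟩ (Fin.lt_def.2 (Nat.lt_succ_self _)) ?_ n
        ⟨i₀, h3, h4, h1.le.trans h5, ?_⟩
      · intro k hk
        have hk' : k ≤ j := Fin.le_def.2 (Nat.lt_succ_iff.1 hk)
        exact lt_of_le_of_lt (Place_D hD hk') hjd'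
      · intro k hk
        have hk' : k ≤ j := Fin.le_def.2 (Nat.lt_succ_iff.1 hk)
        have h6 := h2 k hk'
        have h7 := v.nonneg (orb f x n k)
        have h8 : R * v (orb f x n k) ≤ S * v (orb f x n k) := mul_le_mul_of_nonneg_right hRS h7
        linarith
    have hlS0 : 0 ≤ Real.log S := Real.log_nonneg hS1
    have hSC1 : 1 ≤ S * C := by nlinarith
    have hSC : 0 ≤ Real.log (S * C) := Real.log_nonneg hSC1
    have hDS : 0 ≤ (D j : ℝ) * Real.log S := mul_nonneg (Nat.cast_nonneg _) hlS0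
    -- lower bound
    have hlo : ∃ n₀ : ℕ, ∀ n, n₀ ≤ n → D j * Real.log (nrm v (orb f x n)) -
        (-Real.log c + D j * Real.log S + Real.log (S * C)) ≤
        Real.log (nrm v (orb f x (n + 1))) := by
      rcases hor with h0 | ⟨h2, n₀, hn₀⟩
      · refine ⟨0, fun n _ => ?_⟩
        by_cases hn : S ≤ nrm v (orb f x n)
        · obtain ⟨i₀, h3, h4⟩ := Place_max v j (orb f x n)
          have h5 : S ≤ v (orb f x n i₀) := by
            by_contra hcon
            push Not at hcon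
            have h6 : nrm v (orb f x n) ≤ max 1 (v (orb f x n i₀)) :=
              nrm_le v _ _ (le_max_left _ _) fun i => (h4 i (h0 i)).trans (le_max_right _ _)
            rcases le_total (v (orb f x n i₀)) 1 with h7 | h7
            · rw [max_eq_left h7] at h6
              have h8 : S = 1 := le_antisymm (hn.trans h6) hS1
              rw [h8, Real.log_one] at hlS
              linarith
            · rw [max_eq_right h7] at h6
              linarith
          have h6 := (hlow n ⟨i₀, h3, h4, h5, fun i hi => absurd hi (not_lt.2 (h0 i))⟩).2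
          linarith
        · push Not at hn
          have h3 : 0 ≤ Real.log (nrm v (orb f x (n + 1))) := Real.log_nonneg (hn1 _)
          have h4 : Real.log (nrm v (orb f x n)) ≤ Real.log S :=
            Real.log_le_log (by linarith [hn1 n]) hn.le
          have h5 : (D j : ℝ) * Real.log (nrm v (orb f x n)) ≤ D j * Real.log S :=
            mul_le_mul_of_nonneg_left h4 (Nat.cast_nonneg _)
          linarith
      · refine ⟨n₀, fun n hn => ?_⟩
        obtain ⟨k, rfl⟩ := Nat.exists_eq_add_of_le hn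
        have h6 := (hlow _ (hall h2 n₀ hn₀ k)).2
        linarith
    obtain ⟨n₀, hn₀⟩ := hlo
    refine ⟨j, -Real.log c + D j * Real.log S + Real.log (S * C), S, n₀, hjd', hn₀, ?_, hdom⟩
    intro n
    obtain ⟨m, hm⟩ : ∃ m, m = nrm v (orb f x n) := ⟨_, rfl⟩
    have hm1 : 1 ≤ m := by rw [hm]; exact hn1 n
    have hmD : 1 ≤ m ^ D j := one_le_pow₀ hm1
    have hup : ∀ i, i ≤ j → v (orb f x (n + 1) i) ≤ C * m ^ D j := by
      intro i hi
      rw [Place_orb]
      calc v (ev f (orb f x n) i) ≤ C * m ^ D i := by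
            rw [hm]
            exact hle _ i
        _ ≤ C * m ^ D j := mul_le_mul_of_nonneg_left
            (pow_le_pow_right₀ hm1 (Place_D hD hi)) (by linarith)
    have h1 : nrm v (orb f x (n + 1)) ≤ S * C * m ^ D j := by
      refine nrm_le v _ _ (by nlinarith) fun i => ?_
      by_cases hi : i ≤ j
      · refine (hup i hi).trans ?_
        have : C ≤ S * C := by nlinarith
        exact mul_le_mul_of_nonneg_right this (by linarith)
      · rcases hdom (n + 1) i (not_le.1 hi) with h2 | ⟨i', hi', h2⟩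
        · have h3 : S ≤ S * C := by nlinarith
          nlinarith
        · refine h2.trans ?_
          rw [mul_assoc]
          exact mul_le_mul_of_nonneg_left (hup i' hi') hS0.le
    have h2 := Real.log_le_log (by linarith [hn1 (n + 1)]) h1
    rw [Real.log_mul (by linarith) (by linarith), Real.log_pow] at h2
    rw [← hm]
    linarith

end Pool.Agent.H.MP_31a675_nt.Y
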