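import Pool.Agent.H.MP_31a675_nt.Basic
import Pool.Agent.H.MP_31a675_nt.Y.Glob
import Pool.Agent.H.MP_31a675_nt.Y.Place

/-!
# Generic ultrafilters; upper bounds for the values of the combinations
-/

namespace Pool.Agent.H.MP_31a675_nt.Y

open MvPolynomial Filter

variable {K : Type} [Field K] {N : ℕ}

/-- linear polynomials in one variable are nonzero -/
theorem SlowA_lin (i : Fin N) (a : K) : (X i - C a : MvPolynomial (Fin N) K) ≠ 0 := by
  intro h
  have h1 := congrArg (eval fun _ => a + 1) h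
  simp at h1

/-- the sets generating the filter are nonempty -/
theorem SlowA_nonempty [NumberField K] {f : Fin N → MvPolynomial (Fin N) K} {x : Fin N → K}
    (hN : 1 ≤ N) (h : DenseOrbit f x) (P : MvPolynomial (Fin N) K) (hP : P ≠ 0) (B : ℕ) :
    ∃ n : ℕ, eval (orb f x (n + 1)) P ≠ 0 ∧ (B : ℝ) < ht (orb f x (n + 1)) ∧ B < n := by
  classical
  by_contra hcon
  push Not at hcon
  let i₀ : Fin N := ⟨0, by omega⟩
  have hfin := finite_ht (K := K) (N := N) (B : ℝ)
  let Q : MvPolynomial (Fin N) K := P * ((∏ y ∈ hfin.toFinset, (X i₀ - C (y i₀))) *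
    ∏ m ∈ Finset.range (B + 2), (X i₀ - C (orb f x m i₀)))
  have hQ : Q ≠ 0 := by
    refine mul_ne_zero hP (mul_ne_zero ?_ ?_)
    · exact Finset.prod_ne_zero_iff.2 fun y _ => SlowA_lin i₀ _
    · exact Finset.prod_ne_zero_iff.2 fun y _ => SlowA_lin i₀ _
  apply hQ
  apply h
  intro m
  have hev : eval (orb f x m) Q = eval (orb f x m) P *
      ((∏ y ∈ hfin.toFinset, (orb f x m i₀ - y i₀)) *
        ∏ k ∈ Finset.range (B + 2), (orb f x m i₀ - orb f x k i₀)) := by
    simp only [Q, map_mul, map_prod, map_sub, eval_X, eval_C]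
  rw [hev]
  by_cases hm : m < B + 2
  · have h2 : ∏ k ∈ Finset.range (B + 2), (orb f x m i₀ - orb f x k i₀) = 0 :=
      Finset.prod_eq_zero (Finset.mem_range.2 hm) (sub_self _)
    rw [h2, mul_zero, mul_zero]
  · obtain ⟨n, rfl⟩ : ∃ n, m = n + 1 := ⟨m - 1, by omega⟩
    by_cases hP0 : eval (orb f x (n + 1)) P = 0
    · rw [hP0, zero_mul]
    by_cases hht : (B : ℝ) < ht (orb f x (n + 1))
    · exact absurd (hcon n hP0 hht) (by omega)
    · have h3 : orb f x (n + 1) ∈ hfin.toFinset := by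
        rw [Set.Finite.mem_toFinset]
        exact not_lt.1 hht
      have h2 : ∏ y ∈ hfin.toFinset, (orb f x (n + 1) i₀ - y i₀) = 0 :=
        Finset.prod_eq_zero h3 (sub_self _)
      rw [h2, zero_mul, mul_zero]

/-- A generic ultrafilter: no polynomial vanishes at `𝔘`-most points of the orbit, and the height
tends to infinity. The sets `{n | eval (orb f x (n + 1)) P ≠ 0 ∧ B < ht (orb f x (n + 1)) ∧ B < n}` with
`P ≠ 0` have the finite intersection property: multiply `P` by a nonzero polynomial vanishing at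
the finitely many points of height at most `B` (`finite_ht`) and at the points `orb f x n` with
`n ≤ B + 1`. -/
theorem exists_generic [NumberField K] {f : Fin N → MvPolynomial (Fin N) K} {x : Fin N → K}
    (hN : 1 ≤ N) (h : DenseOrbit f x) :
    ∃ 𝔘 : Ultrafilter ℕ, (∀ P : MvPolynomial (Fin N) K, P ≠ 0 →
      ∀ᶠ n in (𝔘 : Filter ℕ), eval (orb f x (n + 1)) P ≠ 0) ∧
      Tendsto (fun n => ht (orb f x (n + 1))) (𝔘 : Filter ℕ) atTop ∧
      Tendsto (fun n : ℕ => n) (𝔘 : Filter ℕ) atTop := by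
  classical
  let S : {P : MvPolynomial (Fin N) K // P ≠ 0} × ℕ → Set ℕ := fun p =>
    {n | eval (orb f x (n + 1)) p.1.1 ≠ 0 ∧ (p.2 : ℝ) < ht (orb f x (n + 1)) ∧ p.2 < n}
  let F : Filter ℕ := ⨅ p, 𝓟 (S p)
  have hdir : Directed (· ≥ ·) fun p => 𝓟 (S p) := by
    intro p q
    refine ⟨(⟨p.1.1 * q.1.1, mul_ne_zero p.1.2 q.1.2⟩, max p.2 q.2), ?_, ?_⟩
    · show 𝓟 (S _) ≤ 𝓟 (S p)
      rw [principal_mono]
      rintro n ⟨h1, h2, h3⟩
      simp only [map_mul] at h1
      refine ⟨left_ne_zero_of_mul h1, lt_of_le_of_lt ?_ h2, lt_of_le_of_lt (le_max_left _ _) h3⟩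
      exact_mod_cast le_max_left p.2 q.2
    · show 𝓟 (S _) ≤ 𝓟 (S q)
      rw [principal_mono]
      rintro n ⟨h1, h2, h3⟩
      simp only [map_mul] at h1
      refine ⟨right_ne_zero_of_mul h1, lt_of_le_of_lt ?_ h2, lt_of_le_of_lt (le_max_right _ _) h3⟩
      exact_mod_cast le_max_right p.2 q.2
  have hne : ∀ p, (𝓟 (S p)).NeBot := by
    intro p
    rw [principal_neBot_iff]
    obtain ⟨n, hn⟩ := SlowA_nonempty hN h p.1.1 p.1.2 p.2
    exact ⟨n, hn⟩
  haveI : Nonempty ({P : MvPolynomial (Fin N) K // P ≠ 0} × ℕ) := ⟨(⟨1, one_ne_zero⟩, 0)⟩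
  haveI : F.NeBot := iInf_neBot_of_directed' hdir hne
  have hS : ∀ p, S p ∈ (Ultrafilter.of F : Filter ℕ) := by
    intro p
    have h1 : S p ∈ F := mem_iInf_of_mem p (mem_principal_self _)
    exact Ultrafilter.of_le F h1
  refine ⟨Ultrafilter.of F, ?_, ?_, ?_⟩
  · intro P hP
    filter_upwards [hS (⟨P, hP⟩, 0)] with n hn
    exact hn.1
  · rw [tendsto_atTop]
    intro b
    filter_upwards [hS (⟨1, one_ne_zero⟩, ⌈b⌉₊)] with n hn
    exact (Nat.le_ceil b).trans hn.2.1.le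
  · rw [tendsto_atTop]
    intro b
    filter_upwards [hS (⟨1, one_ne_zero⟩, b)] with n hn
    exact hn.2.2.le

/-- The value of the combination. -/
theorem SlowA_eval (f : Fin N → MvPolynomial (Fin N) K) (x : Fin N → K)
    (j : Fin N) (c : ℕ → Fin N) {T L d : ℕ}
    (a : ({i : Fin N // i ≤ j} → Fin T) × (Fin L → Fin d) → K) (n : ℕ) :
    eval (orb f x n) (PP f j c a) =
      ∑ s, a s * ((∏ i : {i : Fin N // i ≤ j}, orb f x n i.1 ^ (s.1 i : ℕ)) *
        ∏ l : Fin L, orb f x (n + l) (c l) ^ (s.2 l : ℕ)) := by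
  unfold PP
  rw [map_sum]
  refine Finset.sum_congr rfl fun s _ => ?_
  rw [map_mul, map_mul, map_prod, map_prod, eval_C]
  congr 2
  · refine Finset.prod_congr rfl fun i _ => ?_
    rw [map_pow, eval_X]
  · refine Finset.prod_congr rfl fun l _ => ?_
    rw [map_pow, eval_itp, ← orb_add]

/-- The upper bound at every absolute value: each product is bounded by
`nrm v (orb f x n) ^ (card * T) * ∏ l, nrm v (orb f x (n + l)) ^ d`. -/
theorem PP_upper (v : AbsoluteValue K ℝ) (f : Fin N → MvPolynomial (Fin N) K) (x : Fin N → K)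
    (j : Fin N) (c : ℕ → Fin N) {T L d : ℕ}
    (a : ({i : Fin N // i ≤ j} → Fin T) × (Fin L → Fin d) → K) :
    ∃ C : ℝ, ∀ n, eval (orb f x n) (PP f j c a) ≠ 0 →
      Real.log (v (eval (orb f x n) (PP f j c a))) ≤ C +
        Fintype.card {i : Fin N // i ≤ j} * T * Real.log (nrm v (orb f x n)) +
        d * ∑ l ∈ Finset.range L, Real.log (nrm v (orb f x (n + l))) := by
  classical
  have hA0 : 0 ≤ ∑ s, v (a s) := Finset.sum_nonneg fun s _ => v.nonneg _
  refine ⟨Real.log (∑ s, v (a s) + 1), fun n hn => ?_⟩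
  have hn1 : ∀ m, 1 ≤ nrm v (orb f x m) := fun m => one_le_nrm v _
  have hn0 : ∀ m, 0 < nrm v (orb f x m) := fun m => one_pos.trans_le (hn1 m)
  have hpow : ∀ (m : ℕ) (i : Fin N) (e E : ℕ), e ≤ E →
      v (orb f x m i) ^ e ≤ nrm v (orb f x m) ^ E := by
    intro m i e E he
    calc v (orb f x m i) ^ e ≤ nrm v (orb f x m) ^ e :=
          pow_le_pow_left₀ (v.nonneg _) (le_nrm v _ _) _
      _ ≤ nrm v (orb f x m) ^ E := pow_le_pow_right₀ (hn1 m) he
  have hterm : ∀ s : ({i : Fin N // i ≤ j} → Fin T) × (Fin L → Fin d),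
      v (a s * ((∏ i : {i : Fin N // i ≤ j}, orb f x n i.1 ^ (s.1 i : ℕ)) *
        ∏ l : Fin L, orb f x (n + l) (c l) ^ (s.2 l : ℕ))) ≤
      v (a s) * ((nrm v (orb f x n) ^ T) ^ Fintype.card {i : Fin N // i ≤ j} *
        ∏ l ∈ Finset.range L, nrm v (orb f x (n + l)) ^ d) := by
    intro s
    rw [v.map_mul, v.map_mul, v.map_prod, v.map_prod]
    refine mul_le_mul_of_nonneg_left ?_ (v.nonneg _)
    have h1 : ∏ i : {i : Fin N // i ≤ j}, v (orb f x n i.1 ^ (s.1 i : ℕ)) ≤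
        (nrm v (orb f x n) ^ T) ^ Fintype.card {i : Fin N // i ≤ j} := by
      rw [← Finset.card_univ, ← Finset.prod_const]
      refine Finset.prod_le_prod (fun i _ => v.nonneg _) fun i _ => ?_
      rw [v.map_pow]
      exact hpow n i.1 _ _ (s.1 i).2.le
    have h2 : ∏ l : Fin L, v (orb f x (n + l) (c l) ^ (s.2 l : ℕ)) ≤
        ∏ l ∈ Finset.range L, nrm v (orb f x (n + l)) ^ d := by
      rw [Finset.prod_range fun l => nrm v (orb f x (n + l)) ^ d]
      refine Finset.prod_le_prod (fun i _ => v.nonneg _) fun l _ => ?_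
      rw [v.map_pow]
      exact hpow (n + l) (c l) _ _ (s.2 l).2.le
    exact mul_le_mul h1 h2 (Finset.prod_nonneg fun i _ => v.nonneg _)
      (pow_pos (pow_pos (hn0 n) _) _).le
  have hprod1 : 0 < (nrm v (orb f x n) ^ T) ^ Fintype.card {i : Fin N // i ≤ j} :=
    pow_pos (pow_pos (hn0 n) _) _
  have hprod2 : 0 < ∏ l ∈ Finset.range L, nrm v (orb f x (n + l)) ^ d :=
    Finset.prod_pos fun l _ => pow_pos (hn0 _) _
  have hle : v (eval (orb f x n) (PP f j c a)) ≤ (∑ s, v (a s) + 1) *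
      ((nrm v (orb f x n) ^ T) ^ Fintype.card {i : Fin N // i ≤ j} *
        ∏ l ∈ Finset.range L, nrm v (orb f x (n + l)) ^ d) := by
    rw [SlowA_eval]
    calc _ ≤ ∑ s, v (a s * ((∏ i : {i : Fin N // i ≤ j}, orb f x n i.1 ^ (s.1 i : ℕ)) *
            ∏ l : Fin L, orb f x (n + l) (c l) ^ (s.2 l : ℕ))) := v.sum_le _ _
      _ ≤ ∑ s, v (a s) * ((nrm v (orb f x n) ^ T) ^ Fintype.card {i : Fin N // i ≤ j} *
          ∏ l ∈ Finset.range L, nrm v (orb f x (n + l)) ^ d) :=
          Finset.sum_le_sum fun s _ => hterm s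
      _ = (∑ s, v (a s)) * ((nrm v (orb f x n) ^ T) ^ Fintype.card {i : Fin N // i ≤ j} *
          ∏ l ∈ Finset.range L, nrm v (orb f x (n + l)) ^ d) := (Finset.sum_mul _ _ _).symm
      _ ≤ _ := mul_le_mul_of_nonneg_right (by linarith) (mul_pos hprod1 hprod2).le
  have hlog := Real.log_le_log (v.pos hn) hle
  rw [Real.log_mul (by positivity) (mul_pos hprod1 hprod2).ne', Real.log_mul hprod1.ne' hprod2.ne',
    Real.log_pow, Real.log_pow, Real.log_prod (fun l _ => (pow_pos (hn0 _) _).ne')] at hlog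
  simp only [Real.log_pow] at hlog
  rw [← Finset.mul_sum] at hlog
  linarith

end Pool.Agent.H.MP_31a675_nt.Y
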