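import Pool.Agent.H.MP_31a675_nt.Y.DefsC
import Pool.Agent.H.MP_31a675_nt.Y.Glob
import Pool.Agent.H.MP_31a675_nt.Y.SlowA

/-!
# Generic ultrafilters for a subvariety
-/

namespace Pool.Agent.H.MP_31a675_nt.Y

open MvPolynomial Filter

variable {K : Type} [Field K] {N : ℕ}

/-- The sets generating the filter are nonempty. -/
theorem GenC_nonempty [NumberField K] {f : Fin N → MvPolynomial (Fin N) K} {x : Fin N → K}
    {S : Set ℕ} {p : Ideal (MvPolynomial (Fin N) K)} (hp : p.IsPrime) (h : VanAt f x S p)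
    (hne : ∀ y : Fin N → K, ∃ P : MvPolynomial (Fin N) K, eval y P = 0 ∧ P ∉ p)
    (P : MvPolynomial (Fin N) K) (hP : P ∉ p) (B : ℕ) :
    ∃ n : ℕ, n + 1 ∈ S ∧ eval (orb f x (n + 1)) P ≠ 0 ∧ (B : ℝ) < ht (orb f x (n + 1)) ∧
      B < n := by
  classical
  choose R hR1 hR2 using hne
  have hfin := finite_ht (K := K) (N := N) (B : ℝ)
  set Q : MvPolynomial (Fin N) K := P * ((∏ y ∈ hfin.toFinset, R y) *
    ∏ m ∈ Finset.range (B + 2), R (orb f x m)) with hQdef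
  have hQ : Q ∉ p := by
    rw [hQdef, hp.mul_mem_iff_mem_or_mem, not_or, hp.mul_mem_iff_mem_or_mem, not_or,
      hp.prod_mem_iff, hp.prod_mem_iff]
    refine ⟨hP, ?_, ?_⟩
    · rintro ⟨y, -, hy⟩
      exact hR2 y hy
    · rintro ⟨m, -, hm⟩
      exact hR2 _ hm
  rw [h Q] at hQ
  push Not at hQ
  obtain ⟨m, hm, hQm⟩ := hQ
  have hev : eval (orb f x m) Q = eval (orb f x m) P *
      ((∏ y ∈ hfin.toFinset, eval (orb f x m) (R y)) *
        ∏ k ∈ Finset.range (B + 2), eval (orb f x m) (R (orb f x k))) := by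
    rw [hQdef]
    simp only [map_mul, map_prod]
  rw [hev] at hQm
  have h1 := left_ne_zero_of_mul hQm
  have h2 := left_ne_zero_of_mul (right_ne_zero_of_mul hQm)
  have h3 := right_ne_zero_of_mul (right_ne_zero_of_mul hQm)
  have hmB : B + 2 ≤ m := by
    by_contra hlt
    exact h3 (Finset.prod_eq_zero (Finset.mem_range.2 (not_le.1 hlt)) (hR1 _))
  obtain ⟨n, rfl⟩ : ∃ n, m = n + 1 := ⟨m - 1, by omega⟩
  refine ⟨n, hm, h1, ?_, by omega⟩
  by_contra hht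
  refine h2 (Finset.prod_eq_zero (i := orb f x (n + 1)) ?_ (hR1 _))
  rw [Set.Finite.mem_toFinset]
  exact not_lt.1 hht

/-- As `exists_generic` (file `SlowA.lean`), for a prime ideal `p` which is not the ideal of a point. -/
theorem exists_generic_p [NumberField K] {f : Fin N → MvPolynomial (Fin N) K} {x : Fin N → K}
    {S : Set ℕ} {p : Ideal (MvPolynomial (Fin N) K)} (hp : p.IsPrime) (h : VanAt f x S p)
    (hne : ∀ y : Fin N → K, ∃ P : MvPolynomial (Fin N) K, eval y P = 0 ∧ P ∉ p) :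
    ∃ 𝔘 : Ultrafilter ℕ, (∀ P : MvPolynomial (Fin N) K, P ∉ p →
        ∀ᶠ n in (𝔘 : Filter ℕ), eval (orb f x (n + 1)) P ≠ 0) ∧
      (∀ P ∈ p, ∀ᶠ n in (𝔘 : Filter ℕ), eval (orb f x (n + 1)) P = 0) ∧
      Tendsto (fun n => ht (orb f x (n + 1))) (𝔘 : Filter ℕ) atTop ∧
      Tendsto (fun n : ℕ => n) (𝔘 : Filter ℕ) atTop := by
  classical
  have h1p : (1 : MvPolynomial (Fin N) K) ∉ p := fun h1 => hp.ne_top ((Ideal.eq_top_iff_one p).2 h1)
  let T : {P : MvPolynomial (Fin N) K // P ∉ p} × ℕ → Set ℕ := fun q =>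
    {n | n + 1 ∈ S ∧ eval (orb f x (n + 1)) q.1.1 ≠ 0 ∧ (q.2 : ℝ) < ht (orb f x (n + 1)) ∧
      q.2 < n}
  let F : Filter ℕ := ⨅ q, 𝓟 (T q)
  have hdir : Directed (· ≥ ·) fun q => 𝓟 (T q) := by
    intro q q'
    refine ⟨(⟨q.1.1 * q'.1.1, fun hmem => ?_⟩, max q.2 q'.2), ?_, ?_⟩
    · rcases hp.mem_or_mem hmem with h1 | h1
      · exact q.1.2 h1
      · exact q'.1.2 h1
    · show 𝓟 (T _) ≤ 𝓟 (T q)
      rw [principal_mono]
      rintro n ⟨h0, h1, h2, h3⟩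
      simp only [map_mul] at h1
      refine ⟨h0, left_ne_zero_of_mul h1, lt_of_le_of_lt ?_ h2,
        lt_of_le_of_lt (le_max_left _ _) h3⟩
      exact_mod_cast le_max_left q.2 q'.2
    · show 𝓟 (T _) ≤ 𝓟 (T q')
      rw [principal_mono]
      rintro n ⟨h0, h1, h2, h3⟩
      simp only [map_mul] at h1
      refine ⟨h0, right_ne_zero_of_mul h1, lt_of_le_of_lt ?_ h2,
        lt_of_le_of_lt (le_max_right _ _) h3⟩
      exact_mod_cast le_max_right q.2 q'.2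
  have hneb : ∀ q, (𝓟 (T q)).NeBot := by
    intro q
    rw [principal_neBot_iff]
    obtain ⟨n, hn⟩ := GenC_nonempty hp h hne q.1.1 q.1.2 q.2
    exact ⟨n, hn⟩
  have hnon : Nonempty ({P : MvPolynomial (Fin N) K // P ∉ p} × ℕ) := ⟨(⟨1, h1p⟩, 0)⟩
  have hF : F.NeBot := iInf_neBot_of_directed' hdir hneb
  have hT : ∀ q, T q ∈ (Ultrafilter.of F : Filter ℕ) := by
    intro q
    have h1 : T q ∈ F := mem_iInf_of_mem q (mem_principal_self _)
    exact Ultrafilter.of_le F h1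
  refine ⟨Ultrafilter.of F, ?_, ?_, ?_, ?_⟩
  · intro P hP
    filter_upwards [hT (⟨P, hP⟩, 0)] with n hn
    exact hn.2.1
  · intro P hP
    filter_upwards [hT (⟨1, h1p⟩, 0)] with n hn
    exact (h P).1 hP _ hn.1
  · rw [tendsto_atTop]
    intro b
    filter_upwards [hT (⟨1, h1p⟩, ⌈b⌉₊)] with n hn
    exact (Nat.le_ceil b).trans hn.2.2.1.le
  · rw [tendsto_atTop]
    intro b
    filter_upwards [hT (⟨1, h1p⟩, b)] with n hn
    exact hn.2.2.2.le

end Pool.Agent.H.MP_31a675_nt.Y
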