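import Pool.Agent.H.MP_31a675_nt.Basic
import Pool.Agent.H.MP_31a675_nt.Y.NZero

/-!
# Degrees of the iterates, linear independence
-/

namespace Pool.Agent.H.MP_31a675_nt.Y

open MvPolynomial

variable {K : Type} [Field K] {N : ℕ}

/-- Polynomials as polynomials in the variable `m` over the field of rational functions. -/
noncomputable def psi (K : Type) [Field K] {N : ℕ} (m : Fin N) :
    MvPolynomial (Fin N) K →ₐ[K] Polynomial (FractionRing (MvPolynomial (Fin N) K)) :=
  aeval fun i => if i = m then Polynomial.X else
    Polynomial.C (algebraMap (MvPolynomial (Fin N) K) (FractionRing (MvPolynomial (Fin N) K)) (X i))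

/-- A product of powers of polynomials of degree at most `e`. -/
theorem prod_deg {R : Type*} [CommRing R] (e : ℕ) (g : Fin N → Polynomial R)
    (hg : ∀ i, (g i).natDegree ≤ e) (m : Fin N →₀ ℕ) :
    (∏ i, g i ^ m i).natDegree ≤ (∑ i, m i) * e ∧
      (∏ i, g i ^ m i).coeff ((∑ i, m i) * e) = ∏ i, (g i).coeff e ^ m i := by
  classical
  have h1 : ∀ i, (g i ^ m i).natDegree ≤ m i * e := fun i =>
    Polynomial.natDegree_pow_le_of_le _ (hg i)
  have : ∀ s : Finset (Fin N), (∏ i ∈ s, g i ^ m i).natDegree ≤ (∑ i ∈ s, m i) * e ∧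
      (∏ i ∈ s, g i ^ m i).coeff ((∑ i ∈ s, m i) * e) = ∏ i ∈ s, (g i).coeff e ^ m i := by
    intro s
    induction s using Finset.induction_on with
    | empty => simp
    | insert i s hi ih =>
      rw [Finset.prod_insert hi, Finset.prod_insert hi, Finset.sum_insert hi, Nat.add_mul]
      refine ⟨Polynomial.natDegree_mul_le_of_le (h1 i) ih.1, ?_⟩
      rw [Polynomial.coeff_mul_add_eq_of_natDegree_le (h1 i) ih.1, ih.2,
        Polynomial.coeff_pow_of_natDegree_le (hg i)]
  exact this _

/-- The degree of the value of a polynomial of degree at most `D` at polynomials of degree at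
most `e`. -/
theorem aeval_deg {R : Type*} [CommRing R] [Algebra K R] (P : MvPolynomial (Fin N) K) (D e : ℕ)
    (he : 1 ≤ e) (hP : P.totalDegree ≤ D) (g : Fin N → Polynomial R)
    (hg : ∀ i, (g i).natDegree ≤ e) :
    (aeval g P).natDegree ≤ D * e ∧
      (aeval g P).coeff (D * e) = aeval (fun i => (g i).coeff e) (homogeneousComponent D P) := by
  classical
  have hw : ∀ m ∈ P.support, ∑ i, m i ≤ D := by
    intro m hm
    have := le_totalDegree hm
    rw [Finsupp.sum_fintype _ _ (fun _ => rfl)] at this
    exact this.trans hP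
  have h1 : aeval g P =
      ∑ m ∈ P.support, algebraMap K (Polynomial R) (P.coeff m) * ∏ i, g i ^ m i := by
    rw [aeval_def, eval₂_eq']
  constructor
  · rw [h1]
    refine Polynomial.natDegree_sum_le_of_forall_le _ _ fun m hm => ?_
    rw [Polynomial.algebraMap_apply]
    refine (Polynomial.natDegree_C_mul_le _ _).trans ((prod_deg e g hg m).1.trans ?_)
    exact Nat.mul_le_mul_right _ (hw m hm)
  · rw [h1, Polynomial.finsetSum_coeff, homogeneousComponent_apply, map_sum,
      Finset.sum_filter]
    refine Finset.sum_congr rfl fun m hm => ?_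
    rw [Polynomial.algebraMap_apply, Polynomial.coeff_C_mul]
    have hd : m.degree = ∑ i, m i := by
      rw [Finsupp.degree_eq_sum]
    split_ifs with h
    · rw [hd] at h
      rw [← h, (prod_deg e g hg m).2, aeval_monomial, Finsupp.prod_fintype _ _ (fun _ => pow_zero _)]
    · rw [hd] at h
      have h2 := hw m hm
      have h3 : ∑ i, m i < D := by omega
      rw [Polynomial.coeff_eq_zero_of_natDegree_lt, mul_zero]
      refine (prod_deg e g hg m).1.trans_lt ?_
      exact Nat.mul_lt_mul_of_pos_right h3 (by omega)

theorem D_last {D : Fin N → ℕ} {d : ℕ} (hD : Degs D d) (m : Fin N) (hm : ∀ i, i ≤ m) :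
    D m = d := by
  obtain ⟨i, hi⟩ := hD.max
  rcases (hm i).lt_or_eq with h | h
  · rcases hD.inc i m h with h1 | h1
    · have := hD.le m
      omega
    · exact h1.2
  · rw [← h, hi]

theorem two_le {D : Fin N → ℕ} {d : ℕ} (hD : Degs D d) : 2 ≤ d := by
  obtain ⟨i, hi⟩ := hD.low
  have := hD.pos i
  omega

theorem psi_itp_succ (f : Fin N → MvPolynomial (Fin N) K) (m : Fin N) (l : ℕ) (i : Fin N) :
    psi K m (itp f (l + 1) i) = aeval (fun i => psi K m (itp f l i)) (f i) := by
  rw [itp_succ, ← AlgHom.comp_apply, comp_aeval]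

theorem exists_coord_aux {D : Fin N → ℕ} {d : ℕ} (hD : Degs D d)
    {f : Fin N → MvPolynomial (Fin N) K}
    (hf : Gen D d f) (m : Fin N) (hm : ∀ i, i ≤ m) (l : ℕ) :
    (∀ i, (psi K m (itp f l i)).natDegree ≤ d ^ l) ∧
      (∀ i, D i < d → (psi K m (itp f l i)).coeff (d ^ l) = 0) ∧
      ∃ i, (psi K m (itp f l i)).coeff (d ^ l) ≠ 0 := by
  classical
  have hd2 := two_le hD
  induction l with
  | zero =>
    have h0 : ∀ i, psi K m (itp f 0 i) = if i = m then Polynomial.X else
        Polynomial.C (algebraMap (MvPolynomial (Fin N) K)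
          (FractionRing (MvPolynomial (Fin N) K)) (X i)) := by
      intro i
      unfold itp psi
      rw [Function.iterate_zero_apply, aeval_X]
    refine ⟨fun i => ?_, fun i hi => ?_, m, ?_⟩
    · rw [h0, pow_zero]
      split_ifs
      · exact Polynomial.natDegree_X_le
      · rw [Polynomial.natDegree_C]
        exact Nat.zero_le _
    · have him : i ≠ m := by
        rintro rfl
        rw [D_last hD i hm] at hi
        exact lt_irrefl _ hi
      rw [h0, pow_zero, if_neg him, Polynomial.coeff_C, if_neg one_ne_zero]
    · rw [h0, pow_zero, if_pos rfl, Polynomial.coeff_X_one]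
      exact one_ne_zero
  | succ l ih =>
    obtain ⟨h1, h2, h3⟩ := ih
    have hpos : 1 ≤ d ^ l := Nat.one_le_pow _ _ (by omega)
    have key : ∀ i, (psi K m (itp f (l + 1) i)).natDegree ≤ D i * d ^ l ∧
        (psi K m (itp f (l + 1) i)).coeff (D i * d ^ l) =
          aeval (fun i => (psi K m (itp f l i)).coeff (d ^ l)) (topf D f i) := by
      intro i
      rw [psi_itp_succ]
      exact aeval_deg (f i) (D i) (d ^ l) hpos (hf.deg i) _ h1
    have hpow : d ^ (l + 1) = d * d ^ l := by rw [pow_succ, mul_comm]
    refine ⟨fun i => ?_, fun i hi => ?_, ?_⟩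
    · rw [hpow]
      exact (key i).1.trans (Nat.mul_le_mul_right _ (hD.le i))
    · rw [hpow]
      refine Polynomial.coeff_eq_zero_of_natDegree_lt ((key i).1.trans_lt ?_)
      exact Nat.mul_lt_mul_of_pos_right hi (by omega)
    · by_contra hcon
      push Not at hcon
      obtain ⟨i₀, hi₀⟩ := h3
      -- the first index with `D j = d`
      obtain ⟨j, hj, hjmin⟩ : ∃ j, D j = d ∧ ∀ i, i < j → D i < d := by
        have hne : (Finset.univ.filter fun i => D i = d).Nonempty := by
          obtain ⟨i, hi⟩ := hD.max
          exact ⟨i, by simp [hi]⟩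
        refine ⟨(Finset.univ.filter fun i => D i = d).min' hne, ?_, ?_⟩
        · have := Finset.min'_mem _ hne
          simpa using this
        · intro i hi
          by_contra h
          have h4 : D i = d := le_antisymm (hD.le i) (not_lt.1 h)
          have h5 := Finset.min'_le (Finset.univ.filter fun i => D i = d) i (by simp [h4])
          exact absurd hi (not_lt.2 h5)
      have hz := non_ext hD hf j hjmin (fun i => (psi K m (itp f l i)).coeff (d ^ l))
        (fun i hi => h2 i (hjmin i hi)) (fun i hi => by
          have hDi : D i = d := by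
            rcases hi.lt_or_eq with h | h
            · rcases hD.inc j i h with h4 | h4
              · have := hD.le i
                omega
              · exact h4.2
            · rw [← h, hj]
          rw [← (key i).2, hDi, ← hpow]
          exact hcon i)
      exact hi₀ (congrFun hz i₀)

/-- The degree with respect to the last variable `m`: all coordinates of the iterate `l` have degree
at most `d ^ l`, one of them has degree exactly `d ^ l`. Induction on `l`, with the statement: the
coordinates `i` with `D i < d` have degree less than `d ^ l` (`l = 0`: degree zero) and the vector of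
the coefficients at `X ^ (d ^ l)` is not zero; the new vector of coefficients is the value of the top
forms `topf D f i`, `D i = d`, at the old one: `non_ext` for the first index with `D j = d`. -/
theorem exists_coord {D : Fin N → ℕ} {d : ℕ} (hD : Degs D d) {f : Fin N → MvPolynomial (Fin N) K}
    (hf : Gen D d f) (m : Fin N) (hm : ∀ i, i ≤ m) (l : ℕ) :
    (∀ i, (psi K m (itp f l i)).natDegree ≤ d ^ l) ∧
      ∃ i, (psi K m (itp f l i)).natDegree = d ^ l := by
  obtain ⟨h1, -, i, hi⟩ := exists_coord_aux hD hf m hm l
  exact ⟨h1, i, le_antisymm (h1 i) (Polynomial.le_natDegree_of_ne_zero hi)⟩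

/-- The monomial in the variables `i ≤ j`. -/
noncomputable def mono (j : Fin N) {T : ℕ} (t : {i : Fin N // i ≤ j} → Fin T) : Fin N →₀ ℕ :=
  ∑ i : {i : Fin N // i ≤ j}, Finsupp.single i.1 (t i : ℕ)

theorem mono_apply (j : Fin N) {T : ℕ} (t : {i : Fin N // i ≤ j} → Fin T)
    (i : {i : Fin N // i ≤ j}) : mono j t i.1 = t i := by
  classical
  rw [mono, Finsupp.finset_sum_apply, Finset.sum_eq_single i]
  · rw [Finsupp.single_eq_same]
  · intro b _ hb
    rw [Finsupp.single_apply, if_neg]
    intro h
    exact hb (Subtype.ext h)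
  · intro h
    exact absurd (Finset.mem_univ _) h

theorem mono_inj (j : Fin N) {T : ℕ} : Function.Injective (mono j : ({i : Fin N // i ≤ j} → Fin T) → _) := by
  intro t t' h
  funext i
  apply Fin.ext
  rw [← mono_apply j t i, ← mono_apply j t' i, h]

theorem prod_mono (j : Fin N) {T : ℕ} (t : {i : Fin N // i ≤ j} → Fin T) :
    (∏ i : {i : Fin N // i ≤ j}, (X i.1 : MvPolynomial (Fin N) K) ^ (t i : ℕ)) =
      monomial (mono j t) 1 := by
  rw [mono, monomial_sum_one]
  refine Finset.prod_congr rfl fun i _ => ?_
  rw [X_pow_eq_monomial]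

/-- The combinations `PP` with these coordinates are not zero: the products with different second
component `s.2` have different degrees in the last variable. -/
theorem PP_ne {D : Fin N → ℕ} {d : ℕ} (hD : Degs D d) {f : Fin N → MvPolynomial (Fin N) K}
    (hf : Gen D d f) :
    ∃ c : ℕ → Fin N, ∀ (j : Fin N), D j < d → ∀ {T L : ℕ}
      (a : ({i : Fin N // i ≤ j} → Fin T) × (Fin L → Fin d) → K), a ≠ 0 → PP f j c a ≠ 0 := by
  classical
  have hd2 := two_le hD
  obtain ⟨i₁, -⟩ := hD.max
  have hN : 0 < N := i₁.pos
  set m : Fin N := ⟨N - 1, by omega⟩ with hmdef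
  have hm : ∀ i, i ≤ m := by
    intro i
    rw [Fin.le_def]
    have := i.2
    show (i : ℕ) ≤ N - 1
    omega
  choose c hc using fun l => (exists_coord hD hf m hm l).2
  refine ⟨c, fun j hj {T L} a ha hP => ha ?_⟩
  have hlt : ∀ i : {i : Fin N // i ≤ j}, i.1 ≠ m := by
    intro i h
    have h1 : j = m := le_antisymm (hm j) (h ▸ i.2)
    rw [h1, D_last hD m hm] at hj
    exact lt_irrefl _ hj
  -- the coefficients
  let p : (Fin L → Fin d) → MvPolynomial (Fin N) K := fun α => ∑ t, monomial (mono j t) (a (t, α))
  let Q : (Fin L → Fin d) → Polynomial (FractionRing (MvPolynomial (Fin N) K)) := fun α =>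
    ∏ l : Fin L, psi K m (itp f l (c l)) ^ (α l : ℕ)
  let F : (Fin L → Fin d) → Polynomial (FractionRing (MvPolynomial (Fin N) K)) := fun α =>
    Polynomial.C (algebraMap _ _ (p α)) * Q α
  have hY : ∀ l, psi K m (itp f l (c l)) ≠ 0 := by
    intro l h
    have h1 := hc l
    rw [h, Polynomial.natDegree_zero] at h1
    have : 0 < d ^ l := Nat.pow_pos (by omega)
    omega
  have hQ : ∀ α, Q α ≠ 0 := fun α => Finset.prod_ne_zero_iff.2 fun l _ => pow_ne_zero _ (hY l)
  have hQd : ∀ α, (Q α).natDegree = (finFunctionFinEquiv α : ℕ) := by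
    intro α
    show (∏ l : Fin L, psi K m (itp f l (c l)) ^ (α l : ℕ)).natDegree = _
    rw [Polynomial.natDegree_prod _ _ (fun (l : Fin L) _ => pow_ne_zero _ (hY (l : ℕ))),
      finFunctionFinEquiv_apply]
    refine Finset.sum_congr rfl fun l _ => ?_
    rw [Polynomial.natDegree_pow, hc]
  have hpsi : ∀ i : {i : Fin N // i ≤ j}, psi K m (X i.1) =
      Polynomial.C (algebraMap (MvPolynomial (Fin N) K)
          (FractionRing (MvPolynomial (Fin N) K)) (X i.1)) := by
    intro i
    rw [psi, aeval_X, if_neg (hlt i)]
  have hsum : ∑ α, F α = 0 := by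
    have h1 : psi K m (PP f j c a) = 0 := by rw [hP, map_zero]
    rw [← h1, PP, map_sum, Fintype.sum_prod_type_right]
    refine Finset.sum_congr rfl fun α _ => ?_
    simp only [F, p, Q]
    rw [map_sum, map_sum, Finset.sum_mul]
    refine Finset.sum_congr rfl fun t _ => ?_
    rw [map_mul, map_mul, map_prod, map_prod, ← mul_assoc]
    congr 1
    · have h2 : monomial (mono j t) (a (t, α)) = C (a (t, α)) *
          ∏ i : {i : Fin N // i ≤ j}, (X i.1 : MvPolynomial (Fin N) K) ^ (t i : ℕ) := by
        rw [prod_mono, C_mul_monomial, mul_one]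
      rw [h2, map_mul, map_mul, map_prod, map_prod]
      congr 1
      · rw [← algebraMap_eq, AlgHom.commutes, ← IsScalarTower.algebraMap_apply,
          Polynomial.algebraMap_apply]
      · refine Finset.prod_congr rfl fun i _ => ?_
        rw [map_pow, map_pow, map_pow, hpsi]
    · refine Finset.prod_congr rfl fun l _ => ?_
      rw [map_pow]
  have hdis : Set.Pairwise {α | α ∈ (Finset.univ : Finset (Fin L → Fin d)) ∧ F α ≠ 0}
      (fun α β => (F α).degree ≠ (F β).degree) := by
    have hdeg : ∀ α, F α ≠ 0 → (F α).degree = (finFunctionFinEquiv α : ℕ) := by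
      intro α hα
      rw [Polynomial.degree_eq_natDegree hα]
      congr 1
      have h0 : algebraMap (MvPolynomial (Fin N) K)
          (FractionRing (MvPolynomial (Fin N) K)) (p α) ≠ 0 := by
        intro h
        apply hα
        simp only [F]
        rw [h, Polynomial.C_0, zero_mul]
      simp only [F]
      rw [Polynomial.natDegree_C_mul h0, hQd]
    rintro α ⟨-, hα⟩ β ⟨-, hβ⟩ hne h
    rw [hdeg α hα, hdeg β hβ] at h
    apply hne
    apply finFunctionFinEquiv.injective
    apply Fin.ext
    exact_mod_cast h
  have hsup := Polynomial.degree_sum_eq_of_disjoint F Finset.univ hdis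
  rw [hsum, Polynomial.degree_zero] at hsup
  have hF : ∀ α, F α = 0 := by
    intro α
    rw [← Polynomial.degree_eq_bot]
    have h1 : (F α).degree ≤ Finset.univ.sup fun i => (F i).degree :=
      Finset.le_sup (f := fun i => (F i).degree) (Finset.mem_univ α)
    rw [← hsup] at h1
    exact le_bot_iff.1 h1
  have hp : ∀ α, p α = 0 := by
    intro α
    have h1 := hF α
    simp only [F] at h1
    rcases mul_eq_zero.1 h1 with h2 | h2
    · rw [Polynomial.C_eq_zero] at h2
      exact (map_eq_zero_iff _ (IsFractionRing.injective (MvPolynomial (Fin N) K)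
        (FractionRing (MvPolynomial (Fin N) K)))).1 h2
    · exact absurd h2 (hQ α)
  funext ⟨t, α⟩
  have h1 := congrArg (coeff (mono j t)) (hp α)
  simp only [p] at h1
  rw [coeff_sum, coeff_zero, Finset.sum_eq_single t] at h1
  · rw [coeff_monomial, if_pos rfl] at h1
    exact h1
  · intro b _ hb
    rw [coeff_monomial, if_neg]
    intro h
    exact hb (mono_inj j h)
  · intro h
    exact absurd (Finset.mem_univ _) h

/-- The degree of the iterates: the upper bound by induction, the lower bound from
`exists_coord`. -/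
theorem degIt_eq {D : Fin N → ℕ} {d : ℕ} (hD : Degs D d) {f : Fin N → MvPolynomial (Fin N) K}
    (hf : Gen D d f) (n : ℕ) : degIt f n = d ^ n := by
  classical
  have hd2 := two_le hD
  have hup : ∀ n i, (itp f n i).totalDegree ≤ d ^ n := by
    intro n
    induction n with
    | zero =>
      intro i
      unfold itp
      rw [Function.iterate_zero_apply, totalDegree_X, pow_zero]
    | succ n ih =>
      intro i
      rw [itp_succ, aeval_def, eval₂_eq']
      refine totalDegree_finsetSum_le fun m hm => ?_
      have h1 : (∑ i, m i) ≤ d := by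
        have := le_totalDegree hm
        rw [Finsupp.sum_fintype _ _ (fun _ => rfl)] at this
        exact this.trans ((hf.deg i).trans (hD.le i))
      have h4 : (∏ i, itp f n i ^ m i).totalDegree ≤ (∑ i, m i) * d ^ n := by
        refine (totalDegree_finsetProd _ _).trans ?_
        rw [Finset.sum_mul]
        refine Finset.sum_le_sum fun j _ => ?_
        exact (totalDegree_pow _ _).trans (Nat.mul_le_mul_left _ (ih j))
      calc ((algebraMap K (MvPolynomial (Fin N) K)) (coeff m (f i)) *
          ∏ i, itp f n i ^ m i).totalDegree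
          ≤ ((algebraMap K (MvPolynomial (Fin N) K)) (coeff m (f i))).totalDegree +
            (∏ i, itp f n i ^ m i).totalDegree := totalDegree_mul _ _
        _ ≤ 0 + d * d ^ n := by
            refine Nat.add_le_add ?_ (h4.trans (Nat.mul_le_mul_right _ h1))
            rw [algebraMap_eq, totalDegree_C]
        _ = d ^ (n + 1) := by rw [zero_add, pow_succ, mul_comm]
  refine le_antisymm (Finset.sup_le fun i _ => hup n i) ?_
  obtain ⟨i₁, -⟩ := hD.max
  have hN : 0 < N := i₁.pos
  set m : Fin N := ⟨N - 1, by omega⟩ with hmdef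
  have hm : ∀ i, i ≤ m := by
    intro i
    rw [Fin.le_def]
    have := i.2
    show (i : ℕ) ≤ N - 1
    omega
  obtain ⟨i, hi⟩ := (exists_coord hD hf m hm n).2
  have h1 : (psi K m (itp f n i)).natDegree ≤ (itp f n i).totalDegree * 1 := by
    refine (aeval_deg (itp f n i) _ 1 le_rfl le_rfl _ fun i => ?_).1
    split_ifs
    · exact Polynomial.natDegree_X_le
    · rw [Polynomial.natDegree_C]
      exact Nat.zero_le _
  rw [hi, mul_one] at h1
  exact h1.trans (Finset.le_sup (f := fun i => (itp f n i).totalDegree) (Finset.mem_univ i))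

end Pool.Agent.H.MP_31a675_nt.Y
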