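import Mathlib

/-!
# Representation of elements of a finite extension by traces
-/

namespace Pool.Agent.H.MP_31a675_nt.Y

open scoped nonZeroDivisors
open Module

/-- `A` integrally closed of characteristic zero, `R` a domain, finite over `A`, `Ω` an algebraically
closed field containing `A`. With the embeddings `σ s` of the fraction field of `R` in `Ω` over the
fraction field of `A`, a basis `b` in `R`, the traces `τ l` of `g * b l`, the determinant `Δ` and the
adjugate `c` of the trace form. -/
theorem lin_trace (A R : Type) [CommRing A] [IsDomain A] [IsIntegrallyClosed A] [CharZero A]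
    [CommRing R] [IsDomain R] [Algebra A R] (hinj : Function.Injective (algebraMap A R))
    [Module.Finite A R] (Ω : Type) [Field Ω] [IsAlgClosed Ω] [Algebra A Ω]
    (hΩ : Function.Injective (algebraMap A Ω)) :
    ∃ (n : ℕ) (σ : Fin n → (R →ₐ[A] Ω)) (b : Fin n → R) (Δ : A) (c : Fin n → Fin n → A),
      Δ ≠ 0 ∧ (∀ s, Function.Injective (σ s)) ∧
      (∀ g : R, ∃ ν : A, algebraMap A Ω ν = ∏ s, σ s g) ∧
      ∀ g : R, ∃ τ : Fin n → A, (∀ l, algebraMap A Ω (τ l) = ∑ s, σ s g * σ s (b l)) ∧
        algebraMap A R Δ * g = ∑ k, ∑ l, algebraMap A R (c k l * τ l) * b k := by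
  classical
  have : FaithfulSMul A R := (faithfulSMul_iff_algebraMap_injective A R).2 hinj
  have : FaithfulSMul A Ω := (faithfulSMul_iff_algebraMap_injective A Ω).2 hΩ
  have : Algebra.IsIntegral A R := inferInstance
  let : Algebra (FractionRing A) (FractionRing R) := FractionRing.liftAlgebra A (FractionRing R)
  have : IsScalarTower A (FractionRing A) (FractionRing R) :=
    FractionRing.isScalarTower_liftAlgebra A (FractionRing R)
  let : Algebra (FractionRing A) Ω := FractionRing.liftAlgebra A Ω
  have : IsScalarTower A (FractionRing A) Ω := FractionRing.isScalarTower_liftAlgebra A Ω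
  have : Module.Finite (FractionRing A) (FractionRing R) :=
    Module.Finite.of_isLocalization A R A⁰
  have : CharZero (FractionRing A) :=
    charZero_of_injective_algebraMap (IsFractionRing.injective A (FractionRing A))
  have hint : ∀ g : R, IsIntegral A (algebraMap R (FractionRing R) g) := fun g =>
    (Algebra.IsIntegral.isIntegral (R := A) g).algebraMap
  set n := finrank (FractionRing A) (FractionRing R) with hn
  -- a basis inside `R`
  have hfrac : ∀ x : FractionRing R, ∃ (g : R) (a : A), a ≠ 0 ∧
      algebraMap A (FractionRing R) a * x = algebraMap R (FractionRing R) g := by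
    intro x
    obtain ⟨u, v, hv, rfl⟩ := IsFractionRing.div_surjective (A := R) x
    obtain ⟨a, ha, w, hw⟩ := ((Algebra.IsIntegral.isIntegral (R := A) v).isAlgebraic).exists_nonzero_dvd hv
    refine ⟨u * w, a, ha, ?_⟩
    have hv0 : algebraMap R (FractionRing R) v ≠ 0 :=
      IsFractionRing.to_map_ne_zero_of_mem_nonZeroDivisors hv
    rw [IsScalarTower.algebraMap_apply A R (FractionRing R), hw, map_mul, map_mul]
    field_simp
  choose gg aa haa hgg using hfrac
  let b0 : Basis (Fin n) (FractionRing A) (FractionRing R) := finBasis _ _
  have hu : ∀ i, IsUnit (algebraMap A (FractionRing A) (aa (b0 i))) := fun i =>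
    IsUnit.mk0 _ ((map_ne_zero_iff _ (IsFractionRing.injective A (FractionRing A))).2 (haa _))
  let b1 : Basis (Fin n) (FractionRing A) (FractionRing R) := b0.isUnitSMul hu
  let b : Fin n → R := fun i => gg (b0 i)
  have hb1 : ∀ i, b1 i = algebraMap R (FractionRing R) (b i) := by
    intro i
    rw [Basis.isUnitSMul_apply, Algebra.smul_def, ← IsScalarTower.algebraMap_apply]
    exact hgg _
  -- the embeddings
  have hcard : Fintype.card (FractionRing R →ₐ[FractionRing A] Ω) = n := AlgHom.card _ _ _
  let e : Fin n ≃ (FractionRing R →ₐ[FractionRing A] Ω) := (Fintype.equivFinOfCardEq hcard).symm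
  let σ : Fin n → (R →ₐ[A] Ω) := fun s =>
    ((e s).restrictScalars A).comp (IsScalarTower.toAlgHom A R (FractionRing R))
  have hσ : ∀ s g, σ s g = e s (algebraMap R (FractionRing R) g) := fun s g => rfl
  -- traces
  have htr : ∀ g : R, ∃ t : A, algebraMap A (FractionRing A) t =
      Algebra.trace (FractionRing A) (FractionRing R) (algebraMap R (FractionRing R) g) :=
    fun g => IsIntegrallyClosed.isIntegral_iff.1 (Algebra.isIntegral_trace (hint g))
  have hno : ∀ g : R, ∃ t : A, algebraMap A (FractionRing A) t =
      Algebra.norm (FractionRing A) (algebraMap R (FractionRing R) g) :=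
    fun g => IsIntegrallyClosed.isIntegral_iff.1 (Algebra.isIntegral_norm _ (hint g))
  choose tr htr' using htr
  let M : Matrix (Fin n) (Fin n) A := Matrix.of fun i j => tr (b i * b j)
  have hM : M.map (algebraMap A (FractionRing A)) = Algebra.traceMatrix (FractionRing A) b1 := by
    ext i j
    rw [Matrix.map_apply, Algebra.traceMatrix_apply, Algebra.traceForm_apply, hb1, hb1, ← map_mul]
    exact htr' _
  refine ⟨n, σ, b, M.det, fun k l => M.adjugate k l, ?_, ?_, ?_, ?_⟩
  · intro h0
    apply Algebra.discr_not_zero_of_basis (FractionRing A) b1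
    rw [Algebra.discr_def, ← hM]
    have h1 := RingHom.map_det (algebraMap A (FractionRing A)) M
    rw [h0, map_zero] at h1
    exact h1.symm
  · intro s x y hxy
    rw [hσ, hσ] at hxy
    exact IsFractionRing.injective R (FractionRing R) ((e s).toRingHom.injective hxy)
  · intro g
    obtain ⟨t, ht⟩ := hno g
    refine ⟨t, ?_⟩
    rw [IsScalarTower.algebraMap_apply A (FractionRing A) Ω, ht, Algebra.norm_eq_prod_embeddings]
    exact (Equiv.prod_comp e fun s => s (algebraMap R (FractionRing R) g)).symm
  · intro g
    refine ⟨fun l => tr (g * b l), ?_, ?_⟩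
    · intro l
      rw [IsScalarTower.algebraMap_apply A (FractionRing A) Ω, htr', trace_eq_sum_embeddings Ω]
      rw [← Equiv.sum_comp e]
      apply Finset.sum_congr rfl
      intro s _
      rw [hσ, hσ, map_mul, map_mul]
    · apply IsFractionRing.injective R (FractionRing R)
      set x := b1.repr (algebraMap R (FractionRing R) g) with hx
      have hg : algebraMap R (FractionRing R) g = ∑ k, x k • b1 k := (b1.sum_repr _).symm
      have hτ : ∀ l, algebraMap A (FractionRing A) (tr (g * b l)) =
          ∑ k, algebraMap A (FractionRing A) (M l k) * x k := by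
        intro l
        rw [htr', map_mul, hg, Finset.sum_mul, map_sum]
        apply Finset.sum_congr rfl
        intro k _
        rw [smul_mul_assoc, map_smul, smul_eq_mul, mul_comm]
        congr 1
        rw [hb1, ← map_mul]
        show _ = algebraMap A (FractionRing A) (tr (b l * b k))
        rw [htr', mul_comm (b l)]
      have hadj : ∀ k, ∑ l, algebraMap A (FractionRing A) (M.adjugate k l * tr (g * b l)) =
          algebraMap A (FractionRing A) M.det * x k := by
        intro k
        have h1 : ∀ l, algebraMap A (FractionRing A) (M.adjugate k l * tr (g * b l)) =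
            ∑ j, algebraMap A (FractionRing A) (M.adjugate k l * M l j) * x j := by
          intro l
          rw [map_mul, hτ, Finset.mul_sum]
          apply Finset.sum_congr rfl
          intro j _
          rw [map_mul, mul_assoc]
        simp_rw [h1]
        rw [Finset.sum_comm]
        have h2 : ∀ j, ∑ l, algebraMap A (FractionRing A) (M.adjugate k l * M l j) * x j =
            algebraMap A (FractionRing A) ((M.adjugate * M) k j) * x j := by
          intro j
          rw [Matrix.mul_apply, map_sum, Finset.sum_mul]
        simp_rw [h2, Matrix.adjugate_mul]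
        rw [Finset.sum_eq_single k]
        · simp
        · intro j _ hj
          simp [Matrix.one_apply_ne' hj]
        · intro h
          exact absurd (Finset.mem_univ k) h
      rw [map_mul, map_sum]
      have h3 : ∀ k, algebraMap R (FractionRing R)
          (∑ l, algebraMap A R (M.adjugate k l * tr (g * b l)) * b k) =
          algebraMap A (FractionRing R) M.det * (x k • b1 k) := by
        intro k
        rw [← Finset.sum_mul, map_mul, ← map_sum, ← IsScalarTower.algebraMap_apply,
          IsScalarTower.algebraMap_apply A (FractionRing A) (FractionRing R), map_sum, hadj, map_mul,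
          ← IsScalarTower.algebraMap_apply, ← hb1, Algebra.smul_def, mul_assoc]
      simp_rw [h3]
      rw [← Finset.mul_sum, ← hg, ← IsScalarTower.algebraMap_apply]

end Pool.Agent.H.MP_31a675_nt.Y
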