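import Pool.Agent.H.MP_31a675_nt.Y.LinV
import Pool.Agent.H.MP_31a675_nt.Y.LinT

/-!
# Functions satisfying equations with coefficients of small degree have small degree
-/

namespace Pool.Agent.H.MP_31a675_nt.Y

open MvPolynomial

/-- Size of a root of an equation over a valued field. -/
theorem Lin_eq {Ω Γ : Type} [Field Ω] [LinearOrderedCommGroupWithZero Γ] (v : Valuation Ω Γ)
    (w : ℕ → Ω) (x : Ω) (E e₀ : ℕ) (M₁ M₂ : Γ) (h1 : 1 ≤ M₁) (h2 : 1 ≤ M₂)
    (hw : ∀ e, v (w e) ≤ M₁) (he : e₀ < E) (hz : ∀ e, e₀ < e → e < E → w e = 0)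
    (h0 : w e₀ ≠ 0) (hi : (v (w e₀))⁻¹ ≤ M₂)
    (hs : ∑ e ∈ Finset.range E, w e * x ^ e = 0) : v x ≤ M₁ * M₂ := by
  by_contra hcon
  push Not at hcon
  have hM : 1 ≤ M₁ * M₂ := by
    calc (1 : Γ) = 1 * 1 := (one_mul 1).symm
      _ ≤ M₁ * M₂ := mul_le_mul' h1 h2
  have hx1 : 1 ≤ v x := hM.trans hcon.le
  have hx0 : 0 < v x := lt_of_lt_of_le zero_lt_one hx1
  have hs2 : ∑ e ∈ Finset.range (e₀ + 1), w e * x ^ e = 0 := by
    rw [← hs]
    apply Finset.sum_subset
    · intro e h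
      simp only [Finset.mem_range] at h ⊢
      omega
    · intro e h h'
      simp only [Finset.mem_range] at h h'
      rw [hz e (by omega) h, zero_mul]
  rw [Finset.sum_range_succ] at hs2
  have hs3 : x ^ e₀ = - ∑ e ∈ Finset.range e₀, (w e₀)⁻¹ * (w e * x ^ e) := by
    rw [← Finset.mul_sum]
    field_simp
    linear_combination hs2
  have hlt : v (∑ e ∈ Finset.range e₀, (w e₀)⁻¹ * (w e * x ^ e)) < v x ^ e₀ := by
    apply Valuation.map_sum_lt
    · exact pow_ne_zero _ hx0.ne'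
    · intro e he'
      have he2 : e + 1 ≤ e₀ := Finset.mem_range.1 he'
      rw [map_mul, map_mul, map_inv₀, map_pow]
      calc (v (w e₀))⁻¹ * (v (w e) * v x ^ e) ≤ M₂ * (M₁ * v x ^ e) :=
            mul_le_mul' hi (mul_le_mul' (hw e) le_rfl)
        _ = (M₁ * M₂) * v x ^ e := by rw [← mul_assoc, mul_comm M₂ M₁]
        _ < v x * v x ^ e := by
            apply mul_lt_mul_of_pos_right hcon
            exact pow_pos hx0 _
        _ = v x ^ (e + 1) := by rw [pow_succ, mul_comm]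
        _ ≤ v x ^ e₀ := pow_le_pow_right₀ hx1 he2
  have := congrArg v hs3
  rw [map_pow, Valuation.map_neg] at this
  exact absurd this hlt.ne'

/-- Size of the value of a polynomial. -/
theorem Lin_poly {K Ω Γ : Type} [Field K] [Field Ω] [LinearOrderedCommGroupWithZero Γ]
    (v : Valuation Ω Γ) {N : ℕ} (φ : MvPolynomial (Fin N) K →+* Ω) (μ : Γ) (hμ : 1 ≤ μ) (c : ℕ)
    (hC : ∀ k : K, v (φ (C k)) ≤ 1) (hX : ∀ i, v (φ (X i)) ≤ μ ^ c) (T : ℕ)
    (W : MvPolynomial (Fin N) K) (hW : W.totalDegree ≤ T) : v (φ W) ≤ μ ^ (c * T) := by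
  rw [W.as_sum, map_sum]
  apply Valuation.map_sum_le
  intro m hm
  have hdeg : ∑ i, m i ≤ T := by
    have := le_totalDegree hm
    rw [Finsupp.sum_fintype _ _ (fun _ => rfl)] at this
    exact this.trans hW
  rw [monomial_eq, map_mul, map_mul, Finsupp.prod_fintype _ _ (fun i => pow_zero _), map_prod,
    map_prod]
  calc v (φ (C (coeff m W))) * ∏ i, v (φ (X i ^ m i)) ≤ 1 * ∏ i, (μ ^ c) ^ m i := by
        apply mul_le_mul' (hC _)
        apply Finset.prod_le_prod'
        intro i _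
        rw [map_pow, map_pow]
        exact pow_le_pow_left₀ zero_le (hX i) _
    _ = μ ^ (c * ∑ i, m i) := by
        rw [one_mul, Finset.prod_pow_eq_pow_sum, ← pow_mul]
    _ ≤ μ ^ (c * T) := pow_le_pow_right₀ hμ (Nat.mul_le_mul_left c hdeg)

/-- The inverse of a factor of a product of size at least one. -/
theorem Lin_inv {Γ : Type} [LinearOrderedCommGroupWithZero Γ] {n : ℕ} (a : Fin n → Γ) (M : Γ)
    (hM : 1 ≤ M) (ha : ∀ s, a s ≤ M) (h0 : ∀ s, a s ≠ 0) (hp : 1 ≤ ∏ s, a s) (s : Fin n) :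
    (a s)⁻¹ ≤ M ^ n := by
  have h1 : ∏ t, a t ≤ a s * M ^ n := by
    rw [← Finset.mul_prod_erase Finset.univ a (Finset.mem_univ s)]
    apply mul_le_mul' le_rfl
    calc ∏ t ∈ Finset.univ.erase s, a t ≤ ∏ t ∈ Finset.univ.erase s, M :=
          Finset.prod_le_prod' fun t _ => ha t
      _ = M ^ (n - 1) := by
          rw [Finset.prod_const, Finset.card_erase_of_mem (Finset.mem_univ s), Finset.card_univ,
            Fintype.card_fin]
      _ ≤ M ^ n := pow_le_pow_right₀ hM (Nat.sub_le n 1)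
  calc (a s)⁻¹ = (a s)⁻¹ * 1 := (mul_one _).symm
    _ ≤ (a s)⁻¹ * (a s * M ^ n) := mul_le_mul' le_rfl (hp.trans h1)
    _ = M ^ n := by rw [← mul_assoc, inv_mul_cancel₀ (h0 s), one_mul]

/-- Integral elements have polynomially bounded size. -/
theorem Lin_int {A R Ω Γ : Type} [CommRing A] [CommRing R] [Algebra A R] [Field Ω] [Algebra A Ω]
    [LinearOrderedCommGroupWithZero Γ] (v : Valuation Ω Γ) (μ : Γ) (hμ : 1 ≤ μ)
    (hA : ∀ a : A, ∃ c : ℕ, v (algebraMap A Ω a) ≤ μ ^ c) (u : R) (hu : IsIntegral A u) :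
    ∃ c : ℕ, ∀ σ : R →ₐ[A] Ω, v (σ u) ≤ μ ^ c := by
  obtain ⟨f, hf, hfu⟩ := hu
  choose c hc using hA
  refine ⟨(Finset.range (f.natDegree + 1)).sup (fun e => c (f.coeff e)), fun σ => ?_⟩
  have h1 : (1 : Γ) ≤ μ ^ ((Finset.range (f.natDegree + 1)).sup (fun e => c (f.coeff e))) :=
    one_le_pow₀ hμ
  have h2 := Lin_eq v (fun e => algebraMap A Ω (f.coeff e)) (σ u) (f.natDegree + 1) f.natDegree
    (μ ^ ((Finset.range (f.natDegree + 1)).sup (fun e => c (f.coeff e)))) 1 h1 le_rfl ?_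
    (Nat.lt_succ_self _) (fun e h h' => absurd h' (by omega)) ?_ ?_ ?_
  · simpa using h2
  · intro e
    by_cases he : e < f.natDegree + 1
    · refine (hc _).trans (pow_le_pow_right₀ hμ ?_)
      exact Finset.le_sup (f := fun e => c (f.coeff e)) (Finset.mem_range.2 he)
    · rw [Polynomial.coeff_eq_zero_of_natDegree_lt (by omega), map_zero, map_zero]
      exact zero_le
  · simp [hf.coeff_natDegree]
  · simp [hf.coeff_natDegree]
  · have h3 := congrArg σ hfu
    rw [map_zero] at h3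
    rw [← h3]
    rw [← Polynomial.aeval_def, ← Polynomial.aeval_algHom_apply, Polynomial.aeval_eq_sum_range]
    refine Finset.sum_congr rfl fun e _ => ?_
    rw [Algebra.smul_def]

/-- Polynomials in no variables have degree zero. -/
theorem Lin_deg0 {K : Type} [Field K] {r : ℕ} (hr : r = 0) (a : MvPolynomial (Fin r) K) :
    a.totalDegree = 0 := by
  subst hr
  rw [totalDegree_eq_zero_iff_eq_C]
  exact eq_C_of_isEmpty a

/-- Substitution of polynomials multiplies the degree by a constant. -/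
theorem Lin_aeval {K : Type} [Field K] {r N : ℕ} (f : Fin r → MvPolynomial (Fin N) K) (c : ℕ)
    (hf : ∀ i, (f i).totalDegree ≤ c) (a : MvPolynomial (Fin r) K) (T : ℕ)
    (ha : a.totalDegree ≤ T) : (aeval f a).totalDegree ≤ c * T := by
  rw [a.as_sum, map_sum]
  refine totalDegree_finsetSum_le fun m hm => ?_
  have hdeg : ∑ i, m i ≤ T := by
    have := le_totalDegree hm
    rw [Finsupp.sum_fintype _ _ (fun _ => rfl)] at this
    exact this.trans ha
  rw [monomial_eq, map_mul, Finsupp.prod_fintype _ _ (fun i => pow_zero _), map_prod]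
  refine (totalDegree_mul _ _).trans ?_
  rw [aeval_C, algebraMap_eq, totalDegree_C, zero_add]
  refine (totalDegree_finsetProd _ _).trans ?_
  calc ∑ i, (aeval f (X i ^ m i)).totalDegree ≤ ∑ i, m i * c := by
        refine Finset.sum_le_sum fun i _ => ?_
        rw [map_pow, aeval_X]
        exact (totalDegree_pow _ _).trans (Nat.mul_le_mul_left _ (hf i))
    _ = (∑ i, m i) * c := (Finset.sum_mul _ _ _).symm
    _ ≤ c * T := by rw [mul_comm]; exact Nat.mul_le_mul_left _ hdeg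

/-- The traces of a function satisfying an equation with coefficients of small degree have small
degree. -/
theorem Lin_deg {K : Type} [Field K] {N r : ℕ} (R : Type) [CommRing R] [IsDomain R]
    [Algebra (MvPolynomial (Fin r) K) R] [Module.Finite (MvPolynomial (Fin r) K) R]
    (Ω : Type) [Field Ω] [Algebra (MvPolynomial (Fin r) K) Ω]
    (hΩ : Function.Injective (algebraMap (MvPolynomial (Fin r) K) Ω))
    (π : MvPolynomial (Fin N) K →+* R)
    (hπ : ∀ k, π (C k) = algebraMap (MvPolynomial (Fin r) K) R (C k))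
    (n : ℕ) (σ : Fin n → (R →ₐ[MvPolynomial (Fin r) K] Ω)) (b : Fin n → R)
    (hσ : ∀ s, Function.Injective (σ s))
    (hν : ∀ g : R, ∃ ν : MvPolynomial (Fin r) K,
      algebraMap (MvPolynomial (Fin r) K) Ω ν = ∏ s, σ s g) :
    ∃ C₁ : ℕ, ∀ (T E : ℕ) (W : ℕ → MvPolynomial (Fin N) K) (g : R), 1 ≤ T →
      (∀ e, (W e).totalDegree ≤ T) → (∃ e, e < E ∧ π (W e) ≠ 0) →
      ∑ e ∈ Finset.range E, π (W e) * g ^ e = 0 →
      ∀ (l : Fin n) (τ : MvPolynomial (Fin r) K),
        algebraMap (MvPolynomial (Fin r) K) Ω τ = ∑ s, σ s g * σ s (b l) →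
        τ.totalDegree ≤ C₁ * T := by
  rcases Nat.eq_zero_or_pos r with hr | hr
  · exact ⟨0, fun T E W g _ _ _ _ l τ _ => by rw [Lin_deg0 hr, zero_mul]⟩
  obtain ⟨V, hV1, hV⟩ := lin_val hΩ ⟨0, hr⟩
  set v : Valuation Ω V.ValueGroup := V.valuation with hv
  set μ : V.ValueGroup := v (algebraMap (MvPolynomial (Fin r) K) Ω (X ⟨0, hr⟩)) with hμdef
  have hμ : 1 ≤ μ := hV1.le
  have hA : ∀ a : MvPolynomial (Fin r) K, ∃ c : ℕ,
      v (algebraMap (MvPolynomial (Fin r) K) Ω a) ≤ μ ^ c := by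
    intro a
    by_cases ha : a = 0
    · exact ⟨0, by rw [ha, map_zero, map_zero]; exact zero_le⟩
    · exact ⟨a.totalDegree, (hV a ha).le⟩
  have hA1 : ∀ a : MvPolynomial (Fin r) K, a ≠ 0 →
      1 ≤ v (algebraMap (MvPolynomial (Fin r) K) Ω a) := by
    intro a ha
    rw [hV a ha]
    exact one_le_pow₀ hμ
  have hint : ∀ u : R, ∃ c : ℕ, ∀ s : Fin n, v (σ s u) ≤ μ ^ c := by
    intro u
    obtain ⟨c, hc⟩ := Lin_int v μ hμ hA u (Algebra.IsIntegral.isIntegral u)
    exact ⟨c, fun s => hc (σ s)⟩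
  choose cc hcc using hint
  -- a common bound for the variables
  set c₁ : ℕ := Finset.univ.sup (fun i : Fin N => cc (π (X i))) with hc₁
  set c₂ : ℕ := Finset.univ.sup (fun l : Fin n => cc (b l)) with hc₂
  have hX : ∀ (s : Fin n) (i : Fin N), v (σ s (π (X i))) ≤ μ ^ c₁ := fun s i =>
    (hcc _ s).trans (pow_le_pow_right₀ hμ
      (Finset.le_sup (f := fun i : Fin N => cc (π (X i))) (Finset.mem_univ i)))
  have hb : ∀ (s : Fin n) (l : Fin n), v (σ s (b l)) ≤ μ ^ c₂ := fun s l =>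
    (hcc _ s).trans (pow_le_pow_right₀ hμ
      (Finset.le_sup (f := fun l : Fin n => cc (b l)) (Finset.mem_univ l)))
  have hW : ∀ (s : Fin n) (T : ℕ) (W : MvPolynomial (Fin N) K), W.totalDegree ≤ T →
      v (σ s (π W)) ≤ μ ^ (c₁ * T) := by
    intro s T W hWT
    refine Lin_poly v ((σ s : R →+* Ω).comp π) μ hμ c₁ ?_ (fun i => hX s i) T W hWT
    intro k
    rw [RingHom.comp_apply, hπ]
    have : (σ s : R →+* Ω) (algebraMap (MvPolynomial (Fin r) K) R (C k)) =
        algebraMap (MvPolynomial (Fin r) K) Ω (C k) := (σ s).commutes _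
    rw [this]
    by_cases hk : (C k : MvPolynomial (Fin r) K) = 0
    · rw [hk, map_zero, map_zero]; exact zero_le
    · rw [hV _ hk, totalDegree_C, pow_zero]
  refine ⟨(n + 1) * c₁ + c₂, fun T E W g hT hWT hne hsum l τ hτ => ?_⟩
  classical
  -- the last nonzero coefficient
  obtain ⟨e₀, he₀, he₀', hlast⟩ : ∃ e₀, e₀ < E ∧ π (W e₀) ≠ 0 ∧
      ∀ e, e₀ < e → e < E → π (W e) = 0 := by
    obtain ⟨e, he, he'⟩ := hne
    have hne2 : ((Finset.range E).filter (fun e => π (W e) ≠ 0)).Nonempty :=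
      ⟨e, by simp [he, he']⟩
    refine ⟨((Finset.range E).filter (fun e => π (W e) ≠ 0)).max' hne2, ?_, ?_, ?_⟩
    · exact Finset.mem_range.1 (Finset.mem_filter.1 (Finset.max'_mem _ hne2)).1
    · exact (Finset.mem_filter.1 (Finset.max'_mem _ hne2)).2
    · intro e' h1 h2
      by_contra h3
      have := Finset.le_max' ((Finset.range E).filter (fun e => π (W e) ≠ 0)) e'
        (Finset.mem_filter.2 ⟨Finset.mem_range.2 h2, h3⟩)
      omega
  have hσ0 : ∀ s, σ s (π (W e₀)) ≠ 0 := fun s h =>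
    he₀' (hσ s (h.trans (map_zero (σ s)).symm))
  have hprod : 1 ≤ ∏ s, v (σ s (π (W e₀))) := by
    obtain ⟨ν, hν1⟩ := hν (π (W e₀))
    rw [← map_prod, ← hν1]
    refine hA1 ν ?_
    rintro rfl
    rw [map_zero] at hν1
    exact (Finset.prod_ne_zero_iff.2 fun s _ => hσ0 s) hν1.symm
  have hinv : ∀ s, (v (σ s (π (W e₀))))⁻¹ ≤ (μ ^ (c₁ * T)) ^ n :=
    Lin_inv (fun s => v (σ s (π (W e₀)))) (μ ^ (c₁ * T)) (one_le_pow₀ hμ)
      (fun s => hW s T _ (hWT e₀)) (fun s => (Valuation.ne_zero_iff v).2 (hσ0 s)) hprod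
  have hg : ∀ s, v (σ s g) ≤ μ ^ (c₁ * T) * (μ ^ (c₁ * T)) ^ n := by
    intro s
    refine Lin_eq v (fun e => σ s (π (W e))) (σ s g) E e₀ _ _ (one_le_pow₀ hμ)
      (one_le_pow₀ (one_le_pow₀ hμ)) (fun e => hW s T _ (hWT e)) he₀ ?_ (hσ0 s) (hinv s) ?_
    · intro e h1 h2
      rw [hlast e h1 h2, map_zero]
    · have := congrArg (σ s) hsum
      rw [map_zero, map_sum] at this
      rw [← this]
      refine Finset.sum_congr rfl fun e _ => ?_
      rw [map_mul, map_pow]
  have hτv : v (algebraMap (MvPolynomial (Fin r) K) Ω τ) ≤ μ ^ (((n + 1) * c₁ + c₂) * T) := by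
    rw [hτ]
    apply Valuation.map_sum_le
    intro s _
    rw [map_mul]
    refine (mul_le_mul' (hg s) (hb s l)).trans ?_
    rw [← pow_mul, ← pow_add, ← pow_add]
    apply pow_le_pow_right₀ hμ
    have : c₂ ≤ c₂ * T := Nat.le_mul_of_pos_right _ hT
    nlinarith
  by_cases hτ0 : τ = 0
  · rw [hτ0, totalDegree_zero]; exact Nat.zero_le _
  · rw [hV τ hτ0] at hτv
    exact (pow_le_pow_iff_right₀ hV1).1 hτv

/-- On an irreducible affine variety, a regular function `G` which satisfies a nontrivial algebraic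
equation (of any degree) with coefficients of degree at most `T` is, up to a fixed denominator `Q`,
of degree at most `C * T`. -/
theorem lin_bound {K : Type} [Field K] [CharZero K] {N : ℕ} (p : Ideal (MvPolynomial (Fin N) K))
    (hp : p.IsPrime) :
    ∃ (C : ℕ) (Q : MvPolynomial (Fin N) K), Q ∉ p ∧
      ∀ (T E : ℕ) (W : ℕ → MvPolynomial (Fin N) K) (G : MvPolynomial (Fin N) K), 1 ≤ T →
        (∀ e, (W e).totalDegree ≤ T) → (∃ e, e < E ∧ W e ∉ p) →
        ∑ e ∈ Finset.range E, W e * G ^ e ∈ p →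
        ∃ P : MvPolynomial (Fin N) K, P.totalDegree ≤ C * T ∧ P - Q * G ∈ p := by
  have := hp
  obtain ⟨r, φ, hφ, hfin⟩ := exists_finite_inj_algHom_of_fg K (MvPolynomial (Fin N) K ⧸ p)
  let alg1 : Algebra (MvPolynomial (Fin r) K) (MvPolynomial (Fin N) K ⧸ p) := φ.toRingHom.toAlgebra
  have : Module.Finite (MvPolynomial (Fin r) K) (MvPolynomial (Fin N) K ⧸ p) := hfin
  set R : Type := MvPolynomial (Fin N) K ⧸ p with hR
  let alg2 : Algebra (MvPolynomial (Fin r) K) (AlgebraicClosure (FractionRing R)) :=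
    ((algebraMap R (AlgebraicClosure (FractionRing R))).comp φ.toRingHom).toAlgebra
  have hΩ : Function.Injective (algebraMap (MvPolynomial (Fin r) K)
      (AlgebraicClosure (FractionRing R))) := by
    have h1 : Function.Injective (algebraMap R (AlgebraicClosure (FractionRing R))) := by
      rw [IsScalarTower.algebraMap_eq R (FractionRing R) (AlgebraicClosure (FractionRing R))]
      exact (algebraMap (FractionRing R) (AlgebraicClosure (FractionRing R))).injective.comp
        (IsFractionRing.injective R (FractionRing R))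
    exact h1.comp hφ
  obtain ⟨n, σ, b, Δ, c, hΔ, hσ, hν, hrep⟩ := lin_trace (MvPolynomial (Fin r) K) R hφ
    (AlgebraicClosure (FractionRing R)) hΩ
  set π : MvPolynomial (Fin N) K →ₐ[K] R := Ideal.Quotient.mkₐ K p with hπ
  have hπC : ∀ k, (π : MvPolynomial (Fin N) K →+* R) (C k) =
      algebraMap (MvPolynomial (Fin r) K) R (C k) := by
    intro k
    have h1 : (π : MvPolynomial (Fin N) K →+* R) (C k) = algebraMap K R k := π.commutes k
    have h2 : φ (C k) = algebraMap K R k := φ.commutes k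
    rw [h1, ← h2]
    rfl
  obtain ⟨C₁, hC₁⟩ := Lin_deg (K := K) R (AlgebraicClosure (FractionRing R)) hΩ
    (π : MvPolynomial (Fin N) K →+* R) hπC n σ b hσ hν
  have hsurj : Function.Surjective π := Ideal.Quotient.mkₐ_surjective K p
  choose lift hlift using hsurj
  have hmem : ∀ a : MvPolynomial (Fin N) K, a ∈ p ↔ π a = 0 := fun a =>
    (Ideal.Quotient.eq_zero_iff_mem).symm
  set ψ : MvPolynomial (Fin r) K →ₐ[K] MvPolynomial (Fin N) K :=
    aeval (fun i => lift (φ (X i))) with hψ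
  have hψπ : ∀ a, π (ψ a) = φ a := by
    have : π.comp ψ = φ := by
      apply algHom_ext
      intro i
      rw [AlgHom.comp_apply, hψ, aeval_X, hlift]
    intro a
    rw [← this, AlgHom.comp_apply]
  set c₂ : ℕ := Finset.univ.sup (fun i : Fin r => (lift (φ (X i))).totalDegree) with hc₂
  have hψd : ∀ (a : MvPolynomial (Fin r) K) (T : ℕ), a.totalDegree ≤ T →
      (ψ a).totalDegree ≤ c₂ * T := fun a T ha =>
    Lin_aeval _ c₂ (fun i => Finset.le_sup
      (f := fun i : Fin r => (lift (φ (X i))).totalDegree) (Finset.mem_univ i)) a T ha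
  set c₃ : ℕ := Finset.univ.sup (fun kl : Fin n × Fin n => (c kl.1 kl.2).totalDegree) with hc₃
  set c₄ : ℕ := Finset.univ.sup (fun k : Fin n => (lift (b k)).totalDegree) with hc₄
  refine ⟨c₂ * (c₃ + C₁) + c₄, ψ Δ, ?_, ?_⟩
  · rw [hmem, hψπ]
    exact fun h => hΔ (hφ (h.trans (map_zero φ).symm))
  · intro T E W G hT hW hne hsum
    obtain ⟨τ, hτ1, hτ2⟩ := hrep (π G)
    have hτd : ∀ l, (τ l).totalDegree ≤ C₁ * T := by
      intro l
      refine hC₁ T E W (π G) hT hW ?_ ?_ l (τ l) (hτ1 l)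
      · obtain ⟨e, he, he'⟩ := hne
        exact ⟨e, he, fun h => he' ((hmem _).2 h)⟩
      · have := (hmem _).1 hsum
        rw [map_sum] at this
        rw [← this]
        refine Finset.sum_congr rfl fun e _ => ?_
        rw [map_mul, map_pow]
        rfl
    refine ⟨∑ k, ∑ l, ψ (c k l * τ l) * lift (b k), ?_, ?_⟩
    · refine totalDegree_finsetSum_le fun k _ => ?_
      refine totalDegree_finsetSum_le fun l _ => ?_
      refine (totalDegree_mul _ _).trans ?_
      have h1 : (c k l * τ l).totalDegree ≤ c₃ + C₁ * T := by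
        refine (totalDegree_mul _ _).trans (Nat.add_le_add ?_ (hτd l))
        exact Finset.le_sup (f := fun kl : Fin n × Fin n => (c kl.1 kl.2).totalDegree)
          (Finset.mem_univ (k, l))
      have h2 := hψd _ _ h1
      have h3 : (lift (b k)).totalDegree ≤ c₄ :=
        Finset.le_sup (f := fun k : Fin n => (lift (b k)).totalDegree) (Finset.mem_univ k)
      have h4 : c₃ ≤ c₃ * T := Nat.le_mul_of_pos_right _ hT
      have h5 : c₄ ≤ c₄ * T := Nat.le_mul_of_pos_right _ hT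
      have h6 : c₂ * (c₃ + C₁ * T) ≤ c₂ * ((c₃ + C₁) * T) := Nat.mul_le_mul_left _ (by nlinarith)
      calc _ ≤ c₂ * (c₃ + C₁ * T) + c₄ := Nat.add_le_add h2 h3
        _ ≤ c₂ * ((c₃ + C₁) * T) + c₄ * T := Nat.add_le_add h6 h5
        _ = (c₂ * (c₃ + C₁) + c₄) * T := by ring
    · rw [hmem, map_sub, map_mul, hψπ, sub_eq_zero, map_sum]
      have h1 : algebraMap (MvPolynomial (Fin r) K) R Δ = φ Δ := rfl
      rw [← h1, hτ2]
      refine Finset.sum_congr rfl fun k _ => ?_
      rw [map_sum]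
      refine Finset.sum_congr rfl fun l _ => ?_
      rw [map_mul, hψπ, hlift]
      rfl

end Pool.Agent.H.MP_31a675_nt.Y
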