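import Mathlib

/-!
# A valuation extending the total degree
-/

namespace Pool.Agent.H.MP_31a675_nt.Y

open MvPolynomial

section LinV

variable {K : Type} [Field K] {r : ℕ} {Ω : Type} [Field Ω] [Algebra (MvPolynomial (Fin r) K) Ω]

theorem LinV_ne (hinj : Function.Injective (algebraMap (MvPolynomial (Fin r) K) Ω))
    {a : MvPolynomial (Fin r) K} (ha : a ≠ 0) : algebraMap (MvPolynomial (Fin r) K) Ω a ≠ 0 := by
  intro h
  exact ha (hinj (by rw [h, map_zero]))

theorem LinV_add_eq (hinj : Function.Injective (algebraMap (MvPolynomial (Fin r) K) Ω))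
    {a b c d : MvPolynomial (Fin r) K} (hb : b ≠ 0) (hd : d ≠ 0) :
    algebraMap (MvPolynomial (Fin r) K) Ω a / algebraMap (MvPolynomial (Fin r) K) Ω b +
      algebraMap (MvPolynomial (Fin r) K) Ω c / algebraMap (MvPolynomial (Fin r) K) Ω d =
    algebraMap (MvPolynomial (Fin r) K) Ω (a * d + c * b) /
      algebraMap (MvPolynomial (Fin r) K) Ω (b * d) := by
  have h1 := LinV_ne hinj hb
  have h2 := LinV_ne hinj hd
  rw [map_add, map_mul, map_mul, map_mul]
  field_simp

theorem LinV_mul_eq (a b c d : MvPolynomial (Fin r) K) :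
    algebraMap (MvPolynomial (Fin r) K) Ω a / algebraMap (MvPolynomial (Fin r) K) Ω b *
      (algebraMap (MvPolynomial (Fin r) K) Ω c / algebraMap (MvPolynomial (Fin r) K) Ω d) =
    algebraMap (MvPolynomial (Fin r) K) Ω (a * c) /
      algebraMap (MvPolynomial (Fin r) K) Ω (b * d) := by
  rw [map_mul, map_mul, div_mul_div_comm]

theorem LinV_deg_mul {b d : MvPolynomial (Fin r) K} (hb : b ≠ 0) (hd : d ≠ 0) :
    (b * d).totalDegree = b.totalDegree + d.totalDegree :=
  totalDegree_mul_of_isDomain hb hd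

/-- Quotients `a / b` with `deg a ≤ deg b`. -/
def LinV_O (hinj : Function.Injective (algebraMap (MvPolynomial (Fin r) K) Ω)) : Subring Ω where
  carrier := {x | ∃ a b : MvPolynomial (Fin r) K, b ≠ 0 ∧ a.totalDegree ≤ b.totalDegree ∧
    x = algebraMap (MvPolynomial (Fin r) K) Ω a / algebraMap (MvPolynomial (Fin r) K) Ω b}
  mul_mem' := by
    rintro x y ⟨a, b, hb, hab, rfl⟩ ⟨c, d, hd, hcd, rfl⟩
    refine ⟨a * c, b * d, mul_ne_zero hb hd, ?_, LinV_mul_eq a b c d⟩
    rw [LinV_deg_mul hb hd]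
    exact (totalDegree_mul a c).trans (add_le_add hab hcd)
  one_mem' := ⟨1, 1, one_ne_zero, le_rfl, by simp⟩
  add_mem' := by
    rintro x y ⟨a, b, hb, hab, rfl⟩ ⟨c, d, hd, hcd, rfl⟩
    refine ⟨a * d + c * b, b * d, mul_ne_zero hb hd, ?_, LinV_add_eq hinj hb hd⟩
    rw [LinV_deg_mul hb hd]
    refine (totalDegree_add _ _).trans (max_le ?_ ?_)
    · exact (totalDegree_mul a d).trans (add_le_add_left hab _)
    · exact (totalDegree_mul c b).trans (by lia)
  zero_mem' := ⟨0, 1, one_ne_zero, by simp, by simp⟩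
  neg_mem' := by
    rintro x ⟨a, b, hb, hab, rfl⟩
    refine ⟨-a, b, hb, by rw [totalDegree_neg]; exact hab, ?_⟩
    rw [map_neg, neg_div]

/-- Quotients `a / b` with `deg a < deg b`. -/
def LinV_I (hinj : Function.Injective (algebraMap (MvPolynomial (Fin r) K) Ω)) :
    Ideal (LinV_O hinj) where
  carrier := {x | ∃ a b : MvPolynomial (Fin r) K, b ≠ 0 ∧ (a = 0 ∨ a.totalDegree < b.totalDegree) ∧
    (x : Ω) = algebraMap (MvPolynomial (Fin r) K) Ω a / algebraMap (MvPolynomial (Fin r) K) Ω b}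
  add_mem' := by
    rintro x y ⟨a, b, hb, hab, hx⟩ ⟨c, d, hd, hcd, hy⟩
    refine ⟨a * d + c * b, b * d, mul_ne_zero hb hd, ?_, ?_⟩
    · rw [LinV_deg_mul hb hd]
      rcases hab with rfl | hab
      · rcases hcd with rfl | hcd
        · left; simp
        · right
          rw [zero_mul, zero_add]
          exact (totalDegree_mul c b).trans_lt (by lia)
      · rcases hcd with rfl | hcd
        · right
          rw [zero_mul, add_zero]
          exact (totalDegree_mul a d).trans_lt (by lia)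
        · right
          refine (totalDegree_add _ _).trans_lt (max_lt ?_ ?_)
          · exact (totalDegree_mul a d).trans_lt (by lia)
          · exact (totalDegree_mul c b).trans_lt (by lia)
    · rw [Subring.coe_add, hx, hy]
      exact LinV_add_eq hinj hb hd
  zero_mem' := ⟨0, 1, one_ne_zero, Or.inl rfl, by simp⟩
  smul_mem' := by
    rintro ⟨x, a, b, hb, hab, hx⟩ y ⟨c, d, hd, hcd, hy⟩
    refine ⟨a * c, b * d, mul_ne_zero hb hd, ?_, ?_⟩
    · rcases hcd with rfl | hcd
      · left; simp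
      · right
        rw [LinV_deg_mul hb hd]
        exact (totalDegree_mul a c).trans_lt (by lia)
    · rw [smul_eq_mul, Subring.coe_mul, hy]
      change x * _ = _
      rw [hx]
      exact LinV_mul_eq a b c d

end LinV

/-- A valuation subring of `Ω` which induces the total degree on the polynomial ring (it contains the
quotients `a / b` with `deg a ≤ deg b`). -/
theorem lin_val {K : Type} [Field K] {r : ℕ} {Ω : Type} [Field Ω]
    [Algebra (MvPolynomial (Fin r) K) Ω]
    (hinj : Function.Injective (algebraMap (MvPolynomial (Fin r) K) Ω)) (i₀ : Fin r) :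
    ∃ V : ValuationSubring Ω, 1 < V.valuation (algebraMap (MvPolynomial (Fin r) K) Ω (X i₀)) ∧
      ∀ a : MvPolynomial (Fin r) K, a ≠ 0 →
        V.valuation (algebraMap (MvPolynomial (Fin r) K) Ω a) =
          V.valuation (algebraMap (MvPolynomial (Fin r) K) Ω (X i₀)) ^ a.totalDegree := by
  have hI : LinV_I hinj ≠ ⊤ := by
    intro h
    have h1 : (1 : LinV_O hinj) ∈ LinV_I hinj := by rw [h]; exact Submodule.mem_top
    obtain ⟨a, b, hb, hab, h2⟩ := h1
    have hb' := LinV_ne hinj hb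
    rw [Subring.coe_one, eq_div_iff hb', one_mul] at h2
    have h3 := hinj h2
    subst h3
    rcases hab with h0 | h0
    · exact hb h0
    · exact lt_irrefl _ h0
  obtain ⟨V, hV1, hV2⟩ := Ideal.image_subset_nonunits_valuationSubring (LinV_I hinj) hI
  have hX : (X i₀ : MvPolynomial (Fin r) K) ≠ 0 := X_ne_zero i₀
  have ht : algebraMap (MvPolynomial (Fin r) K) Ω (X i₀) ≠ 0 := LinV_ne hinj hX
  have hvt : V.valuation (algebraMap (MvPolynomial (Fin r) K) Ω (X i₀)) ≠ 0 :=
    (Valuation.ne_zero_iff _).2 ht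
  refine ⟨V, ?_, ?_⟩
  · have hmemO : (algebraMap (MvPolynomial (Fin r) K) Ω (X i₀))⁻¹ ∈ LinV_O hinj :=
      ⟨1, X i₀, hX, by simp, by rw [map_one, one_div]⟩
    have hmem : (⟨_, hmemO⟩ : LinV_O hinj) ∈ LinV_I hinj :=
      ⟨1, X i₀, hX, Or.inr (by simp), by rw [map_one, one_div]⟩
    have h1 := hV2 ⟨_, hmem, rfl⟩
    have h2 : (algebraMap (MvPolynomial (Fin r) K) Ω (X i₀))⁻¹ ∈ V.nonunits := h1
    rw [ValuationSubring.mem_nonunits_iff, map_inv₀] at h2
    exact (inv_lt_one₀ (zero_lt_iff.2 hvt)).1 h2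
  · intro a ha
    have ha' := LinV_ne hinj ha
    have hva : V.valuation (algebraMap (MvPolynomial (Fin r) K) Ω a) ≠ 0 :=
      (Valuation.ne_zero_iff _).2 ha'
    have hXm : (X i₀ ^ a.totalDegree : MvPolynomial (Fin r) K) ≠ 0 := pow_ne_zero _ hX
    have hdeg : (X i₀ ^ a.totalDegree : MvPolynomial (Fin r) K).totalDegree = a.totalDegree :=
      totalDegree_X_pow _ _
    apply le_antisymm
    · have h1 : algebraMap (MvPolynomial (Fin r) K) Ω a /
          algebraMap (MvPolynomial (Fin r) K) Ω (X i₀ ^ a.totalDegree) ∈ LinV_O hinj :=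
        ⟨a, X i₀ ^ a.totalDegree, hXm, by rw [hdeg], rfl⟩
      have h2 := (V.valuation_le_one_iff _).2 (hV1 h1)
      rw [map_div₀, map_pow, map_pow, div_le_one₀ (zero_lt_iff.2 (pow_ne_zero _ hvt))] at h2
      exact h2
    · have h1 : algebraMap (MvPolynomial (Fin r) K) Ω (X i₀ ^ a.totalDegree) /
          algebraMap (MvPolynomial (Fin r) K) Ω a ∈ LinV_O hinj :=
        ⟨X i₀ ^ a.totalDegree, a, ha, by rw [hdeg], rfl⟩
      have h2 := (V.valuation_le_one_iff _).2 (hV1 h1)
      rw [map_div₀, map_pow, map_pow, div_le_one₀ (zero_lt_iff.2 hva)] at h2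
      exact h2

end Pool.Agent.H.MP_31a675_nt.Y
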