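import Pool.Agent.H.MP_31a675_nt.Y.Slow

/-!
# Arithmetic degrees for polynomial maps with prescribed degrees of the components
-/

namespace Pool.Agent.H.MP_31a675_nt.Y

open MvPolynomial Filter Topology

variable {K : Type} [Field K] {N : ℕ}

/-- One step of the map at an absolute value. -/
theorem Main_upper {D : Fin N → ℕ} {d : ℕ} (hD : Degs D d) {f : Fin N → MvPolynomial (Fin N) K}
    (hf : Gen D d f) (v : AbsoluteValue K ℝ) (x : Fin N → K) :
    ∃ C : ℝ, ∀ n, Real.log (nrm v (orb f x (n + 1))) ≤ d * Real.log (nrm v (orb f x n)) + C := by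
  choose c hc1 hc2 using fun i => eval_le v (f i) (D i) (hf.deg i)
  have hS : ∀ i, c i ≤ 1 + ∑ i, c i := fun i => by
    have := Finset.single_le_sum (f := c) (fun i _ => zero_le_one.trans (hc1 i)) (Finset.mem_univ i)
    linarith
  have hS1 : 1 ≤ 1 + ∑ i, c i := by
    have : 0 ≤ ∑ i, c i := Finset.sum_nonneg fun i _ => zero_le_one.trans (hc1 i)
    linarith
  refine ⟨Real.log (1 + ∑ i, c i), fun n => ?_⟩
  have h1 : 1 ≤ nrm v (orb f x n) := one_le_nrm _ _
  have h2 : nrm v (orb f x (n + 1)) ≤ (1 + ∑ i, c i) * nrm v (orb f x n) ^ d := by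
    refine nrm_le v _ _ (one_le_mul_of_one_le_of_one_le hS1 (one_le_pow₀ h1)) fun i => ?_
    have h3 : orb f x (n + 1) i = eval (orb f x n) (f i) := by
      unfold orb
      rw [Function.iterate_succ_apply']
      rfl
    rw [h3]
    refine (hc2 i _).trans ?_
    exact mul_le_mul (hS i) (pow_le_pow_right₀ h1 (hD.le i)) (by positivity)
      (zero_le_one.trans hS1)
  have h4 := Real.log_le_log (zero_lt_one.trans_le (one_le_nrm v (orb f x (n + 1)))) h2
  rw [Real.log_mul (by linarith) (by positivity), Real.log_pow] at h4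
  linarith

theorem main [NumberField K] {D : Fin N → ℕ} {d : ℕ} (hD : Degs D d)
    {f : Fin N → MvPolynomial (Fin N) K} (hf : Gen D d f) (x : Fin N → K) :
    ∃ α : ℕ, (α = 1 ∨ ∃ i, α = D i) ∧
      Tendsto (fun n : ℕ => (max (ht (orb f x n)) 1) ^ ((1 : ℝ) / n)) atTop (𝓝 (α : ℝ)) ∧
      (DenseOrbit f x → α = d) := by
  classical
  obtain ⟨ι, hι, v, hv, hP⟩ := exists_places f x
  obtain ⟨ilow, hlow⟩ := hD.low
  have hd2 : 2 ≤ d := by
    have := hD.pos ilow
    omega
  have hlam0 : ∀ i n, 0 ≤ Real.log (nrm (v i) (orb f x n)) := fun i n => Slow_nonneg _ _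
  by_cases hfast : ∃ (i : ι) (c : ℝ), 0 < c ∧ ∃ n₀ : ℕ, ∀ n, n₀ ≤ n →
      c * (d : ℝ) ^ n ≤ Real.log (nrm (v i) (orb f x n))
  · obtain ⟨i, c, hc, n₀, h1⟩ := hfast
    obtain ⟨m, hm⟩ := hD.max
    refine ⟨d, Or.inr ⟨m, hm.symm⟩, ?_, fun _ => rfl⟩
    choose C hC using fun i => Main_upper hD hf (v i) x
    refine rate_fast (fun n => ht (orb f x n)) d hd2 (∑ i, C i) c hc n₀ (fun n => ?_)
      fun n hn => ?_
    · show ht (orb f x (n + 1)) ≤ d * ht (orb f x n) + ∑ i, C i
      rw [hv, hv, Finset.mul_sum, ← Finset.sum_add_distrib]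
      exact Finset.sum_le_sum fun i _ => hC i n
    · refine (h1 n hn).trans ?_
      show _ ≤ ht (orb f x n)
      rw [hv]
      exact Finset.single_le_sum (f := fun i => Real.log (nrm (v i) (orb f x n)))
        (fun i _ => hlam0 i n) (Finset.mem_univ i)
  · have hplace : ∀ i, ∃ (j : Fin N) (C : ℝ) (n₀ : ℕ), D j < d ∧
      (∀ n, n₀ ≤ n → D j * Real.log (nrm (v i) (orb f x n)) - C ≤
        Real.log (nrm (v i) (orb f x (n + 1)))) ∧
      (∀ n, Real.log (nrm (v i) (orb f x (n + 1))) ≤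
        D j * Real.log (nrm (v i) (orb f x n)) + C) := by
      intro i
      rcases place hD hf (v i) x with ⟨c, hc, n₀, h1⟩ | ⟨j, C, R, n₀, h1, h2, h3, -⟩
      · exact absurd ⟨i, c, hc, n₀, h1⟩ hfast
      · exact ⟨j, C, n₀, h1, h2, h3⟩
    choose jj CC nn hjj h1 h2 using hplace
    have hCC : ∀ i, CC i ≤ ∑ i, |CC i| := fun i =>
      (le_abs_self _).trans (Finset.single_le_sum (f := fun i => |CC i|)
        (fun i _ => abs_nonneg _) (Finset.mem_univ i))
    have hnn : ∀ i, nn i ≤ ∑ i, nn i := fun i =>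
      Finset.single_le_sum (f := nn) (fun i _ => Nat.zero_le _) (Finset.mem_univ i)
    obtain ⟨α, hα, hα'⟩ := rate_sum (fun i n => Real.log (nrm (v i) (orb f x n)))
      (fun i => D (jj i)) (∑ i, |CC i|) (∑ i, nn i) hlam0 (fun i => hD.pos _)
      (fun i n hn => by
        have := h1 i n ((hnn i).trans hn)
        have := hCC i
        linarith)
      (fun i n _ => by
        have := h2 i n
        have := hCC i
        linarith)
    refine ⟨α, ?_, ?_, fun hdense => ?_⟩
    · rcases hα with h3 | ⟨i, h3⟩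
      · exact Or.inl h3
      · exact Or.inr ⟨jj i, h3⟩
    · simpa only [← hv] using hα'
    · exact absurd (dense_fast hD hf x hdense v hv hP) hfast

end Pool.Agent.H.MP_31a675_nt.Y
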