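import Pool.Agent.H.MP_31a675_nt.Y.Rate

/-!
# Lower bounds for rates; a second choice of parameters
-/

namespace Pool.Agent.H.MP_31a675_nt.Y

open Filter Topology

/-- An unbounded sequence which is multiplied by at least `D` in each step, up to a constant, bounds
the rate from below. -/
theorem rate_lower (h a : ℕ → ℝ) (D : ℕ) (hD : 1 ≤ D) (C α : ℝ) (n₀ : ℕ) (h0 : ∀ n, a n ≤ h n)
    (h1 : ∀ n, n₀ ≤ n → D * a n - C ≤ a (n + 1)) (h2 : ∀ B : ℝ, ∃ n, n₀ ≤ n ∧ B ≤ a n)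
    (h3 : Tendsto (fun n : ℕ => (max (h n) 1) ^ ((1 : ℝ) / n)) atTop (𝓝 α)) : (D : ℝ) ≤ α := by
  rcases Nat.lt_or_ge D 2 with hD2 | hD2
  · have h4 : D = 1 := by omega
    rw [h4, Nat.cast_one]
    refine ge_of_tendsto' h3 fun n => ?_
    exact Real.one_le_rpow (le_max_right _ _) (by positivity)
  · obtain ⟨m, hm, ha⟩ := h2 (|C| + 1)
    obtain ⟨δ, hδ, h4⟩ := Rate_low a D C n₀ hD2 h1 m hm (by linarith)
    have h5 : Tendsto (fun n : ℕ => (δ * (D : ℝ) ^ n) ^ ((1 : ℝ) / n)) atTop (𝓝 (D : ℝ)) := by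
      refine Rate_lim D hD (fun n => δ * (D : ℝ) ^ n) δ δ hδ hδ 0 (fun n _ => le_refl _) ?_
      intro n
      have hn : (0 : ℝ) ≤ n := Nat.cast_nonneg n
      have hp : (0 : ℝ) ≤ (D : ℝ) ^ n := by positivity
      refine mul_le_mul_of_nonneg_right ?_ hp
      nlinarith
    refine le_of_tendsto_of_tendsto h5 h3 ?_
    filter_upwards [eventually_ge_atTop m] with n hn
    refine Real.rpow_le_rpow (by positivity) ?_ (by positivity)
    exact ((h4 n hn).trans (h0 n)).trans (le_max_left _ _)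

/-- The choice of the parameters: `T = d ^ L`, `q = 2 s d ^ L + 1`, `m = 2 k s + k + 1` with `L`
large. -/
theorem num' (d r k s : ℕ) (hd : 2 ≤ d) : ∃ L T q m : ℕ, k * q + 1 ≤ m * T ∧
    r * m ^ k < 2 ^ L ∧ s * (T + ∑ l ∈ Finset.range L, d ^ l) < q := by
  refine ⟨r * (2 * k * s + k + 1) ^ k, d ^ (r * (2 * k * s + k + 1) ^ k),
    2 * s * d ^ (r * (2 * k * s + k + 1) ^ k) + 1, 2 * k * s + k + 1, ?_,
    Nat.lt_two_pow_self, ?_⟩
  · generalize r * (2 * k * s + k + 1) ^ k = L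
    have h1 : 1 ≤ d ^ L := Nat.one_le_pow _ _ (by omega)
    have h2 : k * 1 ≤ k * d ^ L := Nat.mul_le_mul_left _ h1
    calc k * (2 * s * d ^ L + 1) + 1 = 2 * k * s * d ^ L + k * 1 + 1 := by ring
      _ ≤ 2 * k * s * d ^ L + k * d ^ L + d ^ L := by omega
      _ = (2 * k * s + k + 1) * d ^ L := by ring
  · generalize r * (2 * k * s + k + 1) ^ k = L
    have h3 : ∑ l ∈ Finset.range L, d ^ l < d ^ L :=
      Nat.geomSum_lt hd fun l hl => Finset.mem_range.1 hl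
    calc s * (d ^ L + ∑ l ∈ Finset.range L, d ^ l) ≤ s * (d ^ L + d ^ L) :=
          Nat.mul_le_mul_left _ (by omega)
      _ = 2 * s * d ^ L := by ring
      _ < 2 * s * d ^ L + 1 := by omega

end Pool.Agent.H.MP_31a675_nt.Y
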