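import Pool.Agent.H.MP_31a675_nt.Y.CoreB
import Pool.Agent.H.MP_31a675_nt.Y.Main
import Pool.Agent.H.MP_31a675_nt.Y.RateB

/-!
# Algebraic relations along orbits
-/

namespace Pool.Agent.H.MP_31a675_nt.Y

open MvPolynomial Filter

variable {K : Type} [Field K] {N : ℕ}

/-- A membership in the valuation ring as an inequality along the ultrafilter. -/
theorem SlowC_log {D : Fin N → ℕ} {d : ℕ} (hD : Degs D d)
    {f : Fin N → MvPolynomial (Fin N) K} (hf : Gen D d f) (v : AbsoluteValue K ℝ) (x : Fin N → K)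
    (j : Fin N) (hj : D j < d) (𝔘 : Ultrafilter ℕ)
    {M : Type} [Field M] [IsAlgClosed M] [Algebra K M] (B : ValuationSubring M)
    (φ : (ℕ → K) →+* M) (hφ : ∀ c : K, φ (fun _ => c) = algebraMap K M c)
    (hB : ∀ a : ℕ → K, φ a ∈ B ↔ ∃ C : ℝ, ∀ᶠ n in (𝔘 : Filter ℕ), v (a n) ≤ C)
    (h0 : ∀ a : ℕ → K, φ a = 0 ↔ ∀ᶠ n in (𝔘 : Filter ℕ), a n = 0)
    (hO : Orb D f j B fun l i => φ fun n => orb f x (n + l) i) (P : MvPolynomial (Fin N) K)
    (q E : ℕ)
    (hmem : (aeval (fun i => φ fun n => orb f x (n + 1) i) P) ^ D j *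
      (φ fun n => orb f x (n + 1) j) ^ q / (φ fun n => orb f x (n + 1) j) ^ (D j * E) ∈ B) :
    ∃ C' : ℝ, ∀ᶠ n in (𝔘 : Filter ℕ), eval (orb f x (n + 1)) P ≠ 0 →
      D j * Real.log (v (eval (orb f x (n + 1)) P)) ≤
        C' - ((q : ℝ) - D j * E) * Real.log (nrm v (orb f x (n + 1))) := by
  have hval := (orb_val hD hf hj hO).1 0
  obtain ⟨hv1, hv2, -, -⟩ := hval
  set o : ℕ → K := fun n => orb f x (n + 1) j with ho
  have hne : φ o ≠ 0 := by
    intro h
    have h4 : (1 : B.ValueGroup) < B.valuation (φ o) := hv1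
    rw [h, map_zero] at h4
    exact not_lt_zero h4
  -- the norm is comparable to the coordinate `j`
  have hc1 : ∀ i : Fin N, ∃ C1 : ℝ, 1 ≤ C1 ∧ ∀ᶠ n in (𝔘 : Filter ℕ),
      v (orb f x (n + 1) i) ≤ C1 * v (o n) := fun i =>
    SlowB_bd v 𝔘 B φ hB h0 (fun n => orb f x (n + 1) i) o hne (hv2 i)
  have hc2 : ∃ C1 : ℝ, 1 ≤ C1 ∧ ∀ᶠ n in (𝔘 : Filter ℕ), v ((1 : ℕ → K) n) ≤ C1 * v (o n) := by
    refine SlowB_bd v 𝔘 B φ hB h0 1 o hne ?_
    rw [map_one, map_one]
    exact hv1.le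
  choose Ci hCi1 hCi2 using hc1
  obtain ⟨C2, hC21, hC22⟩ := hc2
  obtain ⟨C3, hC3⟩ : ∃ C3 : ℝ, ∀ i, Ci i ≤ C3 := by
    obtain ⟨C3, hC3⟩ := (Set.finite_range Ci).bddAbove
    exact ⟨C3, fun i => hC3 ⟨i, rfl⟩⟩
  have hne' : ∀ᶠ n in (𝔘 : Filter ℕ), o n ≠ 0 :=
    Ultrafilter.eventually_not.2 fun h => hne ((h0 o).2 h)
  have hcomp : ∀ᶠ n in (𝔘 : Filter ℕ),
      nrm v (orb f x (n + 1)) ≤ max C2 C3 * v (o n) := by
    filter_upwards [eventually_all.2 hCi2, hC22, hne'] with n hn1 hn2 hn3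
    have hpos : 0 < v (o n) := v.pos hn3
    refine nrm_le v _ _ ?_ fun i => ?_
    · rw [Pi.one_apply, map_one] at hn2
      exact hn2.trans (mul_le_mul_of_nonneg_right (le_max_left _ _) hpos.le)
    · exact (hn1 i).trans (mul_le_mul_of_nonneg_right ((hC3 i).trans (le_max_right _ _)) hpos.le)
  have hPv : aeval (fun i => φ fun n => orb f x (n + 1) i) P =
      φ fun n => eval (orb f x (n + 1)) P := (SlowB_aeval φ hφ (fun n => orb f x (n + 1)) P).symm
  have hmem' : φ (fun n => ((fun n => eval (orb f x (n + 1)) P) ^ D j * o ^ q : ℕ → K) n /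
      (o ^ (D j * E) : ℕ → K) n) ∈ B := by
    have h4 : φ (o ^ (D j * E)) ≠ 0 := by
      rw [map_pow]
      exact pow_ne_zero _ hne
    rw [SlowB_div 𝔘 φ h0 _ _ h4, map_mul, map_pow, map_pow, map_pow]
    have h5 : (aeval (fun i => φ fun n => orb f x (n + 1) i) P) ^ D j * φ o ^ q /
      φ o ^ (D j * E) ∈ B := hmem
    rw [hPv] at h5
    exact h5
  obtain ⟨C4, hC4⟩ := (hB _).1 hmem'
  refine ⟨Real.log (max C4 1) + |(q : ℝ) - D j * E| * Real.log (max C2 C3), ?_⟩
  filter_upwards [hC4, hcomp, hne'] with n hn4 hn5 hn3 hPn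
  have hpos : 0 < v (o n) := v.pos hn3
  have hPpos : 0 < v (eval (orb f x (n + 1)) P) := v.pos hPn
  have hM : 1 ≤ max C2 C3 := le_max_of_le_left hC21
  have hrpos : 0 < nrm v (orb f x (n + 1)) := lt_of_lt_of_le one_pos (one_le_nrm v _)
  have h4 : v (eval (orb f x (n + 1)) P) ^ D j * v (o n) ^ q / v (o n) ^ (D j * E) ≤
      max C4 1 := by
    have h5 := hn4.trans (le_max_left C4 1)
    simp only [Pi.mul_apply, Pi.pow_apply, map_div₀, map_mul, map_pow] at h5
    exact h5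
  have h5 : 0 < v (eval (orb f x (n + 1)) P) ^ D j * v (o n) ^ q / v (o n) ^ (D j * E) :=
    div_pos (mul_pos (pow_pos hPpos _) (pow_pos hpos _)) (pow_pos hpos _)
  have h6 := Real.log_le_log h5 h4
  rw [Real.log_div (mul_pos (pow_pos hPpos _) (pow_pos hpos _)).ne' (pow_pos hpos _).ne',
    Real.log_mul (pow_pos hPpos _).ne' (pow_pos hpos _).ne', Real.log_pow, Real.log_pow,
    Real.log_pow] at h6
  have h7 : Real.log (v (o n)) ≤ Real.log (nrm v (orb f x (n + 1))) :=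
    Real.log_le_log hpos (le_nrm v _ j)
  have h8 : Real.log (nrm v (orb f x (n + 1))) ≤
      Real.log (max C2 C3) + Real.log (v (o n)) := by
    rw [← Real.log_mul (lt_of_lt_of_le one_pos hM).ne' hpos.ne']
    exact Real.log_le_log hrpos hn5
  have h9 : ((D j * E : ℕ) : ℝ) = D j * E := by push_cast; rfl
  rw [h9] at h6
  have h10 : ((q : ℝ) - D j * E) * (Real.log (nrm v (orb f x (n + 1))) - Real.log (v (o n))) ≤
      |(q : ℝ) - D j * E| * Real.log (max C2 C3) := by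
    refine (mul_le_mul_of_nonneg_right (le_abs_self _) (by linarith)).trans ?_
    exact mul_le_mul_of_nonneg_left (by linarith) (abs_nonneg _)
  nlinarith

/-- Along an ultrafilter for which the place `v i₀`, of type `j`, carries a fixed proportion of the
height, the coordinates of the germ of the orbit are algebraic over the coordinates `i ≤ j`. -/
theorem germ_alg [NumberField K] {D : Fin N → ℕ} {d : ℕ} (hD : Degs D d)
    {f : Fin N → MvPolynomial (Fin N) K} (hf : Gen D d f) (x : Fin N → K)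
    {ι : Type} [Fintype ι] (v : ι → AbsoluteValue K ℝ)
    (hv : ∀ n, ht (orb f x n) = ∑ i, Real.log (nrm (v i) (orb f x n)))
    (hP : ∀ P : MvPolynomial (Fin N) K, ∃ C : ℝ, ∀ n, eval (orb f x n) P ≠ 0 →
        -C ≤ ∑ i, Real.log (v i (eval (orb f x n) P))) (i₀ : ι)
    (j : Fin N) (hj : D j < d) (C R : ℝ) (n₀ : ℕ)
    (h1 : ∀ n, n₀ ≤ n → D j * Real.log (nrm (v i₀) (orb f x n)) - C ≤
        Real.log (nrm (v i₀) (orb f x (n + 1))))
    (h2 : ∀ n, Real.log (nrm (v i₀) (orb f x (n + 1))) ≤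
      D j * Real.log (nrm (v i₀) (orb f x n)) + C)
    (h3 : ∀ n i, j < i → v i₀ (orb f x n i) ≤ R ∨
      ∃ i', i' ≤ j ∧ v i₀ (orb f x n i) ≤ R * v i₀ (orb f x n i'))
    (𝔘 : Ultrafilter ℕ)
    (hU : Tendsto (fun n => ht (orb f x (n + 1))) (𝔘 : Filter ℕ) atTop)
    (hn : Tendsto (fun n : ℕ => n) (𝔘 : Filter ℕ) atTop) (κ : ℝ) (hκ : 0 < κ)
    (hp : ∀ᶠ n in (𝔘 : Filter ℕ), ht (orb f x (n + 1)) ≤
      κ * Real.log (nrm (v i₀) (orb f x (n + 1)))) :
    ∃ (M : Type) (_ : Field M) (_ : Algebra K M) (φ : (ℕ → K) →+* M),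
      (∀ c : K, φ (fun _ => c) = algebraMap K M c) ∧
      (∀ a : ℕ → K, φ a = 0 ↔ ∀ᶠ n in (𝔘 : Filter ℕ), a n = 0) ∧
      ∀ i, IsAlgebraic (Algebra.adjoin K
        ((fun i' => φ fun n => orb f x (n + 1) i') '' {i' | i' ≤ j}))
        (φ fun n => orb f x (n + 1) i) := by
  classical
  obtain ⟨M, _, _, _, B, φ, hφ, hB, h0⟩ := ultra (v i₀) 𝔘
  refine ⟨M, inferInstance, inferInstance, φ, hφ, h0, fun i => ?_⟩
  by_cases hi : i ≤ j
  · have h4 : (φ fun n => orb f x (n + 1) i) ∈ Algebra.adjoin K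
        ((fun i' => φ fun n => orb f x (n + 1) i') '' {i' | i' ≤ j}) :=
      Algebra.subset_adjoin ⟨i, hi, rfl⟩
    exact isAlgebraic_algebraMap (A := M) (⟨_, h4⟩ : Algebra.adjoin K
        ((fun i' => φ fun n => orb f x (n + 1) i') '' {i' | i' ≤ j}))
  rw [not_le] at hi
  by_contra htr
  set lam : ι → ℕ → ℝ := fun i n => Real.log (nrm (v i) (orb f x n)) with hlam
  have hlam0 : ∀ i n, 0 ≤ lam i n := fun i n => Slow_nonneg _ _
  set H : ℕ → ℝ := fun n => ht (orb f x n) with hH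
  have hHs : ∀ n, H n = ∑ i, lam i n := hv
  have hH0 : ∀ n, 0 ≤ H n := fun n => by
    rw [hHs]
    exact Finset.sum_nonneg fun i _ => hlam0 i n
  have hlamH : ∀ i n, lam i n ≤ H n := fun i n => by
    rw [hHs]
    exact Finset.single_le_sum (f := fun i => lam i n) (fun i _ => hlam0 i n) (Finset.mem_univ i)
  choose CC hCC using fun i => Main_upper hD hf (v i) x
  have hstep : ∀ n, H (n + 1) ≤ d * H n + ∑ i, CC i := by
    intro n
    rw [hHs, hHs, Finset.mul_sum, ← Finset.sum_add_distrib]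
    exact Finset.sum_le_sum fun i _ => hCC i n
  have hlamU : Tendsto (fun n => lam i₀ (n + 1)) (𝔘 : Filter ℕ) atTop := by
    have h4 : Tendsto (fun n => H (n + 1) / κ) (𝔘 : Filter ℕ) atTop := hU.atTop_div_const hκ
    refine tendsto_atTop_mono' _ ?_ h4
    filter_upwards [hp] with n hn
    rw [div_le_iff₀ hκ]
    have : H (n + 1) ≤ κ * lam i₀ (n + 1) := hn
    linarith
  have hO := ultra_orb hD hf (v i₀) x j hj C R n₀ h1 h2 h3 𝔘 hlamU hn B φ hφ hB h0
  obtain ⟨c, r, hr⟩ := core' hD hf hj hO i hi htr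
  set kk : ℕ := Fintype.card {i : Fin N // i ≤ j} with hkk
  obtain ⟨s, hs⟩ := exists_nat_ge (κ * D j * (2 * (kk + d)))
  obtain ⟨L, T, q, m, hm1, hm2, hm3⟩ := num' d r kk s (two_le hD)
  obtain ⟨a, ha, hmem⟩ := hr q T L m hm1 hm2
  set P := PP f j c a with hPdef
  obtain ⟨C', hC'⟩ := SlowC_log hD hf (v i₀) x j hj 𝔘 B φ hφ hB h0 hO P q (EE D j T L d) hmem
  have hPne : ∀ᶠ n in (𝔘 : Filter ℕ), eval (orb f x (n + 1)) P ≠ 0 := by
    refine Ultrafilter.eventually_not.2 fun h => ha ?_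
    have h4 := SlowB_aeval φ hφ (fun n => orb f x (n + 1)) P
    show aeval (fun i => φ fun n => orb f x (n + 1) i) P = 0
    rw [← h4, h0]
    exact h
  obtain ⟨C₁, hC₁⟩ := hP P
  choose Cu hCu using fun i => PP_upper (v i) f x j c a
  choose Ci hCi using fun l => Slow_iter H d (∑ i, CC i) (Nat.cast_nonneg _) hstep l
  -- the contradiction
  set S : ℝ := ∑ l ∈ Finset.range L, (d : ℝ) ^ l with hS
  have hS0 : 0 ≤ S := Finset.sum_nonneg fun l _ => by positivity
  set C₂ : ℝ := D j * C₁ + C' + D j * (∑ i, |Cu i| + d * ∑ l ∈ Finset.range L, Ci l) with hC₂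
  have hbound : ∀ᶠ n in (𝔘 : Filter ℕ), H (n + 1) ≤ κ * C₂ := by
    filter_upwards [hp, hC', hPne] with n hn1 hn2 hn3
    have g1 := hn2 hn3
    have g2 := hC₁ (n + 1) hn3
    have hDj0 : (0 : ℝ) ≤ D j := Nat.cast_nonneg _
    -- the other places
    have g3 : ∑ i ∈ Finset.univ.erase i₀, Real.log (v i (eval (orb f x (n + 1)) P)) ≤
        ∑ i, |Cu i| + kk * T * H (n + 1) + d * ∑ l ∈ Finset.range L, H (n + 1 + l) := by
      have g4 : ∀ i, Real.log (v i (eval (orb f x (n + 1)) P)) ≤ |Cu i| +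
          kk * T * lam i (n + 1) + d * ∑ l ∈ Finset.range L, lam i (n + 1 + l) := fun i =>
        (hCu i (n + 1) hn3).trans (by
          have := le_abs_self (Cu i)
          show Cu i + kk * T * lam i (n + 1) + d * ∑ l ∈ Finset.range L, lam i (n + 1 + l) ≤ _
          linarith)
      calc ∑ i ∈ Finset.univ.erase i₀, Real.log (v i (eval (orb f x (n + 1)) P))
          ≤ ∑ i ∈ Finset.univ.erase i₀, (|Cu i| +
          kk * T * lam i (n + 1) + d * ∑ l ∈ Finset.range L, lam i (n + 1 + l)) :=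
            Finset.sum_le_sum fun i _ => g4 i
        _ ≤ ∑ i, (|Cu i| + kk * T * lam i (n + 1) +
            d * ∑ l ∈ Finset.range L, lam i (n + 1 + l)) := by
            refine Finset.sum_le_sum_of_subset_of_nonneg (Finset.erase_subset _ _) fun i _ _ => ?_
            have := hlam0 i (n + 1)
            have h8 : 0 ≤ ∑ l ∈ Finset.range L, lam i (n + 1 + l) :=
              Finset.sum_nonneg fun l _ => hlam0 _ _
            positivity
        _ = _ := by
            rw [Finset.sum_add_distrib, Finset.sum_add_distrib, ← Finset.mul_sum, ← Finset.mul_sum,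
              ← hHs, Finset.sum_comm]
            simp only [← hHs]
    rw [← Finset.add_sum_erase _ _ (Finset.mem_univ i₀)] at g2
    have g5 : ∑ l ∈ Finset.range L, H (n + 1 + l) ≤
        S * H (n + 1) + ∑ l ∈ Finset.range L, Ci l := by
      rw [hS, Finset.sum_mul, ← Finset.sum_add_distrib]
      exact Finset.sum_le_sum fun l _ => hCi l (n + 1)
    have g6 : (EE D j T L d : ℝ) ≤ kk * T + d * S := by
      unfold EE
      push_cast
      have : ∑ l ∈ Finset.range L, (D j : ℝ) ^ l ≤ S :=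
        Finset.sum_le_sum fun l _ => pow_le_pow_left₀ hDj0 (by exact_mod_cast hj.le) l
      have h9 : (d : ℝ) * ∑ l ∈ Finset.range L, (D j : ℝ) ^ l ≤ d * S :=
        mul_le_mul_of_nonneg_left this (Nat.cast_nonneg _)
      linarith
    have g7 : κ * D j * (2 * (kk + d)) * (T + S) + 1 ≤ q := by
      have g8 := (Nat.cast_le (α := ℝ)).2 (Nat.succ_le_of_lt hm3)
      push_cast at g8
      have g9 : κ * D j * (2 * (kk + d)) * (T + S) ≤ s * (T + S) :=
        mul_le_mul_of_nonneg_right hs (add_nonneg (Nat.cast_nonneg _) hS0)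
      linarith
    have hLam := hlamH i₀ (n + 1)
    have hLam0 := hlam0 i₀ (n + 1)
    have hHn := hH0 (n + 1)
    exact Slow_arith hDj0 hκ (Nat.cast_nonneg _) (Nat.cast_nonneg _) hS0 (Nat.cast_nonneg _)
      (Nat.cast_nonneg _) hHn hLam0 hLam hn1 g1 g2 g3 g5 g6 g7
  have h10 := (hbound.and (hU.eventually (eventually_gt_atTop (κ * C₂)))).exists
  obtain ⟨n, hn, hn'⟩ := h10
  exact absurd hn (not_le.2 hn')

end Pool.Agent.H.MP_31a675_nt.Y
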