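import Pool.Agent.H.MP_31a675_nt.Y.Main
import Pool.Agent.H.MP_31a675_nt.Y.SlowC
import Pool.Agent.H.MP_31a675_nt.Y.Dim

/-!
# Arithmetic degrees and the dimension of the closure of the orbit
-/

namespace Pool.Agent.H.MP_31a675_nt.Y

open MvPolynomial Filter Topology

variable {K : Type} [Field K] {N : ℕ}

theorem main_dim [NumberField K] {D : Fin N → ℕ} {d : ℕ} (hD : Degs D d)
    {f : Fin N → MvPolynomial (Fin N) K} (hf : Gen D d f) (x : Fin N → K) :
    ∃ α : ℕ, (α = 1 ∨ ∃ i, α = D i) ∧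
      Tendsto (fun n : ℕ => (max (ht (orb f x n)) 1) ^ ((1 : ℝ) / n)) atTop (𝓝 (α : ℝ)) ∧
      DimLe f x (Fintype.card {i // D i ≤ α}) ∧ (DenseOrbit f x → α = d) := by
  classical
  obtain ⟨α, hα, hlim, hdense⟩ := main hD hf x
  refine ⟨α, hα, hlim, ?_, hdense⟩
  intro s hs
  by_contra hcon
  have hgen : ∀ P : MvPolynomial (Fin (Fintype.card {i // D i ≤ α} + 1)) K,
      (∀ n, eval (fun i => orb f x n (s i)) P = 0) → P = 0 := by
    intro P hP
    by_contra hne
    exact hcon ⟨P, hne, hP⟩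
  obtain ⟨𝔘, hU1, hU2, hU3⟩ := exists_generic_s (Nat.succ_le_succ (Nat.zero_le _)) s hgen
  obtain ⟨ι, hι, v, hv, hP⟩ := exists_places f x
  set lam : ι → ℕ → ℝ := fun i n => Real.log (nrm (v i) (orb f x n)) with hlam
  have hlam0 : ∀ i n, 0 ≤ lam i n := fun i n => Slow_nonneg _ _
  set H : ℕ → ℝ := fun n => ht (orb f x n) with hH
  have hHs : ∀ n, H n = ∑ i, lam i n := hv
  have hlamH : ∀ i n, lam i n ≤ H n := fun i n => by
    rw [hHs]
    exact Finset.single_le_sum (f := fun i => lam i n) (fun i _ => hlam0 i n) (Finset.mem_univ i)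
  have hd2 : 2 ≤ d := two_le hD
  -- a place with a fixed proportion of the height
  have hιne : Nonempty ι := by
    by_contra hne
    rw [not_nonempty_iff] at hne
    have h4 : ∀ n, H n = 0 := fun n => by rw [hHs, Finset.univ_eq_empty, Finset.sum_empty]
    have h5 := (hU2.eventually (eventually_ge_atTop (1 : ℝ))).exists
    obtain ⟨n, hn⟩ := h5
    have h6 : H (n + 1) = 0 := h4 _
    have h7 : (1 : ℝ) ≤ H (n + 1) := hn
    linarith
  set κ : ℕ := Fintype.card ι with hκ
  have hκ0 : 0 < κ := Fintype.card_pos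
  have hκR : (0 : ℝ) < κ := by exact_mod_cast hκ0
  have hpig : ∀ᶠ n in (𝔘 : Filter ℕ), ∃ i, H (n + 1) ≤ κ * lam i (n + 1) := by
    refine Eventually.of_forall fun n => ?_
    by_contra hc
    push Not at hc
    have h4 : ∑ i, (κ : ℝ) * lam i (n + 1) < ∑ _i : ι, H (n + 1) :=
      Finset.sum_lt_sum_of_nonempty Finset.univ_nonempty fun i _ => hc i
    rw [← Finset.mul_sum, ← hHs, Finset.sum_const, Finset.card_univ, nsmul_eq_mul] at h4
    exact lt_irrefl _ h4
  obtain ⟨i₀, hi₀⟩ := Slow_pigeon 𝔘 _ hpig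
  rcases place hD hf (v i₀) x with ⟨c, hc, n₀, h1⟩ | ⟨j, C, R, n₀, hj, h1, h2, h3⟩
  · -- the place is fast: the arithmetic degree is maximal
    choose CC hCC using fun i => Main_upper hD hf (v i) x
    have h4 : Tendsto (fun n : ℕ => (max (ht (orb f x n)) 1) ^ ((1 : ℝ) / n)) atTop
        (𝓝 (d : ℝ)) := by
      refine rate_fast (fun n => ht (orb f x n)) d hd2 (∑ i, CC i) c hc n₀ (fun n => ?_)
        fun n hn => ?_
      · show ht (orb f x (n + 1)) ≤ d * ht (orb f x n) + ∑ i, CC i
        rw [hv, hv, Finset.mul_sum, ← Finset.sum_add_distrib]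
        exact Finset.sum_le_sum fun i _ => hCC i n
      · exact (h1 n hn).trans (hlamH i₀ n)
    have h5 : (α : ℝ) = d := tendsto_nhds_unique hlim h4
    have h6 : α = d := by exact_mod_cast h5
    have h7 : Fintype.card {i // D i ≤ α} = N := by
      rw [Fintype.card_subtype]
      have : (Finset.univ.filter fun i => D i ≤ α) = Finset.univ :=
        Finset.filter_true_of_mem fun i _ => by rw [h6]; exact hD.le i
      rw [this, Finset.card_univ, Fintype.card_fin]
    have h8 := Fintype.card_le_of_injective s hs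
    rw [Fintype.card_fin, Fintype.card_fin] at h8
    omega
  · -- the place is of type `j`
    have hDα : D j ≤ α := by
      have h4 : (D j : ℝ) ≤ α := by
        refine rate_lower H (lam i₀) (D j) (hD.pos j) C α n₀ (hlamH i₀) h1 (fun B => ?_) hlim
        have h5 := ((hU3.eventually_ge_atTop n₀).and
          ((hU2.eventually (eventually_ge_atTop (κ * B))).and hi₀)).exists
        obtain ⟨n, hn1, hn2, hn3⟩ := h5
        refine ⟨n + 1, by omega, ?_⟩
        have h6 : κ * B ≤ κ * lam i₀ (n + 1) := le_trans hn2 hn3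
        exact le_of_mul_le_mul_left h6 hκR
      exact_mod_cast h4
    have hcard : Fintype.card {i : Fin N // i ≤ j} < Fintype.card {i // D i ≤ α} + 1 := by
      refine Nat.lt_succ_of_le (Fintype.card_le_of_injective
        (fun i : {i : Fin N // i ≤ j} => (⟨i.1, ?_⟩ : {i // D i ≤ α})) ?_)
      · rcases i.2.lt_or_eq with h4 | h4
        · rcases hD.inc i.1 j h4 with h5 | h5
          · omega
          · omega
        · rw [h4]
          exact hDα
      · intro a b hab
        exact Subtype.ext (congrArg (fun z : {i // D i ≤ α} => z.1) hab)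
    obtain ⟨M, _, _, φ, hφ, h0, halg⟩ := germ_alg hD hf x v hv hP i₀ j hj C R n₀ h1 h2 h3 𝔘 hU2 hU3
      κ hκR hi₀
    obtain ⟨P, hP0, hP1⟩ := exists_rel_of_alg j (fun i => φ fun n => orb f x (n + 1) i) halg
      hcard s
    have h5 := hU1 P hP0
    have h6 : φ (fun n => eval (fun i => orb f x (n + 1) (s i)) P) = 0 := by
      rw [SlowB_aeval φ hφ (fun n i => orb f x (n + 1) (s i)) P]
      exact hP1
    have h7 := (h0 _).1 h6
    obtain ⟨n, hn1, hn2⟩ := (h5.and h7).exists
    exact hn1 hn2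

end Pool.Agent.H.MP_31a675_nt.Y
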