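import Pool.Agent.H.MP_31a675_nt.Y.CoreC
import Pool.Agent.H.MP_31a675_nt.Y.SlowC

/-!
# Relations of small degree for the coordinates of the iterates
-/

namespace Pool.Agent.H.MP_31a675_nt.Y

open MvPolynomial Filter

variable {K : Type} [Field K] {N : ℕ}

theorem SlowD_deg (j : Fin N) {T : ℕ} (a : ({i : Fin N // i ≤ j} → Fin T) → K) :
    (WW j a).totalDegree ≤ Fintype.card {i : Fin N // i ≤ j} * T := by
  classical
  unfold WW
  refine totalDegree_finsetSum_le fun s _ => ?_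
  refine (totalDegree_mul _ _).trans ?_
  rw [totalDegree_C, zero_add]
  refine (totalDegree_finset_prod _ _).trans ?_
  calc ∑ i : {i : Fin N // i ≤ j}, (X i.1 ^ (s i : ℕ) : MvPolynomial (Fin N) K).totalDegree
      ≤ ∑ _i : {i : Fin N // i ≤ j}, T := by
        refine Finset.sum_le_sum fun i _ => ?_
        refine (totalDegree_pow _ _).trans ?_
        rw [totalDegree_X, mul_one]
        exact (s i).2.le
    _ = Fintype.card {i : Fin N // i ≤ j} * T := by
        rw [Finset.sum_const, Finset.card_univ, smul_eq_mul]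

theorem SlowD_eval (f : Fin N → MvPolynomial (Fin N) K) (x : Fin N → K) (j i : Fin N) (L : ℕ)
    {T E : ℕ} (a : Fin E → ({i : Fin N // i ≤ j} → Fin T) → K) (n : ℕ) :
    eval (orb f x n) (QQ f j i L a) = ∑ e : Fin E, ∑ s,
      a e s * ((∏ i : {i : Fin N // i ≤ j}, orb f x n i.1 ^ (s i : ℕ)) *
        orb f x (n + L) i ^ (e : ℕ)) := by
  unfold QQ WW
  rw [map_sum]
  refine Finset.sum_congr rfl fun e _ => ?_
  rw [map_mul, map_sum, Finset.sum_mul]
  refine Finset.sum_congr rfl fun s _ => ?_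
  rw [map_mul, map_prod, eval_C, map_pow, eval_itp, ← orb_add, mul_assoc]
  congr 2
  refine Finset.prod_congr rfl fun i _ => ?_
  rw [map_pow, eval_X]

/-- The upper bound at every absolute value. -/
theorem SlowD_upper (v : AbsoluteValue K ℝ) (f : Fin N → MvPolynomial (Fin N) K) (x : Fin N → K)
    (j i : Fin N) (L : ℕ) {T E : ℕ} (a : Fin E → ({i : Fin N // i ≤ j} → Fin T) → K) :
    ∃ C : ℝ, ∀ n, eval (orb f x n) (QQ f j i L a) ≠ 0 →
      Real.log (v (eval (orb f x n) (QQ f j i L a))) ≤ C +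
        Fintype.card {i : Fin N // i ≤ j} * T * Real.log (nrm v (orb f x n)) +
        E * Real.log (nrm v (orb f x (n + L))) := by
  classical
  have hA0 : 0 ≤ ∑ e : Fin E, ∑ s, v (a e s) :=
    Finset.sum_nonneg fun e _ => Finset.sum_nonneg fun s _ => v.nonneg _
  refine ⟨Real.log (∑ e : Fin E, ∑ s, v (a e s) + 1), fun n hn => ?_⟩
  have hn1 : ∀ m, 1 ≤ nrm v (orb f x m) := fun m => one_le_nrm v _
  have hn0 : ∀ m, 0 < nrm v (orb f x m) := fun m => one_pos.trans_le (hn1 m)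
  have hpow : ∀ (m : ℕ) (i : Fin N) (e E : ℕ), e ≤ E →
      v (orb f x m i) ^ e ≤ nrm v (orb f x m) ^ E := by
    intro m i e E he
    calc v (orb f x m i) ^ e ≤ nrm v (orb f x m) ^ e :=
          pow_le_pow_left₀ (v.nonneg _) (le_nrm v _ _) _
      _ ≤ nrm v (orb f x m) ^ E := pow_le_pow_right₀ (hn1 m) he
  have hterm : ∀ (e : Fin E) (s : {i : Fin N // i ≤ j} → Fin T),
      v (a e s * ((∏ i : {i : Fin N // i ≤ j}, orb f x n i.1 ^ (s i : ℕ)) *
        orb f x (n + L) i ^ (e : ℕ))) ≤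
      v (a e s) * ((nrm v (orb f x n) ^ T) ^ Fintype.card {i : Fin N // i ≤ j} *
        nrm v (orb f x (n + L)) ^ E) := by
    intro e s
    rw [v.map_mul, v.map_mul, v.map_prod, v.map_pow]
    refine mul_le_mul_of_nonneg_left ?_ (v.nonneg _)
    have h1 : ∏ i : {i : Fin N // i ≤ j}, v (orb f x n i.1 ^ (s i : ℕ)) ≤
        (nrm v (orb f x n) ^ T) ^ Fintype.card {i : Fin N // i ≤ j} := by
      rw [← Finset.card_univ, ← Finset.prod_const]
      refine Finset.prod_le_prod (fun i _ => v.nonneg _) fun i _ => ?_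
      rw [v.map_pow]
      exact hpow n i.1 _ _ (s i).2.le
    exact mul_le_mul h1 (hpow (n + L) i _ _ e.2.le) (pow_nonneg (v.nonneg _) _)
      (pow_pos (pow_pos (hn0 n) _) _).le
  have hprod1 : 0 < (nrm v (orb f x n) ^ T) ^ Fintype.card {i : Fin N // i ≤ j} :=
    pow_pos (pow_pos (hn0 n) _) _
  have hprod2 : 0 < nrm v (orb f x (n + L)) ^ E := pow_pos (hn0 _) _
  have hle : v (eval (orb f x n) (QQ f j i L a)) ≤ (∑ e : Fin E, ∑ s, v (a e s) + 1) *
      ((nrm v (orb f x n) ^ T) ^ Fintype.card {i : Fin N // i ≤ j} *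
        nrm v (orb f x (n + L)) ^ E) := by
    rw [SlowD_eval]
    calc _ ≤ ∑ e : Fin E, v (∑ s, a e s * ((∏ i : {i : Fin N // i ≤ j},
            orb f x n i.1 ^ (s i : ℕ)) * orb f x (n + L) i ^ (e : ℕ))) := v.sum_le _ _
      _ ≤ ∑ e : Fin E, ∑ s, v (a e s * ((∏ i : {i : Fin N // i ≤ j},
            orb f x n i.1 ^ (s i : ℕ)) * orb f x (n + L) i ^ (e : ℕ))) :=
          Finset.sum_le_sum fun e _ => v.sum_le _ _
      _ ≤ ∑ e : Fin E, ∑ s, v (a e s) * ((nrm v (orb f x n) ^ T) ^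
            Fintype.card {i : Fin N // i ≤ j} * nrm v (orb f x (n + L)) ^ E) :=
          Finset.sum_le_sum fun e _ => Finset.sum_le_sum fun s _ => hterm e s
      _ = (∑ e : Fin E, ∑ s, v (a e s)) * ((nrm v (orb f x n) ^ T) ^
            Fintype.card {i : Fin N // i ≤ j} * nrm v (orb f x (n + L)) ^ E) := by
          rw [Finset.sum_mul]
          exact Finset.sum_congr rfl fun e _ => (Finset.sum_mul _ _ _).symm
      _ ≤ _ := mul_le_mul_of_nonneg_right (by linarith) (mul_pos hprod1 hprod2).le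
  have hlog := Real.log_le_log (v.pos hn) hle
  rw [Real.log_mul (by positivity) (mul_pos hprod1 hprod2).ne', Real.log_mul hprod1.ne' hprod2.ne',
    Real.log_pow, Real.log_pow, Real.log_pow] at hlog
  linarith

/-- The situation of `germ_alg`: every coordinate of `f ^ L` satisfies, for `𝔘`-most points of the
orbit, an equation whose degree does not depend on `L`, with coefficients of degree at most
`E * α ^ L`. -/
theorem rel_deg [NumberField K] {D : Fin N → ℕ} {d : ℕ} (hD : Degs D d)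
    {f : Fin N → MvPolynomial (Fin N) K} (hf : Gen D d f) (x : Fin N → K)
    {ι : Type} [Fintype ι] (v : ι → AbsoluteValue K ℝ)
    (hv : ∀ n, ht (orb f x n) = ∑ i, Real.log (nrm (v i) (orb f x n)))
    (hP : ∀ P : MvPolynomial (Fin N) K, ∃ C : ℝ, ∀ n, eval (orb f x n) P ≠ 0 →
        -C ≤ ∑ i, Real.log (v i (eval (orb f x n) P))) (i₀ : ι)
    (j : Fin N) (hj : D j < d) (C R : ℝ) (n₀ : ℕ)
    (h1 : ∀ n, n₀ ≤ n → D j * Real.log (nrm (v i₀) (orb f x n)) - C ≤
        Real.log (nrm (v i₀) (orb f x (n + 1))))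
    (h2 : ∀ n, Real.log (nrm (v i₀) (orb f x (n + 1))) ≤
      D j * Real.log (nrm (v i₀) (orb f x n)) + C)
    (h3 : ∀ n i, j < i → v i₀ (orb f x n i) ≤ R ∨
      ∃ i', i' ≤ j ∧ v i₀ (orb f x n i) ≤ R * v i₀ (orb f x n i'))
    (𝔘 : Ultrafilter ℕ)
    (hU : Tendsto (fun n => ht (orb f x (n + 1))) (𝔘 : Filter ℕ) atTop)
    (hn : Tendsto (fun n : ℕ => n) (𝔘 : Filter ℕ) atTop) (κ : ℝ) (hκ : 0 < κ)
    (hp : ∀ᶠ n in (𝔘 : Filter ℕ), ht (orb f x (n + 1)) ≤
      κ * Real.log (nrm (v i₀) (orb f x (n + 1)))) (α : ℕ) (hα : D j ≤ α) (C₂ : ℝ)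
    (hα2 : ∀ n, ht (orb f x (n + 1)) ≤ α * ht (orb f x n) + C₂) :
    ∃ E : ℕ, ∀ (L : ℕ) (i : Fin N), ∃ W : ℕ → MvPolynomial (Fin N) K,
      (∀ e, (W e).totalDegree ≤ E * α ^ L) ∧
      (∃ e, e < E ∧ ¬ ∀ᶠ n in (𝔘 : Filter ℕ), eval (orb f x (n + 1)) (W e) = 0) ∧
      ∀ᶠ n in (𝔘 : Filter ℕ),
        eval (orb f x (n + 1)) (∑ e ∈ Finset.range E, W e * itp f L i ^ e) = 0 := by
  classical
  obtain ⟨M, _, _, _, B, φ, hφ, hB, h0⟩ := ultra (v i₀) 𝔘
  set lam : ι → ℕ → ℝ := fun i n => Real.log (nrm (v i) (orb f x n)) with hlam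
  have hlam0 : ∀ i n, 0 ≤ lam i n := fun i n => Slow_nonneg _ _
  set H : ℕ → ℝ := fun n => ht (orb f x n) with hH
  have hHs : ∀ n, H n = ∑ i, lam i n := hv
  have hH0 : ∀ n, 0 ≤ H n := fun n => by
    rw [hHs]
    exact Finset.sum_nonneg fun i _ => hlam0 i n
  have hlamH : ∀ i n, lam i n ≤ H n := fun i n => by
    rw [hHs]
    exact Finset.single_le_sum (f := fun i => lam i n) (fun i _ => hlam0 i n) (Finset.mem_univ i)
  have hα1 : 1 ≤ α := (hD.pos j).trans hα
  have hlamU : Tendsto (fun n => lam i₀ (n + 1)) (𝔘 : Filter ℕ) atTop := by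
    have h4 : Tendsto (fun n => H (n + 1) / κ) (𝔘 : Filter ℕ) atTop := hU.atTop_div_const hκ
    refine tendsto_atTop_mono' _ ?_ h4
    filter_upwards [hp] with n hn
    rw [div_le_iff₀ hκ]
    have : H (n + 1) ≤ κ * lam i₀ (n + 1) := hn
    linarith
  have hO := ultra_orb hD hf (v i₀) x j hj C R n₀ h1 h2 h3 𝔘 hlamU hn B φ hφ hB h0
  obtain ⟨r, hr⟩ := coreC hD hf hj hO
  set kk : ℕ := Fintype.card {i : Fin N // i ≤ j} with hkk
  obtain ⟨s, hs⟩ := exists_nat_ge (κ * D j * (4 * (kk + 1)))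
  set m : ℕ := kk * s + kk + 1 with hm
  set E₀ : ℕ := r * m ^ kk + 1 with hE₀
  have hkk1 : 1 ≤ kk := Fintype.card_pos_iff.2 ⟨⟨j, le_rfl⟩⟩
  refine ⟨kk * E₀ + E₀, fun L i => ?_⟩
  set T : ℕ := E₀ * α ^ L with hT
  have hT1 : 1 ≤ T := Nat.one_le_iff_ne_zero.2
    (mul_ne_zero (by omega) (pow_ne_zero _ (by omega)))
  set q : ℕ := s * T + 1 with hq
  have hm1 : kk * q + 1 ≤ m * T := by
    rw [hq, hm]
    nlinarith
  obtain ⟨a, ⟨e₁, he₁⟩, hmem⟩ := hr q T L m E₀ i hm1 (Nat.lt_succ_self _)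
  set P := QQ f j i L a with hPdef
  have hzero : ∀ᶠ n in (𝔘 : Filter ℕ), eval (orb f x (n + 1)) P = 0 := by
    by_contra hcon
    have hPne : ∀ᶠ n in (𝔘 : Filter ℕ), eval (orb f x (n + 1)) P ≠ 0 :=
      Ultrafilter.eventually_not.2 hcon
    obtain ⟨C', hC'⟩ := SlowC_log hD hf (v i₀) x j hj 𝔘 B φ hφ hB h0 hO P q
      (kk * T + E₀ * D j ^ L) hmem
    obtain ⟨C₁, hC₁⟩ := hP P
    choose Cu hCu using fun i' => SlowD_upper (v i') f x j i L a
    obtain ⟨CL, hCL⟩ := Slow_iter H α C₂ (Nat.cast_nonneg _) hα2 L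
    set S : ℝ := E₀ * (α : ℝ) ^ L with hS
    have hS0 : 0 ≤ S := by positivity
    have hTS : (T : ℝ) = S := by
      rw [hT, hS]
      push_cast
      rfl
    set C₃ : ℝ := D j * C₁ + C' + D j * (∑ i, |Cu i| + 1 * (E₀ * CL)) with hC₃
    have hbound : ∀ᶠ n in (𝔘 : Filter ℕ), H (n + 1) ≤ κ * C₃ := by
      filter_upwards [hp, hC', hPne] with n hn1 hn2 hn3
      have g1 := hn2 hn3
      have g2 := hC₁ (n + 1) hn3
      have hDj0 : (0 : ℝ) ≤ D j := Nat.cast_nonneg _
      -- the other places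
      have g3 : ∑ i ∈ Finset.univ.erase i₀, Real.log (v i (eval (orb f x (n + 1)) P)) ≤
          ∑ i, |Cu i| + kk * T * H (n + 1) + 1 * (E₀ * H (n + 1 + L)) := by
        have g4 : ∀ i, Real.log (v i (eval (orb f x (n + 1)) P)) ≤ |Cu i| +
            kk * T * lam i (n + 1) + E₀ * lam i (n + 1 + L) := fun i =>
          (hCu i (n + 1) hn3).trans (by
            have := le_abs_self (Cu i)
            show Cu i + kk * T * lam i (n + 1) + E₀ * lam i (n + 1 + L) ≤ _
            linarith)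
        calc ∑ i ∈ Finset.univ.erase i₀, Real.log (v i (eval (orb f x (n + 1)) P))
            ≤ ∑ i ∈ Finset.univ.erase i₀, (|Cu i| +
            kk * T * lam i (n + 1) + E₀ * lam i (n + 1 + L)) :=
              Finset.sum_le_sum fun i _ => g4 i
          _ ≤ ∑ i, (|Cu i| + kk * T * lam i (n + 1) + E₀ * lam i (n + 1 + L)) := by
              refine Finset.sum_le_sum_of_subset_of_nonneg (Finset.erase_subset _ _)
                fun i _ _ => ?_
              have := hlam0 i (n + 1)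
              have h8 := hlam0 i (n + 1 + L)
              positivity
          _ = _ := by
              rw [Finset.sum_add_distrib, Finset.sum_add_distrib, ← Finset.mul_sum,
                ← Finset.mul_sum, ← hHs, ← hHs, one_mul]
      rw [← Finset.add_sum_erase _ _ (Finset.mem_univ i₀)] at g2
      have g5 : E₀ * H (n + 1 + L) ≤ S * H (n + 1) + E₀ * CL := by
        have g8 := mul_le_mul_of_nonneg_left (hCL (n + 1)) (Nat.cast_nonneg (α := ℝ) E₀)
        rw [hS]
        linarith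
      have g6 : ((kk * T + E₀ * D j ^ L : ℕ) : ℝ) ≤ kk * T + 1 * S := by
        push_cast
        have g8 : (D j : ℝ) ^ L ≤ (α : ℝ) ^ L :=
          pow_le_pow_left₀ hDj0 (by exact_mod_cast hα) L
        have g9 := mul_le_mul_of_nonneg_left g8 (Nat.cast_nonneg (α := ℝ) E₀)
        rw [hS]
        linarith
      have g7 : κ * D j * (2 * (kk + 1)) * (T + S) + 1 ≤ q := by
        rw [← hTS, hq]
        push_cast
        have g9 : κ * D j * (4 * (kk + 1)) * T ≤ s * T :=
          mul_le_mul_of_nonneg_right hs (Nat.cast_nonneg _)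
        linarith
      have hLam := hlamH i₀ (n + 1)
      have hLam0 := hlam0 i₀ (n + 1)
      have hHn := hH0 (n + 1)
      exact Slow_arith hDj0 hκ (Nat.cast_nonneg _) (Nat.cast_nonneg _) hS0 zero_le_one
        (Nat.cast_nonneg _) hHn hLam0 hLam hn1 g1 g2 g3 g5 g6 g7
    have h10 := (hbound.and (hU.eventually (eventually_gt_atTop (κ * C₃)))).exists
    obtain ⟨n, hn, hn'⟩ := h10
    exact absurd hn (not_le.2 hn')
  -- the coefficients
  refine ⟨fun e => if h : e < E₀ then WW j (a ⟨e, h⟩) else 0, fun e => ?_, ⟨e₁, ?_, ?_⟩, ?_⟩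
  · show (if h : e < E₀ then WW j (a ⟨e, h⟩) else 0).totalDegree ≤ _
    split_ifs with h
    · refine (SlowD_deg j _).trans ?_
      rw [← hkk, hT]
      nlinarith [Nat.zero_le (E₀ * α ^ L)]
    · rw [totalDegree_zero]
      exact Nat.zero_le _
  · have := e₁.2
    omega
  · intro h
    refine he₁ ?_
    have h4 := SlowB_aeval φ hφ (fun n => orb f x (n + 1)) (WW j (a e₁))
    show aeval (fun i => φ fun n => orb f x (n + 1) i) (WW j (a e₁)) = 0
    rw [← h4, h0]
    filter_upwards [h] with n hn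
    have h5 : (if h : (e₁ : ℕ) < E₀ then WW j (a ⟨e₁, h⟩) else 0) = WW j (a e₁) := by
      rw [dif_pos e₁.2]
    rw [← h5]
    exact hn
  · filter_upwards [hzero] with n hn
    have h5 : (∑ e ∈ Finset.range (kk * E₀ + E₀),
        (if h : e < E₀ then WW j (a ⟨e, h⟩) else 0) * itp f L i ^ e) = P := by
      rw [hPdef]
      unfold QQ
      have h6 : ∑ e ∈ Finset.range (kk * E₀ + E₀),
          (if h : e < E₀ then WW j (a ⟨e, h⟩) else 0) * itp f L i ^ e =
          ∑ e ∈ Finset.range E₀,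
          (if h : e < E₀ then WW j (a ⟨e, h⟩) else 0) * itp f L i ^ e := by
        refine (Finset.sum_subset (Finset.range_mono (by omega)) fun e _ he => ?_).symm
        rw [Finset.mem_range] at he
        rw [dif_neg he, zero_mul]
      rw [h6, Finset.sum_range]
      refine Finset.sum_congr rfl fun e _ => ?_
      rw [dif_pos e.2]
    rw [h5]
    exact hn

end Pool.Agent.H.MP_31a675_nt.Y
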