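import Pool.Agent.H.MP_31a675_nt.Y.MainB
import Pool.Agent.H.MP_31a675_nt.Y.SlowD
import Pool.Agent.H.MP_31a675_nt.Y.GenC
import Pool.Agent.H.MP_31a675_nt.Y.Lin

/-!
# Arithmetic degrees and the degrees of the iterates on the closure of the orbit
-/

namespace Pool.Agent.H.MP_31a675_nt.Y

open MvPolynomial Filter Topology

variable {K : Type} [Field K] {N : ℕ}

/-- One step of the orbit, at a place which is bounded or of a type of rate at most `α`. -/
theorem MainC_step (a : ℕ → ℝ) (h : ℕ → ℝ) (D α : ℕ) (hD : 1 ≤ D) (C : ℝ) (n₀ : ℕ)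
    (h0 : ∀ n, a n ≤ h n) (ha : ∀ n, 0 ≤ a n) (h1 : ∀ n, n₀ ≤ n → D * a n - C ≤ a (n + 1))
    (h2 : ∀ n, a (n + 1) ≤ D * a n + C)
    (h3 : Tendsto (fun n : ℕ => (max (h n) 1) ^ ((1 : ℝ) / n)) atTop (𝓝 (α : ℝ))) :
    ∃ C' : ℝ, ∀ n, a (n + 1) ≤ α * a n + C' := by
  by_cases hb : ∀ B : ℝ, ∃ n, n₀ ≤ n ∧ B ≤ a n
  · have h4 : (D : ℝ) ≤ α := rate_lower h a D hD C α n₀ h0 h1 hb h3
    refine ⟨C, fun n => (h2 n).trans ?_⟩
    have := mul_le_mul_of_nonneg_right h4 (ha n)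
    linarith
  · push Not at hb
    obtain ⟨B, hB⟩ := hb
    obtain ⟨B', hB'⟩ : ∃ B', ∀ n ∈ Finset.range (n₀ + 1), a n ≤ B' := by
      refine ⟨∑ n ∈ Finset.range (n₀ + 1), a n, fun n hn => ?_⟩
      exact Finset.single_le_sum (f := a) (fun n _ => ha n) hn
    refine ⟨max B B', fun n => ?_⟩
    have h4 : a (n + 1) ≤ max B B' := by
      rcases le_or_gt n₀ (n + 1) with h5 | h5
      · exact (hB _ h5).le.trans (le_max_left _ _)
      · exact (hB' _ (Finset.mem_range.2 (by omega))).trans (le_max_right _ _)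
    have h6 : 0 ≤ (α : ℝ) * a n := mul_nonneg (Nat.cast_nonneg _) (ha n)
    linarith

theorem main_deg [NumberField K] {D : Fin N → ℕ} {d : ℕ} (hD : Degs D d)
    {f : Fin N → MvPolynomial (Fin N) K} (hf : Gen D d f) (x : Fin N → K) (α : ℕ)
    (hα : Tendsto (fun n : ℕ => (max (ht (orb f x n)) 1) ^ ((1 : ℝ) / n)) atTop (𝓝 (α : ℝ)))
    (S : Set ℕ) (p : Ideal (MvPolynomial (Fin N) K)) (hp : p.IsPrime) (h : VanAt f x S p) :
    DegLe f p α := by
  classical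
  have h1p : (1 : MvPolynomial (Fin N) K) ∉ p := fun h1 => hp.ne_top ((Ideal.eq_top_iff_one p).2 h1)
  -- points
  by_cases hpt : ∃ y : Fin N → K, ∀ P : MvPolynomial (Fin N) K, eval y P = 0 → P ∈ p
  · obtain ⟨y, hy⟩ := hpt
    refine ⟨0, 1, h1p, fun n i => ⟨C (eval y (itp f n i)), ?_, hy _ ?_⟩⟩
    · rw [totalDegree_C, Nat.cast_zero, zero_mul]
    · rw [map_sub, eval_C, one_mul, sub_self]
  push Not at hpt
  obtain ⟨𝔘, hU1, hU0, hU2, hU3⟩ := exists_generic_p hp h hpt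
  obtain ⟨ι, hι, v, hv, hP⟩ := exists_places f x
  set lam : ι → ℕ → ℝ := fun i n => Real.log (nrm (v i) (orb f x n)) with hlam
  have hlam0 : ∀ i n, 0 ≤ lam i n := fun i n => Slow_nonneg _ _
  set H : ℕ → ℝ := fun n => ht (orb f x n) with hH
  have hHs : ∀ n, H n = ∑ i, lam i n := hv
  have hlamH : ∀ i n, lam i n ≤ H n := fun i n => by
    rw [hHs]
    exact Finset.single_le_sum (f := fun i => lam i n) (fun i _ => hlam0 i n) (Finset.mem_univ i)
  have hd2 : 2 ≤ d := two_le hD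
  by_cases hfast : ∃ (i : ι) (c : ℝ), 0 < c ∧ ∃ n₀ : ℕ, ∀ n, n₀ ≤ n →
      c * (d : ℝ) ^ n ≤ Real.log (nrm (v i) (orb f x n))
  · -- a fast place: the arithmetic degree is maximal
    obtain ⟨i, c, hc, n₀, h1⟩ := hfast
    choose CC hCC using fun i => Main_upper hD hf (v i) x
    have h4 : Tendsto (fun n : ℕ => (max (ht (orb f x n)) 1) ^ ((1 : ℝ) / n)) atTop
        (𝓝 (d : ℝ)) := by
      refine rate_fast (fun n => ht (orb f x n)) d hd2 (∑ i, CC i) c hc n₀ (fun n => ?_)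
        fun n hn => ?_
      · show ht (orb f x (n + 1)) ≤ d * ht (orb f x n) + ∑ i, CC i
        rw [hv, hv, Finset.mul_sum, ← Finset.sum_add_distrib]
        exact Finset.sum_le_sum fun i _ => hCC i n
      · exact (h1 n hn).trans (hlamH i n)
    have h5 : (α : ℝ) = d := tendsto_nhds_unique hα h4
    have h6 : α = d := by exact_mod_cast h5
    refine ⟨1, 1, h1p, fun n i => ⟨itp f n i, ?_, ?_⟩⟩
    · have h7 : (itp f n i).totalDegree ≤ α ^ n := by
        rw [h6, ← degIt_eq hD hf n]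
        unfold degIt
        exact Finset.le_sup (f := fun i => (itp f n i).totalDegree) (Finset.mem_univ i)
      rw [one_mul]
      exact_mod_cast h7
    · rw [one_mul, sub_self]
      exact p.zero_mem
  -- all places are slow
  have hplace : ∀ i, ∃ (j : Fin N) (C R : ℝ) (n₀ : ℕ), D j < d ∧
      (∀ n, n₀ ≤ n → D j * Real.log (nrm (v i) (orb f x n)) - C ≤
        Real.log (nrm (v i) (orb f x (n + 1)))) ∧
      (∀ n, Real.log (nrm (v i) (orb f x (n + 1))) ≤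
        D j * Real.log (nrm (v i) (orb f x n)) + C) ∧
      ∀ n i₁, j < i₁ → v i (orb f x n i₁) ≤ R ∨
        ∃ i', i' ≤ j ∧ v i (orb f x n i₁) ≤ R * v i (orb f x n i') := by
    intro i
    rcases place hD hf (v i) x with ⟨c, hc, n₀, h1⟩ | h1
    · exact absurd ⟨i, c, hc, n₀, h1⟩ hfast
    · exact h1
  choose jj CC RR nn hjj h1 h2 h3 using hplace
  choose C' hC' using fun i => MainC_step (lam i) H (D (jj i)) α (hD.pos _) (CC i) (nn i)
    (hlamH i) (hlam0 i) (h1 i) (h2 i) hα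
  have hstep : ∀ n, H (n + 1) ≤ α * H n + ∑ i, C' i := by
    intro n
    rw [hHs, hHs, Finset.mul_sum, ← Finset.sum_add_distrib]
    exact Finset.sum_le_sum fun i _ => hC' i n
  -- a place with a fixed proportion of the height
  have hιne : Nonempty ι := by
    by_contra hne
    rw [not_nonempty_iff] at hne
    have h4 : ∀ n, H n = 0 := fun n => by rw [hHs, Finset.univ_eq_empty, Finset.sum_empty]
    have h5 := (hU2.eventually (eventually_ge_atTop (1 : ℝ))).exists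
    obtain ⟨n, hn⟩ := h5
    have h6 : H (n + 1) = 0 := h4 _
    have h7 : (1 : ℝ) ≤ H (n + 1) := hn
    linarith
  set κ : ℕ := Fintype.card ι with hκ
  have hκ0 : 0 < κ := Fintype.card_pos
  have hκR : (0 : ℝ) < κ := by exact_mod_cast hκ0
  have hpig : ∀ᶠ n in (𝔘 : Filter ℕ), ∃ i, H (n + 1) ≤ κ * lam i (n + 1) := by
    refine Eventually.of_forall fun n => ?_
    by_contra hc
    push Not at hc
    have h4 : ∑ i, (κ : ℝ) * lam i (n + 1) < ∑ _i : ι, H (n + 1) :=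
      Finset.sum_lt_sum_of_nonempty Finset.univ_nonempty fun i _ => hc i
    rw [← Finset.mul_sum, ← hHs, Finset.sum_const, Finset.card_univ, nsmul_eq_mul] at h4
    exact lt_irrefl _ h4
  obtain ⟨i₀, hi₀⟩ := Slow_pigeon 𝔘 _ hpig
  have hDα : D (jj i₀) ≤ α := by
    have h4 : (D (jj i₀) : ℝ) ≤ α := by
      refine rate_lower H (lam i₀) (D (jj i₀)) (hD.pos _) (CC i₀) α (nn i₀) (hlamH i₀) (h1 i₀)
        (fun B => ?_) hα
      have h5 := ((hU3.eventually_ge_atTop (nn i₀)).and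
        ((hU2.eventually (eventually_ge_atTop (κ * B))).and hi₀)).exists
      obtain ⟨n, hn1, hn2, hn3⟩ := h5
      refine ⟨n + 1, by omega, ?_⟩
      have h6 : κ * B ≤ κ * lam i₀ (n + 1) := le_trans hn2 hn3
      exact le_of_mul_le_mul_left h6 hκR
    exact_mod_cast h4
  have hα1 : 1 ≤ α := (hD.pos _).trans hDα
  obtain ⟨E, hE⟩ := rel_deg hD hf x v hv hP i₀ (jj i₀) (hjj i₀) (CC i₀) (RR i₀) (nn i₀) (h1 i₀)
    (h2 i₀) (h3 i₀) 𝔘 hU2 hU3 κ hκR hi₀ α hDα (∑ i, C' i) hstep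
  obtain ⟨C₀, Q, hQ, hlin⟩ := lin_bound p hp
  refine ⟨((C₀ * E : ℕ) : ℝ), Q, hQ, fun L i => ?_⟩
  obtain ⟨W, hW1, ⟨e, he, hW2⟩, hW3⟩ := hE L i
  have hT : 1 ≤ E * α ^ L := Nat.one_le_iff_ne_zero.2
    (mul_ne_zero (by omega) (pow_ne_zero _ (by omega)))
  have hWe : W e ∉ p := fun h4 => hW2 (hU0 _ h4)
  have hsum : ∑ e ∈ Finset.range E, W e * itp f L i ^ e ∈ p := by
    by_contra h4
    obtain ⟨n, hn1, hn2⟩ := ((hU1 _ h4).and hW3).exists
    exact hn1 hn2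
  obtain ⟨P, hP1, hP2⟩ := hlin (E * α ^ L) E W (itp f L i) hT hW1 ⟨e, he, hWe⟩ hsum
  refine ⟨P, ?_, hP2⟩
  have h7 : P.totalDegree ≤ C₀ * E * α ^ L := by rw [mul_assoc]; exact hP1
  exact_mod_cast h7

end Pool.Agent.H.MP_31a675_nt.Y
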