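import Pool.Agent.H.MP_31a675_nt.Y.MainC

/-!
# The arithmetic degree is the growth rate of the degrees on the closure of the orbit
-/

namespace Pool.Agent.H.MP_31a675_nt.Y

open MvPolynomial Filter Topology

variable {K : Type} [Field K] {N : ℕ}

/-- An upper bound for the limit of the roots. -/
theorem MainD_le (h : ℕ → ℝ) (e : ℕ) (he : 1 ≤ e) (B α : ℝ) (hB : 0 < B)
    (h1 : ∀ n, h n ≤ B * ((n : ℝ) + 1) * (e : ℝ) ^ n)
    (h3 : Tendsto (fun n : ℕ => (max (h n) 1) ^ ((1 : ℝ) / n)) atTop (𝓝 α)) : α ≤ e := by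
  have he' : (1 : ℝ) ≤ e := by exact_mod_cast he
  have h4 := Rate_lim e he (fun n => (B + 1) * ((n : ℝ) + 1) * (e : ℝ) ^ n) 1 (B + 1) one_pos
    (by linarith) 0 (fun n _ => by
      have h5 : (1 : ℝ) ≤ (B + 1) * ((n : ℝ) + 1) := by
        have := Nat.cast_nonneg (α := ℝ) n
        nlinarith
      exact mul_le_mul_of_nonneg_right h5 (by positivity)) (fun n => le_rfl)
  refine le_of_tendsto_of_tendsto' h3 h4 fun n => ?_
  refine Real.rpow_le_rpow (le_max_of_le_right zero_le_one) (max_le ?_ ?_) (by positivity)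
  · refine (h1 n).trans ?_
    refine mul_le_mul_of_nonneg_right ?_ (by positivity)
    have := Nat.cast_nonneg (α := ℝ) n
    nlinarith
  · have h5 : (1 : ℝ) ≤ (e : ℝ) ^ n := one_le_pow₀ he'
    have h6 : (1 : ℝ) ≤ (B + 1) * ((n : ℝ) + 1) := by
      have := Nat.cast_nonneg (α := ℝ) n
      nlinarith
    calc (1 : ℝ) = 1 * 1 := (one_mul 1).symm
      _ ≤ (B + 1) * ((n : ℝ) + 1) * (e : ℝ) ^ n := mul_le_mul h6 h5 zero_le_one (by positivity)

/-- If the arithmetic degree `α` is at least two, the heights are comparable to `α ^ n`. -/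
theorem growth [NumberField K] {D : Fin N → ℕ} {d : ℕ} (hD : Degs D d)
    {f : Fin N → MvPolynomial (Fin N) K} (hf : Gen D d f) (x : Fin N → K) (α : ℕ) (hα2 : 2 ≤ α)
    (hα : Tendsto (fun n : ℕ => (max (ht (orb f x n)) 1) ^ ((1 : ℝ) / n)) atTop (𝓝 (α : ℝ))) :
    ∃ c C : ℝ, 0 < c ∧ 0 < C ∧ ∃ n₀ : ℕ, ∀ n, n₀ ≤ n →
      c * (α : ℝ) ^ n ≤ ht (orb f x n) ∧ ht (orb f x n) ≤ C * (α : ℝ) ^ n := by
  classical
  obtain ⟨ι, hι, v, hv, hP⟩ := exists_places f x
  set lam : ι → ℕ → ℝ := fun i n => Real.log (nrm (v i) (orb f x n)) with hlam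
  have hlam0 : ∀ i n, 0 ≤ lam i n := fun i n => Slow_nonneg _ _
  set H : ℕ → ℝ := fun n => ht (orb f x n) with hH
  have hHs : ∀ n, H n = ∑ i, lam i n := hv
  have hH0 : ∀ n, 0 ≤ H n := fun n => by
    rw [hHs]
    exact Finset.sum_nonneg fun i _ => hlam0 i n
  have hlamH : ∀ i n, lam i n ≤ H n := fun i n => by
    rw [hHs]
    exact Finset.single_le_sum (f := fun i => lam i n) (fun i _ => hlam0 i n) (Finset.mem_univ i)
  have hd2 : 2 ≤ d := two_le hD
  have hα2' : (2 : ℝ) ≤ α := by exact_mod_cast hα2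
  -- the upper bound from one step
  have hupper : ∀ C₀ : ℝ, (∀ n, H (n + 1) ≤ α * H n + C₀) →
      ∀ n, H n ≤ (H 0 + |C₀| + 1) * (α : ℝ) ^ n := by
    intro C₀ hC₀ n
    have key : H n + |C₀| ≤ (H 0 + |C₀|) * (α : ℝ) ^ n := by
      induction n with
      | zero => simp
      | succ n ih =>
        have h4 := hC₀ n
        have h5 := le_abs_self C₀
        have h6 := mul_le_mul_of_nonneg_left ih (by linarith : (0 : ℝ) ≤ α)
        have h7 := abs_nonneg C₀
        rw [pow_succ]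
        nlinarith
    have h5 : (0 : ℝ) ≤ (α : ℝ) ^ n := by positivity
    have h7 := abs_nonneg C₀
    nlinarith
  have hpos : ∀ C₀ : ℝ, 0 < H 0 + |C₀| + 1 := fun C₀ => by
    have := abs_nonneg C₀
    have := hH0 0
    linarith
  by_cases hfast : ∃ (i : ι) (c : ℝ), 0 < c ∧ ∃ n₀ : ℕ, ∀ n, n₀ ≤ n →
      c * (d : ℝ) ^ n ≤ Real.log (nrm (v i) (orb f x n))
  · obtain ⟨i, c, hc, n₀, h1⟩ := hfast
    choose CC hCC using fun i => Main_upper hD hf (v i) x
    have hstep : ∀ n, H (n + 1) ≤ d * H n + ∑ i, CC i := by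
      intro n
      rw [hHs, hHs, Finset.mul_sum, ← Finset.sum_add_distrib]
      exact Finset.sum_le_sum fun i _ => hCC i n
    have h4 : Tendsto (fun n : ℕ => (max (ht (orb f x n)) 1) ^ ((1 : ℝ) / n)) atTop
        (𝓝 (d : ℝ)) :=
      rate_fast (fun n => ht (orb f x n)) d hd2 (∑ i, CC i) c hc n₀ hstep
        fun n hn => (h1 n hn).trans (hlamH i n)
    have h5 : (α : ℝ) = d := tendsto_nhds_unique hα h4
    refine ⟨c, _, hc, hpos (∑ i, CC i), n₀, fun n hn => ⟨?_, ?_⟩⟩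
    · rw [h5]
      exact (h1 n hn).trans (hlamH i n)
    · exact hupper (∑ i, CC i) (by rw [h5]; exact hstep) n
  · have hplace : ∀ i, ∃ (j : Fin N) (C : ℝ) (n₀ : ℕ), D j < d ∧
      (∀ n, n₀ ≤ n → D j * Real.log (nrm (v i) (orb f x n)) - C ≤
        Real.log (nrm (v i) (orb f x (n + 1)))) ∧
      (∀ n, Real.log (nrm (v i) (orb f x (n + 1))) ≤
        D j * Real.log (nrm (v i) (orb f x n)) + C) := by
      intro i
      rcases place hD hf (v i) x with ⟨c, hc, n₀, h1⟩ | ⟨j, C, R, n₀, h1, h2, h3, -⟩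
      · exact absurd ⟨i, c, hc, n₀, h1⟩ hfast
      · exact ⟨j, C, n₀, h1, h2, h3⟩
    choose jj CC nn hjj h1 h2 using hplace
    choose C' hC' using fun i => MainC_step (lam i) H (D (jj i)) α (hD.pos _) (CC i) (nn i)
      (hlamH i) (hlam0 i) (h1 i) (h2 i) hα
    have hstep : ∀ n, H (n + 1) ≤ α * H n + ∑ i, C' i := by
      intro n
      rw [hHs, hHs, Finset.mul_sum, ← Finset.sum_add_distrib]
      exact Finset.sum_le_sum fun i _ => hC' i n
    -- an unbounded place of rate `α`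
    obtain ⟨i₁, hi₁, hb⟩ : ∃ i, α ≤ D (jj i) ∧ ∀ B : ℝ, ∃ n, nn i ≤ n ∧ B ≤ lam i n := by
      by_contra hcon
      push Not at hcon
      have hone : ∀ i, ∃ C₀ : ℝ, ∀ n, lam i (n + 1) ≤ ((α - 1 : ℕ) : ℝ) * lam i n + C₀ := by
        intro i
        by_cases h4 : α ≤ D (jj i)
        · obtain ⟨B, hB⟩ := hcon i h4
          obtain ⟨B', hB'⟩ : ∃ B', ∀ n ∈ Finset.range (nn i + 1), lam i n ≤ B' :=
            ⟨∑ n ∈ Finset.range (nn i + 1), lam i n, fun n hn =>
              Finset.single_le_sum (f := lam i) (fun n _ => hlam0 i n) hn⟩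
          refine ⟨max B B', fun n => ?_⟩
          have h5 : lam i (n + 1) ≤ max B B' := by
            rcases le_or_gt (nn i) (n + 1) with h6 | h6
            · exact (hB _ h6).le.trans (le_max_left _ _)
            · exact (hB' _ (Finset.mem_range.2 (by omega))).trans (le_max_right _ _)
          have h7 : 0 ≤ ((α - 1 : ℕ) : ℝ) * lam i n := mul_nonneg (Nat.cast_nonneg _) (hlam0 i n)
          linarith
        · refine ⟨CC i, fun n => (h2 i n).trans ?_⟩
          have h5 : (D (jj i) : ℝ) ≤ ((α - 1 : ℕ) : ℝ) := by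
            have : D (jj i) ≤ α - 1 := by omega
            exact_mod_cast this
          have := mul_le_mul_of_nonneg_right h5 (hlam0 i n)
          linarith
      choose C₀ hC₀ using hone
      have h4 : ∀ n, 0 ≤ n → H (n + 1) ≤ ((α - 1 : ℕ) : ℝ) * H n + ∑ i, C₀ i := by
        intro n _
        rw [hHs, hHs, Finset.mul_sum, ← Finset.sum_add_distrib]
        exact Finset.sum_le_sum fun i _ => hC₀ i n
      obtain ⟨B, hB, h5⟩ := Rate_up H (α - 1) (∑ i, C₀ i) 0 hH0 (by omega) h4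
      have h6 := MainD_le H (α - 1) (by omega) B α hB h5 hα
      have h7 : α ≤ α - 1 := by exact_mod_cast h6
      omega
    have hDα : D (jj i₁) ≤ α := by
      have h4 := rate_lower H (lam i₁) (D (jj i₁)) (hD.pos _) (CC i₁) α (nn i₁) (hlamH i₁) (h1 i₁)
        hb hα
      exact_mod_cast h4
    have hDα' : D (jj i₁) = α := le_antisymm hDα hi₁
    obtain ⟨m, hm, hm'⟩ := hb (|CC i₁| + 1)
    obtain ⟨δ, hδ, h5⟩ := Rate_low (lam i₁) (D (jj i₁)) (CC i₁) (nn i₁) (by omega) (h1 i₁) m hm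
      (by linarith)
    refine ⟨δ, _, hδ, hpos (∑ i, C' i), m, fun n hn => ⟨?_, hupper _ hstep n⟩⟩
    rw [← hDα']
    exact (h5 n hn).trans (hlamH i₁ n)

/-- The height of a point of the orbit given by quotients of polynomials in an earlier point. -/
theorem quot_ht {f : Fin N → MvPolynomial (Fin N) K} {x : Fin N → K} [NumberField K]
    {ι : Type} [Fintype ι] (v : ι → AbsoluteValue K ℝ)
    (hv : ∀ n, ht (orb f x n) = ∑ i, Real.log (nrm (v i) (orb f x n)))
    (hP : ∀ P : MvPolynomial (Fin N) K, ∃ C : ℝ, ∀ n, eval (orb f x n) P ≠ 0 →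
        -C ≤ ∑ i, Real.log (v i (eval (orb f x n) P))) (m E : ℕ) (Q : MvPolynomial (Fin N) K)
    (P : Fin N → MvPolynomial (Fin N) K) (hQ : Q.totalDegree ≤ E)
    (hPd : ∀ i, (P i).totalDegree ≤ E) :
    ∃ C : ℝ, ∀ n, eval (orb f x n) Q ≠ 0 →
      (∀ i, eval (orb f x n) (P i - Q * itp f m i) = 0) →
      ht (orb f x (n + m)) ≤ E * ht (orb f x n) + C := by
  classical
  obtain ⟨CQ, hCQ⟩ := hP Q
  choose cQ hcQ1 hcQ2 using fun i => eval_le (v i) Q E hQ
  choose cP hcP1 hcP2 using fun i k => eval_le (v i) (P k) E (hPd k)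
  set c : ι → ℝ := fun i => cQ i + ∑ k, cP i k with hc
  have hcP0 : ∀ i, 0 ≤ ∑ k, cP i k := fun i =>
    Finset.sum_nonneg fun k _ => zero_le_one.trans (hcP1 i k)
  have hc1 : ∀ i, 1 ≤ c i := fun i => by
    have := hcP0 i
    have := hcQ1 i
    simp only [hc]
    linarith
  have hcQ3 : ∀ i, cQ i ≤ c i := fun i => by
    have := hcP0 i
    simp only [hc]
    linarith
  have hcP3 : ∀ i k, cP i k ≤ c i := fun i k => by
    have h4 := Finset.single_le_sum (f := cP i) (fun k _ => zero_le_one.trans (hcP1 i k))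
      (Finset.mem_univ k)
    have := hcQ1 i
    simp only [hc]
    linarith
  refine ⟨∑ i, Real.log (c i) + CQ, fun n hn hrel => ?_⟩
  have hplace : ∀ i, Real.log (nrm (v i) (orb f x (n + m))) ≤
      Real.log (c i) + E * Real.log (nrm (v i) (orb f x n)) -
        Real.log (v i (eval (orb f x n) Q)) := by
    intro i
    have hq : 0 < v i (eval (orb f x n) Q) := (v i).pos hn
    have hr1 : 1 ≤ nrm (v i) (orb f x n) := one_le_nrm _ _
    have hr0 : 0 < nrm (v i) (orb f x n) ^ E := pow_pos (one_pos.trans_le hr1) _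
    have hc0 : 0 < c i := one_pos.trans_le (hc1 i)
    have h5 : nrm (v i) (orb f x (n + m)) ≤
        c i * nrm (v i) (orb f x n) ^ E / v i (eval (orb f x n) Q) := by
      refine nrm_le (v i) _ _ ?_ fun k => ?_
      · rw [le_div_iff₀ hq, one_mul]
        exact (hcQ2 i _).trans (mul_le_mul_of_nonneg_right (hcQ3 i) hr0.le)
      · rw [le_div_iff₀ hq, ← map_mul]
        have h6 := hrel k
        rw [map_sub, map_mul, eval_itp, ← orb_add, sub_eq_zero] at h6
        rw [mul_comm, ← h6]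
        exact (hcP2 i k _).trans (mul_le_mul_of_nonneg_right (hcP3 i k) hr0.le)
    have h7 := Real.log_le_log (one_pos.trans_le (one_le_nrm (v i) (orb f x (n + m)))) h5
    rw [Real.log_div (mul_pos hc0 hr0).ne' hq.ne', Real.log_mul hc0.ne' hr0.ne',
      Real.log_pow] at h7
    exact h7
  have h8 := Finset.sum_le_sum fun i (_ : i ∈ Finset.univ) => hplace i
  rw [Finset.sum_sub_distrib, Finset.sum_add_distrib, ← Finset.mul_sum, ← hv, ← hv] at h8
  have h9 := hCQ n hn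
  linarith

/-- The converse of `main_deg` (file `MainC.lean`). -/
theorem main_conv [NumberField K] {D : Fin N → ℕ} {d : ℕ} (hD : Degs D d)
    {f : Fin N → MvPolynomial (Fin N) K} (hf : Gen D d f) (x : Fin N → K) (α : ℕ)
    (hα : Tendsto (fun n : ℕ => (max (ht (orb f x n)) 1) ^ ((1 : ℝ) / n)) atTop (𝓝 (α : ℝ)))
    (S : Set ℕ) (p : Ideal (MvPolynomial (Fin N) K)) (hp : p.IsPrime) (h : VanAt f x S p)
    (hpt : ∀ y : Fin N → K, ∃ P : MvPolynomial (Fin N) K, eval y P = 0 ∧ P ∉ p) (β : ℝ)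
    (hβ : 1 ≤ β) (hdeg : DegLe f p β) : (α : ℝ) ≤ β := by
  classical
  rcases Nat.lt_or_ge α 2 with hα1 | hα2
  · have : (α : ℝ) ≤ 1 := by
      have : α ≤ 1 := by omega
      exact_mod_cast this
    linarith
  obtain ⟨𝔘, hU1, hU0, hU2, hU3⟩ := exists_generic_p hp h hpt
  obtain ⟨ι, hι, v, hv, hP⟩ := exists_places f x
  obtain ⟨C₀, Q, hQ, hrep⟩ := hdeg
  obtain ⟨c, C, hc, hC, n₀, hgr⟩ := growth hD hf x α hα2 hα
  have hα0 : (0 : ℝ) < α := by
    have : 0 < α := by omega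
    exact_mod_cast this
  set A : ℝ := |C₀| + Q.totalDegree + 1 with hA
  have hA0 : 0 < A := by positivity
  -- for every `m`
  have key : ∀ m : ℕ, c * (α : ℝ) ^ m ≤ C * (A * β ^ m) := by
    intro m
    choose P hP1 hP2 using hrep m
    have hβm : 1 ≤ β ^ m := one_le_pow₀ hβ
    have hfl : ∀ i, (P i).totalDegree ≤ ⌊A * β ^ m⌋₊ := by
      intro i
      refine Nat.le_floor ((hP1 i).trans ?_)
      refine mul_le_mul_of_nonneg_right ?_ (by positivity)
      have h4 := le_abs_self C₀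
      have h5 := Nat.cast_nonneg (α := ℝ) Q.totalDegree
      rw [hA]
      linarith
    have hflQ : Q.totalDegree ≤ ⌊A * β ^ m⌋₊ := by
      refine Nat.le_floor ?_
      have h4 := abs_nonneg C₀
      have h5 := Nat.cast_nonneg (α := ℝ) Q.totalDegree
      have h6 : (Q.totalDegree : ℝ) ≤ A := by rw [hA]; linarith
      nlinarith
    obtain ⟨C₁, hC₁⟩ := quot_ht v hv hP m ⌊A * β ^ m⌋₊ Q P hflQ hfl
    have hfl2 : ((⌊A * β ^ m⌋₊ : ℕ) : ℝ) ≤ A * β ^ m := Nat.floor_le (by positivity)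
    by_contra hcon
    rw [not_le] at hcon
    -- along the ultrafilter the heights are bounded
    have hev : ∀ᶠ n in (𝔘 : Filter ℕ),
        (c * (α : ℝ) ^ m - C * (A * β ^ m)) * ht (orb f x (n + 1)) ≤ C * C₁ := by
      have hrel : ∀ᶠ n in (𝔘 : Filter ℕ), ∀ i, eval (orb f x (n + 1)) (P i - Q * itp f m i) = 0 :=
        eventually_all.2 fun i => hU0 _ (hP2 i)
      filter_upwards [hU1 Q hQ, hrel, hU3.eventually_ge_atTop n₀] with n hn1 hn2 hn3
      have h4 := hC₁ (n + 1) hn1 hn2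
      have h5 := (hgr (n + 1 + m) (by omega)).1
      have h6 := (hgr (n + 1) (by omega)).2
      have h7 : 0 ≤ ht (orb f x (n + 1)) := by
        rw [hv]
        exact Finset.sum_nonneg fun i _ => Slow_nonneg _ _
      have h8 : c * (α : ℝ) ^ m * ht (orb f x (n + 1)) ≤ C * ht (orb f x (n + 1 + m)) := by
        calc c * (α : ℝ) ^ m * ht (orb f x (n + 1))
            ≤ c * (α : ℝ) ^ m * (C * (α : ℝ) ^ (n + 1)) :=
              mul_le_mul_of_nonneg_left h6 (by positivity)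
          _ = C * (c * (α : ℝ) ^ (n + 1 + m)) := by rw [pow_add]; ring
          _ ≤ C * ht (orb f x (n + 1 + m)) := mul_le_mul_of_nonneg_left h5 hC.le
      have h9 : C * ht (orb f x (n + 1 + m)) ≤
          C * (A * β ^ m * ht (orb f x (n + 1)) + C₁) := by
        refine mul_le_mul_of_nonneg_left (h4.trans ?_) hC.le
        have := mul_le_mul_of_nonneg_right hfl2 h7
        linarith
      nlinarith
    have hpos : 0 < c * (α : ℝ) ^ m - C * (A * β ^ m) := by linarith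
    have h10 := (hev.and (hU2.eventually (eventually_gt_atTop
      (C * C₁ / (c * (α : ℝ) ^ m - C * (A * β ^ m)))))).exists
    obtain ⟨n, hn, hn'⟩ := h10
    rw [div_lt_iff₀ hpos] at hn'
    linarith
  -- comparison of the exponential growth
  by_contra hcon
  rw [not_le] at hcon
  have hβ0 : 0 < β := one_pos.trans_le hβ
  have h4 : 1 < (α : ℝ) / β := (one_lt_div hβ0).2 hcon
  obtain ⟨m, hm⟩ := ((tendsto_pow_atTop_atTop_of_one_lt h4).eventually
    (eventually_gt_atTop (C * A / c))).exists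
  rw [div_pow, div_lt_div_iff₀ hc (pow_pos hβ0 m)] at hm
  have h5 := key m
  linarith

theorem DegLe_mono {f : Fin N → MvPolynomial (Fin N) K} {p : Ideal (MvPolynomial (Fin N) K)}
    {α β : ℝ} (hα : 0 ≤ α) (h : α ≤ β) (hdeg : DegLe f p α) : DegLe f p β := by
  obtain ⟨C₀, Q, hQ, hrep⟩ := hdeg
  refine ⟨|C₀|, Q, hQ, fun n i => ?_⟩
  obtain ⟨P, hP1, hP2⟩ := hrep n i
  refine ⟨P, hP1.trans ?_, hP2⟩
  calc C₀ * α ^ n ≤ |C₀| * α ^ n := mul_le_mul_of_nonneg_right (le_abs_self _) (by positivity)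
    _ ≤ |C₀| * β ^ n := mul_le_mul_of_nonneg_left (pow_le_pow_left₀ hα h n) (abs_nonneg _)

/-- All parts together. -/
theorem main_all [NumberField K] {D : Fin N → ℕ} {d : ℕ} (hD : Degs D d)
    {f : Fin N → MvPolynomial (Fin N) K} (hf : Gen D d f) (x : Fin N → K) :
    ∃ α : ℕ, (α = 1 ∨ ∃ i, α = D i) ∧
      Tendsto (fun n : ℕ => (max (ht (orb f x n)) 1) ^ ((1 : ℝ) / n)) atTop (𝓝 (α : ℝ)) ∧
      (DenseOrbit f x → α = d) ∧
      DimLe f x (Fintype.card {i // D i ≤ α}) ∧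
      ∀ (S : Set ℕ) (p : Ideal (MvPolynomial (Fin N) K)), p.IsPrime → VanAt f x S p →
        (∀ y : Fin N → K, ∃ P : MvPolynomial (Fin N) K, eval y P = 0 ∧ P ∉ p) →
        ∀ β : ℝ, 1 ≤ β → (DegLe f p β ↔ (α : ℝ) ≤ β) := by
  obtain ⟨α, h1, h2, h3, h4⟩ := main_dim hD hf x
  exact ⟨α, h1, h2, h4, h3, fun S p hp h hpt β hβ =>
    ⟨fun hdeg => main_conv hD hf x α h2 S p hp h hpt β hβ hdeg,
      fun hle => DegLe_mono (Nat.cast_nonneg _) hle (main_deg hD hf x α h2 S p hp h)⟩⟩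

end Pool.Agent.H.MP_31a675_nt.Y
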