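import Pool.Agent.H.MP_31a675_nt.Y.Defs
import Pool.Agent.H.MP_31a675_nt.Seq

/-!
# Sequences with a rate of growth; a choice of parameters
-/

namespace Pool.Agent.H.MP_31a675_nt.Y

open Filter Topology

/-- Two-sided bounds up to a linear factor give the limit of the roots. -/
theorem Rate_lim (α : ℕ) (hα : 1 ≤ α) (H : ℕ → ℝ) (δ B : ℝ) (hδ : 0 < δ) (hB : 0 < B) (n₁ : ℕ)
    (h1 : ∀ n, n₁ ≤ n → δ * (α : ℝ) ^ n ≤ H n)
    (h2 : ∀ n, H n ≤ B * ((n : ℝ) + 1) * (α : ℝ) ^ n) :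
    Tendsto (fun n : ℕ => H n ^ ((1 : ℝ) / n)) atTop (𝓝 (α : ℝ)) := by
  have hα' : (1 : ℝ) ≤ α := by exact_mod_cast hα
  have hval : ∀ (c : ℝ) (n : ℕ), 0 ≤ c → 1 ≤ n →
      (c * (α : ℝ) ^ n) ^ ((1 : ℝ) / n) = c ^ ((1 : ℝ) / n) * (α : ℝ) := by
    intro c n hc hn
    have hn0 : (n : ℝ) ≠ 0 := by
      have : n ≠ 0 := by omega
      exact_mod_cast this
    rw [Real.mul_rpow hc (by positivity), ← Real.rpow_natCast (α : ℝ) n,
      ← Real.rpow_mul (by positivity), mul_one_div_cancel hn0, Real.rpow_one]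
  have hc : ∀ c : ℝ, 0 < c →
      Tendsto (fun n : ℕ => c ^ ((1 : ℝ) / n)) atTop (𝓝 1) := by
    intro c hc
    have h3 : Tendsto (fun n : ℕ => c ^ ((1 : ℝ) / n)) atTop (𝓝 (c ^ (0 : ℝ))) :=
      tendsto_const_nhds.rpow tendsto_one_div_atTop_nhds_zero_nat (Or.inl hc.ne')
    rwa [Real.rpow_zero] at h3
  have hlow : Tendsto (fun n : ℕ => δ ^ ((1 : ℝ) / n) * (α : ℝ)) atTop (𝓝 (α : ℝ)) := by
    have h4 := (hc δ hδ).mul_const (α : ℝ)
    rwa [one_mul] at h4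
  have hlin : Tendsto (fun n : ℕ => ((n : ℝ)) ^ ((1 : ℝ) / n)) atTop (𝓝 1) :=
    tendsto_rpow_div.comp tendsto_natCast_atTop_atTop
  have hup : Tendsto (fun n : ℕ => (2 * B) ^ ((1 : ℝ) / n) * (n : ℝ) ^ ((1 : ℝ) / n) * (α : ℝ))
      atTop (𝓝 (α : ℝ)) := by
    have h4 := ((hc (2 * B) (by positivity)).mul hlin).mul_const (α : ℝ)
    rwa [one_mul, one_mul] at h4
  refine tendsto_of_tendsto_of_tendsto_of_le_of_le' hlow hup ?_ ?_
  · filter_upwards [eventually_ge_atTop n₁, eventually_ge_atTop 1] with n hn hn1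
    rw [← hval δ n hδ.le hn1]
    exact Real.rpow_le_rpow (by positivity) (h1 n hn) (by positivity)
  · filter_upwards [eventually_ge_atTop n₁, eventually_ge_atTop 1] with n hn hn1
    have hn1' : (1 : ℝ) ≤ n := by exact_mod_cast hn1
    have h5 : (2 * B) ^ ((1 : ℝ) / n) * (n : ℝ) ^ ((1 : ℝ) / n) * (α : ℝ) =
        (2 * B * n * (α : ℝ) ^ n) ^ ((1 : ℝ) / n) := by
      rw [hval (2 * B * n) n (by positivity) hn1,
        Real.mul_rpow (x := 2 * B) (y := (n : ℝ)) (by positivity) (by positivity)]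
    rw [h5]
    refine Real.rpow_le_rpow ?_ ?_ (by positivity)
    · exact le_trans (by positivity) (h1 n hn)
    · refine (h2 n).trans ?_
      refine mul_le_mul_of_nonneg_right ?_ (by positivity)
      nlinarith

/-- Fast sequences. -/
theorem rate_fast (a : ℕ → ℝ) (d : ℕ) (hd : 2 ≤ d) (C c : ℝ) (hc : 0 < c) (n₀ : ℕ)
    (h1 : ∀ n, a (n + 1) ≤ d * a n + C) (h2 : ∀ n, n₀ ≤ n → c * (d : ℝ) ^ n ≤ a n) :
    Tendsto (fun n : ℕ => (max (a n) 1) ^ ((1 : ℝ) / n)) atTop (𝓝 (d : ℝ)) := by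
  have hl : 0 < Real.log 2 := Real.log_pos one_lt_two
  obtain ⟨B, hB, h3⟩ := seq_upper d hd a (|C| / Real.log 2) (by positivity) (by
    intro n
    refine (h1 n).trans ?_
    have h4 : |C| / Real.log 2 * Real.log 2 ≤ |C| / Real.log 2 * Real.log ((n : ℝ) + 2) :=
      mul_le_mul_of_nonneg_left (Seq_pos n) (by positivity)
    rw [div_mul_cancel₀ _ hl.ne'] at h4
    have h5 := le_abs_self C
    linarith)
  exact root_lim d hd a c B hc n₀ h2 h3

/-- A single sequence: the upper bound. -/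
theorem Rate_up (a : ℕ → ℝ) (D : ℕ) (C : ℝ) (n₀ : ℕ) (h0 : ∀ n, 0 ≤ a n) (hD : 1 ≤ D)
    (h2 : ∀ n, n₀ ≤ n → a (n + 1) ≤ D * a n + C) :
    ∃ B : ℝ, 0 < B ∧ ∀ n, a n ≤ B * ((n : ℝ) + 1) * (D : ℝ) ^ n := by
  have hD' : (1 : ℝ) ≤ D := by exact_mod_cast hD
  have hs : ∀ n, n ≤ n₀ → a n ≤ ∑ m ∈ Finset.range (n₀ + 1), a m := fun n hn =>
    Finset.single_le_sum (f := a) (fun m _ => h0 m) (Finset.mem_range.2 (by omega))
  have hs0 : 0 ≤ ∑ m ∈ Finset.range (n₀ + 1), a m := Finset.sum_nonneg fun m _ => h0 m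
  refine ⟨∑ m ∈ Finset.range (n₀ + 1), a m + |C| + 1, by positivity, fun n => ?_⟩
  have hp : ∀ k : ℕ, (1 : ℝ) ≤ (D : ℝ) ^ k := fun k => one_le_pow₀ hD'
  have hB : 0 ≤ ∑ m ∈ Finset.range (n₀ + 1), a m + |C| + 1 := by positivity
  have hsmall : ∀ k : ℕ, (∑ m ∈ Finset.range (n₀ + 1), a m) ≤
      (∑ m ∈ Finset.range (n₀ + 1), a m + |C| + 1) * ((k : ℝ) + 1) * (D : ℝ) ^ k := by
    intro k
    have h3 : (1 : ℝ) ≤ ((k : ℝ) + 1) * (D : ℝ) ^ k := by
      have h4 : (1 : ℝ) ≤ (k : ℝ) + 1 := by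
        have := Nat.cast_nonneg (α := ℝ) k
        linarith
      nlinarith [hp k]
    have h5 := mul_le_mul_of_nonneg_left h3 hB
    have h6 := abs_nonneg C
    nlinarith
  induction n with
  | zero => exact (hs 0 (by omega)).trans (hsmall 0)
  | succ n ih =>
    by_cases hn : n₀ ≤ n
    · have h3 := h2 n hn
      have h4 := mul_le_mul_of_nonneg_left ih (by linarith : (0 : ℝ) ≤ D)
      have h5 : C ≤ (∑ m ∈ Finset.range (n₀ + 1), a m + |C| + 1) * (D : ℝ) ^ (n + 1) := by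
        have h6 := mul_le_mul_of_nonneg_left (hp (n + 1)) hB
        have h7 := le_abs_self C
        nlinarith
      push_cast
      rw [pow_succ] at h5 ⊢
      nlinarith
    · exact (hs (n + 1) (by omega)).trans (hsmall (n + 1))

/-- A single sequence: the lower bound. -/
theorem Rate_low (a : ℕ → ℝ) (D : ℕ) (C : ℝ) (n₀ : ℕ) (hD : 2 ≤ D)
    (h1 : ∀ n, n₀ ≤ n → D * a n - C ≤ a (n + 1)) (m : ℕ) (hm : n₀ ≤ m) (ha : |C| < a m) :
    ∃ δ : ℝ, 0 < δ ∧ ∀ n, m ≤ n → δ * (D : ℝ) ^ n ≤ a n := by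
  have hD' : (2 : ℝ) ≤ D := by exact_mod_cast hD
  have hDp : (0 : ℝ) < (D : ℝ) ^ m := by positivity
  refine ⟨(a m - |C|) / (D : ℝ) ^ m, div_pos (by linarith) hDp, fun n hn => ?_⟩
  have key : (a m - |C|) / (D : ℝ) ^ m * (D : ℝ) ^ n ≤ a n - |C| := by
    induction n, hn using Nat.le_induction with
    | base =>
      rw [div_mul_cancel₀ _ hDp.ne']
    | succ n hn ih =>
      have h3 := h1 n (by omega)
      have h4 := mul_le_mul_of_nonneg_left ih (by linarith : (0 : ℝ) ≤ D)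
      have h5 := le_abs_self C
      have h6 := abs_nonneg C
      rw [pow_succ]
      nlinarith
  have h6 := abs_nonneg C
  linarith

/-- Sums of sequences which are multiplied by `D i` in each step, up to a constant. -/
theorem rate_sum {ι : Type} [Fintype ι] (a : ι → ℕ → ℝ) (D : ι → ℕ) (C : ℝ) (n₀ : ℕ)
    (h0 : ∀ i n, 0 ≤ a i n) (hD : ∀ i, 1 ≤ D i)
    (h1 : ∀ i n, n₀ ≤ n → D i * a i n - C ≤ a i (n + 1))
    (h2 : ∀ i n, n₀ ≤ n → a i (n + 1) ≤ D i * a i n + C) :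
    ∃ α : ℕ, (α = 1 ∨ ∃ i, α = D i) ∧
      Tendsto (fun n : ℕ => (max (∑ i, a i n) 1) ^ ((1 : ℝ) / n)) atTop (𝓝 (α : ℝ)) := by
  classical
  -- the rate of a single sequence
  have hone : ∀ i, ∃ β : ℕ, 1 ≤ β ∧ (β = 1 ∨ β = D i) ∧
      (∃ B : ℝ, 0 < B ∧ ∀ n, a i n ≤ B * ((n : ℝ) + 1) * (β : ℝ) ^ n) ∧
      (β = 1 ∨ ∃ δ : ℝ, 0 < δ ∧ ∃ m, ∀ n, m ≤ n → δ * (β : ℝ) ^ n ≤ a i n) := by
    intro i
    by_cases hDi : 2 ≤ D i
    · by_cases hf : ∃ m, n₀ ≤ m ∧ |C| < a i m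
      · obtain ⟨m, hm, ha⟩ := hf
        obtain ⟨δ, hδ, h3⟩ := Rate_low (a i) (D i) C n₀ hDi (h1 i) m hm ha
        exact ⟨D i, hD i, Or.inr rfl, Rate_up (a i) (D i) C n₀ (h0 i) (hD i) (h2 i),
          Or.inr ⟨δ, hδ, m, h3⟩⟩
      · push Not at hf
        refine ⟨1, le_refl _, Or.inl rfl, ?_, Or.inl rfl⟩
        exact Rate_up (a i) 1 (|C|) n₀ (h0 i) (le_refl _) (by
          intro n hn
          have h3 := hf (n + 1) (by omega)
          have h4 := h0 i n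
          rw [Nat.cast_one, one_mul]
          linarith)
    · have h3 : D i = 1 := by
        have := hD i
        omega
      refine ⟨1, le_refl _, Or.inl rfl, ?_, Or.inl rfl⟩
      have h4 := Rate_up (a i) (D i) C n₀ (h0 i) (hD i) (h2 i)
      rwa [h3] at h4
  choose β hβ1 hβ2 hβ3 hβ4 using hone
  choose B hB0 hB using hβ3
  -- the largest rate
  obtain ⟨α, hα1, hα2, hα3, hα4⟩ : ∃ α : ℕ, 1 ≤ α ∧ (α = 1 ∨ ∃ i, α = D i) ∧
      (∀ i, β i ≤ α) ∧ (α = 1 ∨ ∃ i, ∃ δ : ℝ, 0 < δ ∧ ∃ m, ∀ n, m ≤ n →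
        δ * (α : ℝ) ^ n ≤ a i n) := by
    by_cases hι : Nonempty ι
    · obtain ⟨i, -, hi⟩ := Finset.exists_max_image (Finset.univ : Finset ι) β
        ⟨hι.some, Finset.mem_univ _⟩
      refine ⟨β i, hβ1 i, ?_, fun j => hi j (Finset.mem_univ j), ?_⟩
      · rcases hβ2 i with h | h
        · exact Or.inl h
        · exact Or.inr ⟨i, h⟩
      · rcases hβ4 i with h | h
        · exact Or.inl h
        · exact Or.inr ⟨i, h⟩
    · exact ⟨1, le_refl _, Or.inl rfl, fun i => (hι ⟨i⟩).elim, Or.inl rfl⟩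
  refine ⟨α, hα2, ?_⟩
  have hα' : (1 : ℝ) ≤ α := by exact_mod_cast hα1
  have hup : ∀ n, max (∑ i, a i n) 1 ≤ (∑ i, B i + 1) * ((n : ℝ) + 1) * (α : ℝ) ^ n := by
    intro n
    have hn : (0 : ℝ) ≤ n := Nat.cast_nonneg n
    have hp : (1 : ℝ) ≤ (α : ℝ) ^ n := one_le_pow₀ hα'
    have hq : (1 : ℝ) ≤ ((n : ℝ) + 1) * (α : ℝ) ^ n := by nlinarith
    have hS : ∑ i, a i n ≤ (∑ i, B i) * (((n : ℝ) + 1) * (α : ℝ) ^ n) := by
      rw [Finset.sum_mul]
      refine Finset.sum_le_sum fun i _ => ?_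
      refine (hB i n).trans ?_
      rw [mul_assoc]
      refine mul_le_mul_of_nonneg_left ?_ (hB0 i).le
      refine mul_le_mul_of_nonneg_left ?_ (by positivity)
      exact pow_le_pow_left₀ (by positivity) (by exact_mod_cast hα3 i) n
    have hSB : 0 ≤ ∑ i, B i := Finset.sum_nonneg fun i _ => (hB0 i).le
    have h5 : (∑ i, B i + 1) * ((n : ℝ) + 1) * (α : ℝ) ^ n =
        (∑ i, B i) * (((n : ℝ) + 1) * (α : ℝ) ^ n) + ((n : ℝ) + 1) * (α : ℝ) ^ n := by ring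
    rw [h5]
    have h6 : 0 ≤ (∑ i, B i) * (((n : ℝ) + 1) * (α : ℝ) ^ n) :=
      mul_nonneg hSB (by linarith)
    refine max_le ?_ ?_
    · linarith
    · linarith
  have hSB : 0 ≤ ∑ i, B i := Finset.sum_nonneg fun i _ => (hB0 i).le
  rcases hα4 with h | ⟨i, δ, hδ, m, h⟩
  · refine Rate_lim α hα1 _ 1 (∑ i, B i + 1) one_pos (by linarith) 0 ?_ hup
    intro n _
    rw [h, Nat.cast_one, one_pow, one_mul]
    exact le_max_right _ _
  · refine Rate_lim α hα1 _ δ (∑ i, B i + 1) hδ (by linarith) m ?_ hup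
    intro n hn
    refine (h n hn).trans ?_
    exact (Finset.single_le_sum (f := fun i => a i n) (fun j _ => h0 j n)
      (Finset.mem_univ i)).trans (le_max_left _ _)

/-- The choice of the parameters: `T = e ^ L`, `q = s (L + 1) e ^ L + 1` with `L` large. -/
theorem num (e d r m s : ℕ) (he : 1 ≤ e) (hed : e < d) :
    ∃ L T q : ℕ, r * q ^ m < T ^ m * d ^ L ∧ s * (T + ∑ l ∈ Finset.range L, e ^ l) < q := by
  have hd : (1 : ℝ) < d := by
    have : 1 < d := by omega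
    exact_mod_cast this
  have h1 : Tendsto (fun n : ℕ => (n : ℝ) ^ m / (d : ℝ) ^ n) atTop (𝓝 0) :=
    tendsto_pow_const_div_const_pow_of_one_lt m hd
  have h2 := h1.const_mul ((r : ℝ) * (2 * s + 1) ^ m)
  rw [mul_zero] at h2
  obtain ⟨L, hL, hL1⟩ := ((h2.eventually (gt_mem_nhds one_pos)).and (eventually_ge_atTop 1)).exists
  have hdL : (0 : ℝ) < (d : ℝ) ^ L := by positivity
  rw [← mul_div_assoc, div_lt_one hdL] at hL
  have hL' : r * (2 * s + 1) ^ m * L ^ m < d ^ L := by exact_mod_cast hL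
  have heL : 1 ≤ e ^ L := Nat.one_le_pow _ _ he
  refine ⟨L, e ^ L, s * (L + 1) * e ^ L + 1, ?_, ?_⟩
  · have h3 : s * (L + 1) * e ^ L + 1 ≤ (2 * s + 1) * L * e ^ L := by
      have h4 : s * (L + 1) + 1 ≤ (2 * s + 1) * L := by nlinarith
      calc s * (L + 1) * e ^ L + 1 ≤ s * (L + 1) * e ^ L + e ^ L := by omega
        _ = (s * (L + 1) + 1) * e ^ L := by ring
        _ ≤ (2 * s + 1) * L * e ^ L := Nat.mul_le_mul_right _ h4
    calc r * (s * (L + 1) * e ^ L + 1) ^ m ≤ r * ((2 * s + 1) * L * e ^ L) ^ m :=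
          Nat.mul_le_mul_left _ (Nat.pow_le_pow_left h3 m)
      _ = (e ^ L) ^ m * (r * (2 * s + 1) ^ m * L ^ m) := by
          rw [mul_pow, mul_pow]
          ring
      _ < (e ^ L) ^ m * d ^ L := Nat.mul_lt_mul_of_pos_left hL' (by positivity)
  · have h5 : ∑ l ∈ Finset.range L, e ^ l ≤ L * e ^ L := by
      calc ∑ l ∈ Finset.range L, e ^ l ≤ ∑ l ∈ Finset.range L, e ^ L :=
            Finset.sum_le_sum fun l hl =>
              Nat.pow_le_pow_right he (by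
                have := Finset.mem_range.1 hl
                omega)
        _ = L * e ^ L := by simp
    calc s * (e ^ L + ∑ l ∈ Finset.range L, e ^ l) ≤ s * (e ^ L + L * e ^ L) :=
          Nat.mul_le_mul_left _ (by omega)
      _ = s * (L + 1) * e ^ L := by ring
      _ < s * (L + 1) * e ^ L + 1 := by omega

end Pool.Agent.H.MP_31a675_nt.Y
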