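import Pool.Agent.H.MP_31a675_nt.Y.Defs

/-!
# The ultrapower with its valuation subring of bounded germs
-/

namespace Pool.Agent.H.MP_31a675_nt.Y

open Filter

variable {K : Type} [Field K]

/-- The subring of the sequences which are eventually bounded. -/
def Ult_bd (v : AbsoluteValue K ℝ) (𝔘 : Ultrafilter ℕ) : Subring (ℕ → K) where
  carrier := {a | ∃ C : ℝ, ∀ᶠ n in (𝔘 : Filter ℕ), v (a n) ≤ C}
  mul_mem' := by
    rintro a b ⟨C, hC⟩ ⟨D, hD⟩
    refine ⟨C * D, ?_⟩
    filter_upwards [hC, hD] with n h1 h2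
    rw [Pi.mul_apply, map_mul]
    exact mul_le_mul h1 h2 (v.nonneg _) ((v.nonneg _).trans h1)
  one_mem' := ⟨1, Eventually.of_forall fun n => by simp⟩
  add_mem' := by
    rintro a b ⟨C, hC⟩ ⟨D, hD⟩
    refine ⟨C + D, ?_⟩
    filter_upwards [hC, hD] with n h1 h2
    exact (v.add_le _ _).trans (add_le_add h1 h2)
  zero_mem' := ⟨0, Eventually.of_forall fun n => by simp⟩
  neg_mem' := by
    rintro a ⟨C, hC⟩
    refine ⟨C, ?_⟩
    filter_upwards [hC] with n h1
    rwa [Pi.neg_apply, v.map_neg]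

/-- The ideal, in the image of the eventually bounded sequences, of the images of the sequences
which tend to zero. -/
def Ult_id {M : Type} [Field M] (v : AbsoluteValue K ℝ) (𝔘 : Ultrafilter ℕ)
    (φ : (ℕ → K) →+* M) : Ideal ((Ult_bd v 𝔘).map φ) where
  carrier := {x | ∃ a : ℕ → K, φ a = (x : M) ∧
    ∀ ε : ℝ, 0 < ε → ∀ᶠ n in (𝔘 : Filter ℕ), v (a n) ≤ ε}
  add_mem' := by
    rintro x y ⟨a, ha, ha'⟩ ⟨b, hb, hb'⟩
    refine ⟨a + b, by rw [map_add, ha, hb]; rfl, fun ε hε => ?_⟩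
    filter_upwards [ha' (ε / 2) (by positivity), hb' (ε / 2) (by positivity)] with n h1 h2
    calc v ((a + b) n) ≤ v (a n) + v (b n) := v.add_le _ _
      _ ≤ ε / 2 + ε / 2 := add_le_add h1 h2
      _ = ε := by ring
  zero_mem' := ⟨0, by simp, fun ε hε => Eventually.of_forall fun n => by simpa using hε.le⟩
  smul_mem' := by
    rintro ⟨c, hc⟩ x ⟨a, ha, ha'⟩
    obtain ⟨b, ⟨C, hC⟩, rfl⟩ := Subring.mem_map.1 hc
    refine ⟨b * a, by rw [map_mul, ha]; rfl, fun ε hε => ?_⟩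
    have hp : 0 < |C| + 1 := by positivity
    filter_upwards [hC, ha' (ε / (|C| + 1)) (by positivity)] with n h1 h2
    calc v ((b * a) n) = v (b n) * v (a n) := by rw [Pi.mul_apply, map_mul]
      _ ≤ (|C| + 1) * (ε / (|C| + 1)) := by
          refine mul_le_mul ?_ h2 (v.nonneg _) hp.le
          have := le_abs_self C
          linarith
      _ = ε := by field_simp

/-- `M` is an algebraic closure of the field of germs `(𝔘 : Filter ℕ).Germ K`, and `B` a valuation
subring of `M` which contains the germs of bounded sequences and whose maximal ideal contains the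
germs of the sequences which tend to zero (`Ideal.image_subset_nonunits_valuationSubring`). If a germ
is not bounded, its inverse tends to zero. -/
theorem ultra (v : AbsoluteValue K ℝ) (𝔘 : Ultrafilter ℕ) :
    ∃ (M : Type) (_ : Field M) (_ : IsAlgClosed M) (_ : Algebra K M) (B : ValuationSubring M)
      (φ : (ℕ → K) →+* M), (∀ c : K, φ (fun _ => c) = algebraMap K M c) ∧
      (∀ a : ℕ → K, φ a ∈ B ↔ ∃ C : ℝ, ∀ᶠ n in (𝔘 : Filter ℕ), v (a n) ≤ C) ∧
      (∀ a : ℕ → K, φ a = 0 ↔ ∀ᶠ n in (𝔘 : Filter ℕ), a n = 0) := by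
  let F := (𝔘 : Filter ℕ).Germ K
  let M := AlgebraicClosure F
  let φ : (ℕ → K) →+* M := (algebraMap F M).comp (Filter.Germ.coeRingHom (𝔘 : Filter ℕ))
  have hz : ∀ a : ℕ → K, φ a = 0 ↔ ∀ᶠ n in (𝔘 : Filter ℕ), a n = 0 := by
    intro a
    have h1 : φ a = algebraMap F M ((a : ℕ → K) : F) := rfl
    rw [h1, map_eq_zero_iff _ (algebraMap F M).injective]
    exact Filter.Germ.coe_eq
  have hne : Ult_id v 𝔘 φ ≠ ⊤ := by
    intro h
    have h1 : (1 : (Ult_bd v 𝔘).map φ) ∈ Ult_id v 𝔘 φ := by rw [h]; trivial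
    obtain ⟨a, ha, ha'⟩ := h1
    have h2 : φ (a - 1) = 0 := by rw [map_sub, ha, map_one]; simp
    have h3 := (hz _).1 h2
    have h4 := ha' (1 / 2) (by norm_num)
    obtain ⟨n, h5, h6⟩ := (h3.and h4).exists
    have h7 : a n = 1 := by
      have : a n - 1 = 0 := h5
      exact sub_eq_zero.1 this
    rw [h7, map_one] at h6
    norm_num at h6
  obtain ⟨B, hB1, hB2⟩ := Ideal.image_subset_nonunits_valuationSubring (Ult_id v 𝔘 φ) hne
  refine ⟨M, inferInstance, inferInstance, (φ.comp (Pi.constRingHom ℕ K)).toAlgebra, B, φ,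
    fun c => rfl, fun a => ⟨fun h => ?_, fun h => ?_⟩, hz⟩
  · by_contra hcon
    have hlarge : ∀ C : ℝ, ∀ᶠ n in (𝔘 : Filter ℕ), C < v (a n) := by
      intro C
      have h1 : ¬ ∀ᶠ n in (𝔘 : Filter ℕ), v (a n) ≤ C := fun h => hcon ⟨C, h⟩
      have h2 := Ultrafilter.eventually_not.2 h1
      filter_upwards [h2] with n hn
      exact not_le.1 hn
    let b : ℕ → K := fun n => (a n)⁻¹
    have hb0 : ∀ ε : ℝ, 0 < ε → ∀ᶠ n in (𝔘 : Filter ℕ), v (b n) ≤ ε := by
      intro ε hε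
      filter_upwards [hlarge ε⁻¹] with n hn
      have h1 : v (b n) = (v (a n))⁻¹ := map_inv₀ v (a n)
      rw [h1]
      exact inv_le_of_inv_le₀ hε hn.le
    have hbB : b ∈ Ult_bd v 𝔘 := ⟨1, hb0 1 one_pos⟩
    have hbm : φ b ∈ (Ult_bd v 𝔘).map φ := Subring.mem_map.2 ⟨b, hbB, rfl⟩
    have hbI : (⟨φ b, hbm⟩ : (Ult_bd v 𝔘).map φ) ∈ Ult_id v 𝔘 φ := ⟨b, rfl, hb0⟩
    have hnu : φ b ∈ B.nonunits := hB2 ⟨⟨φ b, hbm⟩, hbI, rfl⟩
    have hab : φ a * φ b = 1 := by
      have h1 : φ (a * b - 1) = 0 := by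
        rw [hz]
        filter_upwards [hlarge 0] with n hn
        have h2 : a n ≠ 0 := fun h => by rw [h, map_zero] at hn; exact lt_irrefl _ hn
        show a n * (a n)⁻¹ - 1 = 0
        rw [mul_inv_cancel₀ h2, sub_self]
      rw [map_sub, map_mul, map_one] at h1
      exact sub_eq_zero.1 h1
    have hva : B.valuation (φ a) ≤ 1 := (B.valuation_le_one_iff _).2 h
    have hvb : B.valuation (φ b) < 1 := B.mem_nonunits_iff.1 hnu
    have h3 : B.valuation (φ a) * B.valuation (φ b) = 1 := by rw [← map_mul, hab, map_one]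
    have h4 : B.valuation (φ a) * B.valuation (φ b) < 1 := by
      calc B.valuation (φ a) * B.valuation (φ b) ≤ 1 * B.valuation (φ b) := by
            exact mul_le_mul_left hva _
        _ < 1 := by rwa [one_mul]
    exact absurd h3 h4.ne
  · exact hB1 (Subring.mem_map.2 ⟨a, h, rfl⟩)

end Pool.Agent.H.MP_31a675_nt.Y
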