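import Pool.Agent.H.MP_31a675_nt.Y.Core
import Pool.Agent.H.MP_31a675_nt.Y.Ult

/-!
# Small values of the combinations along slow orbits
-/

namespace Pool.Agent.H.MP_31a675_nt.Y

open MvPolynomial Filter

variable {K : Type} [Field K] {N : ℕ}

/-- Polynomials commute with the germ map. -/
theorem SlowB_aeval {M : Type} [Field M] [Algebra K M] (φ : (ℕ → K) →+* M)
    (hφ : ∀ c : K, φ (fun _ => c) = algebraMap K M c) (g : ℕ → Fin N → K)
    (P : MvPolynomial (Fin N) K) :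
    φ (fun n => eval (g n) P) = aeval (fun i => φ fun n => g n i) P := by
  induction P using MvPolynomial.induction_on with
  | C c =>
    simp only [eval_C, aeval_C]
    exact hφ c
  | add p q hp hq =>
    have h : (fun n => eval (g n) (p + q)) = (fun n => eval (g n) p) + fun n => eval (g n) q := by
      funext n
      simp
    rw [h, map_add, hp, hq, map_add]
  | mul_X p i hp =>
    have h : (fun n => eval (g n) (p * X i)) = (fun n => eval (g n) p) * fun n => g n i := by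
      funext n
      simp
    rw [h, map_mul, hp, map_mul, aeval_X]

theorem SlowB_congr {M : Type} [Field M] (𝔘 : Ultrafilter ℕ) (φ : (ℕ → K) →+* M)
    (h0 : ∀ a : ℕ → K, φ a = 0 ↔ ∀ᶠ n in (𝔘 : Filter ℕ), a n = 0) {a b : ℕ → K}
    (h : ∀ᶠ n in (𝔘 : Filter ℕ), a n = b n) : φ a = φ b := by
  rw [← sub_eq_zero, ← map_sub, h0]
  filter_upwards [h] with n hn
  rw [Pi.sub_apply, hn, sub_self]

/-- Division of germs. -/
theorem SlowB_div {M : Type} [Field M] (𝔘 : Ultrafilter ℕ) (φ : (ℕ → K) →+* M)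
    (h0 : ∀ a : ℕ → K, φ a = 0 ↔ ∀ᶠ n in (𝔘 : Filter ℕ), a n = 0) (a b : ℕ → K)
    (hb : φ b ≠ 0) : φ (fun n => a n / b n) = φ a / φ b := by
  have h1 : ∀ᶠ n in (𝔘 : Filter ℕ), b n ≠ 0 := by
    have h2 : ¬ ∀ᶠ n in (𝔘 : Filter ℕ), b n = 0 := fun h => hb ((h0 b).2 h)
    exact Ultrafilter.eventually_not.2 h2
  rw [eq_div_iff hb, ← map_mul]
  refine SlowB_congr 𝔘 φ h0 ?_
  filter_upwards [h1] with n hn
  rw [Pi.mul_apply, div_mul_cancel₀ _ hn]

/-- Comparison of valuations of germs. -/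
theorem SlowB_val (v : AbsoluteValue K ℝ) (𝔘 : Ultrafilter ℕ) {M : Type} [Field M]
    (B : ValuationSubring M) (φ : (ℕ → K) →+* M)
    (hB : ∀ a : ℕ → K, φ a ∈ B ↔ ∃ C : ℝ, ∀ᶠ n in (𝔘 : Filter ℕ), v (a n) ≤ C)
    (h0 : ∀ a : ℕ → K, φ a = 0 ↔ ∀ᶠ n in (𝔘 : Filter ℕ), a n = 0) (a b : ℕ → K) (R : ℝ)
    (h : ∀ᶠ n in (𝔘 : Filter ℕ), v (a n) ≤ R * v (b n)) :
    B.valuation (φ a) ≤ B.valuation (φ b) := by
  by_cases hb : φ b = 0
  · have h1 := (h0 b).1 hb
    have h2 : φ a = 0 := by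
      rw [h0]
      filter_upwards [h, h1] with n hn hn1
      rw [hn1, map_zero, mul_zero] at hn
      exact (v.eq_zero).1 (le_antisymm hn (v.nonneg _))
    rw [h2, hb]
  · have h1 : φ (fun n => a n / b n) ∈ B := by
      rw [hB]
      refine ⟨|R|, ?_⟩
      filter_upwards [h] with n hn
      by_cases hbn : b n = 0
      · rw [hbn, div_zero, map_zero]
        exact abs_nonneg R
      · have h2 : 0 < v (b n) := v.pos hbn
        rw [map_div₀, div_le_iff₀ h2]
        exact hn.trans (mul_le_mul_of_nonneg_right (le_abs_self R) h2.le)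
    rw [SlowB_div 𝔘 φ h0 a b hb] at h1
    have h2 : φ a = φ a / φ b * φ b := (div_mul_cancel₀ _ hb).symm
    rw [h2, map_mul]
    calc B.valuation (φ a / φ b) * B.valuation (φ b) ≤ 1 * B.valuation (φ b) :=
          mul_le_mul_left ((B.valuation_le_one_iff _).2 h1) _
      _ = B.valuation (φ b) := one_mul _

/-- The converse. -/
theorem SlowB_bd (v : AbsoluteValue K ℝ) (𝔘 : Ultrafilter ℕ) {M : Type} [Field M]
    (B : ValuationSubring M) (φ : (ℕ → K) →+* M)
    (hB : ∀ a : ℕ → K, φ a ∈ B ↔ ∃ C : ℝ, ∀ᶠ n in (𝔘 : Filter ℕ), v (a n) ≤ C)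
    (h0 : ∀ a : ℕ → K, φ a = 0 ↔ ∀ᶠ n in (𝔘 : Filter ℕ), a n = 0) (a b : ℕ → K)
    (hb : φ b ≠ 0) (h : B.valuation (φ a) ≤ B.valuation (φ b)) :
    ∃ C : ℝ, 1 ≤ C ∧ ∀ᶠ n in (𝔘 : Filter ℕ), v (a n) ≤ C * v (b n) := by
  have h1 : φ (fun n => a n / b n) ∈ B := by
    rw [SlowB_div 𝔘 φ h0 a b hb, ← B.valuation_le_one_iff, map_div₀]
    exact div_le_one_of_le₀ h zero_le
  obtain ⟨C, hC⟩ := (hB _).1 h1
  have h3 : ∀ᶠ n in (𝔘 : Filter ℕ), b n ≠ 0 :=
    Ultrafilter.eventually_not.2 fun h => hb ((h0 b).2 h)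
  refine ⟨max C 1, le_max_right _ _, ?_⟩
  filter_upwards [hC, h3] with n hn hbn
  have h2 : 0 < v (b n) := v.pos hbn
  rw [map_div₀, div_le_iff₀ h2] at hn
  exact hn.trans (mul_le_mul_of_nonneg_right (le_max_left _ _) h2.le)

theorem SlowB_orb_succ (f : Fin N → MvPolynomial (Fin N) K) (x : Fin N → K) (n : ℕ) (i : Fin N) :
    orb f x (n + 1) i = eval (orb f x n) (f i) := by
  unfold orb
  rw [Function.iterate_succ_apply']
  rfl

/-- The norms tend to infinity. -/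
theorem SlowB_inf {D : Fin N → ℕ} {d : ℕ} (hD : Degs D d)
    {f : Fin N → MvPolynomial (Fin N) K} (v : AbsoluteValue K ℝ) (x : Fin N → K)
    (j : Fin N) (C : ℝ) (n₀ : ℕ)
    (h1 : ∀ n, n₀ ≤ n → D j * Real.log (nrm v (orb f x n)) - C ≤
        Real.log (nrm v (orb f x (n + 1))))
    (𝔘 : Ultrafilter ℕ)
    (hU : Tendsto (fun n => Real.log (nrm v (orb f x (n + 1)))) (𝔘 : Filter ℕ) atTop)
    (hn : Tendsto (fun n : ℕ => n) (𝔘 : Filter ℕ) atTop) (l : ℕ) :
    Tendsto (fun n => Real.log (nrm v (orb f x (n + l + 1)))) (𝔘 : Filter ℕ) atTop := by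
  induction l with
  | zero => exact hU
  | succ l ih =>
    refine tendsto_atTop_mono' (𝔘 : Filter ℕ) ?_ (tendsto_atTop_add_const_right _ (-C) ih)
    filter_upwards [hn.eventually_ge_atTop n₀] with n hn0
    have h2 := h1 (n + l + 1) (by omega)
    have h3 : 0 ≤ Real.log (nrm v (orb f x (n + l + 1))) :=
      Real.log_nonneg (one_le_nrm v _)
    have h4 : (1 : ℝ) ≤ D j := by exact_mod_cast hD.pos j
    have h5 : n + (l + 1) + 1 = n + l + 1 + 1 := by omega
    rw [h5]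
    nlinarith

/-- The orbit as an orbit over the ultrapower: `x l i = φ (fun n => orb f x (n + l) i)` satisfies
`Orb`. -/
theorem ultra_orb {D : Fin N → ℕ} {d : ℕ} (hD : Degs D d)
    {f : Fin N → MvPolynomial (Fin N) K} (hf : Gen D d f) (v : AbsoluteValue K ℝ) (x : Fin N → K)
    (j : Fin N) (hj : D j < d) (C R : ℝ) (n₀ : ℕ)
    (h1 : ∀ n, n₀ ≤ n → D j * Real.log (nrm v (orb f x n)) - C ≤
        Real.log (nrm v (orb f x (n + 1))))
    (h2 : ∀ n, Real.log (nrm v (orb f x (n + 1))) ≤ D j * Real.log (nrm v (orb f x n)) + C)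
    (h3 : ∀ n i, j < i → v (orb f x n i) ≤ R ∨
      ∃ i', i' ≤ j ∧ v (orb f x n i) ≤ R * v (orb f x n i'))
    (𝔘 : Ultrafilter ℕ)
    (hU : Tendsto (fun n => Real.log (nrm v (orb f x (n + 1)))) (𝔘 : Filter ℕ) atTop)
    (hn : Tendsto (fun n : ℕ => n) (𝔘 : Filter ℕ) atTop)
    {M : Type} [Field M] [Algebra K M] (B : ValuationSubring M) (φ : (ℕ → K) →+* M)
    (hφ : ∀ c : K, φ (fun _ => c) = algebraMap K M c)
    (hB : ∀ a : ℕ → K, φ a ∈ B ↔ ∃ C : ℝ, ∀ᶠ n in (𝔘 : Filter ℕ), v (a n) ≤ C)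
    (h0 : ∀ a : ℕ → K, φ a = 0 ↔ ∀ᶠ n in (𝔘 : Filter ℕ), a n = 0) :
    Orb D f j B fun l i => φ fun n => orb f x (n + l) i := by
  refine ⟨?_, ?_, ?_, ?_, ?_⟩
  · intro l i
    rw [← SlowB_aeval φ hφ]
    congr 1
    funext n
    exact SlowB_orb_succ f x (n + l) i
  · intro c
    rw [← hφ, hB]
    exact ⟨v c, Eventually.of_forall fun _ => le_rfl⟩
  · by_contra hcon
    push Not at hcon
    have h4 : ∀ i, ∃ C : ℝ, ∀ᶠ n in (𝔘 : Filter ℕ), v (orb f x (n + 0) i) ≤ C := fun i =>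
      (hB _).1 (hcon i)
    choose Cb hCb using h4
    have h5 : ∀ᶠ n in (𝔘 : Filter ℕ), ∀ i, v (orb f x (n + 0) i) ≤ Cb i :=
      eventually_all.2 hCb
    obtain ⟨C1, hC1⟩ : ∃ C1 : ℝ, ∀ i, Cb i ≤ C1 := by
      obtain ⟨C1, hC1⟩ := (Set.finite_range Cb).bddAbove
      exact ⟨C1, fun i => hC1 ⟨i, rfl⟩⟩
    have h6 := hU.eventually_gt_atTop (D j * Real.log (max 1 C1) + C)
    obtain ⟨n, hn5, hn6⟩ := (h5.and h6).exists
    have h7 : nrm v (orb f x n) ≤ max 1 C1 :=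
      nrm_le v _ _ (le_max_left _ _) fun i =>
        (hn5 i).trans ((hC1 i).trans (le_max_right _ _))
    have h8 : Real.log (nrm v (orb f x n)) ≤ Real.log (max 1 C1) :=
      Real.log_le_log (lt_of_lt_of_le one_pos (one_le_nrm v _)) h7
    have h9 := h2 n
    have h10 : (D j : ℝ) * Real.log (nrm v (orb f x n)) ≤ D j * Real.log (max 1 C1) :=
      mul_le_mul_of_nonneg_left h8 (Nat.cast_nonneg _)
    linarith
  · intro l i hi
    have h4 : ∀ᶠ n in (𝔘 : Filter ℕ), v (orb f x (n + l) i) ≤ R ∨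
        ∃ i', i' ≤ j ∧ v (orb f x (n + l) i) ≤ R * v (orb f x (n + l) i') :=
      Eventually.of_forall fun n => h3 (n + l) i hi
    rcases Ultrafilter.eventually_or.1 h4 with h5 | h5
    · left
      exact (hB _).2 ⟨R, h5⟩
    · right
      obtain ⟨i', h6⟩ := Ultrafilter.eventually_exists_iff.1 h5
      obtain ⟨n, hn1, -⟩ := h6.exists
      refine ⟨i', hn1, ?_⟩
      exact SlowB_val v 𝔘 B φ hB h0 _ _ R (h6.mono fun n h => h.2)
  · intro l i
    have h4 := SlowB_inf hD v x j C n₀ h1 𝔘 hU hn l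
    have h5 : ∀ᶠ n in (𝔘 : Filter ℕ), ∃ i',
        nrm v (orb f x (n + l + 1)) ≤ v (orb f x (n + l + 1) i') := by
      filter_upwards [h4.eventually_gt_atTop 0] with n hn0
      by_contra hcon
      push Not at hcon
      have h6 : 1 < nrm v (orb f x (n + l + 1)) := by
        by_contra h7
        have h8 : nrm v (orb f x (n + l + 1)) = 1 := le_antisymm (not_lt.1 h7) (one_le_nrm v _)
        rw [h8, Real.log_one] at hn0
        exact lt_irrefl _ hn0
      obtain ⟨c, hc⟩ := exists_eq_ciSup_of_finite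
        (f := fun i => v ((Fin.cons 1 (orb f x (n + l + 1)) : Fin (N + 1) → K) i))
      have h9 : nrm v (orb f x (n + l + 1)) =
          v ((Fin.cons 1 (orb f x (n + l + 1)) : Fin (N + 1) → K) c) := hc.symm
      induction c using Fin.cases with
      | zero =>
        rw [Fin.cons_zero, map_one] at h9
        rw [h9] at h6
        exact lt_irrefl _ h6
      | succ c =>
        rw [Fin.cons_succ] at h9
        exact absurd h9 (hcon c).ne'
    obtain ⟨i', h6⟩ := Ultrafilter.eventually_exists_iff.1 h5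
    refine ⟨i', ?_⟩
    rw [← map_pow, ← map_pow]
    refine SlowB_val v 𝔘 B φ hB h0 _ _ (Real.exp C) ?_
    filter_upwards [h6, hn.eventually_ge_atTop n₀] with n hn6 hn0
    have h7 := h1 (n + l) (by omega)
    have h8 : 0 < nrm v (orb f x (n + l)) := lt_of_lt_of_le one_pos (one_le_nrm v _)
    have h9 : 0 < nrm v (orb f x (n + l + 1)) := lt_of_lt_of_le one_pos (one_le_nrm v _)
    have h10 : nrm v (orb f x (n + l)) ^ D j ≤ Real.exp C * nrm v (orb f x (n + l + 1)) := by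
      rw [← Real.log_le_log_iff (pow_pos h8 _) (mul_pos (Real.exp_pos _) h9),
        Real.log_mul (Real.exp_pos _).ne' h9.ne', Real.log_exp, Real.log_pow]
      linarith
    rw [Pi.pow_apply, map_pow]
    calc v (orb f x (n + l) i) ^ D j ≤ nrm v (orb f x (n + l)) ^ D j :=
          pow_le_pow_left₀ (v.nonneg _) (le_nrm v _ i) _
      _ ≤ Real.exp C * nrm v (orb f x (n + l + 1)) := h10
      _ ≤ Real.exp C * v (orb f x (n + (l + 1)) i') :=
          mul_le_mul_of_nonneg_left hn6 (Real.exp_pos _).le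

/-- The small values: for an absolute value `v` at which the orbit is of type `j`, and an ultrafilter
along which the norm tends to infinity. From `ultra`, `ultra_orb`, `core`. Along `𝔘` the norm of the
point `orb f x (n + 1)` is at most a constant times the absolute value of its coordinate `j`
(`orb_val`). -/
theorem small_values {D : Fin N → ℕ} {d : ℕ} (hD : Degs D d)
    {f : Fin N → MvPolynomial (Fin N) K} (hf : Gen D d f) (v : AbsoluteValue K ℝ) (x : Fin N → K)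
    (j : Fin N) (hj : D j < d) (C R : ℝ) (n₀ : ℕ)
    (h1 : ∀ n, n₀ ≤ n → D j * Real.log (nrm v (orb f x n)) - C ≤
        Real.log (nrm v (orb f x (n + 1))))
    (h2 : ∀ n, Real.log (nrm v (orb f x (n + 1))) ≤ D j * Real.log (nrm v (orb f x n)) + C)
    (h3 : ∀ n i, j < i → v (orb f x n i) ≤ R ∨
      ∃ i', i' ≤ j ∧ v (orb f x n i) ≤ R * v (orb f x n i'))
    (𝔘 : Ultrafilter ℕ)
    (hU : Tendsto (fun n => Real.log (nrm v (orb f x (n + 1)))) (𝔘 : Filter ℕ) atTop)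
    (hn : Tendsto (fun n : ℕ => n) (𝔘 : Filter ℕ) atTop) (c : ℕ → Fin N) :
    ∃ r : ℕ, ∀ q T L : ℕ,
      r * q ^ Fintype.card {i : Fin N // i ≤ j} <
        T ^ Fintype.card {i : Fin N // i ≤ j} * d ^ L →
      ∃ a : ({i : Fin N // i ≤ j} → Fin T) × (Fin L → Fin d) → K, a ≠ 0 ∧
        ∃ C' : ℝ, ∀ᶠ n in (𝔘 : Filter ℕ), eval (orb f x (n + 1)) (PP f j c a) ≠ 0 →
          D j * Real.log (v (eval (orb f x (n + 1)) (PP f j c a))) ≤
            C' - ((q : ℝ) - D j * EE D j T L d) * Real.log (nrm v (orb f x (n + 1))) := by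
  obtain ⟨M, _, _, _, B, φ, hφ, hB, h0⟩ := ultra v 𝔘
  have hO := ultra_orb hD hf v x j hj C R n₀ h1 h2 h3 𝔘 hU hn B φ hφ hB h0
  obtain ⟨r, hr⟩ := core hD hf hj hO
  have hval := (orb_val hD hf hj hO).1 0
  obtain ⟨hv1, hv2, -, -⟩ := hval
  set o : ℕ → K := fun n => orb f x (n + 1) j with ho
  have hne : φ o ≠ 0 := by
    intro h
    have h4 : (1 : B.ValueGroup) < B.valuation (φ o) := hv1
    rw [h, map_zero] at h4
    exact not_lt_zero h4
  -- the norm is comparable to the coordinate `j`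
  have hc1 : ∀ i : Fin N, ∃ C1 : ℝ, 1 ≤ C1 ∧ ∀ᶠ n in (𝔘 : Filter ℕ),
      v (orb f x (n + 1) i) ≤ C1 * v (o n) := fun i =>
    SlowB_bd v 𝔘 B φ hB h0 (fun n => orb f x (n + 1) i) o hne (hv2 i)
  have hc2 : ∃ C1 : ℝ, 1 ≤ C1 ∧ ∀ᶠ n in (𝔘 : Filter ℕ), v ((1 : ℕ → K) n) ≤ C1 * v (o n) := by
    refine SlowB_bd v 𝔘 B φ hB h0 1 o hne ?_
    rw [map_one, map_one]
    exact hv1.le
  choose Ci hCi1 hCi2 using hc1
  obtain ⟨C2, hC21, hC22⟩ := hc2
  obtain ⟨C3, hC3⟩ : ∃ C3 : ℝ, ∀ i, Ci i ≤ C3 := by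
    obtain ⟨C3, hC3⟩ := (Set.finite_range Ci).bddAbove
    exact ⟨C3, fun i => hC3 ⟨i, rfl⟩⟩
  have hne' : ∀ᶠ n in (𝔘 : Filter ℕ), o n ≠ 0 :=
    Ultrafilter.eventually_not.2 fun h => hne ((h0 o).2 h)
  have hcomp : ∀ᶠ n in (𝔘 : Filter ℕ),
      nrm v (orb f x (n + 1)) ≤ max C2 C3 * v (o n) := by
    filter_upwards [eventually_all.2 hCi2, hC22, hne'] with n hn1 hn2 hn3
    have hpos : 0 < v (o n) := v.pos hn3
    refine nrm_le v _ _ ?_ fun i => ?_
    · rw [Pi.one_apply, map_one] at hn2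
      exact hn2.trans (mul_le_mul_of_nonneg_right (le_max_left _ _) hpos.le)
    · exact (hn1 i).trans (mul_le_mul_of_nonneg_right ((hC3 i).trans (le_max_right _ _)) hpos.le)
  refine ⟨r, fun q T L hqTL => ?_⟩
  obtain ⟨a, ha, hmem⟩ := hr q T L c hqTL
  refine ⟨a, ha, ?_⟩
  set P := PP f j c a with hP
  set E := D j * EE D j T L d with hE
  have hPv : aeval (fun i => φ fun n => orb f x (n + 1) i) P =
      φ fun n => eval (orb f x (n + 1)) P := (SlowB_aeval φ hφ (fun n => orb f x (n + 1)) P).symm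
  have hmem' : φ (fun n => ((fun n => eval (orb f x (n + 1)) P) ^ D j * o ^ q : ℕ → K) n /
      (o ^ E : ℕ → K) n) ∈ B := by
    have h4 : φ (o ^ E) ≠ 0 := by
      rw [map_pow]
      exact pow_ne_zero _ hne
    rw [SlowB_div 𝔘 φ h0 _ _ h4, map_mul, map_pow, map_pow, map_pow]
    have h5 : (aeval (fun i => φ fun n => orb f x (n + 1) i) P) ^ D j * φ o ^ q / φ o ^ E ∈ B :=
      hmem
    rw [hPv] at h5
    exact h5
  obtain ⟨C4, hC4⟩ := (hB _).1 hmem'
  refine ⟨Real.log (max C4 1) + |(q : ℝ) - E| * Real.log (max C2 C3), ?_⟩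
  filter_upwards [hC4, hcomp, hne'] with n hn4 hn5 hn3 hPn
  have hpos : 0 < v (o n) := v.pos hn3
  have hPpos : 0 < v (eval (orb f x (n + 1)) P) := v.pos hPn
  have hM : 1 ≤ max C2 C3 := le_max_of_le_left hC21
  have hrpos : 0 < nrm v (orb f x (n + 1)) := lt_of_lt_of_le one_pos (one_le_nrm v _)
  have h4 : v (eval (orb f x (n + 1)) P) ^ D j * v (o n) ^ q / v (o n) ^ E ≤ max C4 1 := by
    have h5 := hn4.trans (le_max_left C4 1)
    simp only [Pi.mul_apply, Pi.pow_apply, map_div₀, map_mul, map_pow] at h5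
    exact h5
  have h5 : 0 < v (eval (orb f x (n + 1)) P) ^ D j * v (o n) ^ q / v (o n) ^ E :=
    div_pos (mul_pos (pow_pos hPpos _) (pow_pos hpos _)) (pow_pos hpos _)
  have h6 := Real.log_le_log h5 h4
  rw [Real.log_div (mul_pos (pow_pos hPpos _) (pow_pos hpos _)).ne' (pow_pos hpos _).ne',
    Real.log_mul (pow_pos hPpos _).ne' (pow_pos hpos _).ne', Real.log_pow, Real.log_pow,
    Real.log_pow] at h6
  have h7 : Real.log (v (o n)) ≤ Real.log (nrm v (orb f x (n + 1))) :=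
    Real.log_le_log hpos (le_nrm v _ j)
  have h8 : Real.log (nrm v (orb f x (n + 1))) ≤
      Real.log (max C2 C3) + Real.log (v (o n)) := by
    rw [← Real.log_mul (lt_of_lt_of_le one_pos hM).ne' hpos.ne']
    exact Real.log_le_log hrpos hn5
  have h9 : (E : ℝ) = D j * EE D j T L d := by
    rw [hE]
    push_cast
    rfl
  rw [← h9]
  have h10 : ((q : ℝ) - E) * (Real.log (nrm v (orb f x (n + 1))) - Real.log (v (o n))) ≤
      |(q : ℝ) - E| * Real.log (max C2 C3) := by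
    refine (mul_le_mul_of_nonneg_right (le_abs_self _) (by linarith)).trans ?_
    exact mul_le_mul_of_nonneg_left (by linarith) (abs_nonneg _)
  nlinarith

end Pool.Agent.H.MP_31a675_nt.Y
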