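import Pool.Agent.H.MP_31a675_nt.Y.SlowA
import Pool.Agent.H.MP_31a675_nt.Y.SlowB
import Pool.Agent.H.MP_31a675_nt.Y.Ind
import Pool.Agent.H.MP_31a675_nt.Y.Rate

/-!
# Dense orbits are fast at some place
-/

namespace Pool.Agent.H.MP_31a675_nt.Y

open MvPolynomial Filter

variable {K : Type} [Field K] {N : ℕ}

theorem Slow_nonneg (v : AbsoluteValue K ℝ) (x : Fin N → K) : 0 ≤ Real.log (nrm v x) :=
  Real.log_nonneg (one_le_nrm v x)

/-- The growth along the orbit. -/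
theorem Slow_iter (h : ℕ → ℝ) (e C : ℝ) (he : 0 ≤ e) (h1 : ∀ n, h (n + 1) ≤ e * h n + C) (l : ℕ) :
    ∃ C' : ℝ, ∀ n, h (n + l) ≤ e ^ l * h n + C' := by
  induction l with
  | zero => exact ⟨0, fun n => by simp⟩
  | succ l ih =>
    obtain ⟨C', hC'⟩ := ih
    refine ⟨e * C' + C, fun n => ?_⟩
    have h2 := h1 (n + l)
    have h3 := mul_le_mul_of_nonneg_left (hC' n) he
    calc h (n + (l + 1)) = h (n + l + 1) := by rw [add_assoc]
      _ ≤ e * h (n + l) + C := h2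
      _ ≤ e * (e ^ l * h n + C') + C := by linarith
      _ = e ^ (l + 1) * h n + (e * C' + C) := by ring

/-- Finite pigeonhole principle for an ultrafilter. -/
theorem Slow_pigeon {ι : Type} [Finite ι] (𝔘 : Ultrafilter ℕ) (p : ι → ℕ → Prop)
    (h : ∀ᶠ n in (𝔘 : Filter ℕ), ∃ i, p i n) : ∃ i, ∀ᶠ n in (𝔘 : Filter ℕ), p i n := by
  by_contra hc
  rw [not_exists] at hc
  have h1 : ∀ i, ∀ᶠ n in (𝔘 : Filter ℕ), ¬ p i n := fun i => Ultrafilter.eventually_not.2 (hc i)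
  have h2 : ∀ᶠ n in (𝔘 : Filter ℕ), ∀ i, ¬ p i n := eventually_all.2 h1
  obtain ⟨n, hn, hn'⟩ := (h.and h2).exists
  obtain ⟨i, hi⟩ := hn
  exact hn' i hi

/-- The final inequality. -/
theorem Slow_arith {q Λ H D C₁ C' E p₀ p₁ κ kk T S d cu ci X : ℝ} (hD : 0 ≤ D) (hκ : 0 < κ)
    (hkk : 0 ≤ kk) (hT : 0 ≤ T) (hS : 0 ≤ S) (hd : 0 ≤ d) (hq : 0 ≤ q) (hH : 0 ≤ H) (hΛ : 0 ≤ Λ)
    (hΛH : Λ ≤ H) (hHΛ : H ≤ κ * Λ) (g1 : D * p₀ ≤ C' - (q - D * E) * Λ) (g2 : -C₁ ≤ p₀ + p₁)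
    (g3 : p₁ ≤ cu + kk * T * H + d * X) (g5 : X ≤ S * H + ci) (g6 : E ≤ kk * T + d * S)
    (g7 : κ * D * (2 * (kk + d)) * (T + S) + 1 ≤ q) :
    H ≤ κ * (D * C₁ + C' + D * (cu + d * ci)) := by
  have m2 := mul_le_mul_of_nonneg_left g2 hD
  have k1 : q * Λ ≤ D * C₁ + C' + D * E * Λ + D * p₁ := by linarith only [m2, g1]
  have m3 := mul_le_mul_of_nonneg_left g3 hD
  have m5 := mul_le_mul_of_nonneg_left (mul_le_mul_of_nonneg_left g5 hd) hD
  have k2 : D * p₁ ≤ D * (cu + kk * T * H + d * (S * H + ci)) := by linarith only [m3, m5]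
  have m6 := mul_le_mul_of_nonneg_left g6 hD
  have hkT : 0 ≤ kk * T + d * S := add_nonneg (mul_nonneg hkk hT) (mul_nonneg hd hS)
  have k3 : D * E * Λ ≤ D * (kk * T + d * S) * H :=
    mul_le_mul m6 hΛH hΛ (mul_nonneg hD hkT)
  have k4 : q * Λ ≤ (D * C₁ + C' + D * (cu + d * ci)) + D * (2 * (kk * T + d * S)) * H := by
    linarith only [k1, k2, k3]
  have k6 : q * H ≤ q * (κ * Λ) := mul_le_mul_of_nonneg_left hHΛ hq
  have k7 := mul_le_mul_of_nonneg_left k4 hκ.le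
  have k5 : q * H ≤ κ * (D * C₁ + C' + D * (cu + d * ci)) +
      κ * (D * (2 * (kk * T + d * S))) * H := by linarith only [k6, k7]
  have e1 := mul_nonneg hkk hS
  have e2 := mul_nonneg hd hT
  have k9 : kk * T + d * S ≤ (kk + d) * (T + S) := by linarith only [e1, e2]
  have k10 : κ * D * 2 * (kk * T + d * S) ≤ κ * D * 2 * ((kk + d) * (T + S)) :=
    mul_le_mul_of_nonneg_left k9 (mul_nonneg (mul_nonneg hκ.le hD) zero_le_two)
  have k8 : κ * (D * (2 * (kk * T + d * S))) + 1 ≤ q := by linarith only [g7, k10]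
  have k11 := mul_le_mul_of_nonneg_right k8 hH
  linarith only [k5, k11]

/-- A dense orbit is fast at some place. -/
theorem dense_fast [NumberField K] {D : Fin N → ℕ} {d : ℕ} (hD : Degs D d)
    {f : Fin N → MvPolynomial (Fin N) K} (hf : Gen D d f) (x : Fin N → K) (h : DenseOrbit f x)
    {ι : Type} [Fintype ι] (v : ι → AbsoluteValue K ℝ)
    (hv : ∀ n, ht (orb f x n) = ∑ i, Real.log (nrm (v i) (orb f x n)))
    (hP : ∀ P : MvPolynomial (Fin N) K, ∃ C : ℝ, ∀ n, eval (orb f x n) P ≠ 0 →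
        -C ≤ ∑ i, Real.log (v i (eval (orb f x n) P))) :
    ∃ (i : ι) (c : ℝ), 0 < c ∧ ∃ n₀ : ℕ, ∀ n, n₀ ≤ n →
      c * (d : ℝ) ^ n ≤ Real.log (nrm (v i) (orb f x n)) := by
  classical
  by_contra hcon
  push Not at hcon
  obtain ⟨ilow, hlow⟩ := hD.low
  have hN : 1 ≤ N := by
    have := ilow.2
    omega
  have hd2 : 1 ≤ d - 1 := by
    have := hD.pos ilow
    omega
  have hed : d - 1 < d := by omega
  -- the types at the places
  have hplace : ∀ i, ∃ (j : Fin N) (C R : ℝ) (n₀ : ℕ), D j < d ∧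
      (∀ n, n₀ ≤ n → D j * Real.log (nrm (v i) (orb f x n)) - C ≤
        Real.log (nrm (v i) (orb f x (n + 1)))) ∧
      (∀ n, Real.log (nrm (v i) (orb f x (n + 1))) ≤
        D j * Real.log (nrm (v i) (orb f x n)) + C) ∧
      ∀ n i₁, j < i₁ → v i (orb f x n i₁) ≤ R ∨
        ∃ i', i' ≤ j ∧ v i (orb f x n i₁) ≤ R * v i (orb f x n i') := by
    intro i
    rcases place hD hf (v i) x with ⟨c, hc, n₀, h1⟩ | h1
    · exfalso
      obtain ⟨n, hn, hn'⟩ := hcon i c hc n₀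
      exact absurd (h1 n hn) (not_le.2 hn')
    · exact h1
  choose jj CC RR nn hjj h1 h2 h3 using hplace
  set lam : ι → ℕ → ℝ := fun i n => Real.log (nrm (v i) (orb f x n)) with hlam
  have hlam0 : ∀ i n, 0 ≤ lam i n := fun i n => Slow_nonneg _ _
  set H : ℕ → ℝ := fun n => ht (orb f x n) with hH
  have hHs : ∀ n, H n = ∑ i, lam i n := hv
  have hH0 : ∀ n, 0 ≤ H n := fun n => by
    rw [hHs]
    exact Finset.sum_nonneg fun i _ => hlam0 i n
  have hlamH : ∀ i n, lam i n ≤ H n := fun i n => by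
    rw [hHs]
    exact Finset.single_le_sum (f := fun i => lam i n) (fun i _ => hlam0 i n) (Finset.mem_univ i)
  set e : ℕ := d - 1 with he
  have hDe : ∀ i, (D (jj i) : ℝ) ≤ (e : ℝ) := fun i => by
    have := hjj i
    exact_mod_cast (by omega : D (jj i) ≤ e)
  have hstep : ∀ n, H (n + 1) ≤ e * H n + ∑ i, |CC i| := by
    intro n
    rw [hHs, hHs, Finset.mul_sum, ← Finset.sum_add_distrib]
    refine Finset.sum_le_sum fun i _ => ?_
    have h4 := h2 i n
    have h5 := mul_le_mul_of_nonneg_right (hDe i) (hlam0 i n)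
    have h6 := le_abs_self (CC i)
    show lam i (n + 1) ≤ _
    have h7 : lam i (n + 1) ≤ D (jj i) * lam i n + CC i := h4
    linarith
  -- the ultrafilter
  obtain ⟨𝔘, hU1, hU2, hU3⟩ := exists_generic hN h
  have hι : Nonempty ι := by
    by_contra hne
    rw [not_nonempty_iff] at hne
    have h4 : ∀ n, H n = 0 := fun n => by rw [hHs, Finset.univ_eq_empty, Finset.sum_empty]
    have h5 := (hU2.eventually (eventually_ge_atTop (1 : ℝ))).exists
    obtain ⟨n, hn⟩ := h5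
    have h6 : H (n + 1) = 0 := h4 _
    have h7 : (1 : ℝ) ≤ H (n + 1) := hn
    linarith
  set κ : ℕ := Fintype.card ι with hκ
  have hκ0 : 0 < κ := Fintype.card_pos
  have hpig : ∀ᶠ n in (𝔘 : Filter ℕ), ∃ i, H (n + 1) ≤ κ * lam i (n + 1) := by
    refine Eventually.of_forall fun n => ?_
    by_contra hc
    push Not at hc
    have h4 : ∑ i, (κ : ℝ) * lam i (n + 1) < ∑ _i : ι, H (n + 1) :=
      Finset.sum_lt_sum_of_nonempty Finset.univ_nonempty fun i _ => hc i
    rw [← Finset.mul_sum, ← hHs, Finset.sum_const, Finset.card_univ, nsmul_eq_mul] at h4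
    exact lt_irrefl _ h4
  obtain ⟨i₀, hi₀⟩ := Slow_pigeon 𝔘 _ hpig
  set j := jj i₀ with hj
  have hκR : (0 : ℝ) < κ := by exact_mod_cast hκ0
  have hlamU : Tendsto (fun n => lam i₀ (n + 1)) (𝔘 : Filter ℕ) atTop := by
    have h4 : Tendsto (fun n => H (n + 1) / κ) (𝔘 : Filter ℕ) atTop := hU2.atTop_div_const hκR
    refine tendsto_atTop_mono' _ ?_ h4
    filter_upwards [hi₀] with n hn
    rw [div_le_iff₀ hκR]
    linarith
  obtain ⟨c, hc⟩ := PP_ne hD hf
  obtain ⟨r, hr⟩ := small_values hD hf (v i₀) x j (hjj i₀) (CC i₀) (RR i₀) (nn i₀) (h1 i₀) (h2 i₀)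
    (h3 i₀) 𝔘 hlamU hU3 c
  set kk : ℕ := Fintype.card {i : Fin N // i ≤ j} with hkk
  obtain ⟨L, T, q, hq1, hq2⟩ := num e d r kk (κ * D j * (2 * (kk + d))) hd2 hed
  obtain ⟨a, ha, C', hC'⟩ := hr q T L hq1
  set P := PP f j c a with hPdef
  have hPne : P ≠ 0 := hc j (hjj i₀) a ha
  obtain ⟨C₁, hC₁⟩ := hP P
  choose Cu hCu using fun i => PP_upper (v i) f x j c a
  choose Ci hCi using fun l => Slow_iter H e (∑ i, |CC i|) (Nat.cast_nonneg _) hstep l
  -- the contradiction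
  set S : ℝ := ∑ l ∈ Finset.range L, (e : ℝ) ^ l with hS
  have hS0 : 0 ≤ S := Finset.sum_nonneg fun l _ => by positivity
  set C₂ : ℝ := D j * C₁ + C' + D j * (∑ i, |Cu i| + d * ∑ l ∈ Finset.range L, Ci l) with hC₂
  have hbound : ∀ᶠ n in (𝔘 : Filter ℕ), H (n + 1) ≤ κ * C₂ := by
    filter_upwards [hi₀, hC', hU1 P hPne] with n hn1 hn2 hn3
    have g1 := hn2 hn3
    have g2 := hC₁ (n + 1) hn3
    have hDj0 : (0 : ℝ) ≤ D j := Nat.cast_nonneg _
    -- the other places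
    have g3 : ∑ i ∈ Finset.univ.erase i₀, Real.log (v i (eval (orb f x (n + 1)) P)) ≤
        ∑ i, |Cu i| + kk * T * H (n + 1) + d * ∑ l ∈ Finset.range L, H (n + 1 + l) := by
      have g4 : ∀ i, Real.log (v i (eval (orb f x (n + 1)) P)) ≤ |Cu i| +
          kk * T * lam i (n + 1) + d * ∑ l ∈ Finset.range L, lam i (n + 1 + l) := fun i =>
        (hCu i (n + 1) hn3).trans (by
          have := le_abs_self (Cu i)
          show Cu i + kk * T * lam i (n + 1) + d * ∑ l ∈ Finset.range L, lam i (n + 1 + l) ≤ _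
          linarith)
      calc ∑ i ∈ Finset.univ.erase i₀, Real.log (v i (eval (orb f x (n + 1)) P))
          ≤ ∑ i ∈ Finset.univ.erase i₀, (|Cu i| +
          kk * T * lam i (n + 1) + d * ∑ l ∈ Finset.range L, lam i (n + 1 + l)) :=
            Finset.sum_le_sum fun i _ => g4 i
        _ ≤ ∑ i, (|Cu i| + kk * T * lam i (n + 1) +
            d * ∑ l ∈ Finset.range L, lam i (n + 1 + l)) := by
            refine Finset.sum_le_sum_of_subset_of_nonneg (Finset.erase_subset _ _) fun i _ _ => ?_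
            have := hlam0 i (n + 1)
            have h8 : 0 ≤ ∑ l ∈ Finset.range L, lam i (n + 1 + l) :=
              Finset.sum_nonneg fun l _ => hlam0 _ _
            positivity
        _ = _ := by
            rw [Finset.sum_add_distrib, Finset.sum_add_distrib, ← Finset.mul_sum, ← Finset.mul_sum,
              ← hHs, Finset.sum_comm]
            simp only [← hHs]
    rw [← Finset.add_sum_erase _ _ (Finset.mem_univ i₀)] at g2
    have g5 : ∑ l ∈ Finset.range L, H (n + 1 + l) ≤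
        S * H (n + 1) + ∑ l ∈ Finset.range L, Ci l := by
      rw [hS, Finset.sum_mul, ← Finset.sum_add_distrib]
      exact Finset.sum_le_sum fun l _ => hCi l (n + 1)
    have g6 : (EE D j T L d : ℝ) ≤ kk * T + d * S := by
      unfold EE
      push_cast
      have : ∑ l ∈ Finset.range L, (D j : ℝ) ^ l ≤ S :=
        Finset.sum_le_sum fun l _ => pow_le_pow_left₀ hDj0 (hDe i₀) l
      have h9 : (d : ℝ) * ∑ l ∈ Finset.range L, (D j : ℝ) ^ l ≤ d * S :=
        mul_le_mul_of_nonneg_left this (Nat.cast_nonneg _)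
      linarith
    have g7 : (κ : ℝ) * D j * (2 * (kk + d)) * (T + S) + 1 ≤ q := by
      have g8 := (Nat.cast_le (α := ℝ)).2 (Nat.succ_le_of_lt hq2)
      push_cast at g8
      exact g8
    have hLam := hlamH i₀ (n + 1)
    have hLam0 := hlam0 i₀ (n + 1)
    have hHn := hH0 (n + 1)
    exact Slow_arith hDj0 hκR (Nat.cast_nonneg _) (Nat.cast_nonneg _) hS0 (Nat.cast_nonneg _)
      (Nat.cast_nonneg _) hHn hLam0 hLam hn1 g1 g2 g3 g5 g6 g7
  have h10 := (hbound.and (hU2.eventually (eventually_gt_atTop (κ * C₂)))).exists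
  obtain ⟨n, hn, hn'⟩ := h10
  exact absurd hn (not_le.2 hn')

end Pool.Agent.H.MP_31a675_nt.Y
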